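import Pool.Agent.T2h77U.Stm

/-! CLO: closure of a finite family of polynomials (helper60). -/

set_option linter.all false

namespace Pool.Agent.T2h77U

open Polynomial

namespace CLO

variable {A : Type} [CommRing A] [IsDomain A]

/-- pseudo-division -/
lemma pdiv (h : A[X]) (hh : h ≠ 0) (f : A[X]) : ∃ (N : ℕ) (Q r : A[X]),
    C h.leadingCoeff ^ N * f = Q * h + r ∧ r.degree < h.degree := by
  induction f using (Polynomial.degree_lt_wf (R := A)).induction with
  | _ f ih =>
    by_cases hd : f.degree < h.degree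
    · exact ⟨0, 0, f, by ring, hd⟩
    · rw [not_lt] at hd
      have hf : f ≠ 0 := by
        rintro rfl
        rw [degree_zero, le_bot_iff, degree_eq_bot] at hd
        exact hh hd
      have hlc : h.leadingCoeff ≠ 0 := leadingCoeff_ne_zero.2 hh
      have hlf : f.leadingCoeff ≠ 0 := leadingCoeff_ne_zero.2 hf
      have hnd : h.natDegree ≤ f.natDegree := natDegree_le_natDegree hd
      have e1 : (C h.leadingCoeff * f).degree = f.degree := degree_C_mul hlc
      have e2 : (C f.leadingCoeff * X ^ (f.natDegree - h.natDegree) * h).degree = f.degree := by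
        rw [degree_mul, degree_C_mul_X_pow _ hlf, degree_eq_natDegree hh, degree_eq_natDegree hf,
          ← Nat.cast_add, Nat.sub_add_cancel hnd]
      have e3 : (C h.leadingCoeff * f - C f.leadingCoeff * X ^ (f.natDegree - h.natDegree) * h).degree
          < f.degree := by
        have h4 := degree_sub_lt (e1.trans e2.symm) (mul_ne_zero (C_ne_zero.2 hlc) hf) (by
          rw [leadingCoeff_mul, leadingCoeff_mul, leadingCoeff_mul, leadingCoeff_C, leadingCoeff_C,
            leadingCoeff_X_pow]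
          ring)
        rwa [e1] at h4
      obtain ⟨N, Q, r, h1, h2⟩ := ih _ e3
      refine ⟨N + 1, Q + C h.leadingCoeff ^ N * (C f.leadingCoeff *
        X ^ (f.natDegree - h.natDegree)), r, ?_, h2⟩
      linear_combination h1

open Classical in
/-- the pseudo-remainder -/
noncomputable def prem (f h : A[X]) : A[X] :=
  if hh : h ≠ 0 then (pdiv h hh f).choose_spec.choose_spec.choose else 0

lemma prem_spec {f h : A[X]} (hh : h ≠ 0) : ∃ (N : ℕ) (Q : A[X]),
    C h.leadingCoeff ^ N * f = Q * h + prem f h ∧ (prem f h).degree < h.degree := by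
  unfold prem
  rw [dif_pos hh]
  exact ⟨_, _, (pdiv h hh f).choose_spec.choose_spec.choose_spec⟩

/-- the operation used -/
noncomputable def rm (f h : A[X]) : A[X] := by
  classical
  exact if h.natDegree ≤ f.natDegree then prem f h else 0

lemma rm_lt {f h : A[X]} (h0 : rm f h ≠ 0) :
    (rm f h).natDegree < f.natDegree ∧ (rm f h).natDegree < h.natDegree := by
  unfold rm at h0 ⊢
  by_cases h1 : h.natDegree ≤ f.natDegree
  · rw [if_pos h1] at h0 ⊢
    have hh : h ≠ 0 := by
      rintro rfl
      apply h0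
      unfold prem
      simp
    obtain ⟨N, Q, h2, h3⟩ := prem_spec (f := f) hh
    have h4 := natDegree_lt_natDegree h0 h3
    exact ⟨h4.trans_le h1, h4⟩
  · rw [if_neg h1] at h0
    exact absurd rfl h0

/-- the closure -/
inductive Clo (G : Finset A[X]) : A[X] → Prop
  | base (f : A[X]) : f ∈ G → Clo G f
  | x : Clo G X
  | zero : Clo G 0
  | hd (f : A[X]) (j : ℕ) : Clo G f → Clo G (hasseDeriv j f)
  | el (f : A[X]) : Clo G f → Clo G f.eraseLead
  | rem (f h : A[X]) : Clo G f → Clo G h → Clo G (rm f h)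

lemma hd_lt {f : A[X]} {j : ℕ} (hj : j ≠ 0) (h0 : hasseDeriv j f ≠ 0) :
    (hasseDeriv j f).natDegree < f.natDegree ∧ j ≤ f.natDegree := by
  have h1 : j ≤ f.natDegree := by
    by_contra h
    rw [not_le] at h
    exact h0 (hasseDeriv_eq_zero_of_lt_natDegree _ _ h)
  have h2 := natDegree_hasseDeriv_le f j
  exact ⟨by omega, h1⟩

lemma el_lt {f : A[X]} (h0 : f.eraseLead ≠ 0) : f.eraseLead.natDegree < f.natDegree := by
  have h2 : f.natDegree ≠ 0 := by
    intro h
    apply h0
    rw [eq_C_of_natDegree_eq_zero h, eraseLead_C]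
  have h1 := eraseLead_natDegree_le f
  omega

lemma clo_deg {G : Finset A[X]} {D : ℕ} (hD : 1 < D) (hG : ∀ g ∈ G, g.natDegree < D) {f : A[X]}
    (hf : Clo G f) : f.natDegree < D := by
  induction hf with
  | base f h => exact hG f h
  | x => exact (natDegree_X_le).trans_lt hD
  | zero => rw [natDegree_zero]; omega
  | hd f j _ ih => exact ((natDegree_hasseDeriv_le f j).trans (Nat.sub_le _ _)).trans_lt ih
  | el f _ ih => exact ((eraseLead_natDegree_le f).trans (Nat.sub_le _ _)).trans_lt ih
  | rem f h _ _ ihf ihh =>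
    by_cases h0 : rm f h = 0
    · rw [h0, natDegree_zero]
      omega
    · exact (rm_lt h0).1.trans ihf

lemma clo_fin {G : Finset A[X]} {D : ℕ} (hD : 1 < D) (hG : ∀ g ∈ G, g.natDegree < D) (d : ℕ) :
    {f : A[X] | Clo G f ∧ D ≤ f.natDegree + d}.Finite := by
  classical
  induction d with
  | zero =>
    convert Set.finite_empty (α := A[X])
    rw [Set.eq_empty_iff_forall_notMem]
    rintro f ⟨h1, h2⟩
    have := clo_deg hD hG h1
    omega
  | succ d ih =>
    obtain ⟨S, hS⟩ : ∃ S : Set A[X], S = {f : A[X] | Clo G f ∧ D ≤ f.natDegree + d} := ⟨_, rfl⟩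
    rw [← hS] at ih
    have hfin : ((G : Set A[X]) ∪ {X, 0} ∪ (⋃ f ∈ S, (fun j => hasseDeriv j f) ''
        Set.Iic f.natDegree) ∪ eraseLead '' S ∪ Set.image2 rm S S).Finite := by
      refine ((((G.finite_toSet).union (Set.toFinite _)).union ?_).union (ih.image _)).union
        (ih.image2 _ ih)
      exact ih.biUnion fun f _ => (Set.finite_Iic _).image _
    refine hfin.subset ?_
    rintro g ⟨hg, hgd⟩
    induction hg with
    | base f h => exact Or.inl (Or.inl (Or.inl (Or.inl h)))
    | x => exact Or.inl (Or.inl (Or.inl (Or.inr (Or.inl rfl))))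
    | zero => exact Or.inl (Or.inl (Or.inl (Or.inr (Or.inr rfl))))
    | hd f j hf ihf =>
      by_cases hj : j = 0
      · subst hj
        rw [hasseDeriv_zero'] at hgd ⊢
        exact ihf hgd
      · by_cases h0 : hasseDeriv j f = 0
        · rw [h0]
          exact Or.inl (Or.inl (Or.inl (Or.inr (Or.inr rfl))))
        · have h1 := hd_lt hj h0
          refine Or.inl (Or.inl (Or.inr ?_))
          rw [Set.mem_iUnion₂]
          refine ⟨f, ?_, ⟨j, h1.2, rfl⟩⟩
          rw [hS]
          exact ⟨hf, by omega⟩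
    | el f hf ihf =>
      by_cases h0 : f.eraseLead = 0
      · rw [h0]
        exact Or.inl (Or.inl (Or.inl (Or.inr (Or.inr rfl))))
      · have h1 := el_lt h0
        refine Or.inl (Or.inr ⟨f, ?_, rfl⟩)
        rw [hS]
        exact ⟨hf, by omega⟩
    | rem f h hf hh ihf ihh =>
      by_cases h0 : rm f h = 0
      · rw [h0]
        exact Or.inl (Or.inl (Or.inl (Or.inr (Or.inr rfl))))
      · have h1 := rm_lt h0
        refine Or.inr ⟨f, ?_, h, ?_, rfl⟩
        · rw [hS]
          exact ⟨hf, by omega⟩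
        · rw [hS]
          exact ⟨hh, by omega⟩

end CLO

open CLO

theorem clo : S_CLO := by
  intro A _ _ G
  classical
  obtain ⟨D, hD, hG⟩ : ∃ D : ℕ, 1 < D ∧ ∀ g ∈ G, g.natDegree < D := by
    refine ⟨G.sup natDegree + 2, by omega, fun g hg => ?_⟩
    have := Finset.le_sup (f := natDegree) hg
    omega
  have hfin : {f : A[X] | Clo G f}.Finite := by
    refine (clo_fin hD hG D).subset fun f hf => ⟨hf, Nat.le_add_left _ _⟩
  obtain ⟨T, hT⟩ : ∃ T : Finset A[X], ∀ f, f ∈ T ↔ Clo G f := ⟨hfin.toFinset, fun f => by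
    rw [Set.Finite.mem_toFinset]
    rfl⟩
  obtain ⟨e⟩ : Nonempty (T ≃ Fin T.card) := ⟨T.equivFin⟩
  have hF : ∀ a, Clo G (e.symm a).1 := fun a => (hT _).1 (e.symm a).2
  refine ⟨T.card, fun a => (e.symm a).1,
    fun a j => e ⟨hasseDeriv j (e.symm a).1, (hT _).2 (Clo.hd _ j (hF a))⟩,
    fun a => e ⟨(e.symm a).1.eraseLead, (hT _).2 (Clo.el _ (hF a))⟩,
    fun a h => e ⟨rm (e.symm a).1 (e.symm h).1, (hT _).2 (Clo.rem _ _ (hF a) (hF h))⟩,
    e ⟨X, (hT _).2 Clo.x⟩, ?_, ?_, ?_, ?_, ?_, ?_⟩
  · intro g hg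
    exact ⟨e ⟨g, (hT _).2 (Clo.base g hg)⟩, by simp⟩
  · simp
  · intro a
    have h1 : (⟨hasseDeriv 0 (e.symm a).1, (hT _).2 (Clo.hd _ 0 (hF a))⟩ : T) = e.symm a :=
      Subtype.ext (hasseDeriv_zero' _)
    simp only
    rw [h1, Equiv.apply_symm_apply]
  · intro a j
    simp
  · intro a
    simp
  · intro a h hle hne
    obtain ⟨N, Q, h1, h2⟩ := prem_spec (f := (e.symm a).1) hne
    have h3 : rm (e.symm a).1 (e.symm h).1 = prem (e.symm a).1 (e.symm h).1 := by
      unfold rm
      rw [if_pos hle]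
    refine ⟨N, Q, ?_, ?_⟩
    · simp only [Equiv.symm_apply_apply]
      rw [h3]
      exact h1
    · simp only [Equiv.symm_apply_apply]
      rw [h3]
      exact h2

end Pool.Agent.T2h77U
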