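import Pool.Agent.T2h77U.Stm2
import Pool.Agent.H260TZ.Lim

/-! Task MOM: moments of the limit polynomial and the degree of the limit. -/

set_option autoImplicit false

namespace Pool.Agent.T2h77U

namespace Mom

open Filter Topology Polynomial
open Pool.Agent.H260TZ (uu uu_spec tend_uu tend_pow)

theorem fwd_zero {A : Type} [AddCommGroup A] (k : ℕ) :
    (fwdDiff (1 : ℕ))^[k] (0 : ℕ → A) = 0 := by
  induction k with
  | zero => rfl
  | succ k ih =>
    rw [Function.iterate_succ_apply', ih]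
    funext m
    simp [fwdDiff]

/-- a function whose `r`-th differences vanish is a polynomial of degree less than `r` -/
theorem newton (g : ℕ → ℚ) (r : ℕ) (h : ∀ m, (fwdDiff (1 : ℕ))^[r] g m = 0) :
    ∃ G : ℚ[X], (G = 0 ∨ G.natDegree < r) ∧ ∀ m : ℕ, G.eval (m : ℚ) = g m := by
  have h1 : ∀ k, r ≤ k → (fwdDiff (1 : ℕ))^[k] g 0 = 0 := by
    intro k hk
    obtain ⟨j, rfl⟩ := Nat.exists_eq_add_of_le' hk
    rw [Function.iterate_add_apply]
    have h2 : (fwdDiff (1 : ℕ))^[r] g = 0 := funext h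
    rw [h2, fwd_zero]
    rfl
  refine ⟨∑ k ∈ Finset.range r, C ((fwdDiff (1 : ℕ))^[k] g 0 / (k.factorial : ℚ)) *
    descPochhammer ℚ k, ?_, ?_⟩
  · rcases Nat.eq_zero_or_pos r with hr | hr
    · left
      rw [hr, Finset.range_zero, Finset.sum_empty]
    · right
      have h2 : (∑ k ∈ Finset.range r, C ((fwdDiff (1 : ℕ))^[k] g 0 / (k.factorial : ℚ)) *
          descPochhammer ℚ k).natDegree ≤ r - 1 := by
        refine natDegree_sum_le_of_forall_le _ _ fun k hk => ?_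
        refine (natDegree_C_mul_le _ _).trans ?_
        rw [descPochhammer_natDegree]
        rw [Finset.mem_range] at hk
        omega
      omega
  · intro m
    have h2 := shift_eq_sum_fwdDiff_iter (1 : ℕ) g m 0
    rw [zero_add, smul_eq_mul, mul_one] at h2
    rw [h2, eval_finsetSum]
    have h3 : ∀ k, (C ((fwdDiff (1 : ℕ))^[k] g 0 / (k.factorial : ℚ)) *
        descPochhammer ℚ k).eval (m : ℚ) = m.choose k • (fwdDiff (1 : ℕ))^[k] g 0 := by
      intro k
      rw [eval_mul, eval_C, nsmul_eq_mul, Nat.cast_choose_eq_descPochhammer_div ℚ m k]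
      ring
    simp only [h3]
    rcases le_total r (m + 1) with hr | hr
    · refine Finset.sum_subset (Finset.range_mono hr) fun k _ hk => ?_
      rw [h1 k (by rw [Finset.mem_range] at hk; omega), smul_zero]
    · refine (Finset.sum_subset (Finset.range_mono hr) fun k _ hk => ?_).symm
      rw [Nat.choose_eq_zero_of_lt (by rw [Finset.mem_range] at hk; omega), zero_smul]

theorem diff_exp {K : Type} [Field K] (S : Finset ℕ) (a y : ℕ → K) (k : ℕ) (m : ℕ) :
    (fwdDiff (1 : ℕ))^[k] (fun m : ℕ => ∑ n ∈ S, a n * y n ^ m) m =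
      ∑ n ∈ S, a n * (y n - 1) ^ k * y n ^ m := by
  induction k generalizing m with
  | zero => simp
  | succ k ih =>
    rw [Function.iterate_succ_apply']
    simp only [fwdDiff]
    rw [ih, ih, ← Finset.sum_sub_distrib]
    refine Finset.sum_congr rfl fun n _ => ?_
    ring

theorem diff_tendsto {K : Type} [NontriviallyNormedField K] {F : ℕ → ℕ → K} {G : ℕ → K}
    (h : ∀ m, Tendsto (fun t => F t m) atTop (𝓝 (G m))) (k m : ℕ) :
    Tendsto (fun t => (fwdDiff (1 : ℕ))^[k] (F t) m) atTop (𝓝 ((fwdDiff (1 : ℕ))^[k] G m)) := by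
  induction k generalizing m with
  | zero => exact h m
  | succ k ih =>
    simp only [Function.iterate_succ_apply', fwdDiff]
    exact (ih (m + 1)).sub (ih m)

theorem diff_cast {K : Type} [Field K] [CharZero K] (g : ℕ → ℚ) (k m : ℕ) :
    (fwdDiff (1 : ℕ))^[k] (fun m => ((g m : ℚ) : K)) m =
      (((fwdDiff (1 : ℕ))^[k] g m : ℚ) : K) := by
  induction k generalizing m with
  | zero => rfl
  | succ k ih =>
    simp only [Function.iterate_succ_apply', fwdDiff]
    rw [ih, ih]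
    push_cast
    rfl

theorem cast_prod {K : Type} [Field K] [CharZero K] (L : List (ℤ × ℕ)) (q : ℚ) (s : ℤ) :
    (((L.map (fun ab => 1 - q ^ (ab.1 - ab.2 * s))).prod : ℚ) : K) =
      (L.map (fun ab => 1 - (q : K) ^ (ab.1 - ab.2 * s))).prod := by
  induction L with
  | nil => simp
  | cons ab L ih =>
    rw [List.map_cons, List.prod_cons, List.map_cons, List.prod_cons, Rat.cast_mul, ih]
    push_cast
    rfl

theorem prod_uu {K : Type} [Field K] (L : List (ℤ × ℕ)) {u : K} (hu : u ≠ 1) (s : ℤ) :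
    (L.map (fun ab => 1 - u ^ (ab.1 - ab.2 * s))).prod =
      (1 - u⁻¹) ^ L.length * (L.map (fun ab => uu u (ab.1 - ab.2 * s))).prod := by
  induction L with
  | nil => simp
  | cons ab L ih =>
    rw [List.map_cons, List.prod_cons, List.map_cons, List.prod_cons, ih, List.length_cons,
      uu_spec hu]
    ring

theorem tend_prod {K : Type} [NontriviallyNormedField K] (L : List (ℤ × ℕ)) {u : ℕ → K}
    (hu : Tendsto u atTop (𝓝[≠] 1)) (s : ℤ) :
    Tendsto (fun t => (L.map (fun ab => uu (u t) (ab.1 - ab.2 * s))).prod) atTop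
      (𝓝 ((L.map (fun ab => ((ab.2 * s - ab.1 : ℤ) : K))).prod)) := by
  induction L with
  | nil => simp only [List.map_nil, List.prod_nil]; exact tendsto_const_nhds
  | cons ab L ih =>
    simp only [List.map_cons, List.prod_cons]
    have h1 := (tend_uu (K := K) (ab.1 - ab.2 * s)).comp hu
    have h2 : -(((ab.1 - ab.2 * s : ℤ)) : K) = ((ab.2 * s - ab.1 : ℤ) : K) := by
      push_cast; ring
    rw [h2] at h1
    exact h1.mul ih

/-- the product of the linear factors as a polynomial -/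
noncomputable def LP (L : List (ℤ × ℕ)) (s0 : ℤ) : ℚ[X] :=
  (L.map (fun ab => C ((ab.2 : ℕ) : ℚ) * X + C (((ab.2 * s0 - ab.1 : ℤ)) : ℚ))).prod

theorem LP_natDegree (L : List (ℤ × ℕ)) (s0 : ℤ) (hL : ∀ ab ∈ L, 1 ≤ ab.2) :
    LP L s0 ≠ 0 ∧ (LP L s0).natDegree = L.length := by
  induction L with
  | nil =>
    unfold LP
    simp
  | cons ab L ih =>
    obtain ⟨h1, h2⟩ := ih fun x hx => hL x (List.mem_cons_of_mem _ hx)
    have h3 : ((ab.2 : ℕ) : ℚ) ≠ 0 := by
      have := hL ab List.mem_cons_self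
      have h4 : ab.2 ≠ 0 := by omega
      exact_mod_cast h4
    have h4 : (C ((ab.2 : ℕ) : ℚ) * X + C (((ab.2 * s0 - ab.1 : ℤ)) : ℚ)).natDegree = 1 :=
      natDegree_linear h3
    have h5 : (C ((ab.2 : ℕ) : ℚ) * X + C (((ab.2 * s0 - ab.1 : ℤ)) : ℚ)) ≠ 0 := by
      intro h6
      rw [h6] at h4
      simp at h4
    have h6 : LP (ab :: L) s0 = (C ((ab.2 : ℕ) : ℚ) * X + C (((ab.2 * s0 - ab.1 : ℤ)) : ℚ)) *
        LP L s0 := by
      unfold LP
      rw [List.map_cons, List.prod_cons]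
    rw [h6]
    refine ⟨mul_ne_zero h5 h1, ?_⟩
    rw [natDegree_mul h5 h1, h4, h2, List.length_cons]
    omega

theorem LP_eval (L : List (ℤ × ℕ)) (s0 : ℤ) (m : ℕ) :
    (LP L s0).eval (m : ℚ) = (L.map (fun ab => ((ab.2 * (s0 + m) - ab.1 : ℤ) : ℚ))).prod := by
  unfold LP
  induction L with
  | nil => simp
  | cons ab L ih =>
    rw [List.map_cons, List.prod_cons, List.map_cons, List.prod_cons, eval_mul, ih]
    congr 1
    rw [eval_add, eval_mul, eval_C, eval_X, eval_C]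
    push_cast
    ring

end Mom

open Filter Topology Polynomial Mom in
open Pool.Agent.H260TZ (uu uu_spec tend_uu tend_pow) in
theorem mom : S_MOM := by
  intro ℓ _ d B L N D H Q c cs hH hD hL hd hQ hQ1 hc hv hm
  obtain ⟨r, hr⟩ : ∃ r, r = L.length - d := ⟨_, rfl⟩
  rw [← hr] at hm
  obtain ⟨M, hM⟩ := hH.bddAbove
  obtain ⟨s0, hs0⟩ : ∃ s0 : ℤ, s0 = M + 1 := ⟨_, rfl⟩
  have hs : ∀ m : ℕ, s0 + m ∉ H := by
    intro m hmem
    have := hM hmem
    omega
  -- the sequence in the `ℓ`-adic field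
  obtain ⟨u, hu⟩ : ∃ u : ℕ → ℚ_[ℓ], u = fun t => ((Q t : ℚ) : ℚ_[ℓ]) := ⟨_, rfl⟩
  have hu1 : ∀ t, u t ≠ 1 := by
    intro t ht
    rw [hu] at ht
    simp only at ht
    have h1 : Q t = 1 := by exact_mod_cast ht
    have h2 := hQ t
    rw [h1] at h2
    exact lt_irrefl _ h2
  have hu0 : ∀ t, u t ≠ 0 := by
    intro t ht
    rw [hu] at ht
    simp only at ht
    have h1 : Q t = 0 := by exact_mod_cast ht
    have h2 := hQ t
    rw [h1] at h2
    linarith
  have hui : ∀ t, 1 - (u t)⁻¹ ≠ 0 := by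
    intro t ht
    rw [sub_eq_zero] at ht
    exact hu1 t (by rw [← inv_inv (u t), ← ht, inv_one])
  have hut : Tendsto u atTop (𝓝[≠] 1) := by
    rw [tendsto_nhdsWithin_iff]
    refine ⟨?_, Eventually.of_forall fun t => hu1 t⟩
    rw [hu]
    exact hQ1
  -- the limits
  obtain ⟨g, hg⟩ : ∃ g : ℕ → ℚ, g = fun m : ℕ => N.eval ((s0 + m : ℤ) : ℚ) /
    D.eval ((s0 + m : ℤ) : ℚ) * (L.map (fun ab => ((ab.2 * (s0 + m) - ab.1 : ℤ) : ℚ))).prod :=
    ⟨_, rfl⟩
  obtain ⟨F, hF⟩ : ∃ F : ℕ → ℕ → ℚ_[ℓ], F = fun t m => ∑ n ∈ Finset.range (B + 1),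
    (((c t n : ℚ) : ℚ_[ℓ]) * (u t) ^ (-(s0 * n)) / (1 - (u t)⁻¹) ^ r) *
      ((u t) ^ (-(n : ℤ))) ^ m := ⟨_, rfl⟩
  have h1 : ∀ m, Tendsto (fun t => F t m) atTop (𝓝 ((g m : ℚ) : ℚ_[ℓ])) := by
    intro m
    obtain ⟨hDs, v, hv1, hv2⟩ := hv _ (hs m)
    have h2 := hv1.mul (tend_prod L hut (s0 + m))
    have h3 : ((N.eval ((s0 + m : ℤ) : ℚ) / D.eval ((s0 + m : ℤ) : ℚ) : ℚ) : ℚ_[ℓ]) *
        (L.map (fun ab => ((ab.2 * (s0 + m) - ab.1 : ℤ) : ℚ_[ℓ]))).prod =
        ((g m : ℚ) : ℚ_[ℓ]) := by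
      rw [hg]
      simp only
      rw [Rat.cast_mul]
      congr 1
      have h4 : (((L.map (fun ab => ((ab.2 * (s0 + m) - ab.1 : ℤ) : ℚ))).prod : ℚ) : ℚ_[ℓ]) =
          (L.map (fun ab => ((ab.2 * (s0 + m) - ab.1 : ℤ) : ℚ_[ℓ]))).prod := by
        clear hL hd hv hr hg h2 hv2
        induction L with
        | nil => simp
        | cons ab L ih =>
          rw [List.map_cons, List.prod_cons, List.map_cons, List.prod_cons, Rat.cast_mul, ih]
          congr 1
      exact h4.symm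
    rw [h3] at h2
    refine h2.congr' ?_
    filter_upwards [hv2] with t ht
    have h4 : (((v t : ℚ)) : ℚ_[ℓ]) *
        (L.map (fun ab => 1 - (u t) ^ (ab.1 - ab.2 * (s0 + m)))).prod =
        (1 - (u t)⁻¹) ^ d * ∑ n ∈ Finset.range (B + 1), ((c t n : ℚ) : ℚ_[ℓ]) *
          (u t) ^ (-((s0 + m) * n)) := by
      have h5 := congrArg (fun x : ℚ => (x : ℚ_[ℓ])) ht
      rw [Rat.cast_mul, cast_prod] at h5
      rw [hu]
      rw [h5]
      push_cast
      rfl
    rw [prod_uu L (hu1 t)] at h4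
    have hlen : L.length = d + r := by omega
    have h5 : (((v t : ℚ)) : ℚ_[ℓ]) *
        (L.map (fun ab => uu (u t) (ab.1 - ab.2 * (s0 + m)))).prod =
        (∑ n ∈ Finset.range (B + 1), ((c t n : ℚ) : ℚ_[ℓ]) *
          (u t) ^ (-((s0 + m) * n))) / (1 - (u t)⁻¹) ^ r := by
      rw [eq_div_iff (pow_ne_zero _ (hui t))]
      have h6 : (1 - (u t)⁻¹) ^ d ≠ 0 := pow_ne_zero _ (hui t)
      apply mul_left_cancel₀ h6
      rw [← h4, hlen, pow_add]
      ring
    rw [h5, hF]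
    simp only
    rw [Finset.sum_div]
    refine Finset.sum_congr rfl fun n _ => ?_
    have h6 : (u t) ^ (-((s0 + m) * n)) = (u t) ^ (-(s0 * n)) * ((u t) ^ (-(n : ℤ))) ^ m := by
      rw [← zpow_natCast, ← zpow_mul, ← zpow_add₀ (hu0 t)]
      congr 1
      ring
    rw [h6]
    ring
  -- the differences
  have h2 : ∀ m, Tendsto (fun t => (fwdDiff (1 : ℕ))^[r] (F t) m) atTop
      (𝓝 (((fwdDiff (1 : ℕ))^[r] g m : ℚ) : ℚ_[ℓ])) := by
    intro m
    rw [← diff_cast]
    exact diff_tendsto h1 r m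
  have h3 : ∀ m, Tendsto (fun t => (fwdDiff (1 : ℕ))^[r] (F t) m) atTop (𝓝 0) := by
    intro m
    have e1 : (fun t => (fwdDiff (1 : ℕ))^[r] (F t) m) = fun t => ∑ n ∈ Finset.range (B + 1),
        ((c t n : ℚ) : ℚ_[ℓ]) * (u t) ^ (-(s0 * n)) * (-uu (u t) (-(n : ℤ))) ^ r *
          ((u t) ^ (-(n : ℤ) * m)) := by
      funext t
      rw [hF]
      simp only
      rw [diff_exp]
      refine Finset.sum_congr rfl fun n _ => ?_
      have h4 : (u t) ^ (-(n : ℤ)) - 1 = (1 - (u t)⁻¹) * (-uu (u t) (-(n : ℤ))) := by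
        rw [mul_neg, ← uu_spec (hu1 t)]
        ring
      rw [h4, mul_pow, zpow_mul, zpow_natCast]
      have h5 : (1 - (u t)⁻¹) ^ r ≠ 0 := pow_ne_zero _ (hui t)
      generalize (1 - (u t)⁻¹) ^ r = P at h5 ⊢
      field_simp
    rw [e1]
    have e2 : (0 : ℚ_[ℓ]) = ∑ n ∈ Finset.range (B + 1),
        ((cs n : ℚ) : ℚ_[ℓ]) * 1 * (-(-(((-(n : ℤ) : ℤ)) : ℚ_[ℓ]))) ^ r * 1 := by
      have h4 : ∑ n ∈ Finset.range (B + 1),
        ((cs n : ℚ) : ℚ_[ℓ]) * 1 * (-(-(((-(n : ℤ) : ℤ)) : ℚ_[ℓ]))) ^ r * 1 =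
          (-1) ^ r * ((∑ n ∈ Finset.range (B + 1), cs n * (n : ℚ) ^ r : ℚ) : ℚ_[ℓ]) := by
        push_cast
        rw [Finset.mul_sum]
        refine Finset.sum_congr rfl fun n _ => ?_
        rw [neg_neg, mul_one, mul_one, neg_pow]
        ring
      rw [h4, hm]
      simp
    rw [e2]
    refine tendsto_finsetSum _ fun n hn => ?_
    refine (((hc n hn).mul ((tend_pow _).comp hut)).mul
      ((((tend_uu _).comp hut).neg).pow r)).mul ((tend_pow _).comp hut)
  have h4 : ∀ m, (fwdDiff (1 : ℕ))^[r] g m = 0 := by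
    intro m
    have h5 := tendsto_nhds_unique (h2 m) (h3 m)
    exact_mod_cast h5
  obtain ⟨G, hG, hGe⟩ := newton g r h4
  -- comparison of polynomials
  have h5 : N.comp (X + C (s0 : ℚ)) * LP L s0 = D.comp (X + C (s0 : ℚ)) * G := by
    refine eq_of_infinite_eval_eq _ _ ?_
    refine Set.Infinite.mono (s := Set.range fun m : ℕ => (m : ℚ)) ?_
      (Set.infinite_range_of_injective Nat.cast_injective)
    rintro _ ⟨m, rfl⟩
    have hDs := (hv _ (hs m)).1
    have h6 := hGe m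
    rw [hg] at h6
    simp only at h6
    show eval (m : ℚ) _ = eval (m : ℚ) _
    rw [eval_mul, eval_mul, eval_comp, eval_comp, eval_add, eval_X, eval_C, h6, LP_eval]
    have h7 : (m : ℚ) + (s0 : ℚ) = ((s0 + m : ℤ) : ℚ) := by push_cast; ring
    rw [h7]
    field_simp
  by_cases hN : N = 0
  · left; exact hN
  right
  obtain ⟨hLP, hLPd⟩ := LP_natDegree L s0 hL
  have hX : (X + C (s0 : ℚ)).natDegree = 1 := natDegree_X_add_C _
  have hNc : N.comp (X + C (s0 : ℚ)) ≠ 0 := by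
    intro h6
    rw [comp_eq_zero_iff] at h6
    rcases h6 with h6 | ⟨_, h6⟩
    · exact hN h6
    · rw [h6, natDegree_C] at hX
      omega
  have hDc : D.comp (X + C (s0 : ℚ)) ≠ 0 := by
    intro h6
    rw [comp_eq_zero_iff] at h6
    rcases h6 with h6 | ⟨_, h6⟩
    · exact hD h6
    · rw [h6, natDegree_C] at hX
      omega
  have hG0 : G ≠ 0 := by
    intro h6
    rw [h6, mul_zero] at h5
    exact mul_ne_zero hNc hLP h5
  have h6 := congrArg natDegree h5
  rw [natDegree_mul hNc hLP, natDegree_mul hDc hG0, natDegree_comp, natDegree_comp, hX, hLPd] at h6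
  rcases hG with hG | hG
  · exact absurd hG hG0
  · omega

end Pool.Agent.T2h77U
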