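import Pool.Agent.T2h77U.Lim

/-! Task PO2: a bound for the order of the pole gives the vanishing of a moment. -/

set_option autoImplicit false

namespace Pool.Agent.T2h77U

namespace Po2

open Filter Topology Polynomial

/-- the operator `X d/dX` -/
noncomputable def th (P : ℝ[X]) : ℝ[X] := X * derivative P

theorem coeff_th (P : ℝ[X]) (n : ℕ) : (th P).coeff n = n * P.coeff n := by
  unfold th
  cases n with
  | zero => simp
  | succ n => rw [coeff_X_mul, coeff_derivative]; push_cast; ring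

theorem coeff_th_iter (P : ℝ[X]) (k n : ℕ) : (th^[k] P).coeff n = (n : ℝ) ^ k * P.coeff n := by
  induction k with
  | zero => simp
  | succ k ih => rw [Function.iterate_succ_apply', coeff_th, ih, pow_succ]; ring

theorem dvd_th {P : ℝ[X]} {e : ℕ} (h : (X - C 1) ^ (e + 1) ∣ P) : (X - C 1) ^ e ∣ th P := by
  obtain ⟨G, rfl⟩ := h
  unfold th
  rw [derivative_mul, derivative_pow_succ]
  have e1 : X * ((C (((e : ℝ)) + 1) * (X - C 1) ^ e * derivative (X - C 1)) * G +
      (X - C 1) ^ (e + 1) * derivative G) = (X - C 1) ^ e * (X * (C ((e : ℝ) + 1) *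
      derivative (X - C 1) * G + (X - C 1) * derivative G)) := by ring
  exact ⟨_, e1⟩

theorem dvd_th_iter {P : ℝ[X]} {e : ℕ} (h : (X - C 1) ^ e ∣ P) (k : ℕ) (hk : k ≤ e) :
    (X - C 1) ^ (e - k) ∣ th^[k] P := by
  induction k with
  | zero => simpa using h
  | succ k ih =>
    rw [Function.iterate_succ_apply']
    apply dvd_th
    have h1 := ih (by omega)
    have h2 : e - (k + 1) + 1 = e - k := by omega
    rw [h2]
    exact h1

theorem moment {P : ℝ[X]} {r B : ℕ} (h : (X - C 1) ^ (r + 1) ∣ P) (hB : P.natDegree ≤ B) :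
    ∑ n ∈ Finset.range (B + 1), P.coeff n * (n : ℝ) ^ r = 0 := by
  have h1 := dvd_th_iter h r (by omega)
  rw [show r + 1 - r = 1 by omega, pow_one] at h1
  have h2 : (th^[r] P).eval 1 = 0 := by
    obtain ⟨G, hG⟩ := h1
    rw [hG]
    simp
  have h3 : (th^[r] P).natDegree < B + 1 := by
    rw [Nat.lt_succ_iff, natDegree_le_iff_coeff_eq_zero]
    intro N hN
    rw [coeff_th_iter, coeff_eq_zero_of_natDegree_lt (by omega), mul_zero]
  rw [eval_eq_sum_range' h3] at h2
  rw [← h2]
  refine Finset.sum_congr rfl fun n _ => ?_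
  rw [coeff_th_iter, one_pow]
  ring

/-- vanishing at one to high order -/
theorem dvd_of_tendsto {P : ℝ[X]} {r : ℕ} {h : ℝ → ℝ} (hh : Tendsto h (𝓝[<] 1) (𝓝 0))
    (hP : ∀ᶠ x : ℝ in 𝓝[<] 1, P.eval x = (1 - x) ^ r * h x) : (X - C 1) ^ (r + 1) ∣ P := by
  by_cases hP0 : P = 0
  · rw [hP0]
    exact dvd_zero _
  obtain ⟨G, hG, hG1⟩ := exists_eq_pow_rootMultiplicity_mul_and_not_dvd P hP0 1
  obtain ⟨e, he⟩ : ∃ e, e = rootMultiplicity 1 P := ⟨_, rfl⟩
  rw [← he] at hG
  by_contra hnd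
  have her : e ≤ r := by
    by_contra h1
    apply hnd
    rw [hG]
    exact (pow_dvd_pow _ (by omega)).mul_right _
  have hG1' : G.eval 1 ≠ 0 := by
    intro h1
    exact hG1 (dvd_iff_isRoot.2 h1)
  -- `|G x| ≤ |h x|`
  have h1 : ∀ᶠ x : ℝ in 𝓝[<] 1, ‖G.eval x‖ ≤ ‖h x‖ := by
    have hI : ∀ᶠ x : ℝ in 𝓝[<] 1, x ∈ Set.Ioo (0 : ℝ) 1 := Ioo_mem_nhdsLT (by norm_num)
    filter_upwards [hP, hI] with x hx hxI
    obtain ⟨hx0, hx1⟩ := hxI
    have h2 : P.eval x = (x - 1) ^ e * G.eval x := by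
      conv_lhs => rw [hG]
      rw [eval_mul, eval_pow, eval_sub, eval_X, eval_C]
    have hpos : 0 < 1 - x := by linarith
    have h3 : ‖(x - 1) ^ e * G.eval x‖ = (1 - x) ^ e * ‖G.eval x‖ := by
      rw [norm_mul, norm_pow]
      congr 2
      rw [Real.norm_eq_abs, abs_sub_comm, abs_of_pos hpos]
    have h4 : ‖(1 - x) ^ r * h x‖ = (1 - x) ^ e * ((1 - x) ^ (r - e) * ‖h x‖) := by
      rw [norm_mul, norm_pow, Real.norm_of_nonneg hpos.le, ← mul_assoc, ← pow_add]
      congr 2
      omega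
    have h5 : (1 - x) ^ e * ‖G.eval x‖ = (1 - x) ^ e * ((1 - x) ^ (r - e) * ‖h x‖) := by
      rw [← h3, ← h4, ← h2, hx]
    have h6 := mul_left_cancel₀ (pow_pos hpos e).ne' h5
    rw [h6]
    have h7 : (1 - x) ^ (r - e) ≤ 1 := pow_le_one₀ hpos.le (by linarith)
    have h8 := norm_nonneg (h x)
    nlinarith
  have h2 : Tendsto (fun x : ℝ => G.eval x) (𝓝[<] 1) (𝓝 (G.eval 1)) :=
    (G.continuous.tendsto 1).mono_left nhdsWithin_le_nhds
  have h3 : Tendsto (fun x : ℝ => G.eval x) (𝓝[<] 1) (𝓝 0) :=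
    squeeze_zero_norm' h1 (by simpa using hh.norm)
  exact hG1' (tendsto_nhds_unique h2 h3)

/-- one factor -/
theorem hasSum_step {g : ℕ → ℝ} {x S : ℝ} (b : ℕ) (h : HasSum (fun n => g n * x ^ n) S) :
    HasSum (fun n => (g n - if b ≤ n then g (n - b) else 0) * x ^ n) ((1 - x ^ b) * S) := by
  have h1 : HasSum (fun n => (if b ≤ n then g (n - b) else 0) * x ^ n) (x ^ b * S) := by
    have h2 : HasSum (fun n => (fun n => (if b ≤ n then g (n - b) else 0) * x ^ n) (n + b))
        (x ^ b * S) := by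
      have h3 := h.mul_left (x ^ b)
      have e1 : (fun n => (fun n => (if b ≤ n then g (n - b) else 0) * x ^ n) (n + b)) =
          fun n => x ^ b * (g n * x ^ n) := by
        funext n
        simp only [if_pos (Nat.le_add_left b n), Nat.add_sub_cancel]
        rw [pow_add]
        ring
      rw [e1]
      exact h3
    have h3 := (hasSum_nat_add_iff (f := fun n => (if b ≤ n then g (n - b) else 0) * x ^ n) b).1 h2
    have h4 : ∑ i ∈ Finset.range b, (if b ≤ i then g (i - b) else 0) * x ^ i = 0 := by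
      refine Finset.sum_eq_zero fun i hi => ?_
      rw [if_neg (by rw [Finset.mem_range] at hi; omega), zero_mul]
    rwa [h4, add_zero] at h3
  have h5 := h.sub h1
  have e1 : S - x ^ b * S = (1 - x ^ b) * S := by ring
  rw [e1] at h5
  have e2 : (fun n => (g n - if b ≤ n then g (n - b) else 0) * x ^ n) =
      fun n => g n * x ^ n - (if b ≤ n then g (n - b) else 0) * x ^ n := by
    funext n
    ring
  rw [e2]
  exact h5

/-- all the factors -/
theorem hasSum_all {f : ℕ → ℚ} {x S : ℝ} (L : List (ℤ × ℕ))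
    (h : HasSum (fun n => ((f n : ℚ) : ℝ) * x ^ n) S) :
    HasSum (fun n => ((PowerSeries.coeff n (DenK (1 : ℚ) L * PowerSeries.mk f) : ℚ) : ℝ) * x ^ n)
      ((L.map (fun ab => 1 - x ^ ab.2)).prod * S) := by
  induction L with
  | nil =>
    simp only [denK_nil, one_mul, PowerSeries.coeff_mk, List.map_nil, List.prod_nil]
    exact h
  | cons ab L ih =>
    have h1 := hasSum_step ab.2 ih
    rw [List.map_cons, List.prod_cons, mul_assoc]
    have e1 : (fun n => ((PowerSeries.coeff n (DenK (1 : ℚ) (ab :: L) * PowerSeries.mk f) : ℚ) : ℝ)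
        * x ^ n) = fun n => (((PowerSeries.coeff n (DenK (1 : ℚ) L * PowerSeries.mk f) : ℚ) : ℝ) -
        if ab.2 ≤ n then
          ((PowerSeries.coeff (n - ab.2) (DenK (1 : ℚ) L * PowerSeries.mk f) : ℚ) : ℝ)
        else 0) * x ^ n := by
      funext n
      rw [coeff_denK_cons]
      congr 1
      by_cases hn : ab.2 ≤ n
      · rw [if_pos hn, if_pos hn, one_zpow, one_mul]
        push_cast
        rfl
      · rw [if_neg hn, if_neg hn, sub_zero, sub_zero]
    rw [e1]
    exact h1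

/-- the geometric factors -/
theorem prod_geom (L : List (ℤ × ℕ)) (x : ℝ) :
    (L.map (fun ab => 1 - x ^ ab.2)).prod =
      (1 - x) ^ L.length * (L.map (fun ab => ∑ i ∈ Finset.range ab.2, x ^ i)).prod := by
  induction L with
  | nil => simp
  | cons ab L ih =>
    rw [List.map_cons, List.prod_cons, List.map_cons, List.prod_cons, ih, List.length_cons]
    have h1 : 1 - x ^ ab.2 = (1 - x) * ∑ i ∈ Finset.range ab.2, x ^ i := by
      rw [mul_neg_geom_sum]
    rw [h1]
    ring

theorem cont_geom (L : List (ℤ × ℕ)) :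
    Continuous fun x : ℝ => (L.map (fun ab => ∑ i ∈ Finset.range ab.2, x ^ i)).prod := by
  induction L with
  | nil => simpa using continuous_const
  | cons ab L ih =>
    simp only [List.map_cons, List.prod_cons]
    exact (continuous_finsetSum _ fun i _ => continuous_pow i).mul ih

end Po2

open Filter Topology Polynomial Po2 in
theorem po2 : S_PO2 := by
  intro d B L χ hL hd hB hS hT
  obtain ⟨g, hg⟩ : ∃ g : ℕ → ℚ, g = fun n => PowerSeries.coeff n (DenK (1 : ℚ) L *
    PowerSeries.mk (fun n => (χ n : ℚ))) := ⟨_, rfl⟩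
  obtain ⟨P, hP⟩ : ∃ P : ℝ[X], P = ∑ n ∈ Finset.range (B + 1), C ((g n : ℚ) : ℝ) * X ^ n := ⟨_, rfl⟩
  have hPc : ∀ n, n < B + 1 → P.coeff n = ((g n : ℚ) : ℝ) := by
    intro n hn
    rw [hP, finsetSum_coeff]
    simp only [coeff_C_mul, coeff_X_pow]
    rw [Finset.sum_eq_single n]
    · simp
    · intro m _ hm
      rw [if_neg (Ne.symm hm), mul_zero]
    · intro h
      exact absurd (Finset.mem_range.2 hn) h
  have hPd : P.natDegree ≤ B := by
    rw [hP]
    refine natDegree_sum_le_of_forall_le _ _ fun n hn => ?_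
    refine (natDegree_C_mul_X_pow_le _ _).trans ?_
    rw [Finset.mem_range] at hn
    omega
  have hPe : ∀ x : ℝ, 0 < x → x < 1 → P.eval x = (L.map (fun ab => 1 - x ^ ab.2)).prod *
      ∑' n, (χ n : ℝ) * x ^ n := by
    intro x hx0 hx1
    have h1 : HasSum (fun n => (((χ n : ℤ) : ℚ) : ℝ) * x ^ n) (∑' n, (χ n : ℝ) * x ^ n) := by
      have h2 := (hS x hx0 hx1).hasSum
      simpa using h2
    have h2 := hasSum_all (f := fun n => (χ n : ℚ)) L h1
    have h3 : HasSum (fun n => ((PowerSeries.coeff n (DenK (1 : ℚ) L * PowerSeries.mk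
        (fun n => (χ n : ℚ))) : ℚ) : ℝ) * x ^ n) (P.eval x) := by
      have h4 : P.eval x = ∑ n ∈ Finset.range (B + 1), ((PowerSeries.coeff n (DenK (1 : ℚ) L *
          PowerSeries.mk (fun n => (χ n : ℚ))) : ℚ) : ℝ) * x ^ n := by
        rw [hP, eval_finsetSum]
        refine Finset.sum_congr rfl fun n _ => ?_
        rw [eval_mul, eval_C, eval_pow, eval_X, hg]
      rw [h4]
      refine hasSum_sum_of_ne_finset_zero fun n hn => ?_
      rw [Finset.mem_range] at hn
      rw [hB n (by omega)]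
      simp
    exact h3.unique h2
  have hI : ∀ᶠ x : ℝ in 𝓝[<] 1, x ∈ Set.Ioo (0 : ℝ) 1 := Ioo_mem_nhdsLT (by norm_num)
  have h1 : (X - C 1) ^ (L.length - d + 1) ∣ P := by
    refine dvd_of_tendsto (h := fun x => (L.map (fun ab => ∑ i ∈ Finset.range ab.2, x ^ i)).prod *
      ((1 - x) ^ d * ∑' n, (χ n : ℝ) * x ^ n)) ?_ ?_
    · have h2 : Tendsto (fun x : ℝ => (L.map (fun ab => ∑ i ∈ Finset.range ab.2, x ^ i)).prod)
          (𝓝[<] 1) (𝓝 ((L.map (fun ab => ∑ i ∈ Finset.range ab.2, (1 : ℝ) ^ i)).prod)) :=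
        ((cont_geom L).tendsto 1).mono_left nhdsWithin_le_nhds
      have h3 := h2.mul hT
      rwa [mul_zero] at h3
    · filter_upwards [hI] with x hx
      rw [hPe x hx.1 hx.2, prod_geom]
      have h2 : (1 - x) ^ L.length = (1 - x) ^ (L.length - d) * (1 - x) ^ d := by
        rw [← pow_add]
        congr 1
        omega
      rw [h2]
      ring
  have h2 := moment h1 hPd
  have h3 : ((∑ n ∈ Finset.range (B + 1), g n * (n : ℚ) ^ (L.length - d) : ℚ) : ℝ) = 0 := by
    rw [← h2]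
    push_cast
    refine Finset.sum_congr rfl fun n hn => ?_
    rw [hPc n (Finset.mem_range.1 hn)]
  rw [hg] at h3
  exact_mod_cast h3

end Pool.Agent.T2h77U
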