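import Pool.Agent.T3h43.UR.Xg
import Pool.Agent.T3h43.UR.One

/-! ADD: the induction step of the elimination. -/

set_option autoImplicit false
set_option linter.unusedVariables false
set_option linter.unusedSectionVars false

namespace Pool.Agent.T2h77U

open Polynomial Pool.Agent.T3h43.UR

section evl

variable {n : ℕ} {O : Type} [CommRing O] (x : Fin n → O)

theorem ev_natDegree_le (F : (MvPolynomial (Fin n) ℤ)[X]) : (ev x F).natDegree ≤ F.natDegree :=
  natDegree_map_le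

theorem ev_X : ev x X = X := Polynomial.map_X _

theorem ev_hasseDeriv (F : (MvPolynomial (Fin n) ℤ)[X]) (j : ℕ) :
    ev x (hasseDeriv j F) = hasseDeriv j (ev x F) := by
  ext a
  simp [ev, hasseDeriv_coeff, coeff_map]

theorem ev_coeff (F : (MvPolynomial (Fin n) ℤ)[X]) (j : ℕ) :
    (ev x F).coeff j = MvPolynomial.aeval x (F.coeff j) := by
  simp [ev, coeff_map]

theorem ev_eraseLead (F : (MvPolynomial (Fin n) ℤ)[X])
    (h : MvPolynomial.aeval x F.leadingCoeff = 0) : ev x F.eraseLead = ev x F := by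
  ext a
  rw [ev_coeff, ev_coeff, eraseLead_coeff]
  split_ifs with ha
  · rw [ha, map_zero]
    exact h.symm
  · rfl

theorem ev_ne_zero (F : (MvPolynomial (Fin n) ℤ)[X])
    (h : MvPolynomial.aeval x F.leadingCoeff ≠ 0) : ev x F ≠ 0 := by
  intro h0
  apply h
  have := ev_coeff x F F.natDegree
  rw [h0, coeff_zero] at this
  exact this.symm

theorem exists_lead {m : ℕ} (F : Fin m → (MvPolynomial (Fin n) ℤ)[X]) (el : Fin m → Fin m)
    (hel : ∀ a, F (el a) = (F a).eraseLead) (S : Finset (Fin m)) (helS : ∀ a ∈ S, el a ∈ S)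
    (a : Fin m) (ha : a ∈ S) (h0 : ev x (F a) ≠ 0) :
    ∃ h ∈ S, MvPolynomial.aeval x (F h).leadingCoeff ≠ 0 ∧ ev x (F h) = ev x (F a) := by
  have key : ∀ N : ℕ, ∀ a ∈ S, (F a).support.card = N → ev x (F a) ≠ 0 →
      ∃ h ∈ S, MvPolynomial.aeval x (F h).leadingCoeff ≠ 0 ∧ ev x (F h) = ev x (F a) := by
    intro N
    induction N using Nat.strong_induction_on with
    | _ N ih =>
      intro a ha hN h0
      by_cases hl : MvPolynomial.aeval x (F a).leadingCoeff = 0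
      · have hF : F a ≠ 0 := by
          rintro h
          apply h0
          rw [h]
          simp [ev]
        have h1 : ev x (F (el a)) = ev x (F a) := by
          rw [hel, ev_eraseLead x _ hl]
        have h2 : (F (el a)).support.card < N := by
          rw [hel, ← hN]
          exact eraseLead_support_card_lt hF
        obtain ⟨h, hh, h3, h4⟩ := ih _ h2 (el a) (helS a ha) rfl (by rw [h1]; exact h0)
        exact ⟨h, hh, h3, h4.trans h1⟩
      · exact ⟨a, ha, hl, rfl⟩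
  exact key _ a ha rfl h0

end evl

section

variable {ι : Type} {O k : ι → Type} [∀ i, CommRing (O i)] [∀ i, IsDomain (O i)]
  [∀ i, Field (k i)] {H : ∀ i, HF (O i) (k i)} {n : ℕ}

/-- the variables of the step: `τ`, then `tb`, `sb`, `ρ` -/
abbrev VV (m : ℕ) := Fin m ⊕ (Fin m ⊕ Fin 2)

theorem xCA (hG : S_GOO) (hR : S_REL) (hX : S_XGC) {s : Type} [Finite s] (c r b : s) (N : ℕ) :
    XG O k H (fun i (_ : Fin n → O i) => {ρ : s → ℕ × k i | CA (ρ c) (ρ r) (ρ b) N}) := by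
  have h1 : XG O k H (fun i (_ : Fin n → O i) => {ρ : s → ℕ × k i |
      N * (ρ c).1 + (ρ b).1 = (ρ r).1 ∧ (ρ c).2 ^ N * (ρ b).2 = (ρ r).2}) :=
    XG.congr (fun i x ρ => Iff.rfl) (xGood hX (![c, b, r] : Fin 3 → s)
      (p := fun i (x : Fin 3 → ℕ × k i) =>
        N * (x 0).1 + (x 1).1 = (x 2).1 ∧ (x 0).2 ^ N * (x 1).2 = (x 2).2) ((hR ι k 0).2.2.1 N))
  exact xOr hX (xAnd hX (xZero2 hX hG r) (xZero hX hG b))
    (xAnd hX (xNot hX (xZero2 hX hG r)) h1)

end

theorem add (hB : S_BAS) (hS : S_SUM) (hN : S_NCL) (hH : S_HEN) (hG : S_GOO) (hR : S_REL)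
    (hX : S_XGC) : S_ADD := by
  intro ι O k _ _ _ H n m D F der el rem x0 S a0 hD hdeg hx0 hx0S hder0 hder hel hrem hderS helS
    hremS hder0S hdeg0 ha0 hXS
  classical
  -- exponents of the pseudo-divisions
  have hex : ∀ h : Fin m, ∃ N : ℕ, h ∈ S → F h ≠ 0 → ∃ Q : (MvPolynomial (Fin n) ℤ)[X],
      C (F h).leadingCoeff ^ N * F a0 = Q * F h + F (rem a0 h) := by
    intro h
    by_cases hh : h ∈ S ∧ F h ≠ 0
    · obtain ⟨N, Q, h1, -⟩ := hrem a0 h (hdeg0 h hh.1) hh.2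
      exact ⟨N, fun _ _ => ⟨Q, h1⟩⟩
    · exact ⟨0, fun h1 h2 => absurd ⟨h1, h2⟩ hh⟩
  choose N hNQ using hex
  -- the equivalence
  have hstep : ∀ i (x : Fin n → O i) (τ : Fin m → ℕ × k i),
      τ ∈ PtS O k H F (insert a0 S) i x ↔
      ∃ υ : Fin m ⊕ Fin 2 → ℕ × k i,
        ((fun a => υ (Sum.inl a)) ∈ PtS O k H F S i x ∧
        (∃ h : S, (υ (Sum.inl h)).2 = 0 ∧
          ((H i).rv (MvPolynomial.aeval x (F h).leadingCoeff)).2 ≠ 0 ∧
          CA ((H i).rv (MvPolynomial.aeval x (F h).leadingCoeff)) (υ (Sum.inl (rem a0 h)))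
            (υ (Sum.inr 0)) (N h))) ∧
        ((∀ a, τ a = if a = a0 then υ (Sum.inr 0) else υ (Sum.inl a)) ∨
          (((υ (Sum.inr 1)).2 ≠ 0 ∧
            (∀ a : S, NoCancel (fun j : Fin (D + 1) =>
              mulp (υ (Sum.inl (der a j))) (υ (Sum.inr 1)) j) (τ a))) ∧
          ((∀ a : {a // a ∉ S}, τ a = (0, 0)) ∧
          Cancel (fun j : Fin (D + 1) =>
            mulp (if (j : ℕ) = 0 then υ (Sum.inr 0) else υ (Sum.inl (der a0 j)))
              (υ (Sum.inr 1)) j)))) := by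
    intro i x τ
    have h := one_step (H := H i) hS hN hH (hD i) (fun a => ev x (F a))
      (fun a => MvPolynomial.aeval x (F a).leadingCoeff) der (rem a0) N x0 S a0
      (fun a => (ev_natDegree_le x _).trans (hdeg a)) (by simp only [hx0, ev_X]) hx0S hder0
      (fun a j => by simp only [hder, ev_hasseDeriv])
      (fun a ha h0 => exists_lead x F el hel S helS a ha h0)
      (fun h h0 => ev_ne_zero x _ h0)
      (by
        intro h hhS h0
        have hF : F h ≠ 0 := by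
          intro h1
          apply h0
          rw [h1]
          simp
        obtain ⟨Q, hQ⟩ := hNQ h hhS hF
        refine ⟨ev x Q, ?_⟩
        have h1 := congrArg (ev x) hQ
        simpa [ev] using h1)
      hderS hremS hder0S ha0 τ
    change τ ∈ Pt1 (H i) (fun a => ev x (F a)) (insert a0 S) ↔ _
    rw [h]
    constructor
    · rintro ⟨tb, sb, ρ, h1, h2, h3⟩
      refine ⟨Sum.elim tb ![sb, ρ], ⟨h1, h2⟩, ?_⟩
      rcases h3 with h3 | ⟨h3, h4, h5, h6⟩
      · exact Or.inl h3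
      · exact Or.inr ⟨⟨h3, h4⟩, h5, h6⟩
    · rintro ⟨υ, ⟨h1, h2⟩, h3⟩
      refine ⟨fun a => υ (Sum.inl a), υ (Sum.inr 0), υ (Sum.inr 1), h1, h2, ?_⟩
      rcases h3 with h3 | ⟨⟨h3, h4⟩, h5, h6⟩
      · exact Or.inl h3
      · exact Or.inr ⟨h3, h4, h5, h6⟩
  -- the pieces
  refine XG.congr hstep ?_
  suffices key : XG O k H (fun (i : ι) (x : Fin n → O i) =>
      {ω : Fin m ⊕ (Fin m ⊕ Fin 2) → ℕ × k i |
        ((fun a => ω (Sum.inr (Sum.inl a))) ∈ PtS O k H F S i x ∧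
        (∃ h : S, (ω (Sum.inr (Sum.inl h))).2 = 0 ∧
          ((H i).rv (MvPolynomial.aeval x (F h).leadingCoeff)).2 ≠ 0 ∧
          CA ((H i).rv (MvPolynomial.aeval x (F h).leadingCoeff))
            (ω (Sum.inr (Sum.inl (rem a0 h)))) (ω (Sum.inr (Sum.inr 0))) (N h))) ∧
        ((∀ a, ω (Sum.inl a) =
            if a = a0 then ω (Sum.inr (Sum.inr 0)) else ω (Sum.inr (Sum.inl a))) ∨
          (((ω (Sum.inr (Sum.inr 1))).2 ≠ 0 ∧
            (∀ a : S, NoCancel (fun j : Fin (D + 1) =>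
              mulp (ω (Sum.inr (Sum.inl (der a j)))) (ω (Sum.inr (Sum.inr 1))) j)
                (ω (Sum.inl a)))) ∧
          ((∀ a : {a // a ∉ S}, ω (Sum.inl a) = (0, 0)) ∧
          Cancel (fun j : Fin (D + 1) =>
            mulp (if (j : ℕ) = 0 then ω (Sum.inr (Sum.inr 0)) else
              ω (Sum.inr (Sum.inl (der a0 j)))) (ω (Sum.inr (Sum.inr 1))) j))))}) by
    exact XG.congr (fun i x τ => Iff.rfl) (xProj hX key)
  refine xAnd hX (xAnd hX ?_ ?_) (xOr hX ?_ (xAnd hX (xAnd hX ?_ ?_) (xAnd hX ?_ ?_)))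
  · exact XG.congr (fun i x ρ => Iff.rfl)
      (xRe hX (fun a => (Sum.inr (Sum.inl a) : Fin m ⊕ (Fin m ⊕ Fin 2)))
        (p := fun i x ρ => ρ ∈ PtS O k H F S i x) hXS)
  · suffices key : XG O k H (fun (i : ι) (x : Fin n → O i) =>
        {ω : (Fin m ⊕ (Fin m ⊕ Fin 2)) ⊕ Fin m → ℕ × k i |
          ∃ h : S, (ω (Sum.inl (Sum.inr (Sum.inl h)))).2 = 0 ∧
            (ω (Sum.inr h)).2 ≠ 0 ∧
            CA (ω (Sum.inr h)) (ω (Sum.inl (Sum.inr (Sum.inl (rem a0 h)))))
              (ω (Sum.inl (Sum.inr (Sum.inr 0)))) (N h)}) by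
      exact XG.congr (fun i x ρ => Iff.rfl) (xSub hX m (fun h => (F h).leadingCoeff) key)
    refine xEx hX fun h => xAnd hX ?_ (xAnd hX ?_ ?_)
    · exact xZero2 hX hG _
    · exact xNot hX (xZero2 hX hG _)
    · exact xCA hG hR hX _ _ _ _
  · refine xAll hX fun a => ?_
    by_cases haa : a = a0
    · refine XG.congr (fun i x ρ => ?_) (xEq hX hG hR
        (Sum.inl a : Fin m ⊕ (Fin m ⊕ Fin 2)) (Sum.inr (Sum.inr 0)))
      simp [haa]
    · refine XG.congr (fun i x ρ => ?_) (xEq hX hG hR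
        (Sum.inl a : Fin m ⊕ (Fin m ⊕ Fin 2)) (Sum.inr (Sum.inl a)))
      simp [haa]
  · exact xNot hX (xZero2 hX hG _)
  · refine xAll hX fun a => ?_
    exact XG.congr (fun i x ρ => Iff.rfl)
      (xGood hX (Sum.elim (fun j : Fin (D + 1) => Sum.inr (Sum.inl (der a j)))
        ![Sum.inr (Sum.inr 1), Sum.inl a] : Fin (D + 1) ⊕ Fin 2 → Fin m ⊕ (Fin m ⊕ Fin 2))
        (p := fun i (x : Fin (D + 1) ⊕ Fin 2 → ℕ × k i) =>
          NoCancel (fun j : Fin (D + 1) => mulp (x (Sum.inl j)) (x (Sum.inr 0)) j)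
            (x (Sum.inr 1))) (hR ι k D).1)
  · exact xAll hX fun a => xZero hX hG _
  · refine XG.congr (fun i x ρ => ?_)
      (xGood hX (Sum.elim (fun j : Fin (D + 1) => if (j : ℕ) = 0 then Sum.inr (Sum.inr 0) else
          Sum.inr (Sum.inl (der a0 j)))
        ![Sum.inr (Sum.inr 1), Sum.inl a0] : Fin (D + 1) ⊕ Fin 2 → Fin m ⊕ (Fin m ⊕ Fin 2))
        (p := fun i (x : Fin (D + 1) ⊕ Fin 2 → ℕ × k i) =>
          Cancel (fun j : Fin (D + 1) => mulp (x (Sum.inl j)) (x (Sum.inr 0)) j)) (hR ι k D).2.1)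
    change Cancel _ ↔ Cancel _
    have : (fun j : Fin (D + 1) =>
            mulp (if (j : ℕ) = 0 then ρ (Sum.inr (Sum.inr 0)) else
              ρ (Sum.inr (Sum.inl (der a0 j)))) (ρ (Sum.inr (Sum.inr 1))) j) =
        (fun j : Fin (D + 1) => mulp (ρ (if (j : ℕ) = 0 then Sum.inr (Sum.inr 0) else
          Sum.inr (Sum.inl (der a0 j)))) (ρ (Sum.inr (Sum.inr 1))) j) := by
      funext j
      split_ifs <;> rfl
    rw [this]
    exact Iff.rfl

end Pool.Agent.T2h77U
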