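import Pool.Agent.T2h77U.Stm

/-! Basic facts on the structure `HF`. -/

namespace Pool.Agent.T2h77U

open Polynomial

section
variable {O k : Type} [CommRing O] [IsDomain O] [Field k] (H : HF O k)

include H

lemma HF.res_pi : H.res H.pi = 0 := (H.res_eq _).mpr dvd_rfl

lemma HF.unit_iff (x : O) : IsUnit x ↔ H.res x ≠ 0 := by
  constructor
  · intro h
    exact (h.map H.res).ne_zero
  · intro h
    obtain ⟨a, ha⟩ := H.res_surj ((H.res x)⁻¹)
    obtain ⟨b, hb, -⟩ := H.hensel (C x * X - 1) a (by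
      simp [ha, mul_inv_cancel₀ h]) (by simpa using h)
    simp only [eval_sub, eval_mul, eval_C, eval_X, eval_one] at hb
    exact IsUnit.of_mul_eq_one b (sub_eq_zero.mp hb)

lemma HF.pi_nu : ¬ IsUnit H.pi := by
  rw [H.unit_iff, not_not]; exact H.res_pi

lemma HF.not_unit_iff (x : O) : ¬ IsUnit x ↔ H.pi ∣ x := by
  rw [H.unit_iff, not_not, H.res_eq]

lemma HF.irr : Irreducible H.pi := by
  refine ⟨H.pi_nu, fun a b hab => ?_⟩
  by_contra hc
  push Not at hc
  obtain ⟨a', ha⟩ := (H.not_unit_iff a).mp hc.1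
  have h1 : H.pi * 1 = H.pi * (a' * b) := by rw [mul_one, ← mul_assoc, ← ha, ← hab]
  have h2 := mul_left_cancel₀ H.pi_ne h1
  exact hc.2 (IsUnit.of_mul_eq_one a' (by rw [mul_comm]; exact h2.symm))

lemma HF.dvr : IsDiscreteValuationRing O := by
  apply IsDiscreteValuationRing.ofHasUnitMulPowIrreducibleFactorization
  refine ⟨H.pi, H.irr, fun {x} hx => ?_⟩
  obtain ⟨hac, u, hu, hru⟩ := H.spec x hx
  have hunit : IsUnit u := by rw [H.unit_iff, hru]; exact hac
  exact ⟨H.v x, hunit.unit, by rw [IsUnit.unit_spec, ← hu]⟩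

end

theorem bas : S_BAS := by
  intro O k _ _ _ H
  refine ⟨H.unit_iff, H.dvr, H.irr, fun hfin n => ?_⟩
  haveI := H.dvr
  have hP : Ideal.span {H.pi} ≠ ⊥ := by
    rw [Ne, Ideal.span_singleton_eq_bot]; exact H.pi_ne
  haveI : (Ideal.span {H.pi}).IsPrime := by
    rw [Ideal.span_singleton_prime H.pi_ne]; exact H.irr.prime
  have h := cardQuot_pow_of_prime (P := Ideal.span {H.pi}) hP (i := n)
  rw [Ideal.span_singleton_pow, Submodule.cardQuot_apply, Submodule.cardQuot_apply] at h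
  rw [h]
  congr 1
  have hk : RingHom.ker H.res = Ideal.span {H.pi} := by
    ext x
    rw [RingHom.mem_ker, H.res_eq, Ideal.mem_span_singleton]
  rw [← hk]
  exact Nat.card_congr (RingHom.quotientKerEquivOfSurjective H.res_surj).toEquiv

end Pool.Agent.T2h77U
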