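import Pool.Agent.T3h43.UR.Ring
import Pool.Agent.T2h77U.Add

/-! CEL: the cell decomposition. -/

set_option autoImplicit false
set_option linter.unusedVariables false
set_option linter.unusedSectionVars false

namespace Pool.Agent.T2h77U

open Polynomial Pool.Agent.T3h43.UR

section

variable {ι : Type} (O k : ι → Type) [∀ i, CommRing (O i)] [∀ i, IsDomain (O i)]
  [∀ i, Field (k i)] [∀ i, Finite (k i)] (H : ∀ i, HF (O i) (k i))

/-- the conclusion of `CEL`, for an arbitrary finite type of indices -/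
def CelW {n m : ℕ} (g : Fin m → MvPolynomial (Fin n) ℤ) : Prop :=
  ∃ (W : Type) (_ : Fintype W) (emb : Fin m → W) (L : Finset W) (Z : Rel k W), Good k Z ∧
    ∀ i, (∀ τ ∈ Z i, ∃ x : Fin n → O i, ∀ j,
        τ (emb j) = (H i).rv (MvPolynomial.aeval x (g j))) ∧
      ∀ (Q : Set (Fin m → ℕ × k i)) (N0 : ℕ), Stab (H i) N0 {x | rvs (H i) g x ∈ Q} →
        HasSum (fun τ : {τ : W → ℕ × k i // τ ∈ Z i ∧ (fun j => τ (emb j)) ∈ Q} =>
            ((Nat.card (k i) : ℝ) ^ (n + ∑ l ∈ L, (τ.1 l).1))⁻¹)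
          ((ncl (H i) N0 {x | rvs (H i) g x ∈ Q} : ℝ) / (Nat.card (k i) : ℝ) ^ (n * N0))

end

theorem ev_fin {n : ℕ} {O : Type} [CommRing O] (x : Fin n → O) (t : O)
    (g : MvPolynomial (Fin (n + 1)) ℤ) :
    (ev x (MvPolynomial.finSuccEquiv ℤ n g)).eval t =
      MvPolynomial.aeval (Fin.cons t x : Fin (n + 1) → O) g := by
  induction g using MvPolynomial.induction_on with
  | C a => simp [ev]
  | add p q hp hq =>
    rw [map_add, map_add, ← hp, ← hq]
    simp [ev]
  | mul_X p j hp =>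
    rw [map_mul, map_mul, ← hp]
    simp only [ev, Polynomial.map_mul, eval_mul, MvPolynomial.aeval_X]
    congr 1
    refine Fin.cases ?_ (fun j => ?_) j
    · rw [MvPolynomial.finSuccEquiv_X_zero]; simp
    · rw [MvPolynomial.finSuccEquiv_X_succ]; simp

theorem hasSum_one {α : Type} {p : α → Prop} (a : α) (h : ∀ b, p b ↔ b = a)
    {f : {b // p b} → ℝ} {r : ℝ} (hf : ∀ b, f b = r) : HasSum f r := by
  have h1 := hasSum_single (f := f) ⟨a, (h a).2 rfl⟩
    (fun b hb => absurd (Subtype.ext ((h b.1).1 b.2)) hb)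
  rw [hf] at h1
  exact h1

/-- zero variables -/
theorem cel_zero (hG : S_GOO) {ι : Type} (O k : ι → Type) [∀ i, CommRing (O i)]
    [∀ i, IsDomain (O i)] [∀ i, Field (k i)] [∀ i, Finite (k i)] (H : ∀ i, HF (O i) (k i))
    (m : ℕ) (g : Fin m → MvPolynomial (Fin 0) ℤ)
    (hw : ∀ c : ℤ, ∃ w : ℕ, ∀ i, (H i).v (c : O i) = w) : CelW O k H g := by
  classical
  have hc : ∀ j, ∃ c : ℤ, ∀ i (x : Fin 0 → O i), MvPolynomial.aeval x (g j) = (c : O i) := by
    intro j
    refine ⟨(g j).coeff 0, fun i x => ?_⟩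
    conv_lhs => rw [MvPolynomial.eq_C_of_isEmpty (g j)]
    simp
  choose c hc using hc
  choose w hw using hw
  refine ⟨Fin m, inferInstance, id, ∅, fun i => {τ | (∀ j, (τ j).1 = w (c j)) ∧
    (fun j => (τ j).2) = fun j => (H i).ac (c j)}, ?_, fun i => ⟨?_, ?_⟩⟩
  · refine gAnd hG ?_ (gRes hG fun i x => x = fun j => (H i).ac (c j))
    refine Good.congr (fun i ρ => ?_)
      ((hG ι k).2.2.2.2.2.2.1 (Fin m) {fun j => w (c j)} (IsSemilinearSet.singleton _))
    change (∀ j, (ρ j).1 = w (c j)) ↔ (fun j => (ρ j).1) = fun j => w (c j)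
    exact ⟨fun h => funext h, fun h j => congrFun h j⟩
  · rintro τ ⟨h1, h2⟩
    refine ⟨fun j => j.elim0, fun j => ?_⟩
    rw [hc]
    ext
    · rw [id, h1, ← hw (c j) i]; rfl
    · exact congrFun h2 j
  · intro Q N0 hQ
    have hrv : ∀ x : Fin 0 → O i, rvs (H i) g x = fun j => (H i).rv (c j : O i) := by
      intro x
      funext j
      rw [rvs, hc]
    have hZ : ∀ τ : Fin m → ℕ × k i, ((∀ j, (τ j).1 = w (c j)) ∧
        (fun j => (τ j).2) = fun j => (H i).ac (c j)) ↔ τ = fun j => (H i).rv (c j : O i) := by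
      intro τ
      constructor
      · rintro ⟨h1, h2⟩
        funext j
        ext
        · rw [h1, ← hw (c j) i]; rfl
        · exact congrFun h2 j
      · rintro rfl
        exact ⟨fun j => hw (c j) i, rfl⟩
    by_cases hq : (fun j => (H i).rv (c j : O i)) ∈ Q
    · have hset : {x : Fin 0 → O i | rvs (H i) g x ∈ Q} = Set.univ := by
        ext x
        simp only [Set.mem_setOf_eq, Set.mem_univ, iff_true]
        rw [hrv]
        exact hq
      have hncl : ncl (H i) N0 {x : Fin 0 → O i | rvs (H i) g x ∈ Q} = 1 := by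
        rw [hset, ncl]
        rw [Nat.card_eq_one_iff_unique]
        constructor
        · constructor
          intro a b
          apply Subtype.ext
          funext j
          exact j.elim0
        · exact ⟨⟨_, Set.mem_image_of_mem _ (Set.mem_univ (fun j : Fin 0 => j.elim0))⟩⟩
      rw [hncl]
      refine hasSum_one (fun j => (H i).rv (c j : O i)) (fun b => ?_) (fun b => ?_)
      · constructor
        · rintro ⟨h1, h2⟩
          exact (hZ b).1 h1
        · intro h1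
          refine ⟨(hZ b).2 h1, ?_⟩
          rw [h1]
          exact hq
      · simp
    · have hset : {x : Fin 0 → O i | rvs (H i) g x ∈ Q} = ∅ := by
        ext x
        simp only [Set.mem_setOf_eq, Set.mem_empty_iff_false, iff_false]
        rw [hrv]
        exact hq
      have hncl : ncl (H i) N0 {x : Fin 0 → O i | rvs (H i) g x ∈ Q} = 0 := by
        rw [hset, ncl]
        simp
      rw [hncl]
      haveI hem : IsEmpty {τ : Fin m → ℕ × k i // τ ∈ {τ : Fin m → ℕ × k i |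
          (∀ j, (τ j).1 = w (c j)) ∧ (fun j => (τ j).2) = fun j => (H i).ac (c j)} ∧
          (fun j => τ (id j)) ∈ Q} := by
        constructor
        rintro ⟨τ, h1, h2⟩
        have := (hZ τ).1 h1
        subst this
        exact hq h2
      simp only [Nat.cast_zero, zero_div]
      exact hasSum_empty

theorem Good.pull {ι ι' : Type} {k : ι → Type} {s : Type} {R : Rel k s} (hR : Good k R)
    (e : ι' → ι) : Good (fun i => k (e i)) (fun i => R (e i)) := by
  obtain ⟨C, h1, h2, h3⟩ := hR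
  exact ⟨C, h1, h2, fun i => h3 (e i)⟩

theorem cel_all (hB : S_BAS) (hO : S_ONE) (hC : S_CLO) (hG : S_GOO) (hR : S_REL)
    (hP : S_PTT) (n : ℕ) : ∀ (ι : Type) (O k : ι → Type) [∀ i, CommRing (O i)]
    [∀ i, IsDomain (O i)] [∀ i, Field (k i)] [∀ i, Finite (k i)] (H : ∀ i, HF (O i) (k i))
    (m : ℕ) (g : Fin m → MvPolynomial (Fin n) ℤ), ∃ D : ℕ,
    ∀ (ι' : Type) (e : ι' → ι),
      (∀ i, ∀ j : ℕ, 1 ≤ j → j ≤ D → (j : k (e i)) ≠ 0) →
      (∀ c : ℤ, ∃ w : ℕ, ∀ i, (H (e i)).v (c : O (e i)) = w) →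
      CelW (fun i => O (e i)) (fun i => k (e i)) (fun i => H (e i)) g := by
  classical
  induction n with
  | zero =>
    intro ι O k _ _ _ _ H m g
    exact ⟨0, fun ι' e _ hw => cel_zero hG _ _ _ m g hw⟩
  | succ n ih =>
    intro ι O k _ _ _ _ H m g
    obtain ⟨m1, F, der, el, rem, x0, hF, hx0, hder0, hder, hel, hrem⟩ :=
      hC (MvPolynomial (Fin n) ℤ) (Finset.univ.image fun j => MvPolynomial.finSuccEquiv ℤ n (g j))
    choose emb1 hemb1 using fun j => hF _ (Finset.mem_image_of_mem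
      (fun j => MvPolynomial.finSuccEquiv ℤ n (g j)) (Finset.mem_univ j))
    set D1 := Finset.univ.sup fun a => (F a).natDegree with hD1
    have hdeg : ∀ a, (F a).natDegree ≤ D1 := fun a =>
      Finset.le_sup (f := fun a => (F a).natDegree) (Finset.mem_univ a)
    obtain ⟨m', g', P, hPg, hP'⟩ := hP {i : ι // ∀ j : ℕ, 1 ≤ j → j ≤ D1 → (j : k i) ≠ 0}
      (fun i => O i.1) (fun i => k i.1) (fun i => H i.1) n m1 D1 F der el rem x0
      (fun i => i.2) hdeg hx0 hder0 hder hel hrem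
    obtain ⟨D', hD'⟩ := ih {i : ι // ∀ j : ℕ, 1 ≤ j → j ≤ D1 → (j : k i) ≠ 0}
      (fun i => O i.1) (fun i => k i.1) (fun i => H i.1) m' g'
    refine ⟨max D1 D', fun ι' e hDe hw => ?_⟩
    let e1 : ι' → {i : ι // ∀ j : ℕ, 1 ≤ j → j ≤ D1 → (j : k i) ≠ 0} :=
      fun i => ⟨e i, fun j h1 h2 => hDe i j h1 (le_max_of_le_left h2)⟩
    obtain ⟨W, hWf, emb', L', Z', hZ'g, hZ'⟩ := hD' ι' e1
      (fun i j h1 h2 => hDe i j h1 (le_max_of_le_right h2)) hw
    refine ⟨W ⊕ (Fin m1 ⊕ Fin 1), inferInstance, fun j => Sum.inr (Sum.inl (emb1 j)),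
      L'.disjSum {Sum.inr 0}, fun i => ZZ D1 der (P (e1 i)) emb' (Z' i), ?_, fun i => ?_⟩
    · have h1 : Good (fun i => k (e i)) (fun i => {ω : W ⊕ (Fin m1 ⊕ Fin 1) → ℕ × k (e i) |
          (fun w => ω (Sum.inl w)) ∈ Z' i}) :=
        gRe hG (fun w => (Sum.inl w : W ⊕ (Fin m1 ⊕ Fin 1))) (p := fun i ρ => ρ ∈ Z' i) hZ'g
      have h2 : Good (fun i => k (e i)) (fun i => {ω : W ⊕ (Fin m1 ⊕ Fin 1) → ℕ × k (e i) |
          (fun z => ω (Sum.elim (fun j => Sum.inl (emb' j))
            (fun a => Sum.inr (Sum.inl a)) z)) ∈ P (e1 i)}) :=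
        gRe (k := fun i => k (e i)) hG (Sum.elim (fun j => Sum.inl (emb' j))
            (fun a => Sum.inr (Sum.inl a)) : Fin m' ⊕ Fin m1 → W ⊕ (Fin m1 ⊕ Fin 1))
          (p := fun i ρ => ρ ∈ P (e1 i)) (Good.pull hPg e1)
      have h3 : Good (fun i => k (e i)) (fun i => {ω : W ⊕ (Fin m1 ⊕ Fin 1) → ℕ × k (e i) |
          ∀ a, (ω (Sum.inr (Sum.inl a))).2 = 0 → ∀ j, j ≤ D1 →
            (ω (Sum.inr (Sum.inl (der a j)))).2 = 0}) :=
        gRes (k := fun i => k (e i)) hG (s := W ⊕ (Fin m1 ⊕ Fin 1))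
          (fun i x => ∀ a, x (Sum.inr (Sum.inl a)) = 0 → ∀ j, j ≤ D1 →
            x (Sum.inr (Sum.inl (der a j))) = 0)
      have h4 : Good (fun i => k (e i)) (fun i => {ω : W ⊕ (Fin m1 ⊕ Fin 1) → ℕ × k (e i) |
          Lam D1 der Set.univ (fun a => ω (Sum.inr (Sum.inl a))) (ω (Sum.inr (Sum.inr 0))).1}) :=
        gRe (k := fun i => k (e i)) hG
          (fun z => (Sum.inr z : W ⊕ (Fin m1 ⊕ Fin 1)))
          (p := fun i x => Lam D1 der Set.univ (fun a => x (Sum.inl a)) (x (Sum.inr 0)).1)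
          ((hR ι' (fun i => k (e i)) D1).2.2.2 m1 der Set.univ)
      have h5 : Good (fun i => k (e i)) (fun i => {ω : W ⊕ (Fin m1 ⊕ Fin 1) → ℕ × k (e i) |
          (ω (Sum.inr (Sum.inr 0))).2 = 0}) :=
        gRes (k := fun i => k (e i)) hG (s := W ⊕ (Fin m1 ⊕ Fin 1))
          (fun i x => x (Sum.inr (Sum.inr 0)) = 0)
      exact gAnd hG h1 (gAnd hG h2 (gAnd hG h3 (gAnd hG h4 h5)))
    · exact cell_ring (H (e i)) hB hO g F emb1
        (fun j x t => by rw [hemb1 j]; exact ev_fin x t (g j)) der x0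
        (fun x a j => by rw [hder, ev_hasseDeriv]) (fun x => by rw [hx0, ev_X])
        (fun x a => (ev_natDegree_le x _).trans (hdeg a)) (e1 i).2 g' (P (e1 i))
        (fun x τ => hP' (e1 i) x τ) emb' L' (Z' i) (hZ' i).1 (hZ' i).2

theorem cel (hB : S_BAS) (hS : S_SUM) (hO : S_ONE) (hC : S_CLO) (hG : S_GOO) (hR : S_REL)
    (hX : S_XGC) (hP : S_PTT) : S_CEL := by
  classical
  intro ι O k _ _ _ _ H n m g
  obtain ⟨D, hD⟩ := cel_all hB hO hC hG hR hP n ι O k H m g
  refine ⟨D, fun ι' e h1 h2 => ?_⟩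
  obtain ⟨W, hWf, emb, L, Z, hZg, hZ⟩ := hD ι' e h1 h2
  let E : W ≃ Fin (Fintype.card W) := Fintype.equivFin W
  refine ⟨Fintype.card W, fun j => E (emb j), L.map E.toEmbedding,
    fun i => {τ | (fun w => τ (E w)) ∈ Z i}, ?_, fun i => ⟨?_, ?_⟩⟩
  · exact gRe (k := fun i => k (e i)) hG (fun w => E w) (p := fun i ρ => ρ ∈ Z i) hZg
  · intro τ hτ
    exact (hZ i).1 _ hτ
  · intro Q N0 hQ
    have h := (hZ i).2 Q N0 hQ
    let e2 : {τ : Fin (Fintype.card W) → ℕ × k (e i) //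
        τ ∈ {τ : Fin (Fintype.card W) → ℕ × k (e i) | (fun w => τ (E w)) ∈ Z i} ∧
          (fun j => τ (E (emb j))) ∈ Q} ≃
        {τ : W → ℕ × k (e i) // τ ∈ Z i ∧ (fun j => τ (emb j)) ∈ Q} :=
      { toFun := fun τ => ⟨fun w => τ.1 (E w), τ.2⟩
        invFun := fun τ => ⟨fun a => τ.1 (E.symm a), by
          obtain ⟨τ, h3, h4⟩ := τ
          constructor
          · simpa using h3
          · simpa using h4⟩
        left_inv := by
          rintro ⟨τ, h3, h4⟩
          apply Subtype.ext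
          funext a
          simp
        right_inv := by
          rintro ⟨τ, h3, h4⟩
          apply Subtype.ext
          funext a
          simp }
    have h5 := (Equiv.hasSum_iff e2).2 h
    convert h5 using 1
    · funext τ
      simp only [Function.comp_apply, e2, Equiv.coe_fn_mk, Finset.sum_map, Equiv.coe_toEmbedding]
    · rfl

end Pool.Agent.T2h77U
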