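import Pool.Agent.T2h77U.Stm2

/-! CRI: closedness in coordinates (helper11). -/

set_option autoImplicit false
set_option linter.all false

namespace Pool.Agent.T2h77U

open Polynomial Filter Topology Pool.Agent.H260TZ

namespace CriAux

variable {R : Type} [CommRing R] [IsDomain R] (D : DV R)

theorem mem_pr (x : BQ D) (m : R × R) : m ∈ D.pr x.1 x.2.1 x.2.2 ↔
    D.t ^ (DV.ex x.1 x.2.1) ∣ (pform D x).1 * m.1 + (pform D x).2 * m.2 := by
  obtain ⟨b, n, z⟩ := x
  unfold DV.pr DV.ex pform
  cases b
  · simp only [Bool.false_eq_true, if_false]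
    rw [D.mem_K]
  · simp only [if_true]
    rw [D.mem_K]

theorem pform_one (x : BQ D) : (pform D x).1 = 1 ∨ (pform D x).2 = 1 := by
  obtain ⟨b, n, z⟩ := x
  unfold pform
  cases b
  · right
    simp only [Bool.false_eq_true, if_false]
  · left
    simp only [if_true]

theorem pvec_mem (y : BQ D) : (pform D y).1 * (pvec D y).1 + (pform D y).2 * (pvec D y).2 = 0 := by
  obtain ⟨b, n, z⟩ := y
  unfold pform pvec
  cases b
  · simp only [Bool.false_eq_true, if_false]
    ring
  · simp only [if_true]
    ring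

/-- the elements of a primitive lattice -/
theorem pr_span (y : BQ D) (e : R × R)
    (he : D.t ^ (DV.ex y.1 y.2.1) ∣ (pform D y).1 * e.1 + (pform D y).2 * e.2) :
    ∃ (r : R) (u : R × R), e = (r * (pvec D y).1 + D.t ^ (DV.ex y.1 y.2.1) * u.1,
      r * (pvec D y).2 + D.t ^ (DV.ex y.1 y.2.1) * u.2) := by
  obtain ⟨b, n, z⟩ := y
  obtain ⟨w, hw⟩ := he
  unfold pform at hw
  unfold pvec
  cases b
  · simp only [Bool.false_eq_true, if_false] at hw ⊢
    refine ⟨e.1, (0, w), ?_⟩
    refine Prod.ext ?_ ?_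
    · simp only
      ring
    · simp only
      linear_combination hw
  · simp only [if_true] at hw ⊢
    refine ⟨e.2, (w, 0), ?_⟩
    refine Prod.ext ?_ ?_
    · simp only
      linear_combination hw
    · simp only
      ring

theorem lam_lin (a b r s : R) (e e' μ : R × R) :
    lam a b (r * e.1 + s * e'.1, r * e.2 + s * e'.2) μ = r * lam a b e μ + s * lam a b e' μ := by
  unfold lam
  ring

/-- closedness under one element -/
theorem closed_one (a b : R) (x : BQ D) (e : R × R) :
    (∀ m ∈ D.pr x.1 x.2.1 x.2.2, ((e.1 - a * e.2) * m.2, (e.1 - b * e.2) * m.1) ∈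
      D.pr x.1 x.2.1 x.2.2) ↔ D.t ^ (DV.ex x.1 x.2.1) ∣ lam a b e (pform D x) := by
  set μ := pform D x with hμ
  set J := DV.ex x.1 x.2.1 with hJ
  constructor
  · intro h
    have h1 : ((-μ.2, μ.1) : R × R) ∈ D.pr x.1 x.2.1 x.2.2 := by
      rw [mem_pr]
      simp only
      rw [← hμ]
      have : μ.1 * -μ.2 + μ.2 * μ.1 = 0 := by ring
      rw [this]
      exact dvd_zero _
    have h2 := h _ h1
    rw [mem_pr] at h2
    simp only at h2
    rw [← hμ, ← hJ] at h2
    have h3 : lam a b e μ =
        -(μ.1 * ((e.1 - a * e.2) * μ.1) + μ.2 * ((e.1 - b * e.2) * -μ.2)) := by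
      unfold lam
      ring
    rw [h3]
    exact (dvd_neg).2 h2
  · intro h m hm
    rw [mem_pr] at hm ⊢
    simp only
    rw [← hμ, ← hJ] at hm ⊢
    rcases pform_one D x with h1 | h1
    · rw [← hμ] at h1
      have h3 : μ.1 * ((e.1 - a * e.2) * m.2) + μ.2 * ((e.1 - b * e.2) * m.1) =
          (μ.2 * (e.1 - b * e.2)) * (μ.1 * m.1 + μ.2 * m.2) - m.2 * lam a b e μ := by
        unfold lam
        rw [h1]
        ring
      rw [h3]
      exact dvd_sub (hm.mul_left _) (h.mul_left _)
    · rw [← hμ] at h1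
      have h3 : μ.1 * ((e.1 - a * e.2) * m.2) + μ.2 * ((e.1 - b * e.2) * m.1) =
          (μ.1 * (e.1 - a * e.2)) * (μ.1 * m.1 + μ.2 * m.2) + m.1 * lam a b e μ := by
        unfold lam
        rw [h1]
        ring
      rw [h3]
      exact dvd_add (hm.mul_left _) (h.mul_left _)

end CriAux

open CriAux in
theorem cri : S_CRI := by
  intro R _ _ D a b hab v c y x
  set μ := pform D x with hμ
  set J := DV.ex x.1 x.2.1 with hJ
  set j := DV.ex y.1 y.2.1 with hj
  -- reduction to primitive lattices
  have h1 : Cl a b (D.par (v, y)) (D.par (c, x)) ↔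
      ∀ e ∈ D.pr y.1 y.2.1 y.2.2, D.t ^ J ∣ D.t ^ v * lam a b e μ := by
    unfold Cl DV.par
    simp only
    constructor
    · intro h e he
      have h2 : D.t ^ v * lam a b e μ = lam a b (D.sc v e) μ := by
        rw [D.sc_apply]
        unfold lam
        ring
      rw [h2, ← closed_one D a b x (D.sc v e)]
      intro m hm
      have h3 := h (D.sc v e) (Submodule.mem_map_of_mem he) (D.sc c m)
        (Submodule.mem_map_of_mem hm)
      obtain ⟨w, hw, hw'⟩ := h3
      have h4 : D.sc c w = D.sc c (((D.sc v e).1 - a * (D.sc v e).2) * m.2,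
          ((D.sc v e).1 - b * (D.sc v e).2) * m.1) := by
        rw [hw']
        refine Prod.ext ?_ ?_
        · simp only [D.sc_apply]
          ring
        · simp only [D.sc_apply]
          ring
      have h5 := D.sc_inj c h4
      rw [← h5]
      exact hw
    · intro h e he m hm
      obtain ⟨e', he', rfl⟩ := he
      obtain ⟨m', hm', rfl⟩ := hm
      have h2 : D.t ^ v * lam a b e' μ = lam a b (D.sc v e') μ := by
        rw [D.sc_apply]
        unfold lam
        ring
      have h3 := h e' he'
      rw [h2, ← closed_one D a b x (D.sc v e')] at h3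
      refine ⟨_, h3 m' hm', ?_⟩
      refine Prod.ext ?_ ?_
      · simp only [D.sc_apply]
        ring
      · simp only [D.sc_apply]
        ring
  rw [h1]
  by_cases hJv : J ≤ v
  · constructor
    · intro _
      exact Or.inl hJv
    · intro _ e _
      exact (pow_dvd_pow _ hJv).mul_right _
  push Not at hJv
  set s := J - v with hs
  have hJs : J = v + s := by omega
  have hs1 : 1 ≤ s := by omega
  have h2 : (∀ e ∈ D.pr y.1 y.2.1 y.2.2, D.t ^ J ∣ D.t ^ v * lam a b e μ) ↔
      ∀ e ∈ D.pr y.1 y.2.1 y.2.2, D.t ^ s ∣ lam a b e μ := by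
    refine forall₂_congr fun e _ => ?_
    rw [hJs, pow_add]
    exact mul_dvd_mul_iff_left (D.tpow_ne v)
  rw [h2]
  constructor
  · intro h
    right
    have hsj : s ≤ j := by
      by_contra hcon
      push Not at hcon
      have h3 : ∀ u : R × R, D.t ∣ lam a b u μ := by
        intro u
        have h4 : (D.t ^ j * u.1, D.t ^ j * u.2) ∈ D.pr y.1 y.2.1 y.2.2 := by
          rw [mem_pr]
          simp only
          rw [← hj]
          exact ⟨(pform D y).1 * u.1 + (pform D y).2 * u.2, by ring⟩
        have h5 := h _ h4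
        have h6 : lam a b (D.t ^ j * u.1, D.t ^ j * u.2) μ = D.t ^ j * lam a b u μ := by
          unfold lam
          ring
        rw [h6] at h5
        obtain ⟨k, hk⟩ : ∃ k, s = j + (k + 1) := ⟨s - j - 1, by omega⟩
        rw [hk, pow_add, mul_dvd_mul_iff_left (D.tpow_ne j)] at h5
        exact (dvd_pow_self _ (Nat.succ_ne_zero k)).trans h5
      have h10 := h3 (1, 0)
      have h01 := h3 (0, 1)
      unfold lam at h10 h01
      simp only at h10 h01
      have e1 : D.t ∣ (a - b) * μ.1 ^ 2 := by
        have := dvd_add h01 (h10.mul_left b)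
        have e2 : (0 - b * 1) * μ.2 ^ 2 - (0 - a * 1) * μ.1 ^ 2 +
            b * ((1 - b * 0) * μ.2 ^ 2 - (1 - a * 0) * μ.1 ^ 2) = (a - b) * μ.1 ^ 2 := by ring
        rwa [e2] at this
      have e3 : D.t ∣ (a - b) * μ.2 ^ 2 := by
        have := dvd_add h01 (h10.mul_left a)
        have e2 : (0 - b * 1) * μ.2 ^ 2 - (0 - a * 1) * μ.1 ^ 2 +
            a * ((1 - b * 0) * μ.2 ^ 2 - (1 - a * 0) * μ.1 ^ 2) = (a - b) * μ.2 ^ 2 := by ring
        rwa [e2] at this
      rcases pform_one D x with h4 | h4
      · rw [← hμ] at h4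
        rw [h4, one_pow, mul_one] at e1
        exact D.not_unit_of_dvd e1 hab
      · rw [← hμ] at h4
        rw [h4, one_pow, mul_one] at e3
        exact D.not_unit_of_dvd e3 hab
    refine ⟨by omega, ?_⟩
    apply h
    rw [mem_pr, pvec_mem]
    exact dvd_zero _
  · rintro (h3 | ⟨h3, h4⟩)
    · omega
    · intro e he
      rw [mem_pr] at he
      obtain ⟨r, u, hu⟩ := pr_span D y e he
      rw [hu, lam_lin]
      refine dvd_add (h4.mul_left _) (Dvd.dvd.mul_right ?_ _)
      exact pow_dvd_pow _ (by omega)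

end Pool.Agent.T2h77U
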