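import Pool.Agent.T2h77U.Stm2

/-! The final assembly. -/

namespace Pool.Agent.T2h77U

open Polynomial Filter Topology Pool.Agent.H260TZ

section den
variable {K : Type} [Field K]

lemma DenK_append (q : K) (L1 L2 : List (ℤ × ℕ)) : DenK q (L1 ++ L2) = DenK q L1 * DenK q L2 := by
  unfold DenK
  rw [List.map_append, List.prod_append]

lemma coeff_fac (c : K) (b : ℕ) (F : PowerSeries K) (n : ℕ) :
    PowerSeries.coeff n ((1 - PowerSeries.C c * PowerSeries.X ^ b) * F) =
      PowerSeries.coeff n F - c * (if b ≤ n then PowerSeries.coeff (n - b) F else 0) := by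
  rw [sub_mul, one_mul, map_sub, mul_assoc, PowerSeries.coeff_C_mul, PowerSeries.coeff_X_pow_mul']

lemma DenK_bound (q : K) (L : List (ℤ × ℕ)) : ∀ (F : PowerSeries K) (B : ℕ),
    (∀ n, B < n → PowerSeries.coeff n F = 0) →
    ∀ n, B + (L.map Prod.snd).sum < n → PowerSeries.coeff n (DenK q L * F) = 0 := by
  induction L with
  | nil =>
    intro F B h n hn
    unfold DenK
    simp only [List.map_nil, List.prod_nil, one_mul]
    exact h n (by simpa using hn)
  | cons ab L ih =>
    intro F B h n hn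
    have h1 : DenK q (ab :: L) * F =
        (1 - PowerSeries.C (q ^ ab.1) * PowerSeries.X ^ ab.2) * (DenK q L * F) := by
      unfold DenK
      rw [List.map_cons, List.prod_cons, mul_assoc]
    rw [List.map_cons, List.sum_cons] at hn
    rw [h1, coeff_fac, ih F B h n (by omega)]
    split_ifs with h2
    · rw [ih F B h (n - ab.2) (by omega)]; simp
    · simp

end den

lemma tend_of_dvd (ℓ : ℕ) [Fact ℓ.Prime] (z : ℕ → ℤ) (w : ℤ) (h : ∀ t, (ℓ : ℤ) ^ t ∣ z t - w) :
    Tendsto (fun t => ((z t : ℤ) : ℚ_[ℓ])) atTop (𝓝 ((w : ℤ) : ℚ_[ℓ])) := by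
  rw [tendsto_iff_norm_sub_tendsto_zero]
  have hl : (1 : ℝ) < ℓ := by exact_mod_cast (Fact.out : ℓ.Prime).one_lt
  have h0 : Tendsto (fun t : ℕ => ((ℓ : ℝ)⁻¹) ^ t) atTop (𝓝 0) :=
    tendsto_pow_atTop_nhds_zero_of_lt_one (by positivity) (inv_lt_one_of_one_lt₀ hl)
  refine squeeze_zero (fun t => norm_nonneg _) (fun t => ?_) h0
  have h1 : ((z t : ℤ) : ℚ_[ℓ]) - ((w : ℤ) : ℚ_[ℓ]) = ((z t - w : ℤ) : ℚ_[ℓ]) := by push_cast; ring
  rw [h1]
  have h2 := (Padic.norm_int_le_pow_iff_dvd (p := ℓ) (z t - w) t).mpr (by exact_mod_cast h t)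
  rw [inv_pow, ← zpow_natCast, ← zpow_neg]
  exact h2

lemma KK_congr {F F' : Type} [CommRing F] [CommRing F'] (e : F ≃+* F') (I : Finset (Fin 4)) :
    KK F I = KK F' I := by
  unfold KK
  congr 1
  refine Nat.card_congr ((Equiv.prodCongr e.toEquiv
    (Equiv.piCongrRight fun _ => e.toEquiv)).subtypeEquiv ?_)
  rintro ⟨x, w⟩
  refine forall_congr' fun i => ?_
  simp only [Equiv.prodCongr_apply, Prod.map, Equiv.piCongrRight_apply, Pi.map_apply,
    RingEquiv.toEquiv_eq_coe, RingEquiv.coe_toEquiv, EquivLike.coe_coe]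
  split_ifs with h
  · rw [← e.injective.eq_iff, map_pow, map_mul, map_sub, map_sub, map_natCast, map_natCast]
  · rw [← e.injective.eq_iff, map_zero]

lemma wtc_dvd (m : ℤ) (K K' : Finset (Fin 4) → ℤ) (h : ∀ I, m ∣ K I - K' I) (v j : ℕ)
    (J : Fin 4 → ℕ) : m ∣ wtc K v j J - wtc K' v j J := by
  unfold wtc
  split_ifs with h0
  · simp
  · rw [← mul_sub]
    exact (h _).mul_left _

lemma chi_dvd (m : ℤ) (K K' : Finset (Fin 4) → ℤ) (h : ∀ I, m ∣ K I - K' I) (n : ℕ) :
    m ∣ chi K n - chi K' n := by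
  unfold chi
  simp only [← Finset.sum_sub_distrib]
  refine Finset.dvd_sum fun v _ => Finset.dvd_sum fun j _ => Finset.dvd_sum fun c _ =>
    Finset.dvd_sum fun J _ => ?_
  split_ifs with h1
  · exact wtc_dvd m K K' h v j J
  · simp

/-- the residue ring is the Galois field -/
noncomputable def resEquiv (p : ℕ) [Fact p.Prime] (f : ℕ) (hf : f ≠ 0) :
    (DV.witt p f hf).Q 1 ≃+* GaloisField p f :=
  (Ideal.quotEquivOfEq (by
    show Ideal.span {(DV.witt p f hf).t ^ 1} = Ideal.span {(p : WittVector p (GaloisField p f))}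
    rw [pow_one]; rfl)).trans (WittVector.quotientPEquiv (p := p) (k := GaloisField p f))

lemma isUnit_small (p : ℕ) [Fact p.Prime] (hp : 11 ≤ p) (f : ℕ) (a : ℕ) (h1 : 1 ≤ a) (h7 : a ≤ 7) :
    IsUnit (a : WittVector p (GaloisField p f)) := by
  apply WittVector.isUnit_of_coeff_zero_ne_zero
  have h2 : ((a : WittVector p (GaloisField p f)).coeff 0) = (a : GaloisField p f) := by
    have := map_natCast (WittVector.constantCoeff (p := p) (R := GaloisField p f)) a
    rw [← this]; rfl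
  rw [h2, Ne, CharP.cast_eq_zero_iff (GaloisField p f) p]
  intro h3
  have := Nat.le_of_dvd h1 h3
  omega

lemma teich (p : ℕ) [Fact p.Prime] (f : ℕ) (hf : f ≠ 0) (hT : S_TOR) (n : ℕ)
    (hfin : Finite {U : FinSub c10 (WittVector p (GaloisField p f)) //
        Nat.card ((Fin 10 → WittVector p (GaloisField p f)) ⧸ U.1) = (p ^ f) ^ n}) :
    (p : ℤ) ^ f - 1 ∣ (acount c10 (WittVector p (GaloisField p f)) (p ^ f) n : ℤ) -
      (gcount (DV.witt p f hf) n : ℤ) := by
  have h := hT (WittVector p (GaloisField p f)) (DV.witt p f hf) (GaloisField p f)ˣ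
    (Units.map (WittVector.teichmuller p)) (by
      intro g hg
      apply WittVector.isUnit_of_coeff_zero_ne_zero
      have h2 : ((((Units.map (WittVector.teichmuller p) g :
          (WittVector p (GaloisField p f))ˣ) : WittVector p (GaloisField p f)) - 1).coeff 0) =
            (g : GaloisField p f) - 1 := by
        have h3 := map_sub (WittVector.constantCoeff (p := p) (R := GaloisField p f))
          ((Units.map (WittVector.teichmuller p) g :
          (WittVector p (GaloisField p f))ˣ) : WittVector p (GaloisField p f)) 1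
        have h4 : (WittVector.constantCoeff (p := p) (R := GaloisField p f))
          ((Units.map (WittVector.teichmuller p) g :
          (WittVector p (GaloisField p f))ˣ) : WittVector p (GaloisField p f)) =
            (g : GaloisField p f) := by
          show (WittVector.teichmuller p (g : GaloisField p f)).coeff 0 = _
          exact WittVector.teichmuller_coeff_zero p _
        rw [h4, map_one] at h3
        exact h3
      rw [h2]
      intro h3
      apply hg
      ext
      rw [Units.val_one]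
      exact sub_eq_zero.mp h3) n hfin
  have hc : (Nat.card (GaloisField p f)ˣ : ℤ) = (p : ℤ) ^ f - 1 := by
    rw [Nat.card_units, GaloisField.card p f hf]
    have h1 : 1 ≤ p ^ f := Nat.one_le_pow _ _ (Fact.out : p.Prime).pos
    push_cast [Nat.cast_sub h1]
    ring
  rw [hc] at h
  exact h

theorem fin_main (hUR : S_UR) (hZ : S_ZVF) (hM : S_MOM) (hL : S_LIM) (hP2 : S_PO2)
    (hT : S_TOR) (hG : S_GCN) (hK : S_KKI) (hPol : S_POL) : S_FIN := by
  classical
  rintro N D ⟨hD, H, hH, h1⟩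
  haveI : Fact (Nat.Prime 2) := ⟨Nat.prime_two⟩
  obtain ⟨S, hS, h2⟩ := h1 2
  obtain ⟨p0, hp0⟩ := hUR 10 c10
  obtain ⟨p, hp, hpS⟩ := (Nat.infinite_setOf_prime).exists_notMem_finite
    (hS.union (Set.finite_Iic (p0 + 11)))
  haveI : Fact p.Prime := ⟨hp⟩
  have hpS' : p ∉ S := fun hh => hpS (Or.inl hh)
  have hp11 : p0 + 11 < p := by
    by_contra hh
    exact hpS (Or.inr (by simpa using hh))
  obtain ⟨e, he, h3⟩ := h2 p hpS'
  obtain ⟨L0, B0, hβ0, hur⟩ := hp0 p (by omega)
  obtain ⟨D1, hD1, hKK⟩ := hK 2 p (by omega) (by omega)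
  -- the exponents
  set ft : ℕ → ℕ := fun t => D1 * 2 ^ t with hft
  have hft1 : ∀ t, 1 ≤ ft t := fun t => Nat.mul_pos hD1 (by positivity)
  have hF0 : ∀ t, e * ft t ≠ 0 := fun t => (Nat.mul_pos he (hft1 t)).ne'
  have hdvdF : ∀ t, D1 * 2 ^ t ∣ e * ft t := fun t => Dvd.intro_left e rfl
  set q : ℕ → ℕ := fun t => p ^ (e * ft t) with hq
  have hq2 : ∀ t, 2 ≤ q t := fun t => Nat.one_lt_pow (hF0 t) hp.one_lt
  set a : ℕ → ℕ → ℚ := fun t n =>
    (acount c10 (WittVector p (GaloisField p (e * ft t))) (q t) n : ℚ) with ha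
  set L := L0 ++ List.replicate 10 ((0 : ℤ), 1) with hLL
  set B := B0 + 10 with hB
  have hβ : ∀ ab ∈ L, 1 ≤ ab.2 := by
    intro ab hab
    rcases List.mem_append.mp hab with h | h
    · exact hβ0 ab h
    · rw [List.eq_of_mem_replicate h]
  have hlen : 10 ≤ L.length := by
    rw [hLL, List.length_append, List.length_replicate]; omega
  have hcoef : ∀ t n, B < n → PowerSeries.coeff n (DenK ((q t : ℕ) : ℚ) L *
      PowerSeries.mk (a t)) = 0 := by
    intro t n hn
    rw [hLL, DenK_append, mul_comm (DenK _ L0), mul_assoc]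
    refine DenK_bound _ _ _ B0 (fun m hm => (hur (e * ft t) (hF0 t)).2.2 m hm) n ?_
    simp only [List.map_replicate, List.sum_replicate, smul_eq_mul]
    omega
  -- limits
  have hqt : ∀ t, (2 : ℤ) ^ t ∣ (q t : ℤ) - 1 := by
    intro t
    have := (hKK t (e * ft t) (Nat.one_le_iff_ne_zero.mpr (hF0 t)) (hdvdF t)).1
    simp only [hq]
    push_cast at this ⊢
    exact this
  have hqlim : Tendsto (fun t => (((q t : ℕ) : ℚ) : ℚ_[2])) atTop (𝓝 1) := by
    have := tend_of_dvd 2 (fun t => (q t : ℤ)) 1 (fun t => by exact_mod_cast hqt t)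
    simpa using this
  have hchi : ∀ t n, (2 : ℤ) ^ t ∣ (acount c10 (WittVector p (GaloisField p (e * ft t)))
      (q t) n : ℤ) - chi KS n := by
    intro t n
    have k1 := teich p (e * ft t) (hF0 t) hT n ((hur (e * ft t) (hF0 t)).2.1 n)
    have k2 := hG (WittVector p (GaloisField p (e * ft t))) (DV.witt p (e * ft t) (hF0 t))
      (fun a h1 h7 => isUnit_small p (by omega) _ a h1 h7) n
    have k3 : ((DV.witt p (e * ft t) (hF0 t)).q : ℤ) - 1 = (p : ℤ) ^ (e * ft t) - 1 := by
      rw [DV.witt_q]; push_cast; ring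
    rw [k3] at k2
    have k4 : (2 : ℤ) ^ t ∣ (p : ℤ) ^ (e * ft t) - 1 := by
      have := hqt t
      simp only [hq] at this
      push_cast at this
      exact this
    have k5 := chi_dvd ((2 : ℤ) ^ t)
      (fun I => (KK ((DV.witt p (e * ft t) (hF0 t)).Q 1) I : ℤ)) KS (fun I => by
        have k6 := (hKK t (e * ft t) (Nat.one_le_iff_ne_zero.mpr (hF0 t)) (hdvdF t)).2 I
        show (2 : ℤ) ^ t ∣ (KK ((DV.witt p (e * ft t) (hF0 t)).Q 1) I : ℤ) - KS I
        rw [KK_congr (resEquiv p (e * ft t) (hF0 t))]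
        unfold KS
        exact k6) n
    have k7 := dvd_add (dvd_add (k4.trans k1) (k4.trans k2)) k5
    have k8 : ((acount c10 (WittVector p (GaloisField p (e * ft t))) (q t) n : ℤ) - chi KS n) =
      ((acount c10 (WittVector p (GaloisField p (e * ft t))) (p ^ (e * ft t)) n : ℤ) -
        (gcount (DV.witt p (e * ft t) (hF0 t)) n : ℤ)) +
      ((gcount (DV.witt p (e * ft t) (hF0 t)) n : ℤ) -
        chi (fun I => (KK ((DV.witt p (e * ft t) (hF0 t)).Q 1) I : ℤ)) n) +
      (chi (fun I => (KK ((DV.witt p (e * ft t) (hF0 t)).Q 1) I : ℤ)) n - chi KS n) := by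
      simp only [hq]; ring
    rw [k8]
    exact k7
  have halim : ∀ n, Tendsto (fun t => ((a t n : ℚ) : ℚ_[2])) atTop
      (𝓝 (((chi KS n : ℤ) : ℚ) : ℚ_[2])) := by
    intro n
    have := tend_of_dvd 2 (fun t => (acount c10 (WittVector p (GaloisField p (e * ft t)))
      (q t) n : ℤ)) (chi KS n) (fun t => by exact_mod_cast hchi t n)
    simpa [ha] using this
  have hq1 : ∀ t, (1 : ℚ) < ((q t : ℕ) : ℚ) := by
    intro t
    have := hq2 t
    exact_mod_cast (by omega : 1 < q t)
  have hcl := hL 2 L (fun t => ((q t : ℕ) : ℚ)) a (fun n => ((chi KS n : ℤ) : ℚ)) hq1 hqlim halim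
  have hcs0 : ∀ n, B < n → PowerSeries.coeff n (DenK (1 : ℚ) L *
      PowerSeries.mk (fun n => ((chi KS n : ℤ) : ℚ))) = 0 := by
    intro n hn
    have k1 := hcl n
    simp only [hcoef _ n hn] at k1
    have k2 := tendsto_nhds_unique k1 tendsto_const_nhds
    exact_mod_cast k2
  have hmom := hP2 10 B L (chi KS) hβ hlen hcs0 hPol.1 hPol.2
  refine hM 2 10 B L N D H (fun t => ((q t : ℕ) : ℚ))
    (fun t n => PowerSeries.coeff n (DenK ((q t : ℕ) : ℚ) L * PowerSeries.mk (a t)))
    (fun n => PowerSeries.coeff n (DenK (1 : ℚ) L *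
      PowerSeries.mk (fun n => ((chi KS n : ℤ) : ℚ)))) hH hD hβ hlen hq1 hqlim
    (fun n _ => hcl n) ?_ hmom
  intro s hs
  obtain ⟨hDs, h4⟩ := h3 s hs
  refine ⟨hDs, ?_⟩
  set v : ℕ → ℚ := fun t =>
    if h : ∃ v, ZVal c10 (WittVector p (GaloisField p (e * ft t))) (q t) s v then h.choose else 0
    with hv
  have hvspec : ∀ t w, ZVal c10 (WittVector p (GaloisField p (e * ft t))) (q t) s w →
      v t = w ∧ ZVal c10 (WittVector p (GaloisField p (e * ft t))) (q t) s (v t) := by
    intro t w hw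
    have hex : ∃ v, ZVal c10 (WittVector p (GaloisField p (e * ft t))) (q t) s v := ⟨w, hw⟩
    have h5 : v t = hex.choose := by simp only [hv]; rw [dif_pos hex]
    have h6 := zval_unique (hq2 t) hex.choose_spec hw
    rw [h5]
    exact ⟨h6, hex.choose_spec⟩
  refine ⟨v, ?_, ?_⟩
  · rw [Metric.tendsto_atTop]
    intro ε hε
    obtain ⟨m, hm⟩ := h4 ε hε
    refine ⟨m, fun t ht => ?_⟩
    obtain ⟨w, hw, hw2⟩ := hm (ft t) (hft1 t) ((pow_dvd_pow 2 ht).mul_left D1)
    rw [(hvspec t w hw).1, dist_eq_norm, ← Rat.cast_sub]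
    exact hw2
  · obtain ⟨m, hm⟩ := h4 1 one_pos
    filter_upwards [eventually_ge_atTop m] with t ht
    obtain ⟨w, hw, hw2⟩ := hm (ft t) (hft1 t) ((pow_dvd_pow 2 ht).mul_left D1)
    exact hZ 10 c10 (WittVector p (GaloisField p (e * ft t))) (q t) L B (hq2 t) hβ
      (hur (e * ft t) (hF0 t)).1 (hcoef t) s (v t) (hvspec t w hw).2

end Pool.Agent.T2h77U
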