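import Pool.Agent.T2h77U.Stm2

/-! GCN: the number of graded subalgebras modulo `q - 1` (helper11). -/

set_option autoImplicit false
set_option linter.all false

namespace Pool.Agent.T2h77U

open Polynomial Filter Topology Pool.Agent.H260TZ

namespace GcnAux

variable {R : Type} [CommRing R] [IsDomain R] (D : DV R)

/-- the condition of `CRI` -/
def cnd (v : ℕ) (y : BQ D) (i : Fin 4) (x : BQ D) : Prop :=
  DV.ex x.1 x.2.1 ≤ v ∨ (DV.ex x.1 x.2.1 ≤ v + DV.ex y.1 y.2.1 ∧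
    D.t ^ (DV.ex x.1 x.2.1 - v) ∣ lam ((2 * i.1 : ℕ) : R) ((2 * i.1 + 1 : ℕ) : R) (pvec D y) (pform D x))

instance finBQ (j : ℕ) : Finite {x : BQ D // DV.ex x.1 x.2.1 = j} := by
  have h : ∀ x : {x : BQ D // DV.ex x.1 x.2.1 = j}, x.1.2.1 < j + 1 := by
    rintro ⟨⟨b, n, z⟩, h⟩
    unfold DV.ex at h
    cases b
    · simp at h
      simp only
      omega
    · simp at h
      simp only
      omega
  let f : {x : BQ D // DV.ex x.1 x.2.1 = j} → Bool × (Σ n : Fin (j + 1), D.Q n) := fun x =>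
    (x.1.1, ⟨⟨x.1.2.1, h x⟩, x.1.2.2⟩)
  refine Finite.of_injective f ?_
  rintro ⟨⟨b, n, z⟩, hx⟩ ⟨⟨b', n', z'⟩, hx'⟩ hf
  simp only [f, Prod.mk.injEq, Sigma.mk.injEq, Fin.mk.injEq] at hf
  obtain ⟨rfl, rfl, hz⟩ := hf
  obtain rfl := eq_of_heq hz
  rfl

/-- the set of `S_SMW` -/
abbrev FB (v j : ℕ) (J : Fin 4 → ℕ) : Type :=
  {x : BQ D × (Fin 4 → BQ D) // DV.ex x.1.1 x.1.2.1 = j ∧ ∀ i : Fin 4,
    DV.ex (x.2 i).1 (x.2 i).2.1 = J i ∧ (J i ≤ v ∨ (J i ≤ v + j ∧ D.t ^ (J i - v) ∣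
      lam ((2 * i.1 : ℕ) : R) ((2 * i.1 + 1 : ℕ) : R) (pvec D x.1) (pform D (x.2 i))))}

instance finFB (v j : ℕ) (J : Fin 4 → ℕ) : Finite (FB D v j J) := by
  let f : FB D v j J → {x : BQ D // DV.ex x.1 x.2.1 = j} ×
      ((i : Fin 4) → {x : BQ D // DV.ex x.1 x.2.1 = J i}) := fun x =>
    (⟨x.1.1, x.2.1⟩, fun i => ⟨x.1.2 i, (x.2.2 i).1⟩)
  refine Finite.of_injective f ?_
  rintro ⟨⟨y, x⟩, hx⟩ ⟨⟨y', x'⟩, hx'⟩ hf
  simp only [f, Prod.mk.injEq, Subtype.mk.injEq] at hf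
  obtain ⟨rfl, hz⟩ := hf
  have : x = x' := by
    funext i
    have := congrFun hz i
    simpa using this
  subst this
  rfl

/-- the index set -/
noncomputable def TT (n : ℕ) : Finset (ℕ × ℕ × (Fin 4 → ℕ) × (Fin 4 → ℕ)) :=
  ((Finset.range (n + 1)) ×ˢ (Finset.range (n + 1)) ×ˢ
    (Fintype.piFinset (fun _ : Fin 4 => Finset.range (n + 1))) ×ˢ
    (Fintype.piFinset (fun _ : Fin 4 => Finset.range (n + 1)))).filter
      fun τ => 2 * τ.1 + τ.2.1 + ∑ i, (2 * τ.2.2.1 i + τ.2.2.2 i) = n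

theorem mem_TT {n : ℕ} {τ : ℕ × ℕ × (Fin 4 → ℕ) × (Fin 4 → ℕ)} :
    τ ∈ TT n ↔ 2 * τ.1 + τ.2.1 + ∑ i, (2 * τ.2.2.1 i + τ.2.2.2 i) = n := by
  unfold TT
  rw [Finset.mem_filter]
  constructor
  · exact fun h => h.2
  · intro h
    refine ⟨?_, h⟩
    have h1 : ∀ i, 2 * τ.2.2.1 i + τ.2.2.2 i ≤ n := fun i => by
      have := Finset.single_le_sum (f := fun i => 2 * τ.2.2.1 i + τ.2.2.2 i)
        (fun _ _ => Nat.zero_le _) (Finset.mem_univ i)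
      omega
    rw [Finset.mem_product, Finset.mem_product, Finset.mem_product, Finset.mem_range,
      Finset.mem_range, Fintype.mem_piFinset, Fintype.mem_piFinset]
    refine ⟨by omega, by omega, fun i => ?_, fun i => ?_⟩
    · rw [Finset.mem_range]
      have := h1 i
      omega
    · rw [Finset.mem_range]
      have := h1 i
      omega

theorem sum_TT (n : ℕ) (F : ℕ → ℕ → (Fin 4 → ℕ) → (Fin 4 → ℕ) → ℤ) :
    ∑ τ ∈ TT n, F τ.1 τ.2.1 τ.2.2.1 τ.2.2.2 =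
    ∑ v ∈ Finset.range (n + 1), ∑ j ∈ Finset.range (n + 1),
    ∑ c ∈ Fintype.piFinset (fun _ : Fin 4 => Finset.range (n + 1)),
      ∑ J ∈ Fintype.piFinset (fun _ : Fin 4 => Finset.range (n + 1)),
        if 2 * v + j + ∑ i, (2 * c i + J i) = n then F v j c J else 0 := by
  unfold TT
  rw [Finset.sum_filter, Finset.sum_product]
  refine Finset.sum_congr rfl fun v _ => ?_
  rw [Finset.sum_product]
  refine Finset.sum_congr rfl fun j _ => ?_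
  rw [Finset.sum_product]

/-- the parametrised set -/
abbrev AA (n : ℕ) : Type :=
  {x : (ℕ × BQ D) × (Fin 4 → ℕ × BQ D) //
    (∀ i : Fin 4, Cl ((2 * i.1 : ℕ) : R) ((2 * i.1 + 1 : ℕ) : R) (D.par x.1) (D.par (x.2 i))) ∧
    2 * x.1.1 + DV.ex x.1.2.1 x.1.2.2.1 +
      ∑ i, (2 * (x.2 i).1 + DV.ex (x.2 i).2.1 (x.2 i).2.2.1) = n}

theorem gcount_eq (n : ℕ) : gcount D n = Nat.card (AA D n) := by
  unfold gcount
  refine (Nat.card_congr ?_).symm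
  refine Equiv.subtypeEquiv (Equiv.prodCongr D.parE (Equiv.piCongrRight fun _ => D.parE)) ?_
  rintro ⟨x, xs⟩
  have e1 : idx (D.par x) * ∏ i, idx (D.par (xs i)) =
      D.q ^ (2 * x.1 + DV.ex x.2.1 x.2.2.1 +
        ∑ i, (2 * (xs i).1 + DV.ex (xs i).2.1 (xs i).2.2.1)) := by
    rw [D.idx_par, Finset.prod_congr rfl fun i _ => D.idx_par (xs i), Finset.prod_pow_eq_pow_sum,
      ← pow_add]
  have e2 : ∀ i, ((Equiv.piCongrRight fun _ : Fin 4 => D.parE) xs i).1 = D.par (xs i) := fun i => rfl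
  have e3 : (D.parE x).1 = D.par x := rfl
  simp only [Equiv.prodCongr_apply, Prod.map]
  constructor
  · rintro ⟨h1, h2⟩
    refine ⟨fun i => h1 i, ?_⟩
    have e4 : idx (D.parE x).1 * ∏ i, idx ((Equiv.piCongrRight fun _ : Fin 4 => D.parE) xs i).1 =
      idx (D.par x) * ∏ i, idx (D.par (xs i)) := rfl
    rw [e4, e1]
    exact congrArg _ h2
  · rintro ⟨h1, h2⟩
    refine ⟨fun i => h1 i, ?_⟩
    have e4 : idx (D.parE x).1 * ∏ i, idx ((Equiv.piCongrRight fun _ : Fin 4 => D.parE) xs i).1 =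
      idx (D.par x) * ∏ i, idx (D.par (xs i)) := rfl
    rw [e4, e1] at h2
    exact Nat.pow_right_injective D.two_le h2

end GcnAux

open GcnAux in
theorem gcn (h1 : S_CRI) (h2 : S_SMW) : S_GCN := by
  intro R _ _ D hu n
  classical
  have hcl : ∀ (i : Fin 4) (v c : ℕ) (y x : BQ D),
      Cl ((2 * i.1 : ℕ) : R) ((2 * i.1 + 1 : ℕ) : R) (D.par (v, y)) (D.par (c, x)) ↔
        cnd D v y i x := by
    intro i v c y x
    refine h1 R D _ _ ?_ v c y x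
    have : (((2 * i.1 : ℕ) : R)) - ((2 * i.1 + 1 : ℕ) : R) = -1 := by
      push_cast
      ring
    rw [this]
    exact isUnit_one.neg
  -- the partition
  let e : AA D n ≃ Σ τ : {τ // τ ∈ TT n}, FB D τ.1.1 τ.1.2.1 τ.1.2.2.2 :=
    { toFun := fun x => ⟨⟨(x.1.1.1, DV.ex x.1.1.2.1 x.1.1.2.2.1, fun i => (x.1.2 i).1,
          fun i => DV.ex (x.1.2 i).2.1 (x.1.2 i).2.2.1), mem_TT.2 x.2.2⟩,
        ⟨(x.1.1.2, fun i => (x.1.2 i).2), rfl, fun i => ⟨rfl, (hcl i _ _ _ _).1 (x.2.1 i)⟩⟩⟩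
      invFun := fun w => ⟨((w.1.1.1, w.2.1.1), fun i => (w.1.1.2.2.1 i, w.2.1.2 i)), by
        obtain ⟨⟨⟨v, j, c, J⟩, hτ⟩, ⟨⟨y, x⟩, hy, hx⟩⟩ := w
        simp only at hy hx ⊢
        subst hy
        have hJ : J = fun i => DV.ex (x i).1 (x i).2.1 := funext fun i => ((hx i).1).symm
        subst hJ
        refine ⟨fun i => (hcl i _ _ _ _).2 (hx i).2, ?_⟩
        exact mem_TT.1 hτ⟩
      left_inv := fun x => rfl
      right_inv := fun w => by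
        obtain ⟨⟨⟨v, j, c, J⟩, hτ⟩, ⟨⟨y, x⟩, hy, hx⟩⟩ := w
        simp only at hy hx ⊢
        subst hy
        have hJ : J = fun i => DV.ex (x i).1 (x i).2.1 := funext fun i => ((hx i).1).symm
        subst hJ
        rfl }
  have h3 : (gcount D n : ℤ) = ∑ τ ∈ TT n, (Nat.card (FB D τ.1 τ.2.1 τ.2.2.2) : ℤ) := by
    rw [gcount_eq, Nat.card_congr e, Nat.card_sigma]
    push_cast
    rw [← Finset.sum_coe_sort (TT n) (fun τ => (Nat.card (FB D τ.1 τ.2.1 τ.2.2.2) : ℤ))]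
  have h4 : chi (fun I => (KK (D.Q 1) I : ℤ)) n =
      ∑ τ ∈ TT n, wtc (fun I => (KK (D.Q 1) I : ℤ)) τ.1 τ.2.1 τ.2.2.2 := by
    unfold chi
    exact (sum_TT n (fun v j _ J => wtc (fun I => (KK (D.Q 1) I : ℤ)) v j J)).symm
  rw [h3, h4, ← Finset.sum_sub_distrib]
  exact Finset.dvd_sum fun τ _ => h2 R D hu τ.1 τ.2.1 τ.2.2.2

end Pool.Agent.T2h77U
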