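import Pool.Agent.T2h77U.Stm

/-! Closure properties of good families. -/

namespace Pool.Agent.T2h77U

lemma semi_le {s : Type} [Fintype s] (a b : s → ℕ) (c d : ℕ) :
    IsSemilinearSet {γ : s → ℕ | ∑ j, a j * γ j + c ≤ ∑ j, b j * γ j + d} := by
  let f : (s ⊕ Unit → ℕ) →+ ℕ :=
    { toFun := fun x => ∑ j, a j * x (Sum.inl j) + x (Sum.inr ())
      map_zero' := by simp
      map_add' := by
        intro x y
        simp only [Pi.add_apply, mul_add, Finset.sum_add_distrib]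
        ring }
  let g : (s ⊕ Unit → ℕ) →+ ℕ :=
    { toFun := fun x => ∑ j, b j * x (Sum.inl j)
      map_zero' := by simp
      map_add' := by
        intro x y
        simp only [Pi.add_apply, mul_add, Finset.sum_add_distrib] }
  have h1 : IsSemilinearSet {x : s ⊕ Unit → ℕ | c + f x = d + g x} :=
    isSemilinearSet_setOfPred_eq c d f g
  have h2 := h1.proj
  refine (congrArg IsSemilinearSet ?_).mp h2
  ext γ
  simp only [Set.mem_ofPred_eq]
  constructor
  · rintro ⟨y, hy⟩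
    have h3 : c + (∑ j, a j * γ j + y ()) = d + ∑ j, b j * γ j := hy
    omega
  · intro h
    refine ⟨fun _ => ∑ j, b j * γ j + d - (∑ j, a j * γ j + c), ?_⟩
    show c + (∑ j, a j * γ j + (∑ j, b j * γ j + d - (∑ j, a j * γ j + c))) = d + ∑ j, b j * γ j
    omega

theorem goo : S_GOO := by
  classical
  intro ι k
  refine ⟨?_, ?_, ?_, ?_, ?_, ?_, ?_, ?_⟩
  · rintro s R ⟨C, hC, hC2, hR⟩
    refine ⟨C, hC, hC2, fun i ρ ρ' h1 h2 => ?_⟩
    exact not_congr (hR i ρ ρ' h1 h2)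
  · intro s J _ R hR
    choose C hC hC2 hR using hR
    refine ⟨⋃ j, C j, Set.finite_iUnion hC, ?_, fun i ρ ρ' h1 h2 => ?_⟩
    · intro c hc
      obtain ⟨j, hj⟩ := Set.mem_iUnion.mp hc
      exact hC2 j c hj
    · simp only [Set.mem_iInter]
      exact forall_congr' fun j => hR j i ρ ρ' h1 fun c hc => h2 c (Set.mem_iUnion.mpr ⟨j, hc⟩)
  · intro s J _ R hR
    choose C hC hC2 hR using hR
    refine ⟨⋃ j, C j, Set.finite_iUnion hC, ?_, fun i ρ ρ' h1 h2 => ?_⟩
    · intro c hc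
      obtain ⟨j, hj⟩ := Set.mem_iUnion.mp hc
      exact hC2 j c hj
    · simp only [Set.mem_iUnion]
      exact exists_congr fun j => hR j i ρ ρ' h1 fun c hc => h2 c (Set.mem_iUnion.mpr ⟨j, hc⟩)
  · rintro s s' _ _ f R ⟨C, hC, hC2, hR⟩
    refine ⟨(fun c => (LinearMap.funLeft ℕ ℕ f) ⁻¹' c) '' C, hC.image _, ?_,
      fun i ρ ρ' h1 h2 => ?_⟩
    · rintro _ ⟨c, hc, rfl⟩
      exact (hC2 c hc).preimage _
    · refine hR i _ _ (fun j => h1 (f j)) fun c hc => ?_
      exact h2 _ ⟨c, hc, rfl⟩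
  · rintro s u _ _ R ⟨C, hC, hC2, hR⟩
    -- atoms
    set at' : Set (Set (s ⊕ u → ℕ)) → Set (s ⊕ u → ℕ) := fun E =>
      {x | ∀ c ∈ C, (x ∈ c ↔ c ∈ E)} with hat
    have hsemi : ∀ E, IsSemilinearSet (at' E) := by
      intro E
      have h1 : at' E = ⋂ c ∈ C, (if c ∈ E then c else cᶜ) := by
        ext x
        simp only [hat, Set.mem_ofPred_eq, Set.mem_iInter]
        refine forall₂_congr fun c hc => ?_
        split_ifs with h
        · simp [h]
        · simp [h]
      rw [h1]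
      apply IsSemilinearSet.biInter hC
      intro c hc
      split_ifs
      · exact hC2 c hc
      · exact (hC2 c hc).compl
    refine ⟨(fun E => {x : s → ℕ | ∃ y, Sum.elim x y ∈ at' E}) '' (𝒫 C), ?_, ?_,
      fun i ρ ρ' h1 h2 => ?_⟩
    · exact hC.finite_subsets.image _
    · rintro _ ⟨E, _, rfl⟩
      exact (hsemi E).proj
    · have key : ∀ ρ ρ' : s → ℕ × k i, (∀ j, (ρ j).2 = (ρ' j).2) →
          (∀ c ∈ (fun E => {x : s → ℕ | ∃ y, Sum.elim x y ∈ at' E}) '' (𝒫 C),
            ((fun j => (ρ j).1) ∈ c ↔ (fun j => (ρ' j).1) ∈ c)) →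
          (∃ τ : u → ℕ × k i, Sum.elim ρ τ ∈ R i) → ∃ τ : u → ℕ × k i, Sum.elim ρ' τ ∈ R i := by
        rintro ρ ρ' h1 h2 ⟨τ, hτ⟩
        set E : Set (Set (s ⊕ u → ℕ)) := {c ∈ C | (fun j => (Sum.elim ρ τ j).1) ∈ c} with hE
        have hEC : E ∈ 𝒫 C := fun c hc => hc.1
        have h3 : (fun j => (ρ j).1) ∈ {x : s → ℕ | ∃ y, Sum.elim x y ∈ at' E} := by
          refine ⟨fun j => (τ j).1, ?_⟩
          intro c hc
          have h4 : (Sum.elim (fun j => (ρ j).1) fun j => (τ j).1 : s ⊕ u → ℕ) =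
              fun j => (Sum.elim ρ τ j).1 := by
            funext j; cases j <;> rfl
          rw [h4]
          exact ⟨fun h => ⟨hc, h⟩, fun h => h.2⟩
        obtain ⟨y, hy⟩ := (h2 _ ⟨E, hEC, rfl⟩).mp h3
        refine ⟨fun j => (y j, (τ j).2), ?_⟩
        refine (hR i (Sum.elim ρ τ) _ ?_ ?_).mp hτ
        · intro j
          cases j with
          | inl j => exact h1 j
          | inr j => rfl
        · intro c hc
          have h5 := hy c hc
          have h6 : (fun j => ((Sum.elim ρ' (fun j => (y j, (τ j).2)) : s ⊕ u → ℕ × k i) j).1) =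
              (Sum.elim (fun j => (ρ' j).1) y : s ⊕ u → ℕ) := by
            funext j; cases j <;> rfl
          rw [h6, h5]
          exact ⟨fun h => ⟨hc, h⟩, fun h => h.2⟩
      exact ⟨key ρ ρ' h1 h2, key ρ' ρ (fun j => (h1 j).symm) fun c hc => (h2 c hc).symm⟩
  · intro s A
    refine ⟨∅, Set.finite_empty, by simp, fun i ρ ρ' h1 _ => ?_⟩
    simp only [Set.mem_ofPred_eq]
    have : (fun j => (ρ j).2) = fun j => (ρ' j).2 := funext h1
    rw [this]
  · intro s _ c hc
    exact ⟨{c}, Set.finite_singleton _, by simpa using hc, fun i ρ ρ' _ h2 => h2 c rfl⟩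
  · intro s _ a b c d
    exact ⟨{_}, Set.finite_singleton _, by simpa using semi_le a b c d,
      fun i ρ ρ' _ h2 => h2 _ rfl⟩

end Pool.Agent.T2h77U
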