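import Pool.Agent.T2h77U.Stm

/-! Task GRA (helper85): generating functions of good families of relations. -/

namespace Pool.Agent.T2h77U

namespace GRAS

/-- coefficients vanish beyond `B` -/
def Van (F : PowerSeries ℝ) (B : ℕ) : Prop := ∀ n, B < n → PowerSeries.coeff n F = 0

theorem van_mono {F : PowerSeries ℝ} {B B' : ℕ} (h : Van F B) (hB : B ≤ B') : Van F B' :=
  fun n hn => h n (lt_of_le_of_lt hB hn)

theorem van_step {F : PowerSeries ℝ} {B : ℕ} (h : Van F B) (a : ℝ) (b : ℕ) :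
    Van ((1 - PowerSeries.C a * PowerSeries.X ^ b) * F) (B + b) := by
  intro n hn
  have h1 : PowerSeries.coeff n F = 0 := h n (by omega)
  have h2 : PowerSeries.coeff n (PowerSeries.X ^ b * F) = 0 := by
    rw [PowerSeries.coeff_X_pow_mul', if_pos (by omega)]
    exact h _ (by omega)
  rw [sub_mul, one_mul, map_sub, h1, mul_assoc, PowerSeries.coeff_C_mul, h2, mul_zero, sub_zero]

theorem denP_cons (q : ℝ) (ab : ℤ × ℕ) (L : List (ℤ × ℕ)) :
    DenP q (ab :: L) = (1 - PowerSeries.C (q ^ ab.1) * PowerSeries.X ^ ab.2) * DenP q L := by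
  unfold DenP
  rw [List.map_cons, List.prod_cons]

theorem denP_append (q : ℝ) (L L' : List (ℤ × ℕ)) : DenP q (L ++ L') = DenP q L * DenP q L' := by
  unfold DenP
  rw [List.map_append, List.prod_append]

theorem van_den {F : PowerSeries ℝ} {B : ℕ} (h : Van F B) (q : ℝ) (L : List (ℤ × ℕ)) :
    Van (DenP q L * F) (B + (L.map Prod.snd).sum) := by
  induction L with
  | nil =>
    unfold DenP
    simpa using h
  | cons ab L ih =>
    rw [denP_cons, mul_assoc, List.map_cons, List.sum_cons]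
    have := van_step ih (q ^ ab.1) ab.2
    exact van_mono this (by omega)

/-- the part of a concatenation -/
theorem van_flat {E : Type} (l : List E) (f : E → List (ℤ × ℕ)) (e : E) (he : e ∈ l) (q : ℝ)
    {F : PowerSeries ℝ} {B : ℕ} (h : Van (DenP q (f e) * F) B) :
    Van (DenP q (l.flatMap f) * F) (B + ((l.flatMap f).map Prod.snd).sum) := by
  obtain ⟨s, t, rfl⟩ := List.append_of_mem he
  have h1 : DenP q ((s ++ e :: t).flatMap f) * F =
      DenP q (s.flatMap f ++ t.flatMap f) * (DenP q (f e) * F) := by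
    rw [List.flatMap_append, List.flatMap_cons, denP_append, denP_append, denP_append]
    ring
  rw [h1]
  refine van_mono (van_den h q _) ?_
  rw [List.flatMap_append, List.flatMap_cons]
  simp only [List.map_append, List.sum_append]
  omega

variable {r : ℕ}

/-- the atoms -/
def At {Ci : Type} (c : Ci → Set (Fin r → ℕ)) (E : Ci → Bool) : Set (Fin r → ℕ) :=
  {γ | ∀ x, γ ∈ c x ↔ E x = true}

theorem at_semi {Ci : Type} [Finite Ci] (c : Ci → Set (Fin r → ℕ))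
    (hc : ∀ x, IsSemilinearSet (c x)) (E : Ci → Bool) : IsSemilinearSet (At c E) := by
  have h : At c E = ⋂ x, (if E x = true then c x else (c x)ᶜ) := by
    ext γ
    unfold At
    rw [Set.mem_iInter]
    refine forall_congr' fun x => ?_
    by_cases hx : E x = true
    · simp [hx]
    · simp [hx]
  rw [h]
  refine IsSemilinearSet.iInter fun x => ?_
  split_ifs
  · exact hc x
  · exact (hc x).compl

open Classical in
/-- the atom of a vector -/
noncomputable def cl {Ci : Type} (c : Ci → Set (Fin r → ℕ)) (γ : Fin r → ℕ) : Ci → Bool :=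
  fun x => decide (γ ∈ c x)

theorem mem_cl {Ci : Type} (c : Ci → Set (Fin r → ℕ)) (γ : Fin r → ℕ) : γ ∈ At c (cl c γ) := by
  intro x
  exact (@decide_eq_true_iff _ (Classical.propDecidable _)).symm

theorem cl_eq {Ci : Type} (c : Ci → Set (Fin r → ℕ)) {γ : Fin r → ℕ} {E : Ci → Bool}
    (h : γ ∈ At c E) : cl c γ = E := by
  funext x
  have h1 := h x
  have h2 := mem_cl c γ x
  cases hE : E x <;> cases hC : cl c γ x <;> simp_all

section one

variable {Ci K : Type} (c : Ci → Set (Fin r → ℕ)) (Z : Set (Fin r → ℕ × K))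

/-- the vectors of residues in `Z` over an atom -/
def Rs (E : Ci → Bool) : Set (Fin r → K) :=
  {a | ∃ τ ∈ Z, (fun j => (τ j).1) ∈ At c E ∧ (fun j => (τ j).2) = a}

/-- the decomposition -/
noncomputable def dec (hZ : ∀ ρ ρ' : Fin r → ℕ × K, (∀ j, (ρ j).2 = (ρ' j).2) →
      (∀ x, ((fun j => (ρ j).1) ∈ c x ↔ (fun j => (ρ' j).1) ∈ c x)) → (ρ ∈ Z ↔ ρ' ∈ Z))
    (M : (Fin r → ℕ) →+ ℕ) (n : ℕ) :
    (Σ E : Ci → Bool, Σ _ : Rs c Z E, {γ : Fin r → ℕ // γ ∈ At c E ∧ M γ = n}) ≃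
      {τ : Fin r → ℕ × K // τ ∈ Z ∧ M (fun j => (τ j).1) = n} where
  toFun x := ⟨fun j => (x.2.2.1 j, x.2.1.1 j), by
    obtain ⟨E, ⟨a, τ, hτ, hE, ha⟩, ⟨γ, hγ, hM⟩⟩ := x
    refine ⟨?_, hM⟩
    refine (hZ τ _ (fun j => ?_) fun y => ?_).1 hτ
    · exact congrFun ha j
    · exact (hE y).trans (hγ y).symm⟩
  invFun τ := ⟨cl c (fun j => (τ.1 j).1), ⟨fun j => (τ.1 j).2, τ.1, τ.2.1, mem_cl c _, rfl⟩,
    ⟨fun j => (τ.1 j).1, mem_cl c _, τ.2.2⟩⟩
  left_inv x := by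
    obtain ⟨E, ⟨a, ha⟩, ⟨γ, hγ, hM⟩⟩ := x
    obtain rfl := cl_eq c hγ
    rfl
  right_inv τ := rfl

theorem tsum_dec [Finite Ci] [Finite K]
    (hZ : ∀ ρ ρ' : Fin r → ℕ × K, (∀ j, (ρ j).2 = (ρ' j).2) →
      (∀ x, ((fun j => (ρ j).1) ∈ c x ↔ (fun j => (ρ' j).1) ∈ c x)) → (ρ ∈ Z ↔ ρ' ∈ Z))
    (M : (Fin r → ℕ) →+ ℕ) (n : ℕ) (g : (Fin r → ℕ) → ℝ)
    (hs : Summable fun τ : {τ : Fin r → ℕ × K // τ ∈ Z ∧ M (fun j => (τ j).1) = n} =>
      g fun j => (τ.1 j).1) [Fintype (Ci → Bool)] :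
    ∑' τ : {τ : Fin r → ℕ × K // τ ∈ Z ∧ M (fun j => (τ j).1) = n}, (g fun j => (τ.1 j).1) =
      ∑ E : Ci → Bool, (Nat.card (Rs c Z E) : ℝ) *
        ∑' γ : {γ : Fin r → ℕ // γ ∈ At c E ∧ M γ = n}, g γ.1 := by
  have h1 : Summable fun x => g fun j => (((dec c Z hZ M n) x).1 j).1 :=
    ((dec c Z hZ M n).summable_iff).2 hs
  rw [← (dec c Z hZ M n).tsum_eq, Summable.tsum_sigma h1, tsum_fintype]
  refine Finset.sum_congr rfl fun E _ => ?_
  have h2 := h1.sigma_factor E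
  have h3 := h2.tsum_sigma
  refine h3.trans ?_
  have : Fintype (Rs c Z E) := Fintype.ofFinite _
  rw [tsum_fintype]
  have h4 : ∀ b : Rs c Z E, (∑' γ : {γ : Fin r → ℕ // γ ∈ At c E ∧ M γ = n},
      g fun j => (((dec c Z hZ M n) ⟨E, b, γ⟩).1 j).1) =
      ∑' γ : {γ : Fin r → ℕ // γ ∈ At c E ∧ M γ = n}, g γ.1 := fun b => rfl
  rw [Finset.sum_congr rfl fun b _ => h4 b, Finset.sum_const, Finset.card_univ, nsmul_eq_mul,
    Nat.card_eq_fintype_card]

theorem summable_dec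
    (hZ : ∀ ρ ρ' : Fin r → ℕ × K, (∀ j, (ρ j).2 = (ρ' j).2) →
      (∀ x, ((fun j => (ρ j).1) ∈ c x ↔ (fun j => (ρ' j).1) ∈ c x)) → (ρ ∈ Z ↔ ρ' ∈ Z))
    (M : (Fin r → ℕ) →+ ℕ) (n : ℕ) (g : (Fin r → ℕ) → ℝ)
    (hs : Summable fun τ : {τ : Fin r → ℕ × K // τ ∈ Z ∧ M (fun j => (τ j).1) = n} =>
      g fun j => (τ.1 j).1) (E : Ci → Bool) (a : Rs c Z E) :
    Summable fun γ : {γ : Fin r → ℕ // γ ∈ At c E ∧ M γ = n} => g γ.1 := by
  have h1 := ((dec c Z hZ M n).summable_iff).2 hs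
  exact (h1.sigma_factor E).sigma_factor a

end one

end GRAS

open GRAS in
theorem gra (h : S_HSS) : S_GRA := by
  classical
  intro ι k _ _ r Z hZ A M
  obtain ⟨C, hC, hsem, hgood⟩ := hZ
  have : Finite C := hC
  have : Fintype C := Fintype.ofFinite _
  obtain ⟨c, hc⟩ : ∃ c : C → Set (Fin r → ℕ), c = fun x => x.1 := ⟨_, rfl⟩
  have hat : ∀ E : C → Bool, IsSemilinearSet (At c E) := fun E =>
    at_semi c (fun x => by rw [hc]; exact hsem _ x.2) E
  choose Lf Bf hLf hBf using fun E : C → Bool => h r (At c E) (hat E) A M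
  refine ⟨(Finset.univ.toList).flatMap Lf, (∑ E, Bf E) +
    (((Finset.univ.toList).flatMap Lf).map Prod.snd).sum, ?_, ?_⟩
  · intro ab hab
    rw [List.mem_flatMap] at hab
    obtain ⟨E, _, hE⟩ := hab
    exact hLf E ab hE
  · intro i hs n hn
    obtain ⟨q, hq⟩ : ∃ q : ℝ, q = (Nat.card (k i) : ℝ) := ⟨_, rfl⟩
    have hq1 : 1 < q := by
      rw [hq]
      exact_mod_cast Finite.one_lt_card
    rw [← hq] at hs ⊢
    have hg : ∀ ρ ρ' : Fin r → ℕ × k i, (∀ j, (ρ j).2 = (ρ' j).2) →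
      (∀ x, ((fun j => (ρ j).1) ∈ c x ↔ (fun j => (ρ' j).1) ∈ c x)) → (ρ ∈ Z i ↔ ρ' ∈ Z i) := by
      intro ρ ρ' h1 h2
      refine hgood i ρ ρ' h1 fun x hx => ?_
      have := h2 ⟨x, hx⟩
      rwa [hc] at this
    have key : (PowerSeries.mk fun n => ∑' τ : {τ : Fin r → ℕ × k i //
          τ ∈ Z i ∧ M (fun j => (τ j).1) = n}, q ^ (A fun j => (τ.1 j).1)) =
        ∑ E : C → Bool, PowerSeries.C (Nat.card (Rs c (Z i) E) : ℝ) *
          PowerSeries.mk (fun n => ∑' γ : {γ : Fin r → ℕ // γ ∈ At c E ∧ M γ = n},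
            q ^ (A γ.1)) := by
      ext n
      rw [PowerSeries.coeff_mk, map_sum, tsum_dec c (Z i) hg M n (fun γ => q ^ (A γ)) (hs n)]
      refine Finset.sum_congr rfl fun E _ => ?_
      rw [PowerSeries.coeff_C_mul, PowerSeries.coeff_mk]
    rw [key, Finset.mul_sum, map_sum]
    refine Finset.sum_eq_zero fun E _ => ?_
    rw [mul_left_comm, PowerSeries.coeff_C_mul]
    rcases isEmpty_or_nonempty (Rs c (Z i) E) with hE | ⟨⟨a⟩⟩
    · rw [Nat.card_of_isEmpty, Nat.cast_zero, zero_mul]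
    · have h1 := hBf E q hq1 (fun n => summable_dec c (Z i) hg M n (fun γ => q ^ (A γ)) (hs n) E a)
      have h2 := van_flat (Finset.univ.toList) Lf E (Finset.mem_toList.2 (Finset.mem_univ E)) q h1
      rw [h2 n (lt_of_le_of_lt (Nat.add_le_add_right
        (Finset.single_le_sum (fun E _ => Nat.zero_le (Bf E)) (Finset.mem_univ E)) _) hn), mul_zero]

end Pool.Agent.T2h77U
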