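import Pool.Agent.T2h77U.NclCom

/-! Task HEN. -/

namespace Pool.Agent.T2h77U

open Polynomial NclCom

theorem hen (_hB : S_BAS) (hS : S_SUM) : S_HEN := by
  intro O k _ _ _ H D hD F b ρ σ' hF hρ hN hC
  obtain ⟨hmul, hac, hdvd, hrv, hsurj, hno, hcan, -⟩ := hS O k H
  obtain ⟨h0, hh0, hh1⟩ := hsurj ρ hρ
  subst hh1
  obtain ⟨M, hM1, ⟨j1, hj1, hj1M⟩, hM3⟩ := hC
  -- a nonzero term of level `M` with positive index
  obtain ⟨j2, hj2p, hj2n, hj2M⟩ : ∃ j : Fin (D + 1), 1 ≤ (j : ℕ) ∧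
      (mulp (H.rv ((hasseDeriv (j : ℕ) F).eval b)) (H.rv h0) j).2 ≠ 0 ∧
      (mulp (H.rv ((hasseDeriv (j : ℕ) F).eval b)) (H.rv h0) j).1 = M := by
    by_contra hcon
    push Not at hcon
    have hj0 : (j1 : ℕ) = 0 := by
      by_contra h
      exact hcon j1 (by omega) hj1 hj1M
    have hj0' : j1 = 0 := Fin.ext (by simpa using hj0)
    apply hj1
    have h2 : Lev (fun j : Fin (D + 1) =>
        mulp (H.rv ((hasseDeriv (j : ℕ) F).eval b)) (H.rv h0) j) M =
        (mulp (H.rv ((hasseDeriv (j1 : ℕ) F).eval b)) (H.rv h0) j1).2 := by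
      unfold Lev
      rw [Finset.sum_eq_single j1]
      · simp only [hj1M, if_true]
      · intro j _ hj
        split_ifs with h3
        · by_contra h4
          refine hcon j ?_ h4 h3
          rcases Nat.eq_zero_or_pos (j : ℕ) with h5 | h5
          · exact absurd (Fin.ext (by rw [h5, hj0])) hj
          · exact h5
        · rfl
      · intro h; exact absurd (Finset.mem_univ _) h
    rw [← h2]
    exact hM3
  -- facts on the coefficients at `b`
  have hne : ∀ j : ℕ, (mulp (H.rv ((hasseDeriv j F).eval b)) (H.rv h0) j).2 ≠ 0 ↔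
      (hasseDeriv j F).eval b ≠ 0 := by
    intro j
    simp only [mulp, HF.rv]
    constructor
    · intro h1 h2
      apply h1
      rw [(hac _).2 h2, zero_mul]
    · intro h1
      exact mul_ne_zero ((hac _).not.2 h1) (pow_ne_zero _ ((hac _).not.2 hh0))
  have hjD : ∀ j : ℕ, (hasseDeriv j F).eval b ≠ 0 → j ≤ D := by
    intro j hj
    by_contra h
    apply hj
    rw [hd_gt F hF j (by omega), eval_zero]
  have hMle : ∀ j : ℕ, (hasseDeriv j F).eval b ≠ 0 →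
      M ≤ H.v ((hasseDeriv j F).eval b) + j * H.v h0 := by
    intro j hj
    have := hM1 ⟨j, by have := hjD j hj; omega⟩ ((hne j).2 hj)
    exact this
  have hX2 : (hasseDeriv (j2 : ℕ) F).eval b ≠ 0 := (hne _).1 hj2n
  have hX2M : H.v ((hasseDeriv (j2 : ℕ) F).eval b) + j2 * H.v h0 = M := hj2M
  -- the derivative
  have hd1 : ∀ j : ℕ, (hasseDeriv j (hasseDeriv 1 F)).eval b =
      ((j + 1 : ℕ) : O) * (hasseDeriv (j + 1) F).eval b := by
    intro j
    rw [hdc, Nat.choose_symm_add, Nat.choose_one_right]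
  have hd1n : ∀ j : ℕ, (hasseDeriv j (hasseDeriv 1 F)).eval b ≠ 0 →
      (hasseDeriv (j + 1) F).eval b ≠ 0 ∧
      H.v ((hasseDeriv j (hasseDeriv 1 F)).eval b) = H.v ((hasseDeriv (j + 1) F).eval b) := by
    intro j hj
    rw [hd1] at hj ⊢
    have h1 := right_ne_zero_of_mul hj
    refine ⟨h1, ?_⟩
    exact v_cast_mul H hmul hdvd (j + 1) (hD _ (by omega) (hjD _ h1)) _ h1
  have hd2 : (hasseDeriv ((j2 : ℕ) - 1) (hasseDeriv 1 F)).eval b ≠ 0 := by
    rw [hd1]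
    have h1 : (j2 : ℕ) - 1 + 1 = j2 := by omega
    rw [h1]
    exact mul_ne_zero (cast_ne H _ (hD _ hj2p (by omega))) hX2
  have hne' : ∀ j : ℕ,
      (mulp (H.rv ((hasseDeriv j (hasseDeriv 1 F)).eval b)) (H.rv h0) j).2 ≠ 0 ↔
      (hasseDeriv j (hasseDeriv 1 F)).eval b ≠ 0 := by
    intro j
    simp only [mulp, HF.rv]
    constructor
    · intro h1 h2
      apply h1
      rw [(hac _).2 h2, zero_mul]
    · intro h1
      exact mul_ne_zero ((hac _).not.2 h1) (pow_ne_zero _ ((hac _).not.2 hh0))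
  -- value of the derivative at `b + h0`
  have hF'deg : (hasseDeriv 1 F).natDegree ≤ D := hdeg F hF 1
  have hsum' : (hasseDeriv 1 F).eval (b + h0) =
      ∑ j : Fin (D + 1), (hasseDeriv (j : ℕ) (hasseDeriv 1 F)).eval b * h0 ^ (j : ℕ) := by
    rw [tay _ hF'deg, Finset.sum_range]
  have hval : H.rv ((hasseDeriv 1 F).eval (b + h0)) = σ' := by
    rw [hsum']
    exact hno (D + 1) _ _ σ' (fun j => rep_mulp H hmul hac _ _ hh0 j) hN
  have hσ : σ'.2 ≠ 0 ∧ σ'.1 + H.v h0 = M := by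
    rcases hN with ⟨h1, h2⟩ | ⟨M', h1, h2, h3⟩
    · exfalso
      have h4 := h1 ⟨(j2 : ℕ) - 1, by omega⟩
      exact (hne' ((j2 : ℕ) - 1)).2 hd2 h4
    · rw [h3]
      refine ⟨h2, ?_⟩
      obtain ⟨j3, hj3, hj3'⟩ : ∃ j : Fin (D + 1),
          (mulp (H.rv ((hasseDeriv (j : ℕ) (hasseDeriv 1 F)).eval b)) (H.rv h0) j).1 = M' ∧
          (mulp (H.rv ((hasseDeriv (j : ℕ) (hasseDeriv 1 F)).eval b)) (H.rv h0) j).2 ≠ 0 := by
        by_contra hcon
        push Not at hcon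
        apply h2
        unfold Lev
        refine Finset.sum_eq_zero fun j _ => ?_
        split_ifs with h5
        · exact hcon j h5
        · rfl
      have h6 := (hne' j3).1 hj3'
      obtain ⟨h7, h8⟩ := hd1n _ h6
      have h9 := hMle _ h7
      have h10 : H.v ((hasseDeriv (j3 : ℕ) (hasseDeriv 1 F)).eval b) + j3 * H.v h0 = M' := hj3
      have h11 : M' ≤ H.v ((hasseDeriv ((j2 : ℕ) - 1) (hasseDeriv 1 F)).eval b) +
          ((j2 : ℕ) - 1) * H.v h0 :=
        h1 ⟨(j2 : ℕ) - 1, by omega⟩ ((hne' ((j2 : ℕ) - 1)).2 hd2)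
      obtain ⟨-, h12⟩ := hd1n _ hd2
      have h13 : (j2 : ℕ) - 1 + 1 = j2 := by omega
      rw [h12, h13] at h11
      rw [h8] at h10
      have h14 : ((j2 : ℕ) - 1) * H.v h0 + H.v h0 = j2 * H.v h0 := by
        obtain ⟨w, hw⟩ : ∃ w, (j2 : ℕ) = w + 1 := ⟨_, h13.symm⟩
        rw [hw, Nat.add_sub_cancel]
        ring
      have h15 : ((j3 : ℕ) + 1) * H.v h0 = j3 * H.v h0 + H.v h0 := by ring
      simp only
      omega
  obtain ⟨hσ1, hσ2⟩ := hσ
  have hFt' : (hasseDeriv 1 F).eval (b + h0) ≠ 0 := by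
    rw [← hval] at hσ1
    exact (hac _).not.1 hσ1
  have hvFt' : H.v ((hasseDeriv 1 F).eval (b + h0)) = σ'.1 := congrArg Prod.fst hval
  -- value at `b + h0`
  have hsum : F.eval (b + h0) =
      ∑ j : Fin (D + 1), (hasseDeriv (j : ℕ) F).eval b * h0 ^ (j : ℕ) := by
    rw [tay _ hF, Finset.sum_range]
  have hdiv0 : H.pi ^ (M + 1) ∣ F.eval (b + h0) := by
    rw [hsum]
    exact hcan (D + 1) _ _ M (fun j => rep_mulp H hmul hac _ _ hh0 j) hM1 hM3
  have hpr : H.pi ^ (H.v h0) ∣ h0 := (hdvd h0 _ hh0).2 le_rfl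
  have hpi0 : H.v (H.pi ^ (H.v h0)) = H.v h0 := by
    have h1 : H.pi ^ (H.v h0) ≠ 0 := pow_ne_zero _ H.pi_ne
    have h2 : H.v h0 ≤ H.v (H.pi ^ (H.v h0)) := (hdvd _ _ h1).1 dvd_rfl
    refine le_antisymm ?_ h2
    by_contra h3
    have h4 : H.pi ^ (H.v h0 + 1) ∣ H.pi ^ (H.v h0) := (hdvd _ _ h1).2 (by omega)
    rw [pow_succ] at h4
    have h5 : H.pi ∣ 1 := by
      obtain ⟨c, hc⟩ := h4
      refine ⟨c, ?_⟩
      have h6 : H.pi ^ (H.v h0) * 1 = H.pi ^ (H.v h0) * (H.pi * c) := by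
        rw [mul_one, ← mul_assoc]; exact hc
      exact mul_left_cancel₀ h1 h6
    rw [← H.res_eq, map_one] at h5
    exact one_ne_zero h5
  have hall : ∀ i, H.pi ^ M ∣ (hasseDeriv i F).eval b * H.pi ^ (i * H.v h0) := by
    intro i
    by_cases hi : (hasseDeriv i F).eval b = 0
    · rw [hi, zero_mul]; exact dvd_zero _
    · have h1 : H.pi ^ (H.v ((hasseDeriv i F).eval b)) ∣ (hasseDeriv i F).eval b :=
        (hdvd _ _ hi).2 le_rfl
      refine (pow_dvd_pow _ (hMle i hi)).trans ?_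
      rw [pow_add]
      exact mul_dvd_mul_right h1 _
  obtain ⟨y, hy, hy2⟩ := hensel0 H F (b + h0) (H.v h0) M
    (shift_div H.pi F b h0 _ M hpr hall) hdiv0 (by
      intro h1
      have h2 := (hdvd _ _ (mul_ne_zero hFt' (pow_ne_zero _ H.pi_ne))).1 h1
      rw [v_mul H hmul _ _ hFt' (pow_ne_zero _ H.pi_ne), hvFt', hpi0] at h2
      omega)
  have hrvc : H.rv (b + h0 + H.pi ^ (H.v h0) * y - b) = H.rv h0 := by
    rw [hrv h0 _ hh0, pow_succ]
    have e : b + h0 + H.pi ^ (H.v h0) * y - b - h0 = H.pi ^ (H.v h0) * y := by ring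
    rw [e]
    exact mul_dvd_mul_left _ hy2
  refine ⟨b + h0 + H.pi ^ (H.v h0) * y, hy, ?_, hrvc⟩
  intro h1
  rw [h1, sub_self] at hrvc
  apply hρ
  rw [← hrvc]
  exact H.ac_zero

end Pool.Agent.T2h77U
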