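import Pool.Agent.T2h77U.Stm

/-! Task HS1: the Hilbert-Serre argument. -/

set_option autoImplicit false

namespace Pool.Agent.T2h77U

namespace Hs1

variable {r : ℕ}

/-- the terms of the sum over the elements of `P` of weight `n` -/
noncomputable def tm (W : (Fin r → ℕ) →+ ℤ) (M : (Fin r → ℕ) →+ ℕ) (q : ℝ) (P : Set (Fin r → ℕ))
    (n : ℕ) : (Fin r → ℕ) → ℝ :=
  ({γ | γ ∈ P ∧ M γ = n} : Set (Fin r → ℕ)).indicator fun γ => q ^ (W γ)

/-- the sum -/
noncomputable def sr (W : (Fin r → ℕ) →+ ℤ) (M : (Fin r → ℕ) →+ ℕ) (q : ℝ) (P : Set (Fin r → ℕ))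
    (n : ℕ) : ℝ := ∑' γ, tm W M q P n γ

variable {W : (Fin r → ℕ) →+ ℤ} {M : (Fin r → ℕ) →+ ℕ} {q : ℝ}

theorem tm_pos {P : Set (Fin r → ℕ)} {n : ℕ} {γ : Fin r → ℕ} (h1 : γ ∈ P) (h2 : M γ = n) :
    tm W M q P n γ = q ^ (W γ) :=
  Set.indicator_of_mem (s := {γ | γ ∈ P ∧ M γ = n}) (And.intro h1 h2) _

theorem tm_zero {P : Set (Fin r → ℕ)} {n : ℕ} {γ : Fin r → ℕ} (h : ¬ (γ ∈ P ∧ M γ = n)) :
    tm W M q P n γ = 0 :=
  Set.indicator_of_notMem (s := {γ | γ ∈ P ∧ M γ = n}) h _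

theorem tm_nonneg (hq : 0 < q) (P : Set (Fin r → ℕ)) (n : ℕ) (γ : Fin r → ℕ) :
    0 ≤ tm W M q P n γ :=
  Set.indicator_nonneg (fun _ _ => (zpow_pos hq _).le) _

theorem tm_mono (hq : 0 < q) {P Q : Set (Fin r → ℕ)} (h : P ⊆ Q) (n : ℕ) (γ : Fin r → ℕ) :
    tm W M q P n γ ≤ tm W M q Q n γ := by
  by_cases h1 : γ ∈ P ∧ M γ = n
  · rw [tm_pos h1.1 h1.2, tm_pos (h h1.1) h1.2]
  · rw [tm_zero h1]
    exact tm_nonneg hq _ _ _

theorem summable_mono (hq : 0 < q) {P Q : Set (Fin r → ℕ)} (h : P ⊆ Q) {n : ℕ}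
    (hs : Summable (tm W M q Q n)) : Summable (tm W M q P n) :=
  Summable.of_nonneg_of_le (tm_nonneg hq P n) (tm_mono hq h n) hs

theorem sr_union {P Q : Set (Fin r → ℕ)} (hPQ : ∀ γ, γ ∈ P → γ ∉ Q) {n : ℕ}
    (hP : Summable (tm W M q P n)) (hQ : Summable (tm W M q Q n)) :
    sr W M q (P ∪ Q) n = sr W M q P n + sr W M q Q n := by
  unfold sr
  rw [← hP.tsum_add hQ]
  refine tsum_congr fun γ => ?_
  by_cases h1 : γ ∈ P
  · have h2 := hPQ γ h1
    by_cases h3 : M γ = n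
    · rw [tm_pos (Or.inl h1 : γ ∈ P ∪ Q) h3, tm_pos h1 h3, tm_zero (fun h => h2 h.1), add_zero]
    · rw [tm_zero (fun h => h3 h.2), tm_zero (fun h => h3 h.2), tm_zero (fun h => h3 h.2), add_zero]
  · by_cases h2 : γ ∈ Q ∧ M γ = n
    · rw [tm_pos (Or.inr h2.1 : γ ∈ P ∪ Q) h2.2, tm_pos h2.1 h2.2, tm_zero (fun h => h1 h.1), zero_add]
    · rw [tm_zero (fun h => h.1.elim (fun h3 => h1 h3) (fun h3 => h2 ⟨h3, h.2⟩)),
        tm_zero (fun h => h1 h.1), tm_zero h2, add_zero]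

theorem sr_shift (hq : 0 < q) (X : Set (Fin r → ℕ)) (w : Fin r → ℕ) (n : ℕ) :
    sr W M q ((fun γ => γ + w) '' X) n =
      if M w ≤ n then q ^ (W w) * sr W M q X (n - M w) else 0 := by
  unfold sr
  have hinj : Function.Injective (fun γ : Fin r → ℕ => γ + w) := fun a b h => add_right_cancel h
  have hsupp : Function.support (tm W M q ((fun γ => γ + w) '' X) n) ⊆
      Set.range (fun γ : Fin r → ℕ => γ + w) := by
    intro γ hγ
    have h1 : γ ∈ {γ | γ ∈ (fun γ => γ + w) '' X ∧ M γ = n} := Set.mem_of_indicator_ne_zero hγ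
    obtain ⟨a, -, ha⟩ := h1.1
    exact ⟨a, ha⟩
  rw [← hinj.tsum_eq hsupp]
  split_ifs with hw
  · rw [← tsum_mul_left]
    refine tsum_congr fun a => ?_
    by_cases h1 : a ∈ X ∧ M a = n - M w
    · have h2 : a + w ∈ (fun γ => γ + w) '' X := ⟨a, h1.1, rfl⟩
      have h3 : M (a + w) = n := by rw [map_add, h1.2]; omega
      rw [tm_pos h2 h3, tm_pos h1.1 h1.2, map_add, zpow_add₀ hq.ne', mul_comm]
    · have h2 : ¬ (a + w ∈ (fun γ => γ + w) '' X ∧ M (a + w) = n) := by
        rintro ⟨⟨b, hb, hba⟩, h3⟩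
        have h4 : b = a := hinj hba
        subst h4
        rw [map_add] at h3
        exact h1 ⟨hb, by omega⟩
      rw [tm_zero h2, tm_zero h1, mul_zero]
  · have h0 : ∀ a, tm W M q ((fun γ => γ + w) '' X) n (a + w) = 0 := by
      intro a
      unfold tm
      apply Set.indicator_of_notMem
      rintro ⟨-, h3⟩
      rw [map_add] at h3
      omega
    simp only [h0, tsum_zero]

theorem step (hq : 0 < q) (A B : Set (Fin r → ℕ)) (w : Fin r → ℕ) (hA : ∀ γ ∈ A, γ + w ∈ A)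
    (hB : ∀ γ ∈ B, γ + w ∈ B) (hs : ∀ n, Summable (tm W M q (A \ B) n)) (n : ℕ) :
    sr W M q (A \ B) n - (if M w ≤ n then q ^ (W w) * sr W M q (A \ B) (n - M w) else 0) =
      sr W M q (A \ (B ∪ (fun γ => γ + w) '' A)) n -
        (if M w ≤ n then q ^ (W w) * sr W M q ({γ | γ ∈ A ∧ γ + w ∈ B} \ B) (n - M w) else 0) := by
  obtain ⟨D, hD⟩ : ∃ D : Set (Fin r → ℕ), D = {γ | (γ ∈ A ∧ γ ∉ B) ∧ γ + w ∉ B} := ⟨_, rfl⟩
  have e1 : A \ B = (A \ (B ∪ (fun γ => γ + w) '' A)) ∪ (fun γ => γ + w) '' D := by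
    ext γ
    constructor
    · rintro ⟨h1, h2⟩
      by_cases h3 : γ ∈ (fun γ => γ + w) '' A
      · right
        obtain ⟨a, ha, rfl⟩ := h3
        refine ⟨a, ?_, rfl⟩
        rw [hD]
        exact ⟨⟨ha, fun hb => h2 (hB a hb)⟩, h2⟩
      · left
        exact ⟨h1, fun h4 => h4.elim h2 h3⟩
    · rintro (⟨h1, h2⟩ | ⟨a, ha, rfl⟩)
      · exact ⟨h1, fun h3 => h2 (Or.inl h3)⟩
      · rw [hD] at ha
        exact ⟨hA a ha.1.1, ha.2⟩
  have e2 : A \ B = D ∪ ({γ | γ ∈ A ∧ γ + w ∈ B} \ B) := by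
    ext γ
    constructor
    · rintro ⟨h1, h2⟩
      by_cases h3 : γ + w ∈ B
      · right
        exact ⟨⟨h1, h3⟩, h2⟩
      · left
        rw [hD]
        exact ⟨⟨h1, h2⟩, h3⟩
    · rintro (h1 | ⟨h1, h2⟩)
      · rw [hD] at h1
        exact h1.1
      · exact ⟨h1.1, h2⟩
  have s1 : ∀ n, Summable (tm W M q (A \ (B ∪ (fun γ => γ + w) '' A)) n) := fun n =>
    summable_mono hq (by rw [e1]; exact Set.subset_union_left) (hs n)
  have s2 : ∀ n, Summable (tm W M q ((fun γ => γ + w) '' D) n) := fun n =>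
    summable_mono hq (by rw [e1]; exact Set.subset_union_right) (hs n)
  have s3 : ∀ n, Summable (tm W M q D n) := fun n =>
    summable_mono hq (by rw [e2]; exact Set.subset_union_left) (hs n)
  have s4 : ∀ n, Summable (tm W M q ({γ | γ ∈ A ∧ γ + w ∈ B} \ B) n) := fun n =>
    summable_mono hq (by rw [e2]; exact Set.subset_union_right) (hs n)
  have u1 : sr W M q (A \ B) n = sr W M q (A \ (B ∪ (fun γ => γ + w) '' A)) n +
      sr W M q ((fun γ => γ + w) '' D) n := by
    conv_lhs => rw [e1]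
    refine sr_union ?_ (s1 n) (s2 n)
    rintro γ ⟨-, h2⟩ ⟨a, ha, rfl⟩
    rw [hD] at ha
    exact h2 (Or.inr ⟨a, ha.1.1, rfl⟩)
  have u2 : ∀ k, sr W M q (A \ B) k = sr W M q D k +
      sr W M q ({γ | γ ∈ A ∧ γ + w ∈ B} \ B) k := by
    intro k
    conv_lhs => rw [e2]
    refine sr_union ?_ (s3 k) (s4 k)
    rintro γ h1 ⟨h2, -⟩
    rw [hD] at h1
    exact h1.2 h2.2
  rw [u1, sr_shift hq, u2 (n - M w)]
  split_ifs
  · ring
  · ring

/-- stability under all sums -/
theorem stable_sum {l : ℕ} {v : Fin l → (Fin r → ℕ)} {A : Set (Fin r → ℕ)}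
    (hA : ∀ i, ∀ γ ∈ A, γ + v i ∈ A) {γ : Fin r → ℕ} (hγ : γ ∈ A) (n : Fin l → ℕ) :
    γ + ∑ i, n i • v i ∈ A := by
  classical
  have h1 : ∀ (k : ℕ) (i : Fin l) (γ : Fin r → ℕ), γ ∈ A → γ + k • v i ∈ A := by
    intro k i
    induction k with
    | zero => intro γ hγ; rwa [zero_smul, add_zero]
    | succ k ih =>
      intro γ hγ
      rw [succ_nsmul, ← add_assoc]
      exact hA i _ (ih γ hγ)
  have h2 : ∀ (s : Finset (Fin l)) (γ : Fin r → ℕ), γ ∈ A → γ + ∑ i ∈ s, n i • v i ∈ A := by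
    intro s
    induction s using Finset.induction_on with
    | empty => intro γ hγ; rwa [Finset.sum_empty, add_zero]
    | insert i s hi ih =>
      intro γ hγ
      rw [Finset.sum_insert hi, ← add_assoc]
      exact ih _ (h1 _ i γ hγ)
  exact h2 Finset.univ γ hγ

theorem main (r : ℕ) : ∀ (l : ℕ) (v : Fin l → (Fin r → ℕ)) (A B : Set (Fin r → ℕ))
    (G : Finset (Fin r → ℕ)),
    (∀ i, ∀ γ ∈ A, γ + v i ∈ A) → (∀ i, ∀ γ ∈ B, γ + v i ∈ B) → (∀ g ∈ G, g ∈ A) →
    (∀ γ ∈ A, γ ∈ B ∨ ∃ g ∈ G, ∃ n : Fin l → ℕ, γ = g + ∑ i, n i • v i) →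
    ∃ T : Finset (Fin r → ℕ), ∀ (W : (Fin r → ℕ) →+ ℤ) (M : (Fin r → ℕ) →+ ℕ) (q : ℝ), 1 < q →
      (∀ n, Summable (tm W M q (A \ B) n)) →
      ∀ n, (∀ γ ∈ T, M γ ≠ n) → PowerSeries.coeff n (
        (List.ofFn fun i => 1 - PowerSeries.C (q ^ (W (v i))) * PowerSeries.X ^ (M (v i))).prod *
        PowerSeries.mk (sr W M q (A \ B))) = 0 := by
  classical
  intro l
  induction l with
  | zero =>
    intro v A B G hA hB hG hgen
    refine ⟨G, fun W M q hq hs n hn => ?_⟩
    rw [List.ofFn_zero, List.prod_nil, one_mul, PowerSeries.coeff_mk]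
    unfold sr
    have h0 : ∀ γ, tm W M q (A \ B) n γ = 0 := by
      intro γ
      unfold tm
      apply Set.indicator_of_notMem
      rintro ⟨⟨h1, h2⟩, h3⟩
      rcases hgen γ h1 with h4 | ⟨g, hg, k, h4⟩
      · exact h2 h4
      · rw [Fin.sum_univ_zero, add_zero] at h4
        rw [h4] at h3
        exact hn g hg h3
    simp only [h0, tsum_zero]
  | succ l ih =>
    intro v A B G hA hB hG hgen
    obtain ⟨w, hw⟩ : ∃ w, w = v 0 := ⟨_, rfl⟩
    have hAw : ∀ γ ∈ A, γ + w ∈ A := fun γ hγ => by rw [hw]; exact hA 0 γ hγ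
    have hBw : ∀ γ ∈ B, γ + w ∈ B := fun γ hγ => by rw [hw]; exact hB 0 γ hγ
    have hsum : ∀ n : Fin (l + 1) → ℕ, ∑ i, n i • v i = n 0 • w + ∑ i : Fin l, n i.succ • v i.succ := by
      intro n
      rw [Fin.sum_univ_succ, hw]
    have hA' : ∀ i : Fin l, ∀ γ ∈ A, γ + v i.succ ∈ A := fun i => hA i.succ
    have hB' : ∀ i : Fin l, ∀ γ ∈ B, γ + v i.succ ∈ B := fun i => hB i.succ
    -- the first pair
    obtain ⟨T1, hT1⟩ := ih (fun i => v i.succ) A (B ∪ (fun γ => γ + w) '' A) G hA' (by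
      rintro i γ (h1 | ⟨a, ha, rfl⟩)
      · exact Or.inl (hB' i γ h1)
      · refine Or.inr ⟨a + v i.succ, hA' i a ha, ?_⟩
        show a + v i.succ + w = a + w + v i.succ
        exact add_right_comm a (v i.succ) w) hG (by
      intro γ hγ
      rcases hgen γ hγ with h1 | ⟨g, hg, n, h1⟩
      · exact Or.inl (Or.inl h1)
      · rw [hsum] at h1
        rcases Nat.eq_zero_or_pos (n 0) with h2 | h2
        · rw [h2, zero_smul, zero_add] at h1
          exact Or.inr ⟨g, hg, fun i => n i.succ, h1⟩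
        · refine Or.inl (Or.inr ⟨g + ((n 0 - 1) • w + ∑ i : Fin l, n i.succ • v i.succ), ?_, ?_⟩)
          · obtain ⟨k, hk0, hks⟩ : ∃ k : Fin (l + 1) → ℕ, k 0 = n 0 - 1 ∧
                ∀ i : Fin l, k i.succ = n i.succ :=
              ⟨Fin.cons (n 0 - 1) (fun i => n i.succ), rfl, fun i => rfl⟩
            have h3 := stable_sum hA (hG g hg) k
            rw [hsum, hk0] at h3
            simp only [hks] at h3
            exact h3
          · show g + ((n 0 - 1) • w + ∑ i : Fin l, n i.succ • v i.succ) + w = γ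
            rw [h1]
            have h5 : n 0 • w = (n 0 - 1) • w + w := by
              conv_lhs => rw [show n 0 = (n 0 - 1) + 1 by omega]
              rw [succ_nsmul]
            rw [h5]
            abel)
    -- the second pair
    obtain ⟨A2, hA2⟩ : ∃ A2 : Set (Fin r → ℕ), A2 = {γ | γ ∈ A ∧ γ + w ∈ B} := ⟨_, rfl⟩
    have hA2v : ∀ i, ∀ γ ∈ A2, γ + v i ∈ A2 := by
      intro i γ hγ
      rw [hA2] at hγ ⊢
      refine ⟨hA i γ hγ.1, ?_⟩
      rw [add_right_comm]
      exact hB i _ hγ.2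
    let U : (Fin r → ℕ) → Set (Fin (l + 1) → ℕ) := fun g =>
      {n | Minimal (fun n : Fin (l + 1) → ℕ => g + ∑ i, n i • v i ∈ A2) n}
    have hU : ∀ g, (U g).Finite := by
      intro g
      have hanti : IsAntichain (· ≤ ·) (U g) := setOfPred_minimal_antichain _
      exact hanti.finite_of_partiallyWellOrderedOn (Set.isPWO_of_wellQuasiOrderedLE (U g))
    obtain ⟨T2, hT2⟩ := ih (fun i => v i.succ) A2 B
      (G.biUnion fun g => (hU g).toFinset.image fun n => g + ∑ i, n i • v i)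
      (fun i => hA2v i.succ) hB' (by
        intro g' hg'
        rw [Finset.mem_biUnion] at hg'
        obtain ⟨g, hg, h1⟩ := hg'
        obtain ⟨n, hn, rfl⟩ := Finset.mem_image.1 h1
        rw [(hU g).mem_toFinset] at hn
        exact hn.1) (by
        intro γ hγ
        have hγA : γ ∈ A := by rw [hA2] at hγ; exact hγ.1
        rcases hgen γ hγA with h1 | ⟨g, hg, n, h1⟩
        · exact Or.inl h1
        · have h2 : g + ∑ i, n i • v i ∈ A2 := by rw [← h1]; exact hγ
          obtain ⟨m, hmn, hm⟩ := exists_minimal_le_of_wellFoundedLT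
            (fun n : Fin (l + 1) → ℕ => g + ∑ i, n i • v i ∈ A2) n h2
          have h3 : γ = (g + ∑ i, m i • v i) + ∑ i, (n i - m i) • v i := by
            rw [h1, add_assoc, ← Finset.sum_add_distrib]
            congr 1
            refine Finset.sum_congr rfl fun i _ => ?_
            rw [← add_smul]
            congr 1
            have : m i ≤ n i := hmn i
            omega
          rw [hsum (fun i => n i - m i)] at h3
          rcases Nat.eq_zero_or_pos (n 0 - m 0) with h4 | h4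
          · right
            refine ⟨g + ∑ i, m i • v i, ?_, fun i => n i.succ - m i.succ, ?_⟩
            · rw [Finset.mem_biUnion]
              exact ⟨g, hg, Finset.mem_image.2 ⟨m, (hU g).mem_toFinset.2 hm, rfl⟩⟩
            · simp only [h4, zero_smul, zero_add] at h3
              exact h3
          · left
            have h5 : (g + ∑ i, m i • v i) + w ∈ B := by
              have := hm.1
              rw [hA2] at this
              exact this.2
            obtain ⟨k, hk0, hks⟩ : ∃ k : Fin (l + 1) → ℕ, k 0 = n 0 - m 0 - 1 ∧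
                ∀ i : Fin l, k i.succ = n i.succ - m i.succ :=
              ⟨Fin.cons (n 0 - m 0 - 1) (fun i => n i.succ - m i.succ), rfl, fun i => rfl⟩
            have h6 := stable_sum hB h5 k
            rw [hsum k, hk0] at h6
            simp only [hks] at h6
            have h8 : γ = (g + ∑ i, m i • v i) + w +
                ((n 0 - m 0 - 1) • w + ∑ i : Fin l, (n i.succ - m i.succ) • v i.succ) := by
              rw [h3]
              have h9 : (n 0 - m 0) • w = (n 0 - m 0 - 1) • w + w := by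
                conv_lhs => rw [show n 0 - m 0 = (n 0 - m 0 - 1) + 1 by omega]
                rw [succ_nsmul]
              rw [h9]
              abel
            rw [h8]
            exact h6)
    refine ⟨T1 ∪ T2.image (fun γ => γ + w), fun W M q hq hs n hn => ?_⟩
    have hq0 : 0 < q := by linarith
    have hst := step hq0 A B w hAw hBw hs
    have sub1 : A \ (B ∪ (fun γ => γ + w) '' A) ⊆ A \ B := by
      rintro γ ⟨h1, h2⟩
      exact ⟨h1, fun hb => h2 (Or.inl hb)⟩
    have sub2 : A2 \ B ⊆ A \ B := by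
      rintro γ ⟨h1, h2⟩
      rw [hA2] at h1
      exact ⟨h1.1, h2⟩
    have k1 := hT1 W M q hq (fun n => summable_mono hq0 sub1 (hs n)) n
      (fun γ hγ => hn γ (Finset.mem_union_left _ hγ))
    have hs2 : ∀ n, Summable (tm W M q (A2 \ B) n) := fun n => summable_mono hq0 sub2 (hs n)
    rw [List.ofFn_succ, List.prod_cons]
    obtain ⟨P0, hP0⟩ : ∃ P0 : PowerSeries ℝ, P0 = (List.ofFn fun i : Fin l =>
      1 - PowerSeries.C (q ^ (W (v i.succ))) * PowerSeries.X ^ (M (v i.succ))).prod := ⟨_, rfl⟩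
    rw [← hP0, ← hw]
    rw [← hP0] at k1
    have key : (1 - PowerSeries.C (q ^ (W w)) * PowerSeries.X ^ (M w)) *
        PowerSeries.mk (sr W M q (A \ B)) =
        PowerSeries.mk (sr W M q (A \ (B ∪ (fun γ => γ + w) '' A))) -
        PowerSeries.C (q ^ (W w)) * (PowerSeries.X ^ (M w) * PowerSeries.mk (sr W M q (A2 \ B))) := by
      ext k
      rw [sub_mul, one_mul, mul_assoc, map_sub, map_sub, PowerSeries.coeff_C_mul,
        PowerSeries.coeff_C_mul, PowerSeries.coeff_X_pow_mul', PowerSeries.coeff_X_pow_mul',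
        PowerSeries.coeff_mk, PowerSeries.coeff_mk, PowerSeries.coeff_mk, PowerSeries.coeff_mk]
      have h1 := hst k
      rw [← hA2] at h1
      rw [mul_ite, mul_zero, mul_ite, mul_zero]
      exact h1
    have e1 : (1 - PowerSeries.C (q ^ (W w)) * PowerSeries.X ^ (M w)) * P0 *
        PowerSeries.mk (sr W M q (A \ B)) =
        P0 * PowerSeries.mk (sr W M q (A \ (B ∪ (fun γ => γ + w) '' A))) -
        PowerSeries.C (q ^ (W w)) * (PowerSeries.X ^ (M w) *
          (P0 * PowerSeries.mk (sr W M q (A2 \ B)))) := by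
      calc _ = P0 * ((1 - PowerSeries.C (q ^ (W w)) * PowerSeries.X ^ (M w)) *
          PowerSeries.mk (sr W M q (A \ B))) := by ring
        _ = _ := by rw [key]; ring
    rw [e1, map_sub, k1, PowerSeries.coeff_C_mul, PowerSeries.coeff_X_pow_mul', zero_sub,
      neg_eq_zero]
    split_ifs with h1
    · have k2 := hT2 W M q hq hs2 (n - M w) (fun γ hγ h2 => by
        refine hn (γ + w) (Finset.mem_union_right _ (Finset.mem_image_of_mem _ hγ)) ?_
        rw [map_add, h2]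
        omega)
      rw [← hP0] at k2
      rw [k2, mul_zero]
    · rw [mul_zero]

end Hs1

open Hs1

theorem hs1 : S_HS1 := by
  intro r l v A B G hA hB hG hgen
  obtain ⟨T, hT⟩ := Hs1.main r l v A B G hA hB hG hgen
  refine ⟨T, fun W M q hq hs n hn => ?_⟩
  have h1 : ∀ n, (∑' γ : {γ : Fin r → ℕ // (γ ∈ A ∧ γ ∉ B) ∧ M γ = n}, q ^ (W γ.1)) =
      sr W M q (A \ B) n := fun n =>
    tsum_subtype ({γ | γ ∈ A \ B ∧ M γ = n} : Set (Fin r → ℕ)) fun γ => q ^ (W γ)
  simp only [h1]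
  refine hT W M q hq (fun n => ?_) n hn
  exact summable_subtype_iff_indicator.1 (hs n)

end Pool.Agent.T2h77U
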