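import Pool.Agent.T2h77U.Stm

/-! Task HS2: intersections of linear sets. -/

set_option autoImplicit false

namespace Pool.Agent.T2h77U

namespace Hs2

/-- a homomorphism from `ℕ ^ l` in terms of the unit vectors -/
theorem hom_expand {l : ℕ} {M : Type} [AddCommMonoid M] (g : (Fin l → ℕ) →+ M) (w : Fin l → ℕ) :
    g w = ∑ s, w s • g (Pi.single s 1) := by
  classical
  have h1 : w = ∑ s, w s • (Pi.single s 1 : Fin l → ℕ) := by
    funext i
    rw [Finset.sum_apply]
    simp [Pi.single_apply]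
  conv_lhs => rw [h1]
  rw [map_sum]
  exact Finset.sum_congr rfl fun s _ => map_nsmul g _ _

end Hs2

open Hs2

theorem hs2 : S_HS2 := by
  classical
  intro r N c hN hc
  choose a n f hf using fun i => isLinearSet_iff_exists_fin_addMonoidHom.1 (hc i)
  let I : Type := (i : Fin N) × Fin (n i)
  let pr : (i : Fin N) → (I → ℕ) →+ (Fin (n i) → ℕ) := fun i =>
    { toFun := fun x j => x ⟨i, j⟩, map_zero' := rfl, map_add' := fun _ _ => rfl }
  let F : Fin N → (I → ℕ) →+ (Fin r → ℕ) := fun i => (f i).comp (pr i)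
  let i0 : Fin N := ⟨0, hN⟩
  let K : AddSubmonoid (I → ℕ) :=
    { carrier := {x | ∀ i, F i x = F i0 x}
      zero_mem' := by intro i; rw [map_zero, map_zero]
      add_mem' := by intro x y hx hy i; rw [map_add, map_add, hx i, hy i] }
  have hKmem : ∀ x, x ∈ K ↔ ∀ i, F i x = F i0 x := fun x => Iff.rfl
  have hK : K.FG := AddSubmonoid.fg_of_subtractive (by
    intro x hx y hxy i
    have h1 := hxy i
    rw [map_add, map_add, hx i] at h1
    exact add_left_cancel h1)
  obtain ⟨l, h, hh⟩ := AddSubmonoid.fg_iff_exists_fin_addMonoidHom.1 hK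
  let v' : Fin l → (Fin r → ℕ) := fun s => F i0 (h (Pi.single s 1))
  have hv' : ∀ w, F i0 (h w) = ∑ s, w s • v' s := fun w => hom_expand ((F i0).comp h) w
  -- the solutions
  let X : Set (I → ℕ) := {x | ∀ i, a i + F i x = a i0 + F i0 x}
  have hXc : ∀ γ, (∀ i, γ ∈ c i) ↔ ∃ x ∈ X, γ = a i0 + F i0 x := by
    intro γ
    constructor
    · intro hγ
      have h1 : ∀ i, ∃ y : Fin (n i) → ℕ, a i + f i y = γ := by
        intro i
        have h2 := hγ i
        rw [hf i] at h2
        obtain ⟨_, ⟨y, rfl⟩, h3⟩ := h2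
        exact ⟨y, h3⟩
      choose y hy using h1
      have h2 : ∀ i, F i (fun q : I => y q.1 q.2) = f i (y i) := fun i => rfl
      refine ⟨fun q => y q.1 q.2, fun i => ?_, ?_⟩
      · rw [h2, h2, hy, hy]
      · rw [h2, hy]
    · rintro ⟨x, hx, rfl⟩ i
      rw [hf i]
      exact ⟨F i x, ⟨pr i x, rfl⟩, hx i⟩
  let Mn : Set (I → ℕ) := {x | Minimal (· ∈ X) x}
  have hMn : Mn.Finite := by
    apply Set.Finite.subset (s := Mn) ?_ le_rfl
    have hanti : IsAntichain (· ≤ ·) Mn := setOfPred_minimal_antichain _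
    exact hanti.finite_of_partiallyWellOrderedOn (Set.isPWO_of_wellQuasiOrderedLE Mn)
  have hXK : ∀ x, x ∈ X ↔ ∃ m ∈ Mn, ∃ k ∈ K, x = m + k := by
    intro x
    constructor
    · intro hx
      obtain ⟨m, hmx, hm⟩ := exists_minimal_le_of_wellFoundedLT (· ∈ X) x hx
      refine ⟨m, hm, x - m, ?_, (add_tsub_cancel_of_le hmx).symm⟩
      rw [hKmem]
      intro i
      have h1 := hx i
      have h2 := hm.1 i
      have h3 : x = m + (x - m) := (add_tsub_cancel_of_le hmx).symm
      rw [h3, map_add, map_add, ← add_assoc, ← add_assoc, h2] at h1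
      exact add_left_cancel h1
    · rintro ⟨m, hm, k, hk, rfl⟩ i
      rw [map_add, map_add, ← add_assoc, ← add_assoc, hm.1 i, hk i]
  -- remove the zero vectors
  let e := Fintype.equivFin {s : Fin l // v' s ≠ 0}
  refine ⟨Fintype.card {s : Fin l // v' s ≠ 0}, fun s => v' (e.symm s).1,
    hMn.toFinset.image (fun x => a i0 + F i0 x), fun s => (e.symm s).2, fun γ => ?_⟩
  have hsum : ∀ w : Fin l → ℕ, ∑ s, w s • v' s =
      ∑ s, (w (e.symm s).1) • v' (e.symm s).1 := by
    intro w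
    rw [e.symm.sum_comp (fun s : {s : Fin l // v' s ≠ 0} => w s.1 • v' s.1)]
    rw [← Finset.sum_subtype (Finset.univ.filter fun s => v' s ≠ 0) (fun s => by simp)
      (fun s => w s • v' s)]
    symm
    refine Finset.sum_subset (Finset.subset_univ _) fun s _ hs => ?_
    have h1 : v' s = 0 := by
      by_contra h2
      exact hs (Finset.mem_filter.2 ⟨Finset.mem_univ _, h2⟩)
    rw [h1, smul_zero]
  rw [hXc]
  constructor
  · rintro ⟨x, hx, rfl⟩
    obtain ⟨m, hm, k, hk, rfl⟩ := (hXK x).1 hx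
    have hk' : k ∈ AddMonoidHom.mrange h := by rw [hh]; exact hk
    obtain ⟨w, rfl⟩ := hk'
    refine ⟨a i0 + F i0 m, Finset.mem_image.2 ⟨m, hMn.mem_toFinset.2 hm, rfl⟩,
      fun s => w (e.symm s).1, ?_⟩
    rw [map_add, ← add_assoc, hv', hsum]
  · rintro ⟨g, hg, w, rfl⟩
    obtain ⟨m, hm, rfl⟩ := Finset.mem_image.1 hg
    rw [hMn.mem_toFinset] at hm
    let w' : Fin l → ℕ := fun s => if hs : v' s ≠ 0 then w (e ⟨s, hs⟩) else 0
    have hw' : ∀ s, w' (e.symm s).1 = w s := by
      intro s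
      have h1 : v' (e.symm s).1 ≠ 0 := (e.symm s).2
      simp only [w']
      rw [dif_pos h1]
      congr 1
      exact e.apply_symm_apply s
    refine ⟨m + h w', (hXK _).2 ⟨m, hm, h w', ?_, rfl⟩, ?_⟩
    · rw [← hh]
      exact ⟨w', rfl⟩
    · rw [map_add, ← add_assoc, hv', hsum]
      simp only [hw']

end Pool.Agent.T2h77U
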