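import Pool.Agent.T2h77U.Hs1

/-! Task HSS: rationality of the generating function of a semilinear set. -/

set_option autoImplicit false

namespace Pool.Agent.T2h77U

namespace Hss

open Hs1

variable {r : ℕ}

/-- the property of a set which is to be proved -/
def Rt (A : (Fin r → ℕ) →+ ℤ) (M : (Fin r → ℕ) →+ ℕ) (c : Set (Fin r → ℕ)) : Prop :=
  ∃ (L : List (ℤ × ℕ)) (B : ℕ), (∀ ab ∈ L, 1 ≤ ab.2) ∧
    ∀ q : ℝ, 1 < q → (∀ n, Summable (tm A M q c n)) →
      ∀ n, B < n → PowerSeries.coeff n (DenP q L * PowerSeries.mk (sr A M q c)) = 0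

theorem den_append (q : ℝ) (L1 L2 : List (ℤ × ℕ)) : DenP q (L1 ++ L2) = DenP q L1 * DenP q L2 := by
  unfold DenP
  rw [List.map_append, List.prod_append]

theorem coeff_den (q : ℝ) (B : ℕ) (f : PowerSeries ℝ) (hf : ∀ n, B < n → PowerSeries.coeff n f = 0)
    (L : List (ℤ × ℕ)) : ∀ n, B + (L.map Prod.snd).sum < n →
      PowerSeries.coeff n (DenP q L * f) = 0 := by
  induction L with
  | nil =>
    intro n hn
    have h1 : DenP q [] = 1 := rfl
    rw [h1, one_mul]
    exact hf n (by simpa using hn)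
  | cons ab L ih =>
    intro n hn
    rw [List.map_cons, List.sum_cons] at hn
    have h1 : DenP q (ab :: L) * f = DenP q L * f -
        PowerSeries.C (q ^ ab.1) * (PowerSeries.X ^ ab.2 * (DenP q L * f)) := by
      have h2 : DenP q (ab :: L) =
          (1 - PowerSeries.C (q ^ ab.1) * PowerSeries.X ^ ab.2) * DenP q L := by
        unfold DenP
        rw [List.map_cons, List.prod_cons]
      rw [h2]
      ring
    rw [h1, map_sub, PowerSeries.coeff_C_mul, PowerSeries.coeff_X_pow_mul', ih n (by omega), zero_sub,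
      neg_eq_zero]
    split_ifs with h3
    · rw [ih (n - ab.2) (by omega), mul_zero]
    · rw [mul_zero]

/-- splitting off the constant factors -/
theorem split_prod {l : ℕ} (q : ℝ) (a : Fin l → ℤ) (m : Fin l → ℕ)
    (h : ∀ i, m i = 0 → q ^ (a i) ≠ 1) (s : List (Fin l)) : ∃ κ : ℝ, κ ≠ 0 ∧
    (s.map fun i => 1 - PowerSeries.C (q ^ (a i)) * (PowerSeries.X : PowerSeries ℝ) ^ (m i)).prod =
      PowerSeries.C κ * DenP q ((s.filter fun i => 1 ≤ m i).map fun i => (a i, m i)) := by
  induction s with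
  | nil => exact ⟨1, one_ne_zero, by simp [DenP]⟩
  | cons i s ih =>
    obtain ⟨κ, hκ, h1⟩ := ih
    by_cases hm : 1 ≤ m i
    · refine ⟨κ, hκ, ?_⟩
      rw [List.map_cons, List.prod_cons, h1, List.filter_cons_of_pos (by simpa using hm),
        List.map_cons]
      unfold DenP
      rw [List.map_cons, List.prod_cons]
      ring
    · have hm0 : m i = 0 := by omega
      refine ⟨κ * (1 - q ^ (a i)), mul_ne_zero hκ (sub_ne_zero.2 (h i hm0).symm), ?_⟩
      rw [List.map_cons, List.prod_cons, h1, List.filter_cons_of_neg (by simpa using hm), hm0,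
        pow_zero, mul_one, map_mul, map_sub, map_one]
      ring

/-- negativity of the exponents -/
theorem neg_of_summable {A : (Fin r → ℕ) →+ ℤ} {M : (Fin r → ℕ) →+ ℕ} {c : Set (Fin r → ℕ)} {q : ℝ}
    (hq : 1 < q) (hs : ∀ n, Summable (tm A M q c n)) {γ₀ w : Fin r → ℕ} (hγ : ∀ k : ℕ, γ₀ + k • w ∈ c)
    (hw : w ≠ 0) (hM : M w = 0) : q ^ (A w) ≠ 1 := by
  intro hone
  have hq0 : 0 < q := by linarith
  have hinj : Function.Injective (fun k : ℕ => γ₀ + k • w) := by
    intro k k' h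
    have h1 : k • w = k' • w := add_left_cancel h
    obtain ⟨j, hj⟩ := Function.ne_iff.1 hw
    have h2 := congrFun h1 j
    simp only [Pi.smul_apply, smul_eq_mul] at h2
    exact Nat.eq_of_mul_eq_mul_right (Nat.pos_of_ne_zero hj) h2
  have h1 := (hs (M γ₀)).comp_injective hinj
  have h2 := h1.tendsto_atTop_zero
  have h3 : ∀ k : ℕ, (tm A M q c (M γ₀) ∘ fun k : ℕ => γ₀ + k • w) k = q ^ (A γ₀) := by
    intro k
    show tm A M q c (M γ₀) (γ₀ + k • w) = _
    rw [tm_pos (hγ k) (by rw [map_add, map_nsmul, hM, smul_zero, add_zero]), map_add, map_nsmul,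
      zpow_add₀ hq0.ne', nsmul_eq_mul, mul_comm (k : ℤ), zpow_mul, hone, one_zpow, mul_one]
  have h4 : Filter.Tendsto (fun _ : ℕ => q ^ (A γ₀)) Filter.atTop (nhds 0) :=
    h2.congr h3
  have h5 := tendsto_nhds_unique h4 tendsto_const_nhds
  exact (zpow_pos hq0 _).ne h5

theorem base (h2 : S_HS2) (A : (Fin r → ℕ) →+ ℤ) (M : (Fin r → ℕ) →+ ℕ) (N : ℕ) (hN : 0 < N)
    (c' : Fin N → Set (Fin r → ℕ)) (hc' : ∀ i, IsLinearSet (c' i)) : Rt A M (⋂ i, c' i) := by
  classical
  obtain ⟨l, v, G, hv, hG⟩ := h2 r N c' hN hc'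
  obtain ⟨c, hc⟩ : ∃ c, c = ⋂ i, c' i := ⟨_, rfl⟩
  rw [← hc]
  have hmem : ∀ γ, γ ∈ c ↔ ∃ g ∈ G, ∃ n : Fin l → ℕ, γ = g + ∑ i, n i • v i := by
    intro γ
    rw [hc, Set.mem_iInter]
    exact hG γ
  have hst : ∀ i, ∀ γ ∈ c, γ + v i ∈ c := by
    intro i γ hγ
    obtain ⟨g, hg, n, rfl⟩ := (hmem γ).1 hγ
    refine (hmem _).2 ⟨g, hg, fun j => n j + (if j = i then 1 else 0), ?_⟩
    simp only [add_smul, Finset.sum_add_distrib, ite_smul, one_smul, zero_smul,
      Finset.sum_ite_eq', Finset.mem_univ, if_true]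
    rw [add_assoc]
  obtain ⟨T, hT⟩ := Hs1.main r l v c ∅ G hst (fun i γ h => absurd h (Set.notMem_empty γ))
    (fun g hg => (hmem g).2 ⟨g, hg, 0, by simp⟩) (fun γ hγ => Or.inr ((hmem γ).1 hγ))
  refine ⟨((List.finRange l).filter fun i => 1 ≤ M (v i)).map fun i => (A (v i), M (v i)),
    T.sup M, ?_, ?_⟩
  · intro ab hab
    rw [List.mem_map] at hab
    obtain ⟨i, hi, rfl⟩ := hab
    simpa using (List.mem_filter.1 hi).2
  · intro q hq hs n hn
    by_cases hne : c.Nonempty
    · obtain ⟨γ₀, hγ₀⟩ := hne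
      have hneg : ∀ i, M (v i) = 0 → q ^ (A (v i)) ≠ 1 := by
        intro i hi
        refine neg_of_summable hq hs (γ₀ := γ₀) (w := v i) (fun k => ?_) (hv i) hi
        induction k with
        | zero => rwa [zero_smul, add_zero]
        | succ k ih =>
          rw [succ_nsmul, ← add_assoc]
          exact hst i _ ih
      obtain ⟨κ, hκ, hprod⟩ := split_prod q (fun i => A (v i)) (fun i => M (v i)) hneg
        (List.finRange l)
      have h3 := hT A M q hq (by rw [Set.sdiff_empty]; exact hs) n (fun γ hγ h4 => by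
        have : M γ ≤ T.sup M := Finset.le_sup (f := M) hγ
        omega)
      rw [List.ofFn_eq_map, hprod, Set.sdiff_empty, mul_assoc, PowerSeries.coeff_C_mul] at h3
      exact (mul_eq_zero.1 h3).resolve_left hκ
    · have h0 : c = ∅ := Set.not_nonempty_iff_eq_empty.1 hne
      have h3 : PowerSeries.mk (sr A M q c) = 0 := by
        ext k
        rw [PowerSeries.coeff_mk, map_zero, h0]
        unfold sr
        have : ∀ γ, tm A M q ∅ k γ = 0 := fun γ => tm_zero (fun h => h.1)
        simp only [this, tsum_zero]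
      rw [h3, mul_zero, map_zero]

theorem union {A : (Fin r → ℕ) →+ ℤ} {M : (Fin r → ℕ) →+ ℕ} {c1 c2 : Set (Fin r → ℕ)}
    (h1 : Rt A M c1) (h2 : Rt A M c2) (h12 : Rt A M (c1 ∩ c2)) : Rt A M (c1 ∪ c2) := by
  obtain ⟨L1, B1, p1, q1⟩ := h1
  obtain ⟨L2, B2, p2, q2⟩ := h2
  obtain ⟨L3, B3, p3, q3⟩ := h12
  refine ⟨L1 ++ (L2 ++ L3), B1 + B2 + B3 + (L1.map Prod.snd).sum + (L2.map Prod.snd).sum +
    (L3.map Prod.snd).sum, ?_, ?_⟩
  · intro ab hab
    rw [List.mem_append, List.mem_append] at hab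
    rcases hab with h | h | h
    · exact p1 ab h
    · exact p2 ab h
    · exact p3 ab h
  · intro q hq hs n hn
    have hq0 : 0 < q := by linarith
    have s1 : ∀ n, Summable (tm A M q c1 n) := fun n =>
      summable_mono hq0 Set.subset_union_left (hs n)
    have s2 : ∀ n, Summable (tm A M q c2 n) := fun n =>
      summable_mono hq0 Set.subset_union_right (hs n)
    have s3 : ∀ n, Summable (tm A M q (c1 ∩ c2) n) := fun n =>
      summable_mono hq0 Set.inter_subset_left (s1 n)
    have s4 : ∀ n, Summable (tm A M q (c2 \ c1) n) := fun n =>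
      summable_mono hq0 (fun γ h => h.1) (s2 n)
    have u1 : ∀ n, sr A M q (c1 ∪ c2) n = sr A M q c1 n + sr A M q (c2 \ c1) n := by
      intro n
      have e : c1 ∪ c2 = c1 ∪ (c2 \ c1) := by
        ext γ
        constructor
        · rintro (h | h)
          · exact Or.inl h
          · by_cases h' : γ ∈ c1
            · exact Or.inl h'
            · exact Or.inr ⟨h, h'⟩
        · rintro (h | h)
          · exact Or.inl h
          · exact Or.inr h.1
      rw [e]
      exact sr_union (fun γ h h' => h'.2 h) (s1 n) (s4 n)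
    have u2 : ∀ n, sr A M q c2 n = sr A M q (c1 ∩ c2) n + sr A M q (c2 \ c1) n := by
      intro n
      have e : c2 = (c1 ∩ c2) ∪ (c2 \ c1) := by
        ext γ
        constructor
        · intro h
          by_cases h' : γ ∈ c1
          · exact Or.inl ⟨h', h⟩
          · exact Or.inr ⟨h, h'⟩
        · rintro (h | h)
          · exact h.2
          · exact h.1
      conv_lhs => rw [e]
      exact sr_union (fun γ h h' => h'.2 h.1) (s3 n) (s4 n)
    have hser : PowerSeries.mk (sr A M q (c1 ∪ c2)) = PowerSeries.mk (sr A M q c1) +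
        PowerSeries.mk (sr A M q c2) - PowerSeries.mk (sr A M q (c1 ∩ c2)) := by
      ext k
      rw [map_sub, map_add, PowerSeries.coeff_mk, PowerSeries.coeff_mk, PowerSeries.coeff_mk,
        PowerSeries.coeff_mk, u1, u2]
      ring
    rw [den_append, den_append, hser]
    have e1 : DenP q L1 * (DenP q L2 * DenP q L3) * (PowerSeries.mk (sr A M q c1) +
        PowerSeries.mk (sr A M q c2) - PowerSeries.mk (sr A M q (c1 ∩ c2))) =
        DenP q (L2 ++ L3) * (DenP q L1 * PowerSeries.mk (sr A M q c1)) +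
        DenP q (L1 ++ L3) * (DenP q L2 * PowerSeries.mk (sr A M q c2)) -
        DenP q (L1 ++ L2) * (DenP q L3 * PowerSeries.mk (sr A M q (c1 ∩ c2))) := by
      rw [den_append, den_append, den_append]
      ring
    rw [e1, map_sub, map_add]
    rw [coeff_den q B1 _ (q1 q hq s1) (L2 ++ L3) n (by
        rw [List.map_append, List.sum_append]; omega),
      coeff_den q B2 _ (q2 q hq s2) (L1 ++ L3) n (by
        rw [List.map_append, List.sum_append]; omega),
      coeff_den q B3 _ (q3 q hq s3) (L1 ++ L2) n (by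
        rw [List.map_append, List.sum_append]; omega)]
    ring

/-- finite intersections of linear sets -/
def IL (c : Set (Fin r → ℕ)) : Prop :=
  ∃ (N : ℕ) (c' : Fin N → Set (Fin r → ℕ)), 0 < N ∧ (∀ i, IsLinearSet (c' i)) ∧ c = ⋂ i, c' i

theorem IL.inter {c1 c2 : Set (Fin r → ℕ)} (h1 : IL c1) (h2 : IL c2) : IL (c1 ∩ c2) := by
  obtain ⟨N1, d1, p1, q1, rfl⟩ := h1
  obtain ⟨N2, d2, p2, q2, rfl⟩ := h2
  refine ⟨N1 + N2, Fin.append d1 d2, by omega, fun i => ?_, ?_⟩
  · refine Fin.addCases (fun i => ?_) (fun i => ?_) i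
    · rw [Fin.append_left]; exact q1 i
    · rw [Fin.append_right]; exact q2 i
  · ext γ
    rw [Set.mem_inter_iff, Set.mem_iInter, Set.mem_iInter, Set.mem_iInter]
    constructor
    · rintro ⟨h1, h2⟩ i
      refine Fin.addCases (fun i => ?_) (fun i => ?_) i
      · rw [Fin.append_left]; exact h1 i
      · rw [Fin.append_right]; exact h2 i
    · intro h
      refine ⟨fun i => ?_, fun i => ?_⟩
      · have := h (Fin.castAdd N2 i)
        rwa [Fin.append_left] at this
      · have := h (Fin.natAdd N1 i)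
        rwa [Fin.append_right] at this

theorem list_case (h2 : S_HS2) (A : (Fin r → ℕ) →+ ℤ) (M : (Fin r → ℕ) →+ ℕ) :
    ∀ (k : ℕ) (s : List (Set (Fin r → ℕ))), s.length = k → (∀ c ∈ s, IL c) →
      Rt A M {γ | ∃ c ∈ s, γ ∈ c} := by
  intro k
  induction k with
  | zero =>
    intro s hs _
    rw [List.length_eq_zero_iff] at hs
    subst hs
    refine ⟨[], 0, fun ab hab => absurd hab List.not_mem_nil, fun q hq hs n hn => ?_⟩
    have h3 : PowerSeries.mk (sr A M q {γ | ∃ c ∈ ([] : List (Set (Fin r → ℕ))), γ ∈ c}) = 0 := by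
      ext k
      rw [PowerSeries.coeff_mk, map_zero]
      unfold sr
      have : ∀ γ, tm A M q {γ | ∃ c ∈ ([] : List (Set (Fin r → ℕ))), γ ∈ c} k γ = 0 := by
        intro γ
        apply tm_zero
        rintro ⟨⟨c, hc, -⟩, -⟩
        exact absurd hc List.not_mem_nil
      simp only [this, tsum_zero]
    rw [h3, mul_zero, map_zero]
  | succ k ih =>
    intro s hs hIL
    match s, hs, hIL with
    | [], hs, _ => simp at hs
    | c :: s, hs, hIL =>
      have hlen : s.length = k := by simpa using hs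
      have e1 : {γ | ∃ c' ∈ c :: s, γ ∈ c'} = c ∪ {γ | ∃ c' ∈ s, γ ∈ c'} := by
        ext γ
        constructor
        · rintro ⟨c', hc', hγ⟩
          rcases List.mem_cons.1 hc' with rfl | h
          · exact Or.inl hγ
          · exact Or.inr ⟨c', h, hγ⟩
        · rintro (h | ⟨c', hc', hγ⟩)
          · exact ⟨c, List.mem_cons_self, h⟩
          · exact ⟨c', List.mem_cons_of_mem _ hc', hγ⟩
      have e2 : c ∩ {γ | ∃ c' ∈ s, γ ∈ c'} = {γ | ∃ c' ∈ s.map (fun c' => c ∩ c'), γ ∈ c'} := by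
        ext γ
        constructor
        · rintro ⟨h1, c', hc', hγ⟩
          exact ⟨c ∩ c', List.mem_map.2 ⟨c', hc', rfl⟩, h1, hγ⟩
        · rintro ⟨c'', hc'', hγ⟩
          obtain ⟨c', hc', rfl⟩ := List.mem_map.1 hc''
          exact ⟨hγ.1, c', hc', hγ.2⟩
      have hc : IL c := hIL c List.mem_cons_self
      have hs' : ∀ c' ∈ s, IL c' := fun c' h => hIL c' (List.mem_cons_of_mem _ h)
      rw [e1]
      refine union ?_ (ih s hlen hs') ?_
      · obtain ⟨N, d, p1, p2, rfl⟩ := hc
        exact base h2 A M N p1 d p2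
      · rw [e2]
        refine ih _ (by rw [List.length_map, hlen]) fun c'' hc'' => ?_
        obtain ⟨c', hc', rfl⟩ := List.mem_map.1 hc''
        exact hc.inter (hs' c' hc')

end Hss

open Hs1 Hss

theorem hss (_ : S_HS1) (h2 : S_HS2) : S_HSS := by
  classical
  intro r c hc A M
  obtain ⟨S, hS, rfl⟩ := isSemilinearSet_iff.1 hc
  obtain ⟨L, B, p1, p2⟩ := list_case h2 A M S.toList.length S.toList rfl (fun c' hc' =>
    ⟨1, fun _ => c', one_pos, fun _ => hS c' (Finset.mem_toList.1 hc'), by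
      ext γ
      rw [Set.mem_iInter]
      exact ⟨fun h _ => h, fun h => h 0⟩⟩)
  have e1 : {γ | ∃ c ∈ S.toList, γ ∈ c} = ⋃₀ (S : Set (Set (Fin r → ℕ))) := by
    ext γ
    rw [Set.mem_sUnion]
    constructor
    · rintro ⟨c', h1, h3⟩
      exact ⟨c', Finset.mem_toList.1 h1, h3⟩
    · rintro ⟨c', h1, h3⟩
      exact ⟨c', Finset.mem_toList.2 h1, h3⟩
  rw [e1] at p2
  refine ⟨L, B, p1, fun q hq hs n hn => ?_⟩
  have h3 : ∀ n, (∑' γ : {γ : Fin r → ℕ // γ ∈ ⋃₀ (S : Set (Set (Fin r → ℕ))) ∧ M γ = n},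
      q ^ (A γ.1)) = sr A M q (⋃₀ (S : Set (Set (Fin r → ℕ)))) n := fun n =>
    tsum_subtype ({γ | γ ∈ ⋃₀ (S : Set (Set (Fin r → ℕ))) ∧ M γ = n} : Set (Fin r → ℕ))
      fun γ => q ^ (A γ)
  simp only [h3]
  exact p2 q hq (fun n => summable_subtype_iff_indicator.1 (hs n)) n hn

end Pool.Agent.T2h77U
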