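import Pool.Agent.T2h77U.Stm3

/-! KKI: the limit of the numbers of points (helper38). -/

set_option autoImplicit false
set_option linter.all false

namespace Pool.Agent.T2h77U

open Polynomial

namespace KKI

open H341R2.Sharp

section rec

variable {F : Type} [Field F] [Fintype F] [DecidableEq F]

theorem A_vanish (hF : ringChar F ≠ 2) {d : ℕ} (b : Fin d → F) (hd : 1 ≤ d)
    (hb : Function.Injective b) (n : ℕ) (hn : d ≤ n) : A (∏ j, (X - C (b j))) n = 0 := by
  obtain ⟨h, hh⟩ : ∃ h : F[X], h = ∏ j, (X - C (b j)) := ⟨_, rfl⟩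
  rw [← hh]
  have hmon : h.Monic := by
    rw [hh]
    exact monic_prod_of_monic _ _ fun j _ => monic_X_sub_C _
  have hdeg : h.natDegree = d := by
    rw [hh, natDegree_finsetProd_X_sub_C_eq_card]
    simp
  have hsep : h.Separable := by
    rw [hh, separable_prod_X_sub_C_iff]
    exact hb
  have hns : ∀ (c : F) (g : F[X]), h ≠ C c * g ^ 2 := by
    intro c g hg
    have h1 : IsUnit g := hsep.squarefree g ⟨C c, by rw [hg]; ring⟩
    have h2 : h.natDegree = 0 := by
      rw [hg]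
      obtain ⟨r, hr, rfl⟩ := Polynomial.isUnit_iff.1 h1
      rw [← C_pow, ← C_mul, natDegree_C]
    omega
  obtain ⟨r, hr, hlam⟩ := exists_r hF hmon (by omega) hns
  exact A_eq_zero h r hmon hr hlam n (by omega)

theorem n_mul_A' (f : F[X]) (n : ℕ) :
    ∑ i ∈ Finset.range n, A f i * T f (n - i) = (n : ℤ) * A f n := by
  rw [n_mul_A]
  refine Finset.sum_nbij' (fun i => n - i) (fun m => n - m) ?_ ?_ ?_ ?_ ?_
  · intro i hi
    rw [Finset.mem_range] at hi
    rw [Finset.mem_Icc]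
    omega
  · intro m hm
    rw [Finset.mem_Icc] at hm
    rw [Finset.mem_range]
    omega
  · intro i hi
    rw [Finset.mem_range] at hi
    omega
  · intro m hm
    rw [Finset.mem_Icc] at hm
    omega
  · intro i hi
    rw [Finset.mem_range] at hi
    congr 2
    omega

/-- the sequence -/
noncomputable def sq (f : F[X]) (d : ℕ) (m : ℕ) : ℤ := if m = 0 then 1 - (d : ℤ) else T f m

theorem rec0 (f : F[X]) (d : ℕ) (hd : 1 ≤ d) (hA : ∀ n, d ≤ n → A f n = 0) (n : ℕ)
    (hn : d - 1 ≤ n) : ∑ i ∈ Finset.range d, A f i * sq f d (n - i) = 0 := by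
  rcases Nat.lt_or_ge n d with h | h
  · have hnd : n = d - 1 := by omega
    obtain ⟨k, rfl⟩ : ∃ k, d = k + 1 := ⟨d - 1, by omega⟩
    rw [Finset.sum_range_succ]
    have hnk : n = k := by omega
    subst hnk
    have h1 : ∑ i ∈ Finset.range n, A f i * sq f (n + 1) (n - i) =
        ∑ i ∈ Finset.range n, A f i * T f (n - i) := by
      refine Finset.sum_congr rfl fun i hi => ?_
      rw [Finset.mem_range] at hi
      unfold sq
      rw [if_neg (by omega)]
    rw [h1, n_mul_A', Nat.sub_self]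
    unfold sq
    rw [if_pos rfl]
    push_cast
    ring
  · have h1 : ∑ i ∈ Finset.range d, A f i * sq f d (n - i) =
        ∑ i ∈ Finset.range n, A f i * T f (n - i) := by
      rw [← Finset.sum_subset (Finset.range_subset_range.2 h)]
      · rcases Nat.eq_or_lt_of_le h with h' | h'
        · refine Finset.sum_congr rfl fun i hi => ?_
          rw [Finset.mem_range] at hi
          unfold sq
          rw [if_neg (by omega)]
        · refine Finset.sum_congr rfl fun i hi => ?_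
          rw [Finset.mem_range] at hi
          unfold sq
          rw [if_neg (by omega)]
      · intro i _ hi
        rw [Finset.mem_range, not_lt] at hi
        rw [hA i hi, zero_mul]
    rw [h1, n_mul_A', hA n h, mul_zero]

theorem rec1 (f : F[X]) (N : ℕ) (hA : ∀ n, N + 2 ≤ n → A f n = 0) (k : ℕ) :
    sq f (N + 2) (k + (N + 1)) =
      ∑ i : Fin (N + 1), (-(A f (N + 1 - i))) * sq f (N + 2) (k + i) := by
  have h := rec0 f (N + 2) (by omega) hA (k + (N + 1)) (by omega)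
  rw [Finset.sum_range_succ', A_zero, one_mul, Nat.sub_zero] at h
  have h1 : ∑ i ∈ Finset.range (N + 1), A f (i + 1) * sq f (N + 2) (k + (N + 1) - (i + 1)) =
      ∑ i ∈ Finset.range (N + 1), A f (N + 1 - i) * sq f (N + 2) (k + i) := by
    rw [← Finset.sum_range_reflect]
    refine Finset.sum_congr rfl fun i hi => ?_
    rw [Finset.mem_range] at hi
    congr 2 <;> omega
  rw [h1] at h
  rw [Fin.sum_univ_eq_sum_range (fun i => (-(A f (N + 1 - i))) * sq f (N + 2) (k + i)) (N + 1)]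
  simp only [neg_mul, Finset.sum_neg_distrib]
  linarith

/-- the limit of the character sums for a product of linear factors -/
theorem lim_T (h1 : S_TPC) (h2 : S_PER) (hF : ringChar F ≠ 2) {d : ℕ} (b : Fin d → F)
    (hd : Even d) (hd2 : 2 ≤ d) (hb : Function.Injective b) (ℓ p : ℕ) [Fact ℓ.Prime]
    (hp : p.Prime) (hpl : p ≠ ℓ) (k : ℕ) (hk : Fintype.card F = p ^ k) :
    ∃ D : ℕ, 1 ≤ D ∧ ∀ t f : ℕ, 1 ≤ f → D * ℓ ^ t ∣ f →
      (ℓ : ℤ) ^ t ∣ T (∏ j, (X - C (b j))) f - (1 - (d : ℤ)) := by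
  obtain ⟨h, hh⟩ : ∃ h : F[X], h = ∏ j, (X - C (b j)) := ⟨_, rfl⟩
  obtain ⟨N, rfl⟩ : ∃ N, d = N + 2 := ⟨d - 2, by omega⟩
  have hA := A_vanish hF b (by omega) hb
  have hl : ℓ.Prime := Fact.out
  have hndvd : ¬ (ℓ : ℤ) ∣ (fun i : Fin (N + 1) => -(A h (N + 1 - i))) 0 := by
    intro hdv
    have e1 : (ℓ : ℤ) ∣ A h (N + 1) := by
      have e0 : (fun i : Fin (N + 1) => -(A h (N + 1 - i))) 0 = -(A h (N + 1)) := by simp
      rw [e0] at hdv
      exact (dvd_neg.1 hdv)
    have e2 := h1 F hF (N + 2) b hd hd2 hb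
    rw [← hh, hk, show N + 2 - 1 = N + 1 by omega] at e2
    have e3 : ℓ ∣ (A h (N + 1)).natAbs := Int.natCast_dvd.1 e1
    rw [e2, ← pow_mul] at e3
    have e4 := hl.dvd_of_dvd_pow e3
    exact hpl ((Nat.prime_dvd_prime_iff_eq hl hp).1 e4).symm
  obtain ⟨D, hD, hD2⟩ := h2 ℓ N (fun i : Fin (N + 1) => -(A h (N + 1 - i))) hndvd
  refine ⟨D, hD, fun t f hf hdv => ?_⟩
  rw [← hh]
  have h3 := hD2 (sq h (N + 2)) (fun k => rec1 h N (by rw [hh]; exact hA) k) t f 0 hdv
  rw [zero_add] at h3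
  unfold sq at h3
  rw [if_neg (by omega), if_pos rfl] at h3
  exact h3

end rec

/-! ### the polynomials -/

/-- the product of the polynomials `(X - 2 i) (X - (2 i + 1))`, `i ∈ I` -/
noncomputable def hp (F : Type) [CommRing F] (I : Finset (Fin 4)) : F[X] :=
  ∏ i ∈ I, ((X - C ((2 * i.1 : ℕ) : F)) * (X - C ((2 * i.1 + 1 : ℕ) : F)))

theorem lim_hp (h1 : S_TPC) (h2 : S_PER) (ℓ p : ℕ) [Fact ℓ.Prime] [Fact p.Prime] (hp11 : 11 ≤ p)
    (hpl : p ≠ ℓ) (I : Finset (Fin 4)) (hI : I.Nonempty) :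
    ∃ D : ℕ, 1 ≤ D ∧ ∀ t f : ℕ, 1 ≤ f → D * ℓ ^ t ∣ f →
      (ℓ : ℤ) ^ t ∣ T (hp (ZMod p) I) f - (1 - 2 * (I.card : ℤ)) := by
  classical
  have hF : ringChar (ZMod p) ≠ 2 := by
    rw [ZMod.ringChar_zmod_n]
    omega
  have hcard : Fintype.card (I × Fin 2) = 2 * I.card := by
    rw [Fintype.card_prod, Fintype.card_coe, Fintype.card_fin, mul_comm]
  obtain ⟨e⟩ : Nonempty (I × Fin 2 ≃ Fin (2 * I.card)) := ⟨Fintype.equivFinOfCardEq hcard⟩
  obtain ⟨b, hb⟩ : ∃ b : Fin (2 * I.card) → ZMod p, b = fun j =>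
    ((2 * (e.symm j).1.1.1 + (e.symm j).2.1 : ℕ) : ZMod p) := ⟨_, rfl⟩
  have hinj : Function.Injective b := by
    intro j k hjk
    rw [hb] at hjk
    have h3 := CharP.natCast_injOn_Iio (ZMod p) p
    have b1 := (e.symm j).1.1.2
    have b2 := (e.symm j).2.2
    have b3 := (e.symm k).1.1.2
    have b4 := (e.symm k).2.2
    have h4 : 2 * (e.symm j).1.1.1 + (e.symm j).2.1 = 2 * (e.symm k).1.1.1 + (e.symm k).2.1 := by
      apply h3 _ _ hjk
      · rw [Set.mem_Iio]
        omega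
      · rw [Set.mem_Iio]
        omega
    apply e.symm.injective
    apply Prod.ext
    · apply Subtype.ext
      apply Fin.ext
      omega
    · apply Fin.ext
      omega
  have hprod : ∏ j, (X - C (b j)) = hp (ZMod p) I := by
    rw [← Equiv.prod_comp e, Fintype.prod_prod_type]
    unfold hp
    rw [← Finset.prod_coe_sort I (fun i : Fin 4 => ((X - C ((2 * i.1 : ℕ) : ZMod p)) *
      (X - C ((2 * i.1 + 1 : ℕ) : ZMod p))))]
    refine Finset.prod_congr rfl fun i _ => ?_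
    rw [Fin.prod_univ_two, hb]
    simp
  have h3 := lim_T h1 h2 hF b (even_two_mul _) (by have := hI.card_pos; omega) hinj ℓ p Fact.out hpl 1
    (by rw [ZMod.card, pow_one])
  rw [hprod] at h3
  push_cast at h3
  exact h3

theorem T_hp (p f : ℕ) [Fact p.Prime] (hp11 : 11 ≤ p) (hf : 1 ≤ f) (E : Type) [Field E] [Fintype E]
    [DecidableEq E] [Algebra (ZMod p) E] (hfr : Module.finrank (ZMod p) E = f)
    (I : Finset (Fin 4)) :
    T (hp (ZMod p) I) f = ∑ x : E, ∏ i ∈ I,
      quadraticChar E ((x - ((2 * i.1 : ℕ) : E)) * (x - ((2 * i.1 + 1 : ℕ) : E))) := by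
  have hF : ringChar (ZMod p) ≠ 2 := by
    rw [ZMod.ringChar_zmod_n]
    omega
  have h1 := T_eq_sum (F := ZMod p) (E := E) hF (hp (ZMod p) I)
  rw [hfr] at h1
  rw [h1]
  refine Finset.sum_congr rfl fun x _ => ?_
  unfold hp
  rw [map_prod, map_prod]
  refine Finset.prod_congr rfl fun i _ => ?_
  rw [map_mul, map_sub, map_sub, aeval_X, aeval_C, aeval_C, map_natCast, map_natCast]

/-- the number of points -/
theorem KK_eq (E : Type) [Field E] [Fintype E] [DecidableEq E] (hE : ringChar E ≠ 2)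
    (I : Finset (Fin 4)) :
    (KK E I : ℤ) = 2 ^ I.card + ∑ x : E, ∏ i ∈ I,
      (1 + quadraticChar E ((x - ((2 * i.1 : ℕ) : E)) * (x - ((2 * i.1 + 1 : ℕ) : E)))) := by
  unfold KK
  have h1 : Nat.card {x : E × (Fin 4 → E) // ∀ i, if i ∈ I then
      x.2 i ^ 2 = (x.1 - ((2 * i.1 : ℕ) : E)) * (x.1 - ((2 * i.1 + 1 : ℕ) : E)) else x.2 i = 0} =
      ∑ x : E, ∏ i : Fin 4, Nat.card {w : E // if i ∈ I then
        w ^ 2 = (x - ((2 * i.1 : ℕ) : E)) * (x - ((2 * i.1 + 1 : ℕ) : E)) else w = 0} := by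
    rw [Nat.card_congr (Equiv.subtypeProdEquivSigmaSubtype (fun (x : E) (w : Fin 4 → E) =>
      ∀ i, if i ∈ I then w i ^ 2 = (x - ((2 * i.1 : ℕ) : E)) * (x - ((2 * i.1 + 1 : ℕ) : E))
        else w i = 0)), Nat.card_sigma]
    refine Finset.sum_congr rfl fun x _ => ?_
    rw [Nat.card_congr (Equiv.subtypePiEquivPi (p := fun (i : Fin 4) (w : E) => if i ∈ I then
      w ^ 2 = (x - ((2 * i.1 : ℕ) : E)) * (x - ((2 * i.1 + 1 : ℕ) : E)) else w = 0)), Nat.card_pi]
  rw [h1]
  push_cast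
  congr 1
  refine Finset.sum_congr rfl fun x _ => ?_
  have h2 : ∀ i : Fin 4, ((Nat.card {w : E // if i ∈ I then
        w ^ 2 = (x - ((2 * i.1 : ℕ) : E)) * (x - ((2 * i.1 + 1 : ℕ) : E)) else w = 0} : ℕ) : ℤ) =
      if i ∈ I then (1 + quadraticChar E ((x - ((2 * i.1 : ℕ) : E)) *
        (x - ((2 * i.1 + 1 : ℕ) : E)))) else 1 := by
    intro i
    by_cases hi : i ∈ I
    · simp only [if_pos hi]
      rw [add_comm (1 : ℤ), ← quadraticChar_card_sqrts hE]
      congr 1
      rw [Set.toFinset_card, ← Nat.card_eq_fintype_card]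
      rfl
    · simp only [if_neg hi]
      simp
  have h3 : ∀ i : Fin 4, (2 * (i.1 : ℤ)) = ((2 * i.1 : ℕ) : ℤ) := fun i => by push_cast; rfl
  calc _ = ∏ i : Fin 4, ((Nat.card {w : E // if i ∈ I then
        w ^ 2 = (x - ((2 * i.1 : ℕ) : E)) * (x - ((2 * i.1 + 1 : ℕ) : E)) else w = 0} : ℕ) : ℤ) := by
        refine Finset.prod_congr rfl fun i _ => ?_
        push_cast
        rfl
    _ = ∏ i : Fin 4, (if i ∈ I then (1 + quadraticChar E ((x - ((2 * i.1 : ℕ) : E)) *
        (x - ((2 * i.1 + 1 : ℕ) : E)))) else 1) := Finset.prod_congr rfl fun i _ => h2 i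
    _ = ∏ i ∈ I, (1 + quadraticChar E ((x - ((2 * i.1 : ℕ) : E)) *
        (x - ((2 * i.1 + 1 : ℕ) : E)))) := by
        rw [Finset.prod_ite_mem, Finset.univ_inter]
    _ = _ := by
        refine Finset.prod_congr rfl fun i _ => ?_
        push_cast
        rfl

theorem sum_card (I : Finset (Fin 4)) : ∑ J ∈ I.powerset, (1 - 2 * (J.card : ℤ)) =
    2 ^ I.card * (1 - (I.card : ℤ)) := by
  revert I
  decide

end KKI

open KKI

theorem kki (h1 : S_TPC) (h2 : S_PER) : S_KKI := by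
  classical
  intro ℓ p hℓ hpp hp11 hpl
  have hl : ℓ.Prime := hℓ.out
  have hD : ∀ I : Finset (Fin 4), ∃ D : ℕ, 1 ≤ D ∧ (I.Nonempty → ∀ t f : ℕ, 1 ≤ f →
      D * ℓ ^ t ∣ f → (ℓ : ℤ) ^ t ∣ H341R2.Sharp.T (hp (ZMod p) I) f - (1 - 2 * (I.card : ℤ))) := by
    intro I
    by_cases hI : I.Nonempty
    · obtain ⟨D, hD1, hD2⟩ := lim_hp h1 h2 ℓ p hp11 hpl I hI
      exact ⟨D, hD1, fun _ => hD2⟩
    · exact ⟨1, le_rfl, fun h => absurd h hI⟩
  choose D hD1 hD2 using hD
  refine ⟨(ℓ - 1) * ∏ I : Finset (Fin 4), D I, ?_, ?_⟩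
  · have h3 : 1 ≤ ∏ I : Finset (Fin 4), D I := Finset.one_le_prod' fun I _ => hD1 I
    have h4 : 1 ≤ ℓ - 1 := by
      have := hl.two_le
      omega
    exact Nat.mul_pos h4 h3
  · intro t f hf hdv
    have hDI : ∀ I, D I * ℓ ^ t ∣ f := by
      intro I
      refine dvd_trans (mul_dvd_mul_right ?_ _) hdv
      exact (Finset.dvd_prod_of_mem D (Finset.mem_univ I)).trans (dvd_mul_left _ _)
    have hpf : (ℓ : ℤ) ^ t ∣ (p : ℤ) ^ f - 1 := by
      have h3 : (ℓ ^ t).totient ∣ f := by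
        rcases Nat.eq_zero_or_pos t with rfl | ht
        · simp
        · rw [Nat.totient_prime_pow hl ht]
          refine dvd_trans ?_ hdv
          have e1 : (ℓ - 1) * (∏ I : Finset (Fin 4), D I) * ℓ ^ t =
              (ℓ ^ (t - 1) * (ℓ - 1)) * ((∏ I : Finset (Fin 4), D I) * ℓ) := by
            obtain ⟨s, rfl⟩ : ∃ s, t = s + 1 := ⟨t - 1, by omega⟩
            rw [Nat.add_sub_cancel, pow_succ]
            ring
          rw [e1]
          exact dvd_mul_right _ _
      obtain ⟨m, hm⟩ := h3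
      have h4 : p.Coprime (ℓ ^ t) :=
        Nat.Coprime.pow_right t ((Nat.coprime_primes hpp.out hl).2 hpl)
      have h5 := (Nat.ModEq.pow_totient h4).pow m
      rw [one_pow, ← pow_mul, ← hm] at h5
      have h6 := (Nat.modEq_iff_dvd.1 h5.symm)
      push_cast at h6
      exact h6
    refine ⟨hpf, fun I => ?_⟩
    have hfin : Fintype (GaloisField p f) := Fintype.ofFinite _
    have hE : ringChar (GaloisField p f) ≠ 2 := by
      rw [ringChar.eq (GaloisField p f) p]
      omega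
    have hfr : Module.finrank (ZMod p) (GaloisField p f) = f := GaloisField.finrank p (by omega)
    rw [KK_eq (GaloisField p f) hE I]
    have h3 : ∑ x : GaloisField p f, ∏ i ∈ I, (1 + quadraticChar (GaloisField p f)
        ((x - ((2 * i.1 : ℕ) : GaloisField p f)) * (x - ((2 * i.1 + 1 : ℕ) : GaloisField p f)))) =
        ∑ J ∈ I.powerset, ∑ x : GaloisField p f, ∏ i ∈ J, quadraticChar (GaloisField p f)
        ((x - ((2 * i.1 : ℕ) : GaloisField p f)) * (x - ((2 * i.1 + 1 : ℕ) : GaloisField p f))) := by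
      rw [Finset.sum_comm]
      refine Finset.sum_congr rfl fun x _ => ?_
      rw [Finset.prod_one_add]
    rw [h3]
    have h4 : (2 : ℤ) ^ I.card + ∑ J ∈ I.powerset, ∑ x : GaloisField p f, ∏ i ∈ J,
        quadraticChar (GaloisField p f) ((x - ((2 * i.1 : ℕ) : GaloisField p f)) *
          (x - ((2 * i.1 + 1 : ℕ) : GaloisField p f))) - 2 ^ I.card * (2 - (I.card : ℤ)) =
        ∑ J ∈ I.powerset, (∑ x : GaloisField p f, ∏ i ∈ J,
        quadraticChar (GaloisField p f) ((x - ((2 * i.1 : ℕ) : GaloisField p f)) *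
          (x - ((2 * i.1 + 1 : ℕ) : GaloisField p f))) - (1 - 2 * (J.card : ℤ))) := by
      rw [Finset.sum_sub_distrib, sum_card]
      ring
    rw [h4]
    refine Finset.dvd_sum fun J _ => ?_
    rcases J.eq_empty_or_nonempty with rfl | hJ
    · simp only [Finset.prod_empty, Finset.sum_const, Finset.card_univ, Finset.card_empty,
        nsmul_eq_mul, mul_one, Nat.cast_zero, mul_zero, sub_zero]
      rw [← Nat.card_eq_fintype_card, GaloisField.card p f (by omega)]
      push_cast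
      exact hpf
    · rw [← T_hp p f hp11 hf (GaloisField p f) hfr J]
      exact hD2 J hJ t f hf (hDI J)

end Pool.Agent.T2h77U
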