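import Pool.Agent.T2h77U.Stm2

/-! LA1: submodules of finite index and matrices. -/

set_option autoImplicit false

namespace Pool.Agent.T2h77U

open Module

section la

variable {O k : Type} [CommRing O] [IsDomain O] [Field k] (H : HF O k)

theorem la_spec (hunit : ∀ x : O, IsUnit x ↔ H.res x ≠ 0) {x : O} (hx : x ≠ 0) :
    ∃ u : O, IsUnit u ∧ x = H.pi ^ H.v x * u := by
  obtain ⟨h1, u, h2, h3⟩ := H.spec x hx
  exact ⟨u, (hunit u).mpr (by rw [h3]; exact h1), h2⟩

theorem la_v_unique (hunit : ∀ x : O, IsUnit x ↔ H.res x ≠ 0) (hirr : Irreducible H.pi) {x : O} {n : ℕ} {u : O}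
    (hu : IsUnit u) (hx : x = H.pi ^ n * u) : H.v x = n := by
  have hx0 : x ≠ 0 := by
    rw [hx]
    exact mul_ne_zero (pow_ne_zero n H.pi_ne) hu.ne_zero
  obtain ⟨w, hw, hxw⟩ := la_spec H hunit hx0
  have h1 : H.pi ^ H.v x ∣ H.pi ^ n := by
    have : H.pi ^ H.v x ∣ H.pi ^ n * u := ⟨w, by rw [← hx]; exact hxw⟩
    exact (hu.dvd_mul_right).mp this
  have h2 : H.pi ^ n ∣ H.pi ^ H.v x := by
    have : H.pi ^ n ∣ H.pi ^ H.v x * w := ⟨u, by rw [← hxw]; exact hx⟩
    exact (hw.dvd_mul_right).mp this
  have h3 := (pow_dvd_pow_iff H.pi_ne hirr.not_isUnit).mp h1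
  have h4 := (pow_dvd_pow_iff H.pi_ne hirr.not_isUnit).mp h2
  omega

theorem la_card [Finite k] (hunit : ∀ x : O, IsUnit x ↔ H.res x ≠ 0)
    (hcard : ∀ n : ℕ, Nat.card (O ⧸ Ideal.span {H.pi ^ n}) = (Nat.card k) ^ n) {a : O} (ha : a ≠ 0) :
    Nat.card (O ⧸ Ideal.span {a}) = (Nat.card k) ^ (H.v a) := by
  obtain ⟨u, hu, hau⟩ := la_spec H hunit ha
  have e : Ideal.span {a} = Ideal.span {H.pi ^ H.v a} := by
    rw [Ideal.span_singleton_eq_span_singleton]
    obtain ⟨w, rfl⟩ := hu
    exact (Associated.symm ⟨w, hau.symm⟩)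
  rw [e, hcard]

theorem la_v_prod (hunit : ∀ x : O, IsUnit x ↔ H.res x ≠ 0) (hirr : Irreducible H.pi) {ι : Type} (s : Finset ι)
    (a : ι → O) (ha : ∀ i, a i ≠ 0) (x u : O) (hu : IsUnit u) (hx : x = u * ∏ i ∈ s, a i) :
    H.v x = ∑ i ∈ s, H.v (a i) := by
  classical
  choose w hw haw using fun i => la_spec H hunit (ha i)
  have e : x = H.pi ^ (∑ i ∈ s, H.v (a i)) * (u * ∏ i ∈ s, w i) := by
    rw [hx, Finset.prod_congr rfl (fun i _ => haw i), Finset.prod_mul_distrib, Finset.prod_pow_eq_pow_sum]
    ring
  refine la_v_unique H hunit hirr (hu.mul ?_) e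
  exact IsUnit.prod_iff.mpr fun i _ => hw i

end la

/-- determinant of a family of vectors forming a basis of the submodule `U`, and the elementary divisors -/
theorem la_det {O : Type} [CommRing O] [IsDomain O] {d : ℕ} (U : Submodule O (Fin d → O))
    (b' : Basis (Fin d) O (Fin d → O)) (a : Fin d → O) (ab : Basis (Fin d) O U)
    (hab : ∀ i, (ab i : Fin d → O) = a i • b' i) (c : Basis (Fin d) O U) (x : Matrix (Fin d) (Fin d) O)
    (hx : ∀ i, x i = (c i : Fin d → O)) : ∃ u : O, IsUnit u ∧ x.det = u * ∏ i, a i := by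
  classical
  set std : Basis (Fin d) O (Fin d → O) := Pi.basisFun O (Fin d) with hstd
  have e1 : LinearMap.toMatrix c std U.subtype = x.transpose := by
    ext i j
    rw [LinearMap.toMatrix_apply, hstd, Pi.basisFun_repr, Matrix.transpose_apply, hx j]
    rfl
  have e2 : LinearMap.toMatrix ab b' U.subtype = Matrix.diagonal a := by
    ext i j
    rw [LinearMap.toMatrix_apply, Submodule.subtype_apply, hab j, map_smul, Basis.repr_self, Matrix.diagonal_apply,
      Finsupp.smul_apply, Finsupp.single_apply]
    by_cases hij : j = i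
    · subst hij; simp
    · rw [if_neg hij, if_neg (fun h => hij h.symm), smul_zero]
  have e3 : LinearMap.toMatrix c std U.subtype = LinearMap.toMatrix b' std (LinearMap.id) *
      (LinearMap.toMatrix ab b' U.subtype * LinearMap.toMatrix c ab (LinearMap.id)) := by
    rw [← LinearMap.toMatrix_comp, ← LinearMap.toMatrix_comp]
    rfl
  have u1 : IsUnit (LinearMap.toMatrix b' std (LinearMap.id)).det :=
    LinearEquiv.isUnit_det (LinearEquiv.refl O (Fin d → O)) b' std
  have u2 : IsUnit (LinearMap.toMatrix c ab (LinearMap.id)).det :=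
    LinearEquiv.isUnit_det (LinearEquiv.refl O U) c ab
  refine ⟨_, u1.mul u2, ?_⟩
  rw [← Matrix.det_transpose, ← e1, e3, Matrix.det_mul, Matrix.det_mul, e2, Matrix.det_diagonal]
  ring

theorem la1 (hB : S_BAS) : S_LA1 := by
  intro O k _ _ _ _ H d
  obtain ⟨hunit, hdvr, hirr, hcard'⟩ := hB O k H
  have hcard := hcard' inferInstance
  have := hdvr
  have hspan : ∀ (x : Matrix (Fin d) (Fin d) O) (w : Fin d → O),
      w ∈ Submodule.span O (Set.range x.row) ↔ ∃ c : Fin d → O, Matrix.vecMul c x = w := by
    intro x w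
    rw [← range_vecMulLinear, LinearMap.mem_range]
    rfl
  refine ⟨?_, ?_, ?_, ?_⟩
  · intro U hfin
    have hrank : finrank O U = finrank O (Fin d → O) := by
      refine le_antisymm (Submodule.finrank_le U) ?_
      obtain ⟨s, t, hst, heq⟩ := Finite.exists_ne_map_eq_of_infinite
        (fun n : ℕ => (fun y : (Fin d → O) ⧸ U => H.pi ^ n • y))
      wlog hlt : s < t generalizing s t with Hw
      · exact Hw t s hst.symm heq.symm (by omega)
      have hz : ∀ m : Fin d → O, H.pi ^ s • m ∈ U := by
        intro m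
        have h1 : H.pi ^ s • (Submodule.Quotient.mk m : (Fin d → O) ⧸ U) = H.pi ^ t • (Submodule.Quotient.mk m) :=
          congrFun heq (Submodule.Quotient.mk m)
        rw [← Submodule.Quotient.mk_smul, ← Submodule.Quotient.mk_smul, Submodule.Quotient.eq, ← sub_smul] at h1
        have hu : IsUnit (1 - H.pi ^ (t - s)) := by
          rw [hunit, map_sub, map_one, map_pow]
          have : H.res H.pi = 0 := (H.res_eq _).mpr dvd_rfl
          rw [this, zero_pow (by omega), sub_zero]
          exact one_ne_zero
        have e : H.pi ^ s - H.pi ^ t = (1 - H.pi ^ (t - s)) * H.pi ^ s := by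
          have : H.pi ^ t = H.pi ^ (t - s) * H.pi ^ s := by
            rw [← pow_add]
            congr 1
            omega
          rw [this]
          ring
        rw [e, mul_smul] at h1
        obtain ⟨w, hw⟩ := hu
        have h2 := U.smul_mem (w⁻¹ : Oˣ).val h1
        rwa [← hw, smul_smul, Units.inv_mul, one_smul] at h2
      let L : (Fin d → O) →ₗ[O] U := (LinearMap.lsmul O (Fin d → O) (H.pi ^ s)).codRestrict U hz
      have hL : Function.Injective L := by
        intro a b hab
        have h1 : H.pi ^ s • a = H.pi ^ s • b := congrArg Subtype.val hab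
        funext i
        have h2 := congrFun h1 i
        simp only [Pi.smul_apply, smul_eq_mul] at h2
        exact mul_left_cancel₀ (pow_ne_zero s H.pi_ne) h2
      exact LinearMap.finrank_le_finrank_of_injective hL
    obtain ⟨b', a, ab, hab⟩ := Submodule.exists_smith_normal_form_of_rank_eq (Pi.basisFun O (Fin d)) hrank
    have ha : ∀ i, a i ≠ 0 := by
      intro i hi
      apply ab.ne_zero i
      apply Subtype.ext
      rw [hab i, hi, zero_smul]
      rfl
    obtain ⟨u, hu, hdet⟩ := la_det U b' a ab hab ab (Matrix.of fun i => (ab i : Fin d → O)) (fun i => rfl)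
    refine ⟨Matrix.of fun i => (ab i : Fin d → O), ?_, ?_⟩
    · rw [hdet]
      exact mul_ne_zero hu.ne_zero (Finset.prod_ne_zero_iff.mpr fun i _ => ha i)
    · have h1 : Set.range (Matrix.of fun i => (ab i : Fin d → O)).row = U.subtype '' Set.range ab := by
        rw [← Set.range_comp]
        rfl
      rw [h1, ← Submodule.map_span, ab.span_eq, Submodule.map_top, Submodule.range_subtype]
  · intro x hx
    have hli : LinearIndependent O x.row := Matrix.linearIndependent_rows_of_det_ne_zero hx
    set U := Submodule.span O (Set.range x.row) with hU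
    let c : Basis (Fin d) O U := Basis.span hli
    have hrank : finrank O U = finrank O (Fin d → O) := by
      rw [finrank_eq_card_basis c, finrank_fin_fun, Fintype.card_fin]
    have hne : ∀ i, Submodule.smithNormalFormCoeffs (Pi.basisFun O (Fin d)) hrank i ≠ 0 :=
      Submodule.smithNormalFormCoeffs_ne_zero _ hrank
    obtain ⟨u, hu, hdet⟩ := la_det U (Submodule.smithNormalFormTopBasis (Pi.basisFun O (Fin d)) hrank)
      (Submodule.smithNormalFormCoeffs (Pi.basisFun O (Fin d)) hrank)
      (Submodule.smithNormalFormBotBasis (Pi.basisFun O (Fin d)) hrank)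
      (Submodule.smithNormalFormBotBasis_def (Pi.basisFun O (Fin d)) hrank) c x
      (fun i => by rw [Basis.span_apply hli i]; rfl)
    rw [Nat.card_congr (Submodule.quotientEquivPiSpan U (Pi.basisFun O (Fin d)) hrank).toEquiv, Nat.card_pi,
      la_v_prod H hunit hirr Finset.univ _ hne x.det u hu hdet, ← Finset.prod_pow_eq_pow_sum]
    exact Finset.prod_congr rfl fun i _ => la_card H hunit hcard (hne i)
  · intro x y hx hy
    constructor
    · intro h
      have h1 : ∀ i, ∃ c : Fin d → O, Matrix.vecMul c x = y i := by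
        intro i
        rw [← hspan, h]
        exact Submodule.subset_span ⟨i, rfl⟩
      have h2 : ∀ i, ∃ c : Fin d → O, Matrix.vecMul c y = x i := by
        intro i
        rw [← hspan, ← h]
        exact Submodule.subset_span ⟨i, rfl⟩
      choose g hg using h1
      choose g' hg' using h2
      have e1 : y = Matrix.of g * x := by
        ext i j
        rw [← hg i]
        rfl
      have e2 : x = Matrix.of g' * y := by
        ext i j
        rw [← hg' i]
        rfl
      have e3 : (Matrix.of g' * Matrix.of g) * x = 1 * x := by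
        rw [Matrix.mul_assoc, ← e1, ← e2, Matrix.one_mul]
      have e4 : Matrix.of g' * Matrix.of g = 1 := by
        have h3 := congrArg (fun m => m * x.adjugate) e3
        simp only [Matrix.mul_assoc, Matrix.mul_adjugate, Matrix.mul_smul, Matrix.mul_one] at h3
        ext i j
        have h4 := congrFun (congrFun h3 i) j
        simp only [Matrix.smul_apply, smul_eq_mul] at h4
        exact mul_left_cancel₀ hx h4
      have e5 : Matrix.of g * Matrix.of g' = 1 := mul_eq_one_comm.mp e4
      exact ⟨⟨Matrix.of g, Matrix.of g', e5, e4⟩, e1⟩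
    · rintro ⟨g, rfl⟩
      apply le_antisymm
      · rw [Submodule.span_le]
        rintro _ ⟨i, rfl⟩
        rw [SetLike.mem_coe, hspan]
        refine ⟨(((g⁻¹ : GL (Fin d) O) : Matrix (Fin d) (Fin d) O)) i, ?_⟩
        have h1 : (((g⁻¹ : GL (Fin d) O) : Matrix (Fin d) (Fin d) O)) * ((g : Matrix (Fin d) (Fin d) O) * x) = x := by
          rw [← Matrix.mul_assoc, ← Units.val_mul, inv_mul_cancel, Units.val_one, Matrix.one_mul]
        have h2 := congrFun h1 i
        exact h2
      · rw [Submodule.span_le]
        rintro _ ⟨i, rfl⟩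
        rw [SetLike.mem_coe, hspan]
        exact ⟨(g : Matrix (Fin d) (Fin d) O) i, rfl⟩
  · intro x hx w
    rw [hspan]
    constructor
    · rintro ⟨c, rfl⟩ l
      rw [Matrix.vecMul_vecMul, Matrix.mul_adjugate, Matrix.vecMul_smul, Matrix.vecMul_one]
      exact ⟨c l, rfl⟩
    · intro h
      choose c hc using h
      refine ⟨c, ?_⟩
      have h1 : Matrix.vecMul w x.adjugate = x.det • c := by
        funext l
        rw [hc l]
        rfl
      have h2 : Matrix.vecMul (Matrix.vecMul w x.adjugate) x = x.det • w := by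
        rw [Matrix.vecMul_vecMul, Matrix.adjugate_mul, Matrix.vecMul_smul, Matrix.vecMul_one]
      rw [h1, Matrix.smul_vecMul] at h2
      funext l
      have h3 := congrFun h2 l
      simp only [Pi.smul_apply, smul_eq_mul] at h3
      exact mul_left_cancel₀ hx h3

end Pool.Agent.T2h77U
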