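import Pool.Agent.T2h77U.Stm2

/-! Task LA2: number of classes of the orbits. -/

namespace Pool.Agent.T2h77U

open Matrix

/-- size of a preimage under a surjective homomorphism -/
theorem la2_card_preimage {G G' : Type} [AddCommGroup G] [AddCommGroup G'] (f : G →+ G')
    (hf : Function.Surjective f) (S : Set G') :
    Nat.card (f ⁻¹' S) = Nat.card S * Nat.card f.ker := by
  rw [← Nat.card_prod]
  refine Nat.card_congr
    { toFun := fun g => (⟨f g.1, g.2⟩, ⟨g.1 - Function.surjInv hf (f g.1), ?_⟩)
      invFun := fun a => ⟨Function.surjInv hf a.1.1 + a.2.1, ?_⟩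
      left_inv := ?_
      right_inv := ?_ }
  · rw [AddMonoidHom.mem_ker, map_sub, Function.surjInv_eq hf, sub_self]
  · rw [Set.mem_preimage, map_add, Function.surjInv_eq hf,
      (AddMonoidHom.mem_ker).1 a.2.2, add_zero]
    exact a.1.2
  · intro g
    apply Subtype.ext
    simp
  · rintro ⟨⟨a, ha⟩, ⟨b, hb⟩⟩
    have h1 : f (Function.surjInv hf a + b) = a := by
      rw [map_add, Function.surjInv_eq hf, (AddMonoidHom.mem_ker).1 hb, add_zero]
    refine Prod.ext (Subtype.ext h1) (Subtype.ext ?_)
    change Function.surjInv hf a + b - Function.surjInv hf (f (Function.surjInv hf a + b)) = b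
    rw [h1]; abel

variable {O k : Type} [CommRing O] [IsDomain O] [Field k]

/-- `det x = π ^ v * unit` -/
theorem la2_det (hB : S_BAS) (H : HF O k) (a : O) (ha : a ≠ 0) :
    ∃ u : Oˣ, a = H.pi ^ H.v a * u := by
  obtain ⟨h1, -⟩ := hB O k H
  obtain ⟨hac, u, hu, hru⟩ := H.spec a ha
  have : IsUnit u := (h1 u).2 (by rw [hru]; exact hac)
  obtain ⟨w, rfl⟩ := this
  exact ⟨w, hu⟩

/-- reduction of tuples modulo `π ^ N` -/
def la2_rho (H : HF O k) (d N : ℕ) :
    (Fin d → Fin d → O) →+ (Fin (d * d) → O ⧸ Ideal.span {H.pi ^ N}) where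
  toFun y := fun a => Ideal.Quotient.mk (Ideal.span {H.pi ^ N})
    (y (finProdFinEquiv.symm a).1 (finProdFinEquiv.symm a).2)
  map_zero' := by
    funext a
    simp
  map_add' y z := by
    funext a
    simp

theorem la2_rho_eq_zero (H : HF O k) (d N : ℕ) (y : Fin d → Fin d → O) :
    la2_rho H d N y = 0 ↔ ∀ i j, H.pi ^ N ∣ y i j := by
  constructor
  · intro h i j
    have := congrFun h (finProdFinEquiv (i, j))
    simp only [la2_rho, AddMonoidHom.coe_mk, ZeroHom.coe_mk, Equiv.symm_apply_apply,
      Pi.zero_apply] at this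
    rwa [Ideal.Quotient.eq_zero_iff_mem, Ideal.mem_span_singleton] at this
  · intro h
    funext a
    simp only [la2_rho, AddMonoidHom.coe_mk, ZeroHom.coe_mk, Pi.zero_apply]
    rw [Ideal.Quotient.eq_zero_iff_mem, Ideal.mem_span_singleton]
    exact h _ _

theorem la2_rho_surj (H : HF O k) (d N : ℕ) : Function.Surjective (la2_rho H d N) := by
  intro z
  choose w hw using fun a => Ideal.Quotient.mk_surjective (z a)
  refine ⟨fun i j => w (finProdFinEquiv (i, j)), ?_⟩
  funext a
  simp only [la2_rho, AddMonoidHom.coe_mk, ZeroHom.coe_mk, Prod.mk.eta, Equiv.apply_symm_apply]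
  exact hw a

theorem la2 (hB : S_BAS) (hL : S_LA1) : S_LA2 := by
  intro O k _ _ _ _ H d x hx
  classical
  obtain ⟨hunit, -, -, hcard⟩ := hB O k H
  have hcard := hcard inferInstance
  obtain ⟨-, hidx, -, -⟩ := hL O k H d
  have hidx := hidx x hx
  obtain ⟨u, hu⟩ := la2_det hB H x.det hx
  set n := H.v x.det with hn
  have hpi : H.pi ≠ 0 := H.pi_ne
  -- the right multiplication
  let mulx : (Fin d → Fin d → O) →+ (Fin d → Fin d → O) :=
    { toFun := fun y => (Matrix.of y * x : Matrix (Fin d) (Fin d) O)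
      map_zero' := by
        change ((0 : Matrix (Fin d) (Fin d) O) * x) = 0
        rw [Matrix.zero_mul]
      map_add' := fun y z => by
        change ((Matrix.of y + Matrix.of z : Matrix (Fin d) (Fin d) O) * x) = _
        rw [Matrix.add_mul]
        rfl }
  let R : (Fin d → Fin d → O) →+ (Fin d → Fin d → k) :=
    { toFun := fun y i j => H.res (y i j)
      map_zero' := by funext i j; simp
      map_add' := fun y z => by funext i j; simp }
  have hRsurj : Function.Surjective R := by
    intro z
    choose w hw using fun i j => H.res_surj (z i j)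
    exact ⟨w, funext fun i => funext fun j => hw i j⟩
  let φ := (la2_rho H d (n + 1)).comp mulx
  -- the index of the row span
  let Q : Submodule O (Fin d → Fin d → O) :=
    Submodule.pi Set.univ (fun _ : Fin d => Submodule.span O (Set.range x.row))
  have hQmem : ∀ y, y ∈ Q ↔ ∃ z, mulx z = y := by
    intro y
    constructor
    · intro hy
      have : ∀ i, ∃ c : Fin d → O, ∑ j, c j • x.row j = y i := by
        intro i
        have := (Submodule.mem_pi.1 hy) i (Set.mem_univ i)
        exact (Submodule.mem_span_range_iff_exists_fun O).1 this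
      choose c hc using this
      refine ⟨c, ?_⟩
      funext i l
      rw [← hc i]
      change (Matrix.of c * x : Matrix (Fin d) (Fin d) O) i l = _
      simp [Matrix.mul_apply, Finset.sum_apply, Matrix.row]
    · rintro ⟨z, rfl⟩
      rw [Submodule.mem_pi]
      intro i _
      rw [Submodule.mem_span_range_iff_exists_fun]
      refine ⟨z i, ?_⟩
      funext l
      change _ = (Matrix.of z * x : Matrix (Fin d) (Fin d) O) i l
      simp [Matrix.mul_apply, Finset.sum_apply, Matrix.row]
  have hQcard : Q.toAddSubgroup.index = (Nat.card k) ^ (d * n) := by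
    have e := Submodule.quotientPi
      (fun _ : Fin d => Submodule.span O (Set.range x.row))
    have h1 : Nat.card ((Fin d → Fin d → O) ⧸ Q) = ((Nat.card k) ^ n) ^ d := by
      rw [Nat.card_congr e.toEquiv, Nat.card_pi]
      simp only [hidx, Finset.prod_const, Finset.card_univ, Fintype.card_fin]
    rw [← pow_mul, mul_comm] at h1
    exact h1
  have hkerQ : (la2_rho H d (n + 1)).ker ≤ Q.toAddSubgroup := by
    intro y hy
    rw [AddMonoidHom.mem_ker, la2_rho_eq_zero] at hy
    choose w hw using hy
    rw [Submodule.mem_toAddSubgroup, hQmem]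
    refine ⟨(((H.pi * (↑(u⁻¹) : O)) • Matrix.of w) * x.adjugate :
      Matrix (Fin d) (Fin d) O), ?_⟩
    change ((((H.pi * (↑(u⁻¹) : O)) • Matrix.of w) * x.adjugate) * x :
      Matrix (Fin d) (Fin d) O) = y
    rw [Matrix.mul_assoc, Matrix.adjugate_mul, Matrix.mul_smul, Matrix.mul_one]
    funext i j
    rw [Matrix.smul_apply, Matrix.smul_apply, smul_eq_mul, smul_eq_mul, hw i j, hu,
      Matrix.of_apply, pow_succ]
    have : (u : O) * (↑(u⁻¹) : O) = 1 := by simp
    linear_combination (H.pi ^ n * H.pi * w i j) * this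
  -- size of the image
  have hrange : φ.range = (Q.toAddSubgroup).map (la2_rho H d (n + 1)) := by
    ext z
    rw [AddMonoidHom.mem_range, AddSubgroup.mem_map]
    constructor
    · rintro ⟨y, rfl⟩
      exact ⟨mulx y, (hQmem _).2 ⟨y, rfl⟩, rfl⟩
    · rintro ⟨y, hy, rfl⟩
      obtain ⟨w, rfl⟩ := (hQmem _).1 hy
      exact ⟨w, rfl⟩
  have hfinO : Finite (O ⧸ Ideal.span {H.pi ^ (n + 1)}) := by
    apply Nat.finite_of_card_ne_zero
    rw [hcard]
    exact pow_ne_zero _ Nat.card_pos.ne'
  have hsize : Nat.card φ.range * (Nat.card k) ^ (d * n) = (Nat.card k) ^ (d * d * (n + 1)) := by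
    have h1 := AddSubgroup.card_mul_index (φ.range)
    rw [hrange, AddSubgroup.index_map_eq _ (la2_rho_surj H d (n + 1)) hkerQ, hQcard, ← hrange,
      Nat.card_fun, hcard, Nat.card_fin, ← pow_mul] at h1
    rw [h1, mul_comm (n + 1)]
  -- the induced map
  have hker : φ.rangeRestrict.ker ≤ R.ker := by
    intro y hy
    rw [AddMonoidHom.ker_rangeRestrict, AddMonoidHom.mem_ker] at hy
    have h1 := (la2_rho_eq_zero H d (n + 1) (mulx y)).1 hy
    choose w hw using h1
    rw [AddMonoidHom.mem_ker]
    have h2 : (Matrix.of y * x : Matrix (Fin d) (Fin d) O) = H.pi ^ (n + 1) • Matrix.of w := by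
      funext i j
      rw [Matrix.smul_apply, smul_eq_mul, Matrix.of_apply, ← hw i j]
      rfl
    have h3 : x.det • (Matrix.of y : Matrix (Fin d) (Fin d) O) =
        H.pi ^ (n + 1) • (Matrix.of w * x.adjugate) := by
      rw [← Matrix.smul_mul, ← h2, Matrix.mul_assoc, Matrix.mul_adjugate, Matrix.mul_smul,
        Matrix.mul_one]
    funext i j
    change H.res (y i j) = 0
    rw [H.res_eq]
    have h4 := congrFun (congrFun h3 i) j
    rw [Matrix.smul_apply, Matrix.smul_apply, smul_eq_mul, smul_eq_mul, Matrix.of_apply] at h4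
    refine ⟨(↑(u⁻¹) : O) * (Matrix.of w * x.adjugate) i j, ?_⟩
    have h5 : H.pi ^ n * ((u : O) * y i j) =
        H.pi ^ n * (H.pi * (Matrix.of w * x.adjugate) i j) := by
      rw [hu, pow_succ] at h4
      linear_combination h4
    have h6 := mul_left_cancel₀ (pow_ne_zero n hpi) h5
    have : (u : O) * (↑(u⁻¹) : O) = 1 := by simp
    linear_combination (↑(u⁻¹) : O) * h6 - (y i j) * this
  let R' : φ.range →+ (Fin d → Fin d → k) :=
    φ.rangeRestrict.liftOfSurjective φ.rangeRestrict_surjective ⟨R, hker⟩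
  have hR' : ∀ y, R' (φ.rangeRestrict y) = R y := by
    intro y
    exact AddMonoidHom.liftOfRightInverse_comp_apply _ _ _ _ _
  have hR'surj : Function.Surjective R' := by
    intro z
    obtain ⟨y, rfl⟩ := hRsurj z
    exact ⟨_, hR' y⟩
  have c1 : Nat.card φ.range = (Nat.card k) ^ (d * d) * Nat.card R'.ker := by
    have := la2_card_preimage R' hR'surj Set.univ
    rw [Set.preimage_univ, Nat.card_congr (Equiv.Set.univ _),
      Nat.card_congr (Equiv.Set.univ _)] at this
    rw [this, Nat.card_fun, Nat.card_fun, Nat.card_fin, ← pow_mul]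
  have c2 : ncl H (n + 1)
      {y : Fin (d * d) → O | ∃ g : GL (Fin d) O, y = vec ((g : Matrix (Fin d) (Fin d) O) * x)} =
      Nat.card (GL (Fin d) k) * Nat.card R'.ker := by
    let gv : GL (Fin d) k → (Fin d → Fin d → k) := fun g => (g : Matrix (Fin d) (Fin d) k)
    have gvinj : Function.Injective gv := fun a b hab => Units.ext hab
    let SG : Set (Fin d → Fin d → k) := Set.range gv
    have h1 := la2_card_preimage R' hR'surj SG
    have h2 : Nat.card SG = Nat.card (GL (Fin d) k) :=
      (Nat.card_congr (Equiv.ofInjective _ gvinj)).symm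
    rw [h2] at h1
    rw [← h1]
    unfold ncl
    have hinj : Function.Injective (Subtype.val : φ.range → _) := Subtype.val_injective
    have h3 : ((fun (x : Fin (d * d) → O) j =>
        Ideal.Quotient.mk (Ideal.span {H.pi ^ (n + 1)}) (x j)) ''
        {y : Fin (d * d) → O | ∃ g : GL (Fin d) O,
          y = vec ((g : Matrix (Fin d) (Fin d) O) * x)}) =
        (Subtype.val : φ.range → _) '' (R' ⁻¹' SG) := by
      ext z
      constructor
      · rintro ⟨y, ⟨g, rfl⟩, rfl⟩
        refine ⟨φ.rangeRestrict (fun i j => g.1 i j), ?_, rfl⟩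
        rw [Set.mem_preimage, hR']
        exact ⟨Units.map (H.res.mapMatrix : Matrix (Fin d) (Fin d) O →+*
          Matrix (Fin d) (Fin d) k).toMonoidHom g, rfl⟩
      · rintro ⟨⟨z', w, rfl⟩, hz, rfl⟩
        rw [Set.mem_preimage] at hz
        have hz' : R' (φ.rangeRestrict w) ∈ _ := hz
        rw [hR'] at hz'
        obtain ⟨g, hg⟩ := hz'
        have hw : IsUnit (Matrix.of w : Matrix (Fin d) (Fin d) O) := by
          rw [Matrix.isUnit_iff_isUnit_det, hunit, RingHom.map_det]
          have : (H.res.mapMatrix (Matrix.of w) : Matrix (Fin d) (Fin d) k) = g.1 := hg.symm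
          rw [this]
          exact ((Matrix.isUnit_iff_isUnit_det _).1 g.isUnit).ne_zero
        obtain ⟨g', hg'⟩ := hw
        refine ⟨_, ⟨g', rfl⟩, ?_⟩
        rw [hg']
        rfl
    rw [h3]
    exact Nat.card_image_of_injective hinj _
  rw [c2]
  rw [c1] at hsize
  have hq : 0 < (Nat.card k) ^ (d * d) := pow_pos Nat.card_pos _
  have h7 : Nat.card R'.ker * (Nat.card k) ^ (d * n) = (Nat.card k) ^ (d * d * n) := by
    apply Nat.eq_of_mul_eq_mul_left hq
    rw [← mul_assoc, hsize, ← pow_add]
    congr 1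
    ring
  rw [mul_assoc, h7]

end Pool.Agent.T2h77U
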