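import Pool.Agent.T2h77U.Stm2

/-! Task LAT: the number of subalgebras and the set `YY`. -/

namespace Pool.Agent.T2h77U

open Matrix Pool.Agent.H260TZ

variable {O k : Type} [CommRing O] [IsDomain O] [Field k]

/-- the matrix of a tuple -/
def lat_lm {O : Type} {d : ℕ} (x : Fin (d * d) → O) : Matrix (Fin d) (Fin d) O :=
  Matrix.of fun i j => x (finProdFinEquiv (i, j))

theorem lat_lm_vec {O : Type} {d : ℕ} (y : Matrix (Fin d) (Fin d) O) : lat_lm (vec y) = y := by
  ext i j
  simp [lat_lm, vec]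

theorem lat_vec_lm {O : Type} {d : ℕ} (x : Fin (d * d) → O) : vec (lat_lm x) = x := by
  funext a
  simp only [lat_lm, vec, Matrix.of_apply, Prod.mk.eta, Equiv.apply_symm_apply]

theorem lat_map (O : Type) [CommRing O] {d : ℕ} (x : Fin (d * d) → O) :
    ((MvPolynomial.aeval x : MvPolynomial (Fin (d * d)) ℤ →ₐ[ℤ] O) :
      MvPolynomial (Fin (d * d)) ℤ →+* O).mapMatrix (xm d) = lat_lm x := by
  ext i j
  simp [xm, lat_lm]

theorem lat_det (O : Type) [CommRing O] {d : ℕ} (x : Fin (d * d) → O) :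
    MvPolynomial.aeval x (xm d).det = (lat_lm x).det := by
  rw [← lat_map O x, ← RingHom.map_det]
  rfl

theorem lat_mulR {A B : Type} [CommRing A] [CommRing B] (f : A →+* B) {d : ℕ}
    (c : Fin d → Fin d → Fin d → ℤ) (x y : Fin d → A) :
    f ∘ mulR c A x y = mulR c B (f ∘ x) (f ∘ y) := by
  funext l
  simp [mulR, map_sum, map_mul]

theorem lat_gpol (O : Type) [CommRing O] {d : ℕ} (c : Fin d → Fin d → Fin d → ℤ)
    (x : Fin (d * d) → O) (i j l : Fin d) :
    MvPolynomial.aeval x (gpol c i j l) =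
      Matrix.vecMul (mulR c O (lat_lm x i) (lat_lm x j)) (lat_lm x).adjugate l := by
  set f : MvPolynomial (Fin (d * d)) ℤ →+* O :=
    ((MvPolynomial.aeval x : MvPolynomial (Fin (d * d)) ℤ →ₐ[ℤ] O) :
      MvPolynomial (Fin (d * d)) ℤ →+* O) with hf
  have h1 : MvPolynomial.aeval x (gpol c i j l) = f (gpol c i j l) := rfl
  have h2 : ∀ i, f ∘ (xm d i) = lat_lm x i := by
    intro i
    rw [← lat_map O x]
    rfl
  rw [h1, gpol, RingHom.map_vecMul, lat_mulR, h2, h2]
  have h3 : (xm d).adjugate.map f = (lat_lm x).adjugate := by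
    rw [← lat_map O x, ← hf, ← RingHom.map_adjugate]
    rfl
  rw [h3]

theorem lat_add_left {A : Type} [CommRing A] {d : ℕ} (c : Fin d → Fin d → Fin d → ℤ)
    (x x' y : Fin d → A) : mulR c A (x + x') y = mulR c A x y + mulR c A x' y := by
  funext l
  simp only [mulR, Pi.add_apply, ← Finset.sum_add_distrib]
  exact Finset.sum_congr rfl fun i _ => Finset.sum_congr rfl fun j _ => by ring

theorem lat_add_right {A : Type} [CommRing A] {d : ℕ} (c : Fin d → Fin d → Fin d → ℤ)
    (x y y' : Fin d → A) : mulR c A x (y + y') = mulR c A x y + mulR c A x y' := by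
  funext l
  simp only [mulR, Pi.add_apply, ← Finset.sum_add_distrib]
  exact Finset.sum_congr rfl fun i _ => Finset.sum_congr rfl fun j _ => by ring

theorem lat_smul_left {A : Type} [CommRing A] {d : ℕ} (c : Fin d → Fin d → Fin d → ℤ)
    (a : A) (x y : Fin d → A) : mulR c A (a • x) y = a • mulR c A x y := by
  funext l
  simp only [mulR, Pi.smul_apply, smul_eq_mul, Finset.mul_sum]
  exact Finset.sum_congr rfl fun i _ => Finset.sum_congr rfl fun j _ => by ring

theorem lat_smul_right {A : Type} [CommRing A] {d : ℕ} (c : Fin d → Fin d → Fin d → ℤ)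
    (a : A) (x y : Fin d → A) : mulR c A x (a • y) = a • mulR c A x y := by
  funext l
  simp only [mulR, Pi.smul_apply, smul_eq_mul, Finset.mul_sum]
  exact Finset.sum_congr rfl fun i _ => Finset.sum_congr rfl fun j _ => by ring

theorem lat_zero_left {A : Type} [CommRing A] {d : ℕ} (c : Fin d → Fin d → Fin d → ℤ)
    (y : Fin d → A) : mulR c A 0 y = 0 := by
  funext l
  simp [mulR]

theorem lat_zero_right {A : Type} [CommRing A] {d : ℕ} (c : Fin d → Fin d → Fin d → ℤ)
    (y : Fin d → A) : mulR c A y 0 = 0 := by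
  funext l
  simp [mulR]

/-- closed spans are closed on generators -/
theorem lat_closed {A : Type} [CommRing A] {d : ℕ} (c : Fin d → Fin d → Fin d → ℤ)
    (x : Matrix (Fin d) (Fin d) A) :
    (∀ a ∈ Submodule.span A (Set.range x.row), ∀ b ∈ Submodule.span A (Set.range x.row),
      mulR c A a b ∈ Submodule.span A (Set.range x.row)) ↔
    ∀ i j, mulR c A (x i) (x j) ∈ Submodule.span A (Set.range x.row) := by
  constructor
  · intro h i j
    exact h _ (Submodule.subset_span ⟨i, rfl⟩) _ (Submodule.subset_span ⟨j, rfl⟩)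
  · intro h a ha b hb
    induction ha using Submodule.span_induction with
    | mem a ha =>
      obtain ⟨i, rfl⟩ := ha
      induction hb using Submodule.span_induction with
      | mem b hb =>
        obtain ⟨j, rfl⟩ := hb
        exact h i j
      | zero => rw [lat_zero_right]; exact Submodule.zero_mem _
      | add b b' _ _ h1 h2 => rw [lat_add_right]; exact Submodule.add_mem _ h1 h2
      | smul r b _ h1 => rw [lat_smul_right]; exact Submodule.smul_mem _ _ h1
    | zero => rw [lat_zero_left]; exact Submodule.zero_mem _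
    | add a a' _ _ h1 h2 => rw [lat_add_left]; exact Submodule.add_mem _ h1 h2
    | smul r a _ h1 => rw [lat_smul_left]; exact Submodule.smul_mem _ _ h1

/-- congruences for polynomials -/
theorem lat_congr {A : Type} [CommRing A] {n : ℕ} (t : A) (x x' : Fin n → A)
    (h : ∀ j, t ∣ x j - x' j) (P : MvPolynomial (Fin n) ℤ) :
    t ∣ MvPolynomial.aeval x P - MvPolynomial.aeval x' P := by
  rw [← Ideal.mem_span_singleton, ← Ideal.Quotient.eq]
  have h1 : ∀ y : Fin n → A, Ideal.Quotient.mk (Ideal.span {t}) (MvPolynomial.aeval y P) =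
      MvPolynomial.aeval (fun j => Ideal.Quotient.mk (Ideal.span {t}) (y j)) P := by
    intro y
    have := MvPolynomial.map_aeval y (Ideal.Quotient.mk (Ideal.span {t})) P
    rw [this, MvPolynomial.aeval_def, MvPolynomial.coe_eval₂Hom]
    congr 1
  rw [h1, h1]
  congr 2
  funext j
  rw [Ideal.Quotient.eq, Ideal.mem_span_singleton]
  exact h j

theorem lat_det_unit (hB : S_BAS) (H : HF O k) (a : O) (ha : a ≠ 0) :
    ∃ u : Oˣ, a = H.pi ^ H.v a * u := by
  obtain ⟨h1, -⟩ := hB O k H
  obtain ⟨hac, u, hu, hru⟩ := H.spec a ha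
  have : IsUnit u := (h1 u).2 (by rw [hru]; exact hac)
  obtain ⟨w, rfl⟩ := this
  exact ⟨w, hu⟩

/-- divisibility by a nonzero element -/
theorem lat_dvd (hB : S_BAS) (hS : S_SUM) (H : HF O k) (a : O) (ha : a ≠ 0) (y : O) :
    a ∣ y ↔ (H.ac y = 0 ∨ H.v a ≤ H.v y) := by
  obtain ⟨u, hu⟩ := lat_det_unit hB H a ha
  obtain ⟨-, hac, hdv, -⟩ := hS O k H
  have h1 : a ∣ y ↔ H.pi ^ H.v a ∣ y := by
    conv_lhs => rw [hu]
    exact Units.mul_right_dvd
  rw [h1]
  rcases eq_or_ne y 0 with rfl | hy
  · simp [H.ac_zero]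
  · rw [hdv y _ hy, hac y]
    simp [hy]

/-- description of `YY` -/
theorem lat_mem (hB : S_BAS) (hS : S_SUM) [Finite k] (h1 : S_LA1) (H : HF O k) (d : ℕ)
    (c : Fin d → Fin d → Fin d → ℤ) (n : ℕ) (x : Fin (d * d) → O) :
    x ∈ YY H c n ↔ (lat_lm x).det ≠ 0 ∧ H.v (lat_lm x).det = n ∧
      ∀ a ∈ Submodule.span O (Set.range (lat_lm x).row),
        ∀ b ∈ Submodule.span O (Set.range (lat_lm x).row),
          mulR c O a b ∈ Submodule.span O (Set.range (lat_lm x).row) := by
  have hac := (hS O k H).2.1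
  obtain ⟨-, -, -, h4⟩ := h1 O k H d
  rw [lat_closed]
  simp only [YY, Set.mem_ofPred_eq, lat_det, lat_gpol, Ne, hac]
  refine and_congr_right fun hdet => and_congr_right fun hv => ?_
  refine forall_congr' fun i => forall_congr' fun j => ?_
  rw [h4 _ hdet]
  refine forall_congr' fun l => ?_
  rw [lat_dvd hB hS H _ hdet, hv, hac]

theorem lat (hB : S_BAS) (hS : S_SUM) (h1 : S_LA1) (h2 : S_LA2) : S_LAT := by
  intro O k _ _ _ _ H d c
  classical
  obtain ⟨la1, la2, la3, la4⟩ := h1 O k H d
  have hq : 1 < Nat.card k := Finite.one_lt_card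
  have hmem := lat_mem hB hS h1 H d c
  have hcardO := (hB O k H).2.2.2 inferInstance
  -- stability
  have stab1 : ∀ n, ∀ x x' : Fin (d * d) → O, (∀ j, H.pi ^ (n + 1) ∣ x j - x' j) →
      x ∈ YY H c n → x' ∈ YY H c n := by
    intro n x x' hx hxY
    obtain ⟨-, hac, hdv, hrv, -⟩ := hS O k H
    obtain ⟨y1, y2, y3⟩ := hxY
    have hne : MvPolynomial.aeval x (xm d).det ≠ 0 := fun h => y1 ((hac _).2 h)
    have e1 : H.rv (MvPolynomial.aeval x' (xm d).det) = H.rv (MvPolynomial.aeval x (xm d).det) := by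
      rw [hrv _ _ hne, y2, ← dvd_neg, neg_sub]
      exact lat_congr _ _ _ hx _
    have e2 := congrArg Prod.fst e1
    have e3 := congrArg Prod.snd e1
    simp only [HF.rv] at e2 e3
    refine ⟨by rw [e3]; exact y1, by rw [e2]; exact y2, ?_⟩
    intro i j l
    have hz : ∀ y : O, (H.ac y = 0 ∨ n ≤ H.v y) ↔ H.pi ^ n ∣ y := by
      intro y
      rcases eq_or_ne y 0 with rfl | hy
      · simp [H.ac_zero]
      · rw [hdv y _ hy, hac y]
        simp [hy]
    have y4 := y3 i j l
    rw [hz] at y4 ⊢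
    have := lat_congr _ _ _ hx (gpol c i j l)
    have h5 : H.pi ^ n ∣ MvPolynomial.aeval x (gpol c i j l) -
        MvPolynomial.aeval x' (gpol c i j l) := (pow_dvd_pow _ (Nat.le_succ n)).trans this
    have h6 := dvd_sub y4 h5
    rwa [sub_sub_cancel] at h6
  -- the part for fixed `n`
  have key : ∀ n, Finite {U : FinSub c O // Nat.card ((Fin d → O) ⧸ U.1) = (Nat.card k) ^ n} ∧
      acount c O (Nat.card k) n * Nat.card (GL (Fin d) k) * (Nat.card k) ^ (d * d * n) =
        (Nat.card k) ^ (d * n) * ncl H (n + 1) (YY H c n) := by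
    intro n
    let SU := {U : FinSub c O // Nat.card ((Fin d → O) ⧸ U.1) = (Nat.card k) ^ n}
    have hex : ∀ s : SU, ∃ x : Matrix (Fin d) (Fin d) O, x.det ≠ 0 ∧
        s.1.1 = Submodule.span O (Set.range x.row) := fun s => la1 _ s.1.2.2
    choose X hX1 hX2 using hex
    have hinj : ∀ m, (Nat.card k) ^ m = (Nat.card k) ^ n → m = n :=
      fun m hm => Nat.pow_right_injective hq hm
    have hXv : ∀ s, H.v (X s).det = n := by
      intro s
      apply hinj
      rw [← la2 _ (hX1 s), ← hX2 s]
      exact s.2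
    let orb : SU → Set (Fin (d * d) → O) := fun s =>
      {y | ∃ g : GL (Fin d) O, y = vec ((g : Matrix (Fin d) (Fin d) O) * X s)}
    have horb : ∀ s y, y ∈ orb s → (lat_lm y).det ≠ 0 ∧ H.v (lat_lm y).det = n ∧
        s.1.1 = Submodule.span O (Set.range (lat_lm y).row) := by
      rintro s y ⟨g, rfl⟩
      rw [lat_lm_vec]
      have hd : ((g : Matrix (Fin d) (Fin d) O) * X s).det ≠ 0 := by
        rw [Matrix.det_mul]
        exact mul_ne_zero ((Matrix.isUnit_iff_isUnit_det _).1 g.isUnit).ne_zero (hX1 s)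
      have hsp := (la3 _ _ (hX1 s) hd).2 ⟨g, rfl⟩
      refine ⟨hd, ?_, by rw [hX2 s, hsp]⟩
      apply hinj
      rw [← la2 _ hd, ← hsp, ← hX2 s]
      exact s.2
    have hYY : YY H c n = ⋃ s, orb s := by
      ext y
      rw [Set.mem_iUnion, hmem]
      constructor
      · rintro ⟨hd, hv, hcl⟩
        have hcard := la2 _ hd
        rw [hv] at hcard
        have hfin : Finite ((Fin d → O) ⧸ Submodule.span O (Set.range (lat_lm y).row)) := by
          apply Nat.finite_of_card_ne_zero
          rw [hcard]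
          exact pow_ne_zero _ (by omega)
        let s : SU := ⟨⟨Submodule.span O (Set.range (lat_lm y).row), hcl, hfin⟩, hcard⟩
        obtain ⟨g, hg⟩ := (la3 _ _ (hX1 s) hd).1 (hX2 s).symm
        exact ⟨s, g, by rw [← hg, lat_vec_lm]⟩
      · rintro ⟨s, hs⟩
        obtain ⟨a1, a2, a3⟩ := horb s y hs
        refine ⟨a1, a2, ?_⟩
        rw [← a3]
        exact s.1.2.1
    let Φ : (Fin (d * d) → O) → (Fin (d * d) → O ⧸ Ideal.span {H.pi ^ (n + 1)}) :=
      fun x j => Ideal.Quotient.mk (Ideal.span {H.pi ^ (n + 1)}) (x j)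
    have hsub : ∀ y y' : Fin (d * d) → O, (lat_lm y).det ≠ 0 → H.v (lat_lm y).det = n →
        Φ y = Φ y' → Submodule.span O (Set.range (lat_lm y').row) ≤
          Submodule.span O (Set.range (lat_lm y).row) := by
      intro y y' hd hv hΦ
      rw [Submodule.span_le]
      rintro _ ⟨i, rfl⟩
      rw [SetLike.mem_coe]
      have hdiff : ∀ j, H.pi ^ (n + 1) ∣ (lat_lm y' i - lat_lm y i) j := by
        intro j
        have := congrFun hΦ (finProdFinEquiv (i, j))
        rw [Eq.comm] at this
        simp only [Φ] at this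
        rwa [Ideal.Quotient.eq, Ideal.mem_span_singleton] at this
      have h3 : lat_lm y' i - lat_lm y i ∈ Submodule.span O (Set.range (lat_lm y).row) := by
        rw [la4 _ hd]
        intro l
        rw [Matrix.vecMul, dotProduct]
        refine Finset.dvd_sum fun j _ => Dvd.dvd.mul_right ?_ _
        obtain ⟨u, hu⟩ := lat_det_unit hB H _ hd
        rw [hu, hv]
        exact Units.mul_right_dvd.2 ((pow_dvd_pow _ (Nat.le_succ n)).trans (hdiff j))
      have h4 := Submodule.add_mem _ h3 (Submodule.subset_span ⟨i, rfl⟩ :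
        (lat_lm y).row i ∈ Submodule.span O (Set.range (lat_lm y).row))
      have h5 : lat_lm y' i - lat_lm y i + (lat_lm y).row i = (lat_lm y').row i := by
        change lat_lm y' i - lat_lm y i + lat_lm y i = lat_lm y' i
        abel
      rwa [h5] at h4
    have hdisj : ∀ s s' y y', y ∈ orb s → y' ∈ orb s' → Φ y = Φ y' → s = s' := by
      intro s s' y y' hy hy' hΦ
      obtain ⟨a1, a2, a3⟩ := horb s y hy
      obtain ⟨b1, b2, b3⟩ := horb s' y' hy'
      apply Subtype.ext
      apply Subtype.ext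
      rw [a3, b3]
      exact le_antisymm (hsub y' y b1 b2 hΦ.symm) (hsub y y' a1 a2 hΦ)
    have hfinO : Finite (O ⧸ Ideal.span {H.pi ^ (n + 1)}) := by
      apply Nat.finite_of_card_ne_zero
      rw [hcardO]
      exact pow_ne_zero _ (by omega)
    have hone : ∀ s, X s ∈ Set.univ → vec (X s) ∈ orb s := by
      intro s _
      exact ⟨1, by simp⟩
    have hfinS : Finite SU := by
      refine Finite.of_injective (fun s : SU => Φ (vec (X s))) ?_
      intro s s' h
      exact hdisj s s' _ _ (hone s trivial) (hone s' trivial) h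
    refine ⟨hfinS, ?_⟩
    have := Fintype.ofFinite SU
    have hcount : ncl H (n + 1) (YY H c n) = ∑ s : SU, ncl H (n + 1) (orb s) := by
      unfold ncl
      rw [hYY, Set.image_iUnion]
      have hd : Pairwise (Function.onFun Disjoint (fun s : SU => Φ '' orb s)) := by
        intro s s' hne
        rw [Function.onFun, Set.disjoint_left]
        rintro _ ⟨y, hy, rfl⟩ ⟨y', hy', h⟩
        exact hne (hdisj s s' y y' hy hy' h.symm)
      rw [Nat.card_congr (Set.unionEqSigmaOfDisjoint hd), Nat.card_sigma]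
    have hac : acount c O (Nat.card k) n = Fintype.card SU := by
      rw [acount, ← Nat.card_eq_fintype_card]
    have horbc : ∀ s, ncl H (n + 1) (orb s) * (Nat.card k) ^ (d * n) =
        Nat.card (GL (Fin d) k) * (Nat.card k) ^ (d * d * n) := by
      intro s
      have := h2 O k H d (X s) (hX1 s)
      rw [hXv s] at this
      exact this
    rw [hcount, hac, Finset.mul_sum]
    have h7 : ∀ s ∈ (Finset.univ : Finset SU), (Nat.card k) ^ (d * n) * ncl H (n + 1) (orb s) =
        Nat.card (GL (Fin d) k) * (Nat.card k) ^ (d * d * n) := by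
      intro s _
      rw [mul_comm]
      exact horbc s
    rw [Finset.sum_congr rfl h7, Finset.sum_const, Finset.card_univ, smul_eq_mul, mul_assoc]
  refine ⟨?_, fun n => (key n).1, ?_, fun n => (key n).2⟩
  · intro U
    obtain ⟨x, hx, hU⟩ := la1 U.1 U.2.2
    exact ⟨H.v x.det, by rw [hU]; exact la2 x hx⟩
  · intro n x x' hx
    refine ⟨stab1 n x x' hx, stab1 n x' x fun j => ?_⟩
    rw [← dvd_neg, neg_sub]
    exact hx j

end Pool.Agent.T2h77U
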