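import Pool.Agent.T2h77U.NclCom

/-! Task NCL. -/

namespace Pool.Agent.T2h77U

open Polynomial NclCom

namespace NclCom

variable {O k : Type} [CommRing O] [IsDomain O] [Field k]

/-- The largest index attaining the minimum of `v (G_i) + i δ`, and the corresponding Hasse
derivative. -/
theorem key (H : HF O k)
    (hmul : ∀ x y : O, x ≠ 0 → y ≠ 0 → H.rv (x * y) = (H.v x + H.v y, H.ac x * H.ac y))
    (hdvd : ∀ (x : O) (n : ℕ), x ≠ 0 → (H.pi ^ n ∣ x ↔ n ≤ H.v x)) (D : ℕ)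
    (hD : ∀ j : ℕ, 1 ≤ j → j ≤ D → (j : k) ≠ 0) (G : O[X]) (hG : G.natDegree ≤ D) (t : O)
    (δ : ℚ) (i0 : ℕ) (hi0 : 1 ≤ i0) (h0 : (hasseDeriv i0 G).eval t ≠ 0)
    (hmin : ∀ i, (hasseDeriv i G).eval t ≠ 0 →
      (H.v ((hasseDeriv i0 G).eval t) : ℚ) + i0 * δ ≤ H.v ((hasseDeriv i G).eval t) + i * δ) :
    ∃ n : ℕ, n + 1 ≤ D ∧
      (hasseDeriv 1 (hasseDeriv n G)).eval t ≠ 0 ∧
      (H.v ((hasseDeriv 1 (hasseDeriv n G)).eval t) : ℚ) + (n + 1) * δ =
        H.v ((hasseDeriv i0 G).eval t) + i0 * δ ∧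
      (∀ i, 2 ≤ i → (hasseDeriv i (hasseDeriv n G)).eval t ≠ 0 →
        (H.v ((hasseDeriv 1 (hasseDeriv n G)).eval t) : ℚ) + δ <
          H.v ((hasseDeriv i (hasseDeriv n G)).eval t) + i * δ) ∧
      ((hasseDeriv n G).eval t ≠ 0 →
        (H.v ((hasseDeriv 1 (hasseDeriv n G)).eval t) : ℚ) + δ ≤
          H.v ((hasseDeriv n G).eval t)) := by
  have hjD : ∀ j : ℕ, (hasseDeriv j G).eval t ≠ 0 → j ≤ D := by
    intro j hj
    by_contra h
    apply hj
    rw [hd_gt G hG j (by omega), eval_zero]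
  -- largest index
  obtain ⟨m, ⟨hm1, hm2, hm3⟩, hmax⟩ := Set.exists_max_image
    {i : ℕ | 1 ≤ i ∧ (hasseDeriv i G).eval t ≠ 0 ∧
      (H.v ((hasseDeriv i G).eval t) : ℚ) + i * δ = H.v ((hasseDeriv i0 G).eval t) + i0 * δ}
    (fun i => i) ((Set.finite_Iic D).subset fun i hi => hjD i hi.2.1) ⟨i0, hi0, h0, rfl⟩
  obtain ⟨n, rfl⟩ : ∃ n, m = n + 1 := ⟨m - 1, by omega⟩
  have hmD := hjD _ hm2
  have e1 : (hasseDeriv 1 (hasseDeriv n G)).eval t =
      ((n + 1 : ℕ) : O) * (hasseDeriv (n + 1) G).eval t := by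
    rw [hdc, Nat.choose_one_right, add_comm 1 n]
  have hn1 : ((n + 1 : ℕ) : k) ≠ 0 := hD _ (by omega) hmD
  have hv1 : H.v ((hasseDeriv 1 (hasseDeriv n G)).eval t) = H.v ((hasseDeriv (n + 1) G).eval t) := by
    rw [e1]
    exact v_cast_mul H hmul hdvd _ hn1 _ hm2
  refine ⟨n, hmD, ?_, ?_, ?_, ?_⟩
  · rw [e1]
    exact mul_ne_zero (cast_ne H _ hn1) hm2
  · rw [hv1]
    push_cast at hm3
    exact hm3
  · intro i hi hne
    rw [hv1]
    rw [hdc] at hne ⊢
    have h1 := right_ne_zero_of_mul hne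
    have h2 := v_le H hmul _ _ hne
    have h3 : (H.v ((hasseDeriv (n + 1) G).eval t) : ℚ) + (n + 1 : ℕ) * δ <
        H.v ((hasseDeriv (i + n) G).eval t) + (i + n : ℕ) * δ := by
      rw [hm3]
      refine lt_of_le_of_ne (hmin _ h1) fun h4 => ?_
      have h5 := hmax (i + n) ⟨by omega, h1, h4.symm⟩
      omega
    have h2' : (H.v ((hasseDeriv (i + n) G).eval t) : ℚ) ≤
        H.v (((i + n).choose i : O) * (hasseDeriv (i + n) G).eval t) := by exact_mod_cast h2
    push_cast at h3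
    linarith
  · intro hne
    rw [hv1]
    have h1 := hmin n hne
    rw [← hm3] at h1
    push_cast at h1
    linarith

end NclCom

theorem ncl_ball (_hB : S_BAS) (hS : S_SUM) : S_NCL := by
  intro O k _ _ _ H J S F der x0 D hSf hder hx0 hX hdegF hD t ht
  obtain ⟨hmul, hac, hdvd, hrv, hsurj, hno, hcan, hor⟩ := hS O k H
  have hrvn : ∀ x : O, (H.rv x).2 ≠ 0 ↔ x ≠ 0 := fun x => (hac x).not
  -- STEP 1 : the radius
  have hD1 : 1 ≤ D := by
    have := hdegF x0 hx0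
    rw [hX, natDegree_X] at this
    exact this
  have ht0 : t ≠ 0 := by
    have := ht x0 hx0 (by rw [hX]; exact X_ne_zero)
    rwa [hX, eval_X] at this
  have hjD : ∀ a ∈ S, ∀ j : ℕ, (hasseDeriv j (F a)).eval t ≠ 0 → j ≤ D := by
    intro a ha j hj
    by_contra h
    apply hj
    rw [hd_gt (F a) (hdegF a ha) j (by omega), eval_zero]
  have hne0 : ∀ a ∈ S, ∀ j : ℕ, (hasseDeriv j (F a)).eval t ≠ 0 → (F a).eval t ≠ 0 := by
    intro a ha j hj
    apply ht a ha
    intro h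
    apply hj
    rw [h, map_zero, eval_zero]
  let P : Set (J × ℕ) := {x | x.1 ∈ S ∧ 1 ≤ x.2 ∧ (hasseDeriv x.2 (F x.1)).eval t ≠ 0}
  have hPf : P.Finite := by
    refine (hSf.prod (Set.finite_Iic D)).subset ?_
    rintro ⟨a, j⟩ ⟨h1, h2, h3⟩
    exact ⟨h1, hjD a h1 j h3⟩
  have hPx : ((x0, 1) : J × ℕ) ∈ P := by
    refine ⟨hx0, le_rfl, ?_⟩
    simp only [hX, hasseDeriv_one, derivative_X, eval_one]
    exact one_ne_zero
  obtain ⟨⟨a1, j1⟩, ⟨ha1, hj1, hj1n⟩, hmax⟩ := Set.exists_max_image P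
    (fun x => ((H.v ((F x.1).eval t) : ℚ) - H.v ((hasseDeriv x.2 (F x.1)).eval t)) / x.2) hPf
    ⟨_, hPx⟩
  simp only at ha1 hj1 hj1n hmax
  obtain ⟨μ, hμ⟩ : ∃ μ : ℚ, μ = ((H.v ((F a1).eval t) : ℚ) -
    H.v ((hasseDeriv j1 (F a1)).eval t)) / j1 := ⟨_, rfl⟩
  rw [← hμ] at hmax
  have hI : ∀ a ∈ S, ∀ j, 1 ≤ j → (hasseDeriv j (F a)).eval t ≠ 0 →
      (H.v ((F a).eval t) : ℚ) ≤ H.v ((hasseDeriv j (F a)).eval t) + j * μ := by
    intro a ha j hj hn
    have h1 := hmax (a, j) ⟨ha, hj, hn⟩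
    simp only at h1
    have h2 : (0 : ℚ) < j := by exact_mod_cast (by omega : 0 < j)
    rw [div_le_iff₀ h2] at h1
    linarith
  have hI' : ∀ a ∈ S, ∀ j, (hasseDeriv j (F a)).eval t ≠ 0 →
      (H.v ((F a).eval t) : ℚ) ≤ H.v ((hasseDeriv j (F a)).eval t) + j * μ := by
    intro a ha j hn
    rcases Nat.eq_zero_or_pos j with rfl | hj
    · simp
    · exact hI a ha j hj hn
  have heq : (H.v ((hasseDeriv j1 (F a1)).eval t) : ℚ) + j1 * μ = H.v ((F a1).eval t) := by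
    have h2 : (j1 : ℚ) ≠ 0 := by exact_mod_cast (by omega : j1 ≠ 0)
    rw [hμ]
    field_simp
    ring
  obtain ⟨n, hnD, hG1, hG1v, hG2, hG0⟩ := key H hmul hdvd D hD (F a1) (hdegF a1 ha1) t μ j1 hj1
    hj1n (by
      intro i hi
      rw [heq]
      exact hI' a1 ha1 i hi)
  -- the polynomial `G`
  have hgS : der a1 n ∈ S := (hder a1 ha1 n).1
  have hgF : F (der a1 n) = hasseDeriv n (F a1) := (hder a1 ha1 n).2
  rw [← hgF] at hG1 hG1v hG2 hG0
  obtain ⟨g, hg⟩ : ∃ g, g = der a1 n := ⟨_, rfl⟩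
  rw [← hg] at hG1 hG1v hG2 hG0 hgS hgF
  have hGt : (F g).eval t ≠ 0 := hne0 g hgS 1 hG1
  have hμeq : (H.v ((F g).eval t) : ℚ) = H.v ((hasseDeriv 1 (F g)).eval t) + μ := by
    apply le_antisymm
    · have := hI g hgS 1 le_rfl hG1
      simpa using this
    · exact hG0 hGt
  have hμ0 : 0 ≤ μ := by
    have h1 := hmax _ hPx
    simp only [hX, hasseDeriv_one, derivative_X, eval_one, eval_X, Nat.cast_one, div_one] at h1
    have h2 : H.v (1 : O) = 0 := by
      have := v_cast H hdvd 1 (by simp)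
      simpa using this
    rw [h2] at h1
    have h3 : (0 : ℚ) ≤ H.v t := Nat.cast_nonneg _
    simp only [Nat.cast_zero, sub_zero] at h1
    linarith
  obtain ⟨l, hl⟩ : ∃ l : ℕ, H.v ((F g).eval t) = H.v ((hasseDeriv 1 (F g)).eval t) + l := by
    have h1 : (H.v ((hasseDeriv 1 (F g)).eval t) : ℚ) ≤ H.v ((F g).eval t) := by linarith
    have h2 : H.v ((hasseDeriv 1 (F g)).eval t) ≤ H.v ((F g).eval t) := by exact_mod_cast h1
    exact ⟨H.v ((F g).eval t) - H.v ((hasseDeriv 1 (F g)).eval t), by omega⟩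
  have hlμ : μ = l := by
    have h1 : (H.v ((F g).eval t) : ℚ) = H.v ((hasseDeriv 1 (F g)).eval t) + l := by
      exact_mod_cast hl
    linarith
  subst hlμ
  clear hμ hmax
  have hJ : ∀ a ∈ S, ∀ j, (hasseDeriv j (F a)).eval t ≠ 0 →
      H.v ((F a).eval t) ≤ H.v ((hasseDeriv j (F a)).eval t) + j * l := by
    intro a ha j hn
    exact_mod_cast hI' a ha j hn
  have hG2' : ∀ i, 2 ≤ i → (hasseDeriv i (F g)).eval t ≠ 0 →
      H.v ((hasseDeriv 1 (F g)).eval t) + l < H.v ((hasseDeriv i (F g)).eval t) + i * l := by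
    intro i hi hn
    exact_mod_cast hG2 i hi hn
  have hderv : ∀ a ∈ S, ∀ j, (F (der a j)).eval t = (hasseDeriv j (F a)).eval t := by
    intro a ha j
    rw [(hder a ha j).2]
  have hpiv : ∀ n : ℕ, H.v (H.pi ^ n) = n := by
    intro n
    have h1 : H.pi ^ n ≠ 0 := pow_ne_zero _ H.pi_ne
    have h2 : n ≤ H.v (H.pi ^ n) := (hdvd _ _ h1).1 dvd_rfl
    refine le_antisymm ?_ h2
    by_contra h3
    have h4 : H.pi ^ (n + 1) ∣ H.pi ^ n := (hdvd _ _ h1).2 (by omega)
    rw [pow_succ] at h4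
    have h5 : H.pi ∣ 1 := by
      obtain ⟨c, hc⟩ := h4
      refine ⟨c, ?_⟩
      have h6 : H.pi ^ n * 1 = H.pi ^ n * (H.pi * c) := by
        rw [mul_one, ← mul_assoc]; exact hc
      exact mul_left_cancel₀ h1 h6
    rw [← H.res_eq, map_one] at h5
    exact one_ne_zero h5
  have hself : ∀ x : O, x ≠ 0 → H.pi ^ (H.v x) ∣ x := fun x hx => (hdvd x _ hx).2 le_rfl
  -- divisibility of the Taylor terms at `t`
  have hall : ∀ a ∈ S, ∀ i, H.pi ^ (H.v ((F a).eval t)) ∣
      (hasseDeriv i (F a)).eval t * H.pi ^ (i * l) := by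
    intro a ha i
    by_cases hi : (hasseDeriv i (F a)).eval t = 0
    · rw [hi, zero_mul]; exact dvd_zero _
    · refine (pow_dvd_pow _ (hJ a ha i hi)).trans ?_
      rw [pow_add]
      exact mul_dvd_mul_right (hself _ hi) _
  -- STEP 2 : the ball
  have hball1 : ∀ t' : O, H.pi ^ (l + 1) ∣ t' - t →
      ∀ a ∈ S, H.rv ((F a).eval t') = H.rv ((F a).eval t) := by
    intro t' htt a ha
    by_cases hFa : F a = 0
    · rw [hFa, eval_zero, eval_zero]
    have hFt := ht a ha hFa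
    rw [hrv _ _ hFt]
    obtain ⟨c, hc⟩ := htt
    have e : t' = t + H.pi ^ (l + 1) * c := by rw [← hc]; ring
    rw [e, tay (F a) (hdegF a ha), Finset.sum_range_succ']
    simp only [hasseDeriv_zero', pow_zero, mul_one, add_sub_cancel_right]
    refine Finset.dvd_sum fun i _ => ?_
    by_cases hi : (hasseDeriv (i + 1) (F a)).eval t = 0
    · rw [hi, zero_mul]; exact dvd_zero _
    · have h1 := hJ a ha (i + 1) hi
      have h2 : H.v ((F a).eval t) + 1 ≤ H.v ((hasseDeriv (i + 1) (F a)).eval t) +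
          (l + 1) * (i + 1) := by nlinarith
      refine (pow_dvd_pow _ h2).trans ?_
      rw [pow_add, mul_pow, ← pow_mul, ← mul_assoc]
      exact Dvd.dvd.mul_right (mul_dvd_mul_right (hself _ hi) _) _
  have hball2 : ∀ t' : O, (∀ a ∈ S, H.rv ((F a).eval t') = H.rv ((F a).eval t)) →
      H.pi ^ (l + 1) ∣ t' - t := by
    intro t' htt
    by_contra hnd
    have hd0 : t' - t ≠ 0 := by
      intro h
      rw [h] at hnd
      exact hnd (dvd_zero _)
    obtain ⟨δ, hδ⟩ : ∃ δ, δ = H.v (t' - t) := ⟨_, rfl⟩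
    have hδl : δ ≤ l := by
      rw [hdvd _ _ hd0] at hnd
      omega
    -- index attaining the minimum
    obtain ⟨i1, hi1n, hi1min⟩ := Set.exists_min_image
      {i : ℕ | (hasseDeriv i (F g)).eval t ≠ 0}
      (fun i => H.v ((hasseDeriv i (F g)).eval t) + i * δ)
      ((Set.finite_Iic D).subset fun i hi => hjD g hgS i hi) ⟨1, hG1⟩
    simp only [Set.mem_setOf_eq] at hi1n hi1min
    obtain ⟨i0, hi0, hi0n, hi0min⟩ : ∃ i0, 1 ≤ i0 ∧ (hasseDeriv i0 (F g)).eval t ≠ 0 ∧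
        ∀ i, (hasseDeriv i (F g)).eval t ≠ 0 →
          H.v ((hasseDeriv i0 (F g)).eval t) + i0 * δ ≤
            H.v ((hasseDeriv i (F g)).eval t) + i * δ := by
      rcases Nat.eq_zero_or_pos i1 with rfl | h
      · refine ⟨1, le_rfl, hG1, ?_⟩
        intro i hi
        refine le_trans ?_ (hi1min i hi)
        simp only [hasseDeriv_zero', zero_mul, add_zero, one_mul]
        omega
      · exact ⟨i1, h, hi1n, hi1min⟩
    obtain ⟨n', hn'D, hK1, -, hK2, hK0⟩ := key H hmul hdvd D hD (F g) (hdegF g hgS) t (δ : ℚ) i0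
      hi0 hi0n (by
        intro i hi
        exact_mod_cast hi0min i hi)
    have hκS : der g n' ∈ S := (hder g hgS n').1
    have hκF : F (der g n') = hasseDeriv n' (F g) := (hder g hgS n').2
    rw [← hκF] at hK1 hK2 hK0
    obtain ⟨κ, hκ⟩ : ∃ κ, κ = der g n' := ⟨_, rfl⟩
    rw [← hκ] at hK1 hK2 hK0 hκS hκF
    have hKt : (F κ).eval t ≠ 0 := hne0 κ hκS 1 hK1
    have hK0' : H.v ((hasseDeriv 1 (F κ)).eval t) + δ ≤ H.v ((F κ).eval t) := by
      exact_mod_cast hK0 hKt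
    have hK2' : ∀ i, 2 ≤ i → (hasseDeriv i (F κ)).eval t ≠ 0 →
        H.v ((hasseDeriv 1 (F κ)).eval t) + δ < H.v ((hasseDeriv i (F κ)).eval t) + i * δ := by
      intro i hi hn
      exact_mod_cast hK2 i hi hn
    have h1 := htt κ hκS
    rw [hrv _ _ hKt] at h1
    have e : t' = t + (t' - t) := by ring
    rw [e, tay (F κ) (hdegF κ hκS), Finset.sum_range_succ'] at h1
    simp only [hasseDeriv_zero', pow_zero, mul_one, add_sub_cancel_right] at h1
    obtain ⟨D', rfl⟩ : ∃ D', D = D' + 1 := ⟨D - 1, by omega⟩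
    rw [Finset.sum_range_succ'] at h1
    simp only [zero_add, pow_one] at h1
    have h2 : H.pi ^ (H.v ((hasseDeriv 1 (F κ)).eval t) + δ + 1) ∣
        ∑ i ∈ Finset.range D', (hasseDeriv (i + 1 + 1) (F κ)).eval t *
          (t' - t) ^ (i + 1 + 1) := by
      refine Finset.dvd_sum fun i _ => ?_
      by_cases hi : (hasseDeriv (i + 1 + 1) (F κ)).eval t = 0
      · rw [hi, zero_mul]; exact dvd_zero _
      · rw [hdvd _ _ (mul_ne_zero hi (pow_ne_zero _ hd0)), v_pow H hmul _ _ hi hd0, ← hδ]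
        exact hK2' (i + 1 + 1) (by omega) hi
    have h3 : H.pi ^ (H.v ((hasseDeriv 1 (F κ)).eval t) + δ + 1) ∣
        (hasseDeriv 1 (F κ)).eval t * (t' - t) := by
      refine (dvd_add_right h2).1 ?_
      exact (pow_dvd_pow _ (by omega)).trans h1
    rw [hdvd _ _ (mul_ne_zero hK1 hd0), v_mul H hmul _ _ hK1 hd0, ← hδ] at h3
    omega
  -- STEP 3 : the root
  obtain ⟨b, hbg, hbt, hbv⟩ : ∃ b, (F g).eval b = 0 ∧ t ≠ b ∧ H.v (t - b) = l := by
    obtain ⟨M, hM⟩ : ∃ M, M = H.v ((F g).eval t) := ⟨_, rfl⟩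
    obtain ⟨hac1, u0, hu0, hru0⟩ := H.spec _ hGt
    obtain ⟨hac2, u1, hu1, hru1⟩ := H.spec _ hG1
    rw [← hM] at hu0
    obtain ⟨y0, hy0⟩ := H.res_surj (-(H.ac ((F g).eval t)) / H.ac ((hasseDeriv 1 (F g)).eval t))
    have hy0n : H.res y0 ≠ 0 := by
      rw [hy0]
      exact div_ne_zero (neg_ne_zero.2 hac1) hac2
    have hu01 : H.pi ∣ u0 + u1 * y0 := by
      rw [← H.res_eq, map_add, map_mul, hru0, hru1, hy0]
      field_simp
      ring
    have hallg := hall g hgS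
    rw [← hM] at hallg
    have hhigh : ∀ i, 2 ≤ i → H.pi ^ (M + 1) ∣ (hasseDeriv i (F g)).eval t * H.pi ^ (i * l) := by
      intro i hi
      by_cases hn : (hasseDeriv i (F g)).eval t = 0
      · rw [hn, zero_mul]; exact dvd_zero _
      · have h1 := hG2' i hi hn
        refine (pow_dvd_pow H.pi (show M + 1 ≤ H.v ((hasseDeriv i (F g)).eval t) + i * l by
          omega)).trans ?_
        rw [pow_add]
        exact mul_dvd_mul_right (hself _ hn) _
    obtain ⟨D', hD'⟩ : ∃ D', D = D' + 1 := ⟨D - 1, by omega⟩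
    have h0 : H.pi ^ (M + 1) ∣ (F g).eval (t + H.pi ^ l * y0) := by
      rw [tay (F g) (hdegF g hgS), hD', Finset.sum_range_succ', Finset.sum_range_succ']
      simp only [zero_add, pow_one, hasseDeriv_zero', pow_zero, mul_one]
      have e1 : (hasseDeriv 1 (F g)).eval t * (H.pi ^ l * y0) + (F g).eval t =
          H.pi ^ M * (u0 + u1 * y0) := by
        rw [hu1, hu0, hM, hl, pow_add]
        ring
      rw [add_assoc, e1]
      refine dvd_add (Finset.dvd_sum fun i _ => ?_) ?_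
      · have h1 := hhigh (i + 1 + 1) (by omega)
        have e2 : (hasseDeriv (i + 1 + 1) (F g)).eval t * (H.pi ^ l * y0) ^ (i + 1 + 1) =
          ((hasseDeriv (i + 1 + 1) (F g)).eval t * H.pi ^ ((i + 1 + 1) * l)) *
            y0 ^ (i + 1 + 1) := by ring
        rw [e2]
        exact Dvd.dvd.mul_right h1 _
      · rw [pow_succ]
        exact mul_dvd_mul_left _ hu01
    have hvG1 : ¬ H.pi ^ (M + 1) ∣ (hasseDeriv 1 (F g)).eval t * H.pi ^ l := by
      rw [hdvd _ _ (mul_ne_zero hG1 (pow_ne_zero _ H.pi_ne)), v_mul H hmul _ _ hG1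
        (pow_ne_zero _ H.pi_ne), hpiv]
      omega
    have h1 : ¬ H.pi ^ (M + 1) ∣ (hasseDeriv 1 (F g)).eval (t + H.pi ^ l * y0) * H.pi ^ l := by
      intro h2
      apply hvG1
      rw [tay (hasseDeriv 1 (F g)) (hdeg _ (hdegF g hgS) 1), Finset.sum_range_succ', add_mul,
        Finset.sum_mul] at h2
      simp only [hasseDeriv_zero', pow_zero, mul_one] at h2
      refine (dvd_add_right (Finset.dvd_sum fun i _ => ?_)).1 h2
      rw [hdc]
      have h3 := hhigh (i + 1 + 1) (by omega)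
      have e2 : ((i + 1 + 1).choose (i + 1) : O) * (hasseDeriv (i + 1 + 1) (F g)).eval t *
          (H.pi ^ l * y0) ^ (i + 1) * H.pi ^ l =
          ((hasseDeriv (i + 1 + 1) (F g)).eval t * H.pi ^ ((i + 1 + 1) * l)) *
            (((i + 1 + 1).choose (i + 1) : O) * y0 ^ (i + 1)) := by ring
      rw [e2]
      exact Dvd.dvd.mul_right h3 _
    obtain ⟨y, hy, hy2⟩ := hensel0 H (F g) (t + H.pi ^ l * y0) l M
      (shift_div H.pi (F g) t (H.pi ^ l * y0) l M (dvd_mul_right _ _) hallg) h0 h1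
    have hres : H.res (y0 + y) ≠ 0 := by
      rw [map_add, (H.res_eq y).2 hy2, add_zero]
      exact hy0n
    have hyy : y0 + y ≠ 0 := by
      intro h
      rw [h, map_zero] at hres
      exact hres rfl
    have e : t + H.pi ^ l * y0 + H.pi ^ l * y = t + H.pi ^ l * (y0 + y) := by ring
    rw [e] at hy
    have e2 : t - (t + H.pi ^ l * (y0 + y)) = H.pi ^ l * (-(y0 + y)) := by ring
    have hnn : -(y0 + y) ≠ 0 := neg_ne_zero.2 hyy
    have hv0 : H.v (-(y0 + y)) = 0 := by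
      by_contra h
      have h3 : H.pi ^ 1 ∣ -(y0 + y) := (hdvd _ 1 hnn).2 (by omega)
      rw [pow_one, dvd_neg, ← H.res_eq] at h3
      exact hres h3
    refine ⟨t + H.pi ^ l * (y0 + y), hy, ?_, ?_⟩
    · intro h
      have h2 : H.pi ^ l * (-(y0 + y)) = 0 := by rw [← e2, ← h, sub_self]
      exact (mul_ne_zero (pow_ne_zero _ H.pi_ne) hnn) h2
    · rw [e2, v_mul H hmul _ _ (pow_ne_zero _ H.pi_ne) hnn, hpiv, hv0, add_zero]
  -- conclusion
  refine ⟨l, b, ⟨?_, ?_⟩, ?_, ⟨g, hgS, ?_, hbg⟩, hbt, hbv, ?_⟩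
  · intro a ha j hj1 hjD' hn
    simp only at hn ⊢
    rw [hrvn, hderv a ha] at hn
    have h1 := hJ a ha j hn
    simp only [HF.rv, hderv a ha]
    exact h1
  · rcases Nat.eq_zero_or_pos l with h | h
    · exact Or.inl h
    · refine Or.inr ⟨g, hgS, 1, le_rfl, hD1, ?_, ?_⟩
      · simp only
        rw [hrvn, hderv g hgS]
        exact hG1
      · simp only [HF.rv, hderv g hgS]
        omega
  · intro t'
    exact ⟨hball2 t', hball1 t'⟩
  · intro h
    rw [h, eval_zero] at hGt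
    exact hGt rfl
  · -- STEP 4
    intro a ha
    have hderb : ∀ j, (F (der a j)).eval b = (hasseDeriv j (F a)).eval b := by
      intro j
      rw [(hder a ha j).2]
    simp only [hderb]
    by_cases hFa : F a = 0
    · left
      refine ⟨fun j => ?_, ?_⟩
      · simp only [hFa, map_zero, eval_zero, mulp, HF.rv, H.ac_zero, zero_mul]
      · rw [hFa, eval_zero]
        simp [HF.rv, H.ac_zero, H.v_zero]
    have hFt := ht a ha hFa
    have htb : t - b ≠ 0 := sub_ne_zero.2 hbt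
    have hsum : (F a).eval t =
        ∑ j : Fin (D + 1), (hasseDeriv (j : ℕ) (F a)).eval b * (t - b) ^ (j : ℕ) := by
      have e : t = b + (t - b) := by ring
      nth_rw 1 [e]
      rw [tay _ (hdegF a ha), Finset.sum_range]
    have hrep : ∀ j : Fin (D + 1), H.Rep
        (mulp (H.rv ((hasseDeriv (j : ℕ) (F a)).eval b)) (H.rv (t - b)) j)
        ((hasseDeriv (j : ℕ) (F a)).eval b * (t - b) ^ (j : ℕ)) :=
      fun j => rep_mulp H hmul hac _ _ htb j
    rcases hor (D + 1) (fun j : Fin (D + 1) =>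
      mulp (H.rv ((hasseDeriv (j : ℕ) (F a)).eval b)) (H.rv (t - b)) j) with ⟨σ, hσ⟩ | hC
    · have h1 := hno (D + 1) _ _ σ hrep hσ
      rw [← hsum] at h1
      rw [h1]
      exact hσ
    · exfalso
      obtain ⟨M', hM1, ⟨j, hj, hjM⟩, hM3⟩ := hC
      have h1 := hcan (D + 1) _ _ M' hrep hM1 hM3
      rw [← hsum, hdvd _ _ hFt] at h1
      -- the term `j`
      have hpl : H.pi ^ l ∣ b - t := by
        have h2 : H.pi ^ l ∣ t - b := by rw [← hbv]; exact hself _ htb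
        rw [← neg_sub, dvd_neg]
        exact h2
      have h3 := shift_div H.pi (F a) t (b - t) l _ hpl (hall a ha) j
      have e : t + (b - t) = b := by ring
      rw [e] at h3
      have hXb : (hasseDeriv (j : ℕ) (F a)).eval b ≠ 0 := by
        intro h4
        apply hj
        simp only [mulp, HF.rv, h4, H.ac_zero, zero_mul]
      rw [hdvd _ _ (mul_ne_zero hXb (pow_ne_zero _ H.pi_ne)), v_mul H hmul _ _ hXb
        (pow_ne_zero _ H.pi_ne), hpiv] at h3
      have h5 : H.v ((hasseDeriv (j : ℕ) (F a)).eval b) + j * H.v (t - b) = M' := hjM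
      rw [hbv] at h5
      omega

end Pool.Agent.T2h77U
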