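import Pool.Agent.T2h77U.Stm

/-! ONE: the one variable counting theorem. -/

namespace Pool.Agent.T2h77U.OneF

open Polynomial

lemma card_pre {G G' : Type} [AddCommGroup G] [AddCommGroup G'] (f : G →+ G')
    (hf : Function.Surjective f) (T : Set G') :
    Nat.card (f ⁻¹' T) = Nat.card f.ker * Nat.card T := by
  rw [← Nat.card_prod]
  have hmem : ∀ p : f.ker × T, p.1.1 + Function.surjInv hf p.2.1 ∈ f ⁻¹' T := by
    intro p
    have h1 : f p.1.1 = 0 := p.1.2
    simp only [Set.mem_preimage, map_add, h1, zero_add, Function.surjInv_eq]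
    exact p.2.2
  refine Nat.card_congr (Equiv.symm (Equiv.ofBijective
    (fun p : f.ker × T => (⟨p.1.1 + Function.surjInv hf p.2.1, hmem p⟩ : f ⁻¹' T)) ⟨?_, ?_⟩))
  · intro p p' h
    have h' : p.1.1 + Function.surjInv hf p.2.1 = p'.1.1 + Function.surjInv hf p'.2.1 :=
      congrArg Subtype.val h
    have h1 : f p.1.1 = 0 := p.1.2
    have h2 : f p'.1.1 = 0 := p'.1.2
    have h3 := congrArg f h'
    simp only [map_add, h1, h2, zero_add, Function.surjInv_eq] at h3
    have h4 : p.2 = p'.2 := Subtype.ext h3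
    rw [h3] at h'
    exact Prod.ext (Subtype.ext (add_right_cancel h')) h4
  · rintro ⟨g, hg⟩
    refine ⟨(⟨g - Function.surjInv hf (f g), ?_⟩, ⟨f g, hg⟩), ?_⟩
    · simp [AddMonoidHom.mem_ker, Function.surjInv_eq]
    · simp

section
variable {O k : Type} [CommRing O] [IsDomain O] [Field k] (H : HF O k)

/-- class modulo `π ^ N` -/
abbrev cl (N : ℕ) (t : O) : O ⧸ Ideal.span {H.pi ^ N} := Ideal.Quotient.mk _ t

lemma cl_eq {N : ℕ} {t t' : O} : cl H N t = cl H N t' ↔ H.pi ^ N ∣ t - t' := by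
  rw [Ideal.Quotient.eq, Ideal.mem_span_singleton]

lemma card_stable [Finite k] (hB : S_BAS) {M N : ℕ} (hMN : M ≤ N) (S : Set O)
    (hS : ∀ t t', H.pi ^ M ∣ t - t' → (t ∈ S ↔ t' ∈ S)) :
    Nat.card (cl H N '' S) = (Nat.card k) ^ (N - M) * Nat.card (cl H M '' S) := by
  have hc := (hB O k H).2.2.2 inferInstance
  have hle : Ideal.span {H.pi ^ N} ≤ Ideal.span {H.pi ^ M} := by
    rw [Ideal.span_singleton_le_span_singleton]; exact pow_dvd_pow _ hMN
  let f := Ideal.Quotient.factor hle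
  have hfs : Function.Surjective f.toAddMonoidHom := Ideal.Quotient.factor_surjective hle
  have key := card_pre f.toAddMonoidHom hfs
  have hq : 0 < Nat.card k := Nat.card_pos
  have hker : Nat.card f.toAddMonoidHom.ker = (Nat.card k) ^ (N - M) := by
    have h1 := key Set.univ
    rw [Set.preimage_univ, Nat.card_univ, Nat.card_univ, hc, hc] at h1
    have h2 : (Nat.card k) ^ N = (Nat.card k) ^ (N - M) * (Nat.card k) ^ M := by
      rw [← pow_add]; congr 1; omega
    rw [h2] at h1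
    exact (Nat.eq_of_mul_eq_mul_right (pow_pos hq M) h1).symm
  have hpre : f.toAddMonoidHom ⁻¹' (cl H M '' S) = cl H N '' S := by
    ext z
    constructor
    · rintro ⟨s, hs, hz⟩
      obtain ⟨t, rfl⟩ := Ideal.Quotient.mk_surjective z
      have hz' : cl H M s = cl H M t := hz
      exact ⟨t, (hS s t (cl_eq H |>.mp hz')).mp hs, rfl⟩
    · rintro ⟨s, hs, rfl⟩
      exact ⟨s, hs, rfl⟩
  rw [← hpre, key, hker]

lemma finite_quot [Finite k] (hB : S_BAS) (N : ℕ) : Finite (O ⧸ Ideal.span {H.pi ^ N}) := by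
  apply Nat.finite_of_card_ne_zero
  rw [(hB O k H).2.2.2 inferInstance]
  have hq : 0 < Nat.card k := Nat.card_pos
  exact (pow_pos hq N).ne'

end

lemma lam_unique {J k : Type} [Field k] {D : ℕ} {der : J → ℕ → J} {S : Set J} {τ : J → ℕ × k}
    {l l' : ℕ} (h : Lam D der S τ l) (h' : Lam D der S τ l') : l = l' := by
  have aux : ∀ {l l' : ℕ}, Lam D der S τ l → Lam D der S τ l' → ¬ l < l' := by
    intro l l' h h' hlt
    rcases h'.2 with h0 | ⟨a, ha, j, hj, hjD, hne, hlt'⟩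
    · omega
    · have h1 := h.1 a ha j hj hjD hne
      have h2 : j * l ≤ j * (l' - 1) := Nat.mul_le_mul_left _ (by omega)
      omega
  rcases lt_trichotomy l l' with h1 | h1 | h1
  · exact (aux h h' h1).elim
  · exact h1
  · exact (aux h' h h1).elim

/-- Taylor: if all Hasse derivatives of order `≤ D` vanish at `t` then `F = 0`. -/
lemma eq_zero_of_hasse {O : Type} [CommRing O] {F : O[X]} {D : ℕ} (hdeg : F.natDegree ≤ D) {t : O}
    (h : ∀ j, j ≤ D → (hasseDeriv j F).eval t = 0) : F = 0 := by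
  have h1 : taylor t F = 0 := by
    ext j
    rw [taylor_coeff, coeff_zero]
    rcases le_or_gt j D with hj | hj
    · exact h j hj
    · rw [hasseDeriv_eq_zero_of_lt_natDegree F j (by omega), eval_zero]
  exact (taylor_eq_zero t F).mp h1

end Pool.Agent.T2h77U.OneF

namespace Pool.Agent.T2h77U

open Polynomial OneF Filter Topology

theorem one (hB : S_BAS) (hS : S_SUM) (hN : S_NCL) : S_ONE := by
  intro O k _ _ _ _ H m F der x0 D hder hx0 hdeg hchar Q N0 hst
  have hq0 : 0 < Nat.card k := Nat.card_pos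
  have hq1 : 1 < Nat.card k := Finite.one_lt_card
  have hqR : (0:ℝ) < (Nat.card k : ℝ) := by exact_mod_cast hq0
  have hq1R : (1:ℝ) < (Nat.card k : ℝ) := by exact_mod_cast hq1
  have hfin : ∀ N, Finite (O ⧸ Ideal.span {H.pi ^ N}) := finite_quot H hB
  let R : O → Fin m → ℕ × k := fun t a => H.rv ((F a).eval t)
  let A : Set O := {t | R t ∈ Q}
  have hac : ∀ x : O, H.ac x = 0 ↔ x = 0 := (hS O k H).2.1
  have hdvd : ∀ (x : O) (n : ℕ), x ≠ 0 → (H.pi ^ n ∣ x ↔ n ≤ H.v x) := (hS O k H).2.2.1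
  have hncl : ∀ t : O, (∀ a, F a ≠ 0 → (F a).eval t ≠ 0) → ∃ (l : ℕ) (b : O),
      Lam D der Set.univ (R t) l ∧ (∀ t', R t' = R t ↔ H.pi ^ (l + 1) ∣ t' - t) ∧
      (∃ a, F a ≠ 0 ∧ (F a).eval b = 0) ∧ t ≠ b ∧ H.v (t - b) = l := by
    intro t ht
    obtain ⟨l, b, h1, h2, ⟨a, -, h3⟩, h4, h5, -⟩ := hN O k H (Fin m) Set.univ F der x0 D
      Set.finite_univ (fun a _ j => ⟨Set.mem_univ _, hder a j⟩) (Set.mem_univ _) hx0
      (fun a _ => hdeg a) hchar t (fun a _ => ht a)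
    refine ⟨l, b, h1, ?_, ⟨a, h3⟩, h4, h5⟩
    intro t'
    rw [← h2 t']
    constructor
    · intro h a _
      exact congrFun h a
    · intro h
      funext a
      exact h a (Set.mem_univ _)
  let P : (Fin m → ℕ × k) × ℕ → Prop := fun y => y.1 ∈ Q ∧
    (∃ t : O, ∀ a, y.1 a = H.rv ((F a).eval t)) ∧
    (∀ a, (y.1 a).2 = 0 → ∀ j, j ≤ D → (y.1 (der a j)).2 = 0) ∧ Lam D der Set.univ y.1 y.2
  have hinj : ∀ y y' : {y // P y}, y.1.1 = y'.1.1 → y = y' := by
    rintro ⟨⟨y1, y2⟩, hy⟩ ⟨⟨z1, z2⟩, hz⟩ h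
    have h' : y1 = z1 := h
    subst h'
    have h2 : y2 = z2 := lam_unique hy.2.2.2 hz.2.2.2
    subst h2
    rfl
  have hball : ∀ y : {y // P y}, ∃ t : O, R t = y.1.1 ∧
      ∀ t', R t' = y.1.1 ↔ H.pi ^ (y.1.2 + 1) ∣ t' - t := by
    rintro ⟨⟨y1, y2⟩, hyQ, ⟨t, ht⟩, hNR, hLam⟩
    have hRt : R t = y1 := by
      funext a
      exact (ht a).symm
    have hnr : ∀ a, F a ≠ 0 → (F a).eval t ≠ 0 := by
      intro a ha h0
      apply ha
      apply eq_zero_of_hasse (hdeg a) (t := t)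
      intro j hj
      have h1 : (y1 a).2 = 0 := by
        have := ht a
        simp only at this
        rw [this]
        exact (hac _).mpr h0
      have h2 := hNR a h1 j hj
      have h3 := ht (der a j)
      simp only at h2 h3
      rw [h3, hder] at h2
      exact (hac _).mp h2
    obtain ⟨l, b, h1, h2, -⟩ := hncl t hnr
    refine ⟨t, hRt, ?_⟩
    rw [hRt] at h1 h2
    have hl : l = y2 := lam_unique h1 hLam
    subst hl
    exact h2
  let B : {y // P y} → Set O := fun y => {t | R t = y.1.1}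
  have hBst : ∀ (y : {y // P y}) t t', H.pi ^ (y.1.2 + 1) ∣ t - t' → (t ∈ B y ↔ t' ∈ B y) := by
    intro y t t' h
    obtain ⟨t0, -, h0⟩ := hball y
    have h1 : t ∈ B y ↔ H.pi ^ (y.1.2 + 1) ∣ t - t0 := h0 t
    have h2 : t' ∈ B y ↔ H.pi ^ (y.1.2 + 1) ∣ t' - t0 := h0 t'
    rw [h1, h2]
    have h3 : t' - t0 = (t - t0) - (t - t') := by ring
    rw [h3]
    exact (dvd_sub_left h).symm
  have hBcard : ∀ (y : {y // P y}) N, y.1.2 + 1 ≤ N →
      Nat.card (cl H N '' B y) = (Nat.card k) ^ (N - (y.1.2 + 1)) := by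
    intro y N hNy
    rw [card_stable H hB hNy (B y) (hBst y)]
    obtain ⟨t0, ht0, h0⟩ := hball y
    have h1 : cl H (y.1.2 + 1) '' B y = {cl H (y.1.2 + 1) t0} := by
      ext z
      constructor
      · rintro ⟨s, hs, rfl⟩
        exact (cl_eq H).mpr ((h0 s).mp hs)
      · rintro rfl
        exact ⟨t0, ht0, rfl⟩
    have h2 : Nat.card ({cl H (y.1.2 + 1) t0} : Set _) = 1 := Nat.card_unique
    rw [h1, h2, mul_one]
  have hAcard : ∀ N, N0 ≤ N →
      Nat.card (cl H N '' A) = (Nat.card k) ^ (N - N0) * Nat.card (cl H N0 '' A) :=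
    fun N hN' => card_stable H hB hN' A hst
  have hBA : ∀ y : {y // P y}, B y ⊆ A := by
    intro y t ht
    have h1 : R t = y.1.1 := ht
    change R t ∈ Q
    rw [h1]
    exact y.2.1
  set c : ℝ := (Nat.card (cl H N0 '' A) : ℝ) / (Nat.card k : ℝ) ^ N0 with hc
  have hAc : ∀ N, N0 ≤ N → (Nat.card (cl H N '' A) : ℝ) = c * (Nat.card k : ℝ) ^ N := by
    intro N hN'
    rw [hAcard N hN', hc]
    push_cast
    have h1 : (Nat.card k : ℝ) ^ N = (Nat.card k : ℝ) ^ (N - N0) * (Nat.card k : ℝ) ^ N0 := by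
      rw [← pow_add]; congr 1; omega
    rw [h1]
    field_simp
  have hterm : ∀ (y : {y // P y}) N, y.1.2 + 1 ≤ N →
      ((Nat.card k : ℝ) ^ (y.1.2 + 1))⁻¹ * (Nat.card k : ℝ) ^ N =
        (Nat.card (cl H N '' B y) : ℝ) := by
    intro y N hNy
    rw [hBcard y N hNy]
    push_cast
    have h1 : (Nat.card k : ℝ) ^ N =
        (Nat.card k : ℝ) ^ (N - (y.1.2 + 1)) * (Nat.card k : ℝ) ^ (y.1.2 + 1) := by
      rw [← pow_add]; congr 1; omega
    rw [h1]
    field_simp
  -- upper bound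
  have hU : ∀ T : Finset {y // P y}, ∑ y ∈ T, ((Nat.card k : ℝ) ^ (y.1.2 + 1))⁻¹ ≤ c := by
    intro T
    obtain ⟨N, hN1, hN2⟩ : ∃ N, N0 ≤ N ∧ ∀ y ∈ T, y.1.2 + 1 ≤ N := by
      refine ⟨max N0 (T.sup fun y => y.1.2 + 1), le_max_left _ _, fun y hy => ?_⟩
      exact le_trans (Finset.le_sup (f := fun y : {y // P y} => y.1.2 + 1) hy) (le_max_right _ _)
    have hpos : (0:ℝ) < (Nat.card k : ℝ) ^ N := pow_pos hqR N
    rw [← mul_le_mul_iff_left₀ hpos, Finset.sum_mul, ← hAc N hN1]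
    have h1 : ∑ y ∈ T, ((Nat.card k : ℝ) ^ (y.1.2 + 1))⁻¹ * (Nat.card k : ℝ) ^ N =
        ((∑ y : T, Nat.card (cl H N '' B y.1) : ℕ) : ℝ) := by
      rw [← Finset.sum_coe_sort]
      push_cast
      exact Finset.sum_congr rfl fun y _ => hterm y.1 N (hN2 y.1 y.2)
    rw [h1, Nat.cast_le, ← Nat.card_sigma]
    have hmem : ∀ s : (Σ y : T, (cl H N '' B y.1)), s.2.1 ∈ cl H N '' A :=
      fun s => Set.image_mono (hBA s.1.1) s.2.2
    apply Nat.card_le_card_of_injective (fun s : (Σ y : T, (cl H N '' B y.1)) =>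
      (⟨s.2.1, hmem s⟩ : cl H N '' A))
    rintro ⟨⟨y, hy⟩, ⟨z, t, ht, rfl⟩⟩ ⟨⟨y', hy'⟩, ⟨z', t', ht', rfl⟩⟩ h
    have h2 : cl H N t = cl H N t' := congrArg Subtype.val h
    have h3 : H.pi ^ (y.1.2 + 1) ∣ t - t' :=
      (pow_dvd_pow _ (hN2 y hy)).trans ((cl_eq H).mp h2)
    have h4 : t' ∈ B y := (hBst y t t' h3).mp ht
    have h5 : y = y' := hinj y y' (h4.symm.trans ht')
    subst h5
    congr 1
    exact Subtype.ext h2
  -- roots
  let Z : Set O := {b | ∃ a, F a ≠ 0 ∧ (F a).eval b = 0}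
  have hZ : Z.Finite := by
    have : Z = ⋃ a ∈ {a | F a ≠ 0}, {b | (F a).eval b = 0} := by
      ext b
      simp [Z]
    rw [this]
    refine Set.Finite.biUnion (Set.toFinite _) fun a ha => ?_
    classical
    refine Set.Finite.subset (F a).roots.toFinset.finite_toSet fun b hb => ?_
    simp only [Finset.mem_coe, Multiset.mem_toFinset]
    exact (mem_roots ha).mpr hb
  have : Finite Z := hZ
  -- lower bound
  have hL : ∀ N, N0 ≤ N → ∃ T : Finset {y // P y}, c - (Nat.card Z : ℝ) / (Nat.card k : ℝ) ^ N ≤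
      ∑ y ∈ T, ((Nat.card k : ℝ) ^ (y.1.2 + 1))⁻¹ := by
    intro N hN1
    let YN := {y : {y // P y} // y.1.2 < N}
    choose tt htt1 htt2 using hball
    have : Finite YN := by
      have := hfin N
      apply Finite.of_injective (fun y : YN => cl H N (tt y.1))
      rintro ⟨y, hy⟩ ⟨y', hy'⟩ h
      have h2 : H.pi ^ (y.1.2 + 1) ∣ tt y - tt y' :=
        (pow_dvd_pow _ (by simpa using hy)).trans ((cl_eq H).mp h)
      have h3 : tt y' ∈ B y := (hBst y _ _ h2).mp (htt1 y)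
      exact Subtype.ext (hinj y y' (h3.symm.trans (htt1 y')))
    have := Fintype.ofFinite YN
    refine ⟨Finset.univ.map (Function.Embedding.subtype fun y : {y // P y} => y.1.2 < N), ?_⟩
    have hpos : (0:ℝ) < (Nat.card k : ℝ) ^ N := pow_pos hqR N
    rw [← mul_le_mul_iff_left₀ hpos, Finset.sum_map, Finset.sum_mul, sub_mul,
      div_mul_cancel₀ _ hpos.ne', ← hAc N hN1, sub_le_iff_le_add]
    have h1 : ∑ y : YN, ((Nat.card k : ℝ) ^ (y.1.1.2 + 1))⁻¹ * (Nat.card k : ℝ) ^ N =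
        ((∑ y : YN, Nat.card (cl H N '' B y.1) : ℕ) : ℝ) := by
      push_cast
      exact Finset.sum_congr rfl fun y _ => hterm y.1 N y.2
    change _ ≤ ∑ y : YN, ((Nat.card k : ℝ) ^ (y.1.1.2 + 1))⁻¹ * (Nat.card k : ℝ) ^ N + _
    rw [h1]
    have := hfin N
    rw [← Nat.cast_add, Nat.cast_le, ← Nat.card_sigma, ← Nat.card_sum]
    let f : (Σ y : YN, (cl H N '' B y.1)) ⊕ Z → O ⧸ Ideal.span {H.pi ^ N} :=
      Sum.elim (fun s => s.2.1) (fun b => cl H N b.1)
    refine le_trans (Nat.card_mono (Set.toFinite (Set.range f)) ?_) (Finite.card_range_le f)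
    rintro _ ⟨t, ht, rfl⟩
    by_cases hr : t ∈ Z
    · exact ⟨Sum.inr ⟨t, hr⟩, rfl⟩
    · have hnr : ∀ a, F a ≠ 0 → (F a).eval t ≠ 0 := fun a ha h0 => hr ⟨a, ha, h0⟩
      obtain ⟨l, b, h2, h3, h4, h5, h6⟩ := hncl t hnr
      rcases lt_or_ge l N with hl | hl
      · have hP : P (R t, l) := by
          refine ⟨ht, ⟨t, fun a => rfl⟩, ?_, h2⟩
          intro a ha j hj
          have h7 : (F a).eval t = 0 := (hac _).mp ha
          have h8 : F a = 0 := by
            by_contra hne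
            exact hnr a hne h7
          change H.ac ((F (der a j)).eval t) = 0
          rw [hder, h8, map_zero, eval_zero]
          exact (hac _).mpr rfl
        exact ⟨Sum.inl ⟨⟨⟨(R t, l), hP⟩, hl⟩, ⟨cl H N t, t, rfl, rfl⟩⟩, rfl⟩
      · refine ⟨Sum.inr ⟨b, h4⟩, ?_⟩
        change cl H N b = cl H N t
        symm
        rw [cl_eq, hdvd _ _ (sub_ne_zero.mpr h5), h6]
        exact hl
  apply hasSum_of_isLUB_of_nonneg
  · intro y
    positivity
  · constructor
    · rintro _ ⟨T, rfl⟩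
      exact hU T
    · intro u hu
      have hlim : Tendsto (fun N : ℕ => c - (Nat.card Z : ℝ) / (Nat.card k : ℝ) ^ N) atTop
          (𝓝 (c - 0)) := by
        apply Tendsto.sub tendsto_const_nhds
        exact (tendsto_pow_atTop_atTop_of_one_lt hq1R).const_div_atTop _
      rw [sub_zero] at hlim
      refine le_of_tendsto hlim ?_
      filter_upwards [eventually_ge_atTop N0] with N hN1
      obtain ⟨T, hT⟩ := hL N hN1
      exact hT.trans (hu ⟨T, rfl⟩)

end Pool.Agent.T2h77U
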