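import Pool.Agent.T2h77U.Stm3

/-! PER: linear recurrences modulo powers of a prime (helper38). -/

set_option autoImplicit false

namespace Pool.Agent.T2h77U

open Polynomial

namespace PER

/-- the shift -/
noncomputable def E : Module.End ℤ (ℕ → ℤ) := LinearMap.funLeft ℤ ℤ Nat.succ

theorem E_pow (i : ℕ) (s : ℕ → ℤ) (k : ℕ) : (E ^ i) s k = s (k + i) := by
  induction i generalizing k with
  | zero => simp
  | succ i ih =>
    rw [pow_succ', Module.End.mul_apply]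
    show (E ^ i) s (k + 1) = _
    rw [ih]
    congr 1
    omega

end PER

open PER

theorem per : S_PER := by
  intro ℓ hℓ n a ha
  have hp : ℓ.Prime := hℓ.out
  obtain ⟨r, hr⟩ : ∃ r : ℤ[X], r = ∑ i : Fin (n + 1), C (a i) * X ^ (i : ℕ) := ⟨_, rfl⟩
  have hrd : r.degree < ((n + 1 : ℕ) : WithBot ℕ) := by
    rw [hr]
    refine lt_of_le_of_lt (degree_sum_le _ _) ?_
    rw [Finset.sup_lt_iff (WithBot.bot_lt_coe _)]
    intro i _
    refine lt_of_le_of_lt (degree_C_mul_X_pow_le _ _) ?_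
    exact_mod_cast i.2
  obtain ⟨χ, hχ⟩ : ∃ χ : ℤ[X], χ = X ^ (n + 1) - r := ⟨_, rfl⟩
  have hmon : χ.Monic := by
    rw [hχ]
    exact monic_X_pow_sub hrd
  obtain ⟨φ, hφ⟩ : ∃ φ : ℤ →+* ZMod ℓ, φ = Int.castRingHom (ZMod ℓ) := ⟨_, rfl⟩
  have hmon' : (χ.map φ).Monic := hmon.map φ
  -- the root is a unit in a finite ring
  have hfin : Finite (AdjoinRoot (χ.map φ)) := by
    haveI : Module.Finite (ZMod ℓ) (AdjoinRoot (χ.map φ)) :=
      (AdjoinRoot.powerBasis' hmon').finite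
    exact Module.finite_of_finite (ZMod ℓ)
  have hunit : IsUnit (AdjoinRoot.root (χ.map φ)) := by
    have h1 : AdjoinRoot.mk (χ.map φ) (χ.map φ) = 0 := AdjoinRoot.mk_self
    have h2 : AdjoinRoot.root (χ.map φ) ^ (n + 1) =
        ∑ i : Fin (n + 1), AdjoinRoot.of (χ.map φ) (φ (a i)) *
          AdjoinRoot.root (χ.map φ) ^ (i : ℕ) := by
      have h3 : χ.map φ = X ^ (n + 1) - ∑ i : Fin (n + 1), C (φ (a i)) * X ^ (i : ℕ) := by
        rw [hχ, hr]
        simp [Polynomial.map_sum]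
      have h4 : AdjoinRoot.mk (χ.map φ)
          (X ^ (n + 1) - ∑ i : Fin (n + 1), C (φ (a i)) * X ^ (i : ℕ)) = 0 := by
        rw [← h3]
        exact h1
      rw [map_sub, map_pow, map_sum, AdjoinRoot.mk_X, sub_eq_zero] at h4
      rw [h4]
      refine Finset.sum_congr rfl fun i _ => ?_
      rw [map_mul, map_pow, AdjoinRoot.mk_X, AdjoinRoot.mk_C]
    rw [Fin.sum_univ_succ] at h2
    have h5 : AdjoinRoot.root (χ.map φ) * (AdjoinRoot.root (χ.map φ) ^ n -
        ∑ i : Fin n, AdjoinRoot.of (χ.map φ) (φ (a i.succ)) *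
          AdjoinRoot.root (χ.map φ) ^ (i : ℕ)) = AdjoinRoot.of (χ.map φ) (φ (a 0)) := by
      rw [mul_sub, ← pow_succ', h2, Finset.mul_sum]
      simp only [Fin.val_zero, pow_zero, mul_one, Fin.val_succ]
      rw [add_sub_assoc, add_eq_left, sub_eq_zero]
      refine Finset.sum_congr rfl fun i _ => ?_
      ring
    have h6 : φ (a 0) ≠ 0 := by
      rw [hφ]
      intro h
      exact ha ((ZMod.intCast_zmod_eq_zero_iff_dvd (a 0) ℓ).1 h)
    have h7 : IsUnit (AdjoinRoot.of (χ.map φ) (φ (a 0))) :=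
      (isUnit_iff_ne_zero.2 h6).map (AdjoinRoot.of (χ.map φ))
    rw [← h5] at h7
    exact isUnit_of_mul_isUnit_left h7
  obtain ⟨u, hu⟩ := hunit
  obtain ⟨g, hg⟩ : ∃ g, g = orderOf u := ⟨_, rfl⟩
  have hg0 : 0 < g := by
    rw [hg]
    haveI : Finite (AdjoinRoot (χ.map φ))ˣ := inferInstance
    exact orderOf_pos u
  have hug : AdjoinRoot.root (χ.map φ) ^ g = 1 := by
    rw [← hu, ← Units.val_pow_eq_pow_val, hg, pow_orderOf_eq_one, Units.val_one]
  -- modulo `ℓ` in the ring over the integers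
  have hdiv : χ.map φ ∣ X ^ g - 1 := by
    rw [← AdjoinRoot.mk_eq_zero, map_sub, map_pow, AdjoinRoot.mk_X, hug, map_one, sub_self]
  obtain ⟨Zb, hZb⟩ := hdiv
  obtain ⟨Z, hZ⟩ := Polynomial.map_surjective φ (by rw [hφ]; exact ZMod.intCast_surjective) Zb
  have hY : C (ℓ : ℤ) ∣ X ^ g - 1 - χ * Z := by
    rw [C_dvd_iff_dvd_coeff]
    intro i
    have h1 : (X ^ g - 1 - χ * Z).map φ = 0 := by
      rw [Polynomial.map_sub, Polynomial.map_sub, Polynomial.map_pow, Polynomial.map_X,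
        Polynomial.map_one, Polynomial.map_mul, hZ, hZb, sub_self]
    have h2 := congrArg (fun P => P.coeff i) h1
    simp only [coeff_map, coeff_zero] at h2
    rw [hφ] at h2
    exact (ZMod.intCast_zmod_eq_zero_iff_dvd _ ℓ).1 h2
  obtain ⟨Y, hY⟩ := hY
  have hx : ((ℓ : ℕ) : AdjoinRoot χ) ∣ AdjoinRoot.root χ ^ g - 1 := by
    refine ⟨AdjoinRoot.mk χ Y, ?_⟩
    have h1 : (X ^ g - 1 : ℤ[X]) = χ * Z + C (ℓ : ℤ) * Y := by
      rw [← hY]
      ring
    have h2 := congrArg (AdjoinRoot.mk χ) h1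
    rw [map_sub, map_pow, AdjoinRoot.mk_X, map_one, map_add, map_mul, AdjoinRoot.mk_self,
      zero_mul, zero_add, map_mul, AdjoinRoot.mk_C] at h2
    rw [h2]
    simp
  refine ⟨g, hg0, ?_⟩
  intro s hs t f k hf
  obtain ⟨m, hm⟩ := hf
  have hxf : ((ℓ : ℕ) : AdjoinRoot χ) ^ t ∣ AdjoinRoot.root χ ^ f - 1 := by
    have h1 := dvd_sub_pow_of_dvd_sub hx t
    rw [one_pow] at h1
    have h2 := sub_dvd_pow_sub_pow ((AdjoinRoot.root χ ^ g) ^ ℓ ^ t) 1 m
    rw [one_pow] at h2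
    have h3 : ((AdjoinRoot.root χ ^ g) ^ ℓ ^ t) ^ m = AdjoinRoot.root χ ^ f := by
      rw [← pow_mul, ← pow_mul, hm]
      ring_nf
    rw [h3] at h2
    exact (pow_dvd_pow _ (Nat.le_succ t)).trans (h1.trans h2)
  obtain ⟨y, hy⟩ := hxf
  obtain ⟨Y1, hY1⟩ := AdjoinRoot.mk_surjective y
  have hdvd : χ ∣ X ^ f - 1 - C ((ℓ : ℤ) ^ t) * Y1 := by
    rw [← AdjoinRoot.mk_eq_zero, map_sub, map_sub, map_pow, AdjoinRoot.mk_X, map_one, hy, map_mul,
      hY1, AdjoinRoot.mk_C]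
    simp
  obtain ⟨Z1, hZ1⟩ := hdvd
  -- the action on sequences
  have hχs : (aeval E χ) s = 0 := by
    funext j
    rw [hχ, hr, map_sub, map_pow, aeval_X, map_sum]
    simp only [map_mul, map_pow, aeval_X, aeval_C, LinearMap.sub_apply, LinearMap.sum_apply,
      Pi.sub_apply, Finset.sum_apply, Module.End.mul_apply, Module.algebraMap_end_apply,
      Pi.smul_apply, E_pow, smul_eq_mul, Pi.zero_apply]
    rw [hs j, sub_self]
  have h1 : (X ^ f - 1 : ℤ[X]) = Z1 * χ + C ((ℓ : ℤ) ^ t) * Y1 := by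
    rw [mul_comm Z1, ← hZ1]
    ring
  have h2 := congrArg (fun P : ℤ[X] => (aeval E P) s k) h1
  simp only [map_sub, map_add, map_mul, map_pow, map_one, aeval_X, aeval_C, LinearMap.sub_apply,
    LinearMap.add_apply, Module.End.mul_apply, Module.End.one_apply, Pi.sub_apply, Pi.add_apply,
    E_pow, hχs, map_zero, Pi.zero_apply, zero_add] at h2
  rw [h2, ← map_pow, Module.algebraMap_end_apply, Pi.smul_apply, smul_eq_mul]
  exact Dvd.intro _ rfl

end Pool.Agent.T2h77U
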