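import Pool.Agent.T2h77U.Stm2

set_option autoImplicit false

namespace Pool.Agent.T2h77U

open Filter Topology

namespace Po1

lemma pi_hs : ∀ {r : ℕ} (f : Fin r → ℕ → ℝ) (a : Fin r → ℝ), (∀ i n, 0 ≤ f i n) →
    (∀ i, HasSum (f i) (a i)) →
    HasSum (fun c : Fin r → ℕ => ∏ i, f i (c i)) (∏ i, a i)
  | 0, f, a, _, _ => by
    simpa using hasSum_fintype (fun _ : Fin 0 → ℕ => (1 : ℝ))
  | r + 1, f, a, h0, h => by
    have ih := pi_hs (fun i : Fin r => f i.succ) (fun i => a i.succ) (fun i n => h0 _ _)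
      (fun i => h _)
    rw [← (Fin.consEquiv (fun _ => ℕ)).hasSum_iff, Fin.prod_univ_succ]
    have hs : Summable (fun x : ℕ × (Fin r → ℕ) => f 0 x.1 * ∏ i, f i.succ (x.2 i)) :=
      (h 0).summable.mul_of_nonneg ih.summable (fun n => h0 _ _)
        (fun c => Finset.prod_nonneg fun i _ => h0 _ _)
    have h2 := (h 0).mul ih hs
    have e : ((fun c : Fin (r + 1) → ℕ => ∏ i, f i (c i)) ∘ (Fin.consEquiv (fun _ => ℕ))) =
        (fun x : ℕ × (Fin r → ℕ) => f 0 x.1 * ∏ i, f i.succ (x.2 i)) := by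
      ext x
      simp [Fin.consEquiv, Fin.prod_univ_succ]
    rw [e]
    exact h2

/-- weight of one component -/
def wj (v j m : ℕ) : ℝ := if m ≤ v then (uu2 m : ℝ) else if m ≤ v + j then 1 else 0

/-- doubled weight -/
def gj (v j m : ℕ) : ℝ := if m ≤ v then (uu2 m : ℝ) else if m ≤ v + j then 2 else 0

/-- only the upper part -/
def hj (v j m : ℕ) : ℝ := if m ≤ v then 0 else if m ≤ v + j then 2 else 0

lemma wtc_zero (v : ℕ) (J : Fin 4 → ℕ) :
    (wtc KS v 0 J : ℝ) = ∏ i, (if J i ≤ v then (uu2 (J i) : ℝ) else 0) := by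
  unfold wtc
  simp only [if_true]
  push_cast
  rfl

lemma wtc_succ (v j : ℕ) (J : Fin 4 → ℕ) :
    (wtc KS v (j + 1) J : ℝ) = 2 * ∏ i, gj v (j + 1) (J i) -
      ∑ k, ∏ i, (if i = k then hj v (j + 1) (J i) else gj v (j + 1) (J i)) := by
  set I : Finset (Fin 4) := Finset.univ.filter fun i => v < J i with hI
  have h1 : (wtc KS v (j + 1) J : ℝ) = (∏ i, wj v (j + 1) (J i)) * (KS I : ℝ) := by
    unfold wtc
    rw [if_neg (by omega)]
    push_cast
    unfold wj
    rfl
  have h2 : ∏ i, gj v (j + 1) (J i) = (∏ i, wj v (j + 1) (J i)) * 2 ^ I.card := by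
    have : ∀ i, gj v (j + 1) (J i) = wj v (j + 1) (J i) * (if i ∈ I then 2 else 1) := by
      intro i
      simp only [hI, Finset.mem_filter, Finset.mem_univ, true_and]
      unfold gj wj
      split_ifs <;> first | omega | simp
    rw [Finset.prod_congr rfl fun i _ => this i, Finset.prod_mul_distrib]
    congr 1
    rw [Finset.prod_ite]
    simp
  have h3 : ∀ k, ∏ i, (if i = k then hj v (j + 1) (J i) else gj v (j + 1) (J i)) =
      if k ∈ I then ∏ i, gj v (j + 1) (J i) else 0 := by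
    intro k
    split_ifs with hk
    · refine Finset.prod_congr rfl fun i _ => ?_
      split_ifs with h
      · subst h
        simp only [hI, Finset.mem_filter, Finset.mem_univ, true_and] at hk
        unfold hj gj
        rw [if_neg hk.not_ge, if_neg hk.not_ge]
      · rfl
    · refine Finset.prod_eq_zero (Finset.mem_univ k) ?_
      simp only [hI, Finset.mem_filter, Finset.mem_univ, true_and] at hk
      rw [if_pos rfl]
      unfold hj
      rw [if_pos (by omega)]
  rw [h1, Finset.sum_congr rfl fun k _ => h3 k, Finset.sum_ite_mem, Finset.univ_inter,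
    Finset.sum_const, nsmul_eq_mul, h2]
  unfold KS
  push_cast
  ring

/-- the finite sum over `J` -/
noncomputable def WW (x : ℝ) (v j : ℕ) : ℝ :=
  if j = 0 then SN x v ^ 4 else SN x (v + j) ^ 3 * (4 * SN x v - 2 * SN x (v + j))

lemma sum_gj (x : ℝ) (v j : ℕ) :
    ∑ m ∈ Finset.range (v + j + 1), gj v j m * x ^ m = SN x (v + j) := by
  unfold SN
  refine Finset.sum_congr rfl fun m hm => ?_
  rw [Finset.mem_range] at hm
  congr 1
  unfold gj
  split_ifs with h1 h2
  · rfl
  · unfold uu2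
    rw [if_neg (by omega)]
    norm_num
  · omega

lemma sum_hj (x : ℝ) (v j : ℕ) :
    ∑ m ∈ Finset.range (v + j + 1), hj v j m * x ^ m = SN x (v + j) - SN x v := by
  rw [← sum_gj x v j, eq_sub_iff_add_eq]
  have : SN x v = ∑ m ∈ Finset.range (v + j + 1), (if m ≤ v then (uu2 m : ℝ) else 0) * x ^ m := by
    unfold SN
    have hsub : Finset.range (v + 1) ⊆ Finset.range (v + j + 1) := by
      intro m hm
      rw [Finset.mem_range] at hm ⊢
      omega
    rw [← Finset.sum_subset hsub]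
    · refine Finset.sum_congr rfl fun m hm => ?_
      rw [Finset.mem_range] at hm
      rw [if_pos (by omega)]
    · intro m _ hm
      rw [Finset.mem_range] at hm
      rw [if_neg (by omega), zero_mul]
  rw [this, ← Finset.sum_add_distrib]
  refine Finset.sum_congr rfl fun m _ => ?_
  rw [← add_mul]
  congr 1
  unfold hj gj
  split_ifs <;> simp

lemma fin_sum (x : ℝ) (v j : ℕ) :
    ∑ J ∈ Fintype.piFinset (fun _ : Fin 4 => Finset.range (v + j + 1)),
      (wtc KS v j J : ℝ) * x ^ (∑ i, J i) = WW x v j := by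
  have hx : ∀ J : Fin 4 → ℕ, x ^ (∑ i, J i) = ∏ i, x ^ (J i) := fun J =>
    (Finset.prod_pow_eq_pow_sum _ _ _).symm
  rcases j with _ | j
  · unfold WW
    rw [if_pos rfl]
    have : SN x v = ∑ m ∈ Finset.range (v + 0 + 1), (if m ≤ v then (uu2 m : ℝ) else 0) * x ^ m := by
      unfold SN
      refine Finset.sum_congr rfl fun m hm => ?_
      rw [Finset.mem_range] at hm
      rw [if_pos (by omega)]
    have h4 : SN x v ^ 4 = ∏ _i : Fin 4,
        ∑ m ∈ Finset.range (v + 0 + 1), (if m ≤ v then (uu2 m : ℝ) else 0) * x ^ m := by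
      rw [← this]
      simp
    rw [h4, Finset.prod_univ_sum]
    refine Finset.sum_congr rfl fun J _ => ?_
    rw [wtc_zero, hx, ← Finset.prod_mul_distrib]
  · unfold WW
    rw [if_neg (by omega)]
    have h5 : ∀ J : Fin 4 → ℕ, (wtc KS v (j + 1) J : ℝ) * x ^ (∑ i, J i) =
        2 * ∏ i, (gj v (j + 1) (J i) * x ^ (J i)) -
        ∑ k, ∏ i, ((if i = k then hj v (j + 1) (J i) else gj v (j + 1) (J i)) * x ^ (J i)) := by
      intro J
      rw [wtc_succ, hx, sub_mul, mul_assoc, ← Finset.prod_mul_distrib, Finset.sum_mul]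
      congr 1
      refine Finset.sum_congr rfl fun k _ => ?_
      rw [← Finset.prod_mul_distrib]
    rw [Finset.sum_congr rfl fun J _ => h5 J, Finset.sum_sub_distrib, ← Finset.mul_sum,
      Finset.sum_comm]
    have h6 : ∑ J ∈ Fintype.piFinset (fun _ : Fin 4 => Finset.range (v + (j + 1) + 1)),
        ∏ i, (gj v (j + 1) (J i) * x ^ (J i)) = SN x (v + (j + 1)) ^ 4 := by
      rw [← Finset.prod_univ_sum (fun _ : Fin 4 => Finset.range (v + (j + 1) + 1))
        (fun _ m => gj v (j + 1) m * x ^ m)]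
      rw [Finset.prod_congr rfl fun i _ => sum_gj x v (j + 1)]
      simp
    have h7 : ∀ k : Fin 4, ∑ J ∈ Fintype.piFinset (fun _ : Fin 4 => Finset.range (v + (j + 1) + 1)),
        ∏ i, ((if i = k then hj v (j + 1) (J i) else gj v (j + 1) (J i)) * x ^ (J i)) =
        (SN x (v + (j + 1)) - SN x v) * SN x (v + (j + 1)) ^ 3 := by
      intro k
      rw [← Finset.prod_univ_sum (fun _ : Fin 4 => Finset.range (v + (j + 1) + 1))
        (fun i m => (if i = k then hj v (j + 1) m else gj v (j + 1) m) * x ^ m)]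
      have : ∀ i : Fin 4, ∑ m ∈ Finset.range (v + (j + 1) + 1),
          (if i = k then hj v (j + 1) m else gj v (j + 1) m) * x ^ m =
          if i = k then SN x (v + (j + 1)) - SN x v else SN x (v + (j + 1)) := by
        intro i
        split_ifs with h
        · exact sum_hj x v (j + 1)
        · exact sum_gj x v (j + 1)
      rw [Finset.prod_congr rfl fun i _ => this i, Fin.prod_univ_four]
      fin_cases k <;> simp <;> ring
    rw [h6, Finset.sum_congr rfl fun k _ => h7 k]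
    simp
    ring

lemma uu2_le (m : ℕ) : |(uu2 m : ℝ)| ≤ 2 := by
  unfold uu2
  split_ifs <;> norm_num

lemma KS_le : ∀ I : Finset (Fin 4), |KS I| ≤ 32 := by
  decide

lemma wtc_le (v j : ℕ) (J : Fin 4 → ℕ) : |(wtc KS v j J : ℝ)| ≤ 512 := by
  unfold wtc
  split_ifs with h
  · push_cast
    rw [Finset.abs_prod]
    calc _ ≤ ∏ _i : Fin 4, (2 : ℝ) := by
          refine Finset.prod_le_prod (fun _ _ => abs_nonneg _) fun i _ => ?_
          split_ifs
          · exact uu2_le _
          · simp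
      _ ≤ 512 := by norm_num
  · push_cast
    rw [abs_mul, Finset.abs_prod]
    have h1 : ∏ i, |(if J i ≤ v then (uu2 (J i) : ℝ) else if J i ≤ v + j then 1 else 0)| ≤ 16 := by
      calc _ ≤ ∏ _i : Fin 4, (2 : ℝ) := by
            refine Finset.prod_le_prod (fun _ _ => abs_nonneg _) fun i _ => ?_
            split_ifs
            · exact uu2_le _
            · norm_num
            · norm_num
        _ ≤ 16 := by norm_num
    have h2 : |((KS (Finset.univ.filter fun i => v < J i) : ℤ) : ℝ)| ≤ 32 := by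
      have := KS_le (Finset.univ.filter fun i => v < J i)
      exact_mod_cast this
    calc _ ≤ (16 : ℝ) * 32 := mul_le_mul h1 h2 (abs_nonneg _) (by norm_num)
      _ ≤ 512 := by norm_num

/-- the index set -/
abbrev P : Type := (ℕ × ℕ) × ((Fin 4 → ℕ) × (Fin 4 → ℕ))

/-- the exponent -/
def ee (p : P) : ℕ := 2 * p.1.1 + p.1.2 + ∑ i, (2 * p.2.1 i + p.2.2 i)

/-- the terms -/
noncomputable def T (x : ℝ) (p : P) : ℝ := (wtc KS p.1.1 p.1.2 p.2.2 : ℝ) * x ^ (ee p)

lemma pow_ee (x : ℝ) (p : P) : x ^ (ee p) =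
    ((x ^ 2) ^ p.1.1 * x ^ p.1.2) * ((∏ i, (x ^ 2) ^ (p.2.1 i)) * ∏ i, x ^ (p.2.2 i)) := by
  unfold ee
  rw [Finset.sum_add_distrib, ← Finset.mul_sum, pow_add, pow_add, pow_add, pow_mul, pow_mul,
    Finset.prod_pow_eq_pow_sum, Finset.prod_pow_eq_pow_sum]

lemma geoC {x : ℝ} (hx : 0 < x) (hx1 : x < 1) :
    HasSum (fun c : Fin 4 → ℕ => ∏ i, (x ^ 2) ^ (c i)) (((1 - x ^ 2)⁻¹) ^ 4) := by
  have h := pi_hs (r := 4) (fun _ n => (x ^ 2) ^ n) (fun _ => (1 - x ^ 2)⁻¹)
    (fun _ n => by positivity)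
    (fun _ => hasSum_geometric_of_lt_one (by positivity) (by nlinarith))
  simpa using h

lemma geoJ {x : ℝ} (hx : 0 < x) (hx1 : x < 1) :
    Summable (fun c : Fin 4 → ℕ => ∏ i, x ^ (c i)) :=
  (pi_hs (r := 4) (fun _ n => x ^ n) (fun _ => (1 - x)⁻¹)
    (fun _ n => by positivity)
    (fun _ => hasSum_geometric_of_lt_one hx.le hx1)).summable

lemma T_summable {x : ℝ} (hx : 0 < x) (hx1 : x < 1) : Summable (T x) := by
  have h1 : Summable (fun a : ℕ × ℕ => (x ^ 2) ^ a.1 * x ^ a.2) :=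
    (summable_geometric_of_lt_one (by positivity) (by nlinarith)).mul_of_nonneg
      (summable_geometric_of_lt_one hx.le hx1) (fun _ => by positivity) (fun _ => by positivity)
  have h2 : Summable (fun b : (Fin 4 → ℕ) × (Fin 4 → ℕ) =>
      (∏ i, (x ^ 2) ^ (b.1 i)) * ∏ i, x ^ (b.2 i)) :=
    (geoC hx hx1).summable.mul_of_nonneg (geoJ hx hx1) (fun _ => by positivity)
      (fun _ => by positivity)
  have h3 := (h1.mul_of_nonneg h2 (fun _ => by positivity) (fun _ => by positivity)).mul_left 512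
  refine Summable.of_norm_bounded h3 fun p => ?_
  unfold T
  rw [Real.norm_eq_abs, abs_mul, pow_ee]
  refine mul_le_mul (wtc_le _ _ _) (le_of_eq ?_) (abs_nonneg _) (by norm_num)
  exact abs_of_nonneg (by positivity)

lemma T_fiber {x : ℝ} (hx : 0 < x) (hx1 : x < 1) (a : ℕ × ℕ) :
    HasSum (fun b => T x (a, b))
      (x ^ (2 * a.1) * (((1 - x ^ 2)⁻¹) ^ 4 * (x ^ a.2 * WW x a.1 a.2))) := by
  have hJ : HasSum (fun J : Fin 4 → ℕ => (wtc KS a.1 a.2 J : ℝ) * x ^ (∑ i, J i))
      (WW x a.1 a.2) := by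
    rw [← fin_sum]
    refine hasSum_sum_of_ne_finset_zero fun J hJ => ?_
    have : wtc KS a.1 a.2 J = 0 := by
      rw [Fintype.mem_piFinset] at hJ
      push Not at hJ
      obtain ⟨i, hi⟩ := hJ
      rw [Finset.mem_range] at hi
      unfold wtc
      split_ifs with h
      · refine Finset.prod_eq_zero (Finset.mem_univ i) ?_
        rw [if_neg (by omega)]
      · rw [Finset.prod_eq_zero (Finset.mem_univ i), zero_mul]
        rw [if_neg (by omega), if_neg (by omega)]
    rw [this]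
    simp
  have hC := geoC hx hx1
  have hs : Summable (fun b : (Fin 4 → ℕ) × (Fin 4 → ℕ) =>
      (∏ i, (x ^ 2) ^ (b.1 i)) * ((wtc KS a.1 a.2 b.2 : ℝ) * x ^ (∑ i, b.2 i))) :=
    summable_mul_of_summable_norm (f := fun c : Fin 4 → ℕ => ∏ i, (x ^ 2) ^ (c i))
      (g := fun J : Fin 4 → ℕ => (wtc KS a.1 a.2 J : ℝ) * x ^ (∑ i, J i))
      hC.summable.norm hJ.summable.norm
  have h := ((hC.mul hJ hs).mul_left (x ^ (2 * a.1) * x ^ a.2))
  have e : (fun b => T x (a, b)) = fun b : (Fin 4 → ℕ) × (Fin 4 → ℕ) =>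
      x ^ (2 * a.1) * x ^ a.2 * ((∏ i, (x ^ 2) ^ (b.1 i)) *
        ((wtc KS a.1 a.2 b.2 : ℝ) * x ^ (∑ i, b.2 i))) := by
    ext b
    unfold T
    rw [pow_ee, Finset.prod_pow_eq_pow_sum (f := fun i => b.2 i)]
    simp only [pow_mul]
    ring
  rw [e]
  have e2 : x ^ (2 * a.1) * (((1 - x ^ 2)⁻¹) ^ 4 * (x ^ a.2 * WW x a.1 a.2)) =
      x ^ (2 * a.1) * x ^ a.2 * (((1 - x ^ 2)⁻¹) ^ 4 * WW x a.1 a.2) := by ring
  rw [e2]
  exact h

lemma T_total {x : ℝ} (hx : 0 < x) (hx1 : x < 1) : ∑' p, T x p = FF x := by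
  have hT := T_summable hx hx1
  have hS := hT.hasSum.prod_fiberwise (T_fiber hx hx1)
  rw [← hS.tsum_eq, hS.summable.tsum_prod]
  have h1 : ∀ v : ℕ, ∑' j : ℕ, (x ^ (2 * v) * (((1 - x ^ 2)⁻¹) ^ 4 * (x ^ j * WW x v j))) =
      ((1 - x ^ 2)⁻¹) ^ 4 * (x ^ (2 * v) * (SN x v ^ 4 +
      ∑' j : ℕ, x ^ (j + 1) * (SN x (v + j + 1) ^ 3 * (4 * SN x v - 2 * SN x (v + j + 1))))) := by
    intro v
    have hv := hS.summable.prod_factor v
    simp only at hv
    rw [hv.tsum_eq_zero_add]
    have h2 : ∀ j : ℕ, x ^ (2 * v) * (((1 - x ^ 2)⁻¹) ^ 4 * (x ^ (j + 1) * WW x v (j + 1))) =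
      (x ^ (2 * v) * ((1 - x ^ 2)⁻¹) ^ 4) *
        (x ^ (j + 1) * (SN x (v + j + 1) ^ 3 * (4 * SN x v - 2 * SN x (v + j + 1)))) := by
      intro j
      unfold WW
      rw [if_neg (by omega), ← add_assoc]
      ring
    rw [tsum_congr h2, tsum_mul_left]
    unfold WW
    rw [if_pos rfl]
    ring
  rw [tsum_congr h1, tsum_mul_left]
  rfl

lemma chi_eq (x : ℝ) (n : ℕ) :
    ∑' (b : ↑(ee ⁻¹' {n})), T x ↑b = (chi KS n : ℝ) * x ^ n := by
  rw [tsum_subtype]
  rw [tsum_eq_sum (s := (Finset.range (n + 1) ×ˢ Finset.range (n + 1)) ×ˢ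
    (Fintype.piFinset (fun _ : Fin 4 => Finset.range (n + 1)) ×ˢ
      Fintype.piFinset (fun _ : Fin 4 => Finset.range (n + 1))))]
  · rw [Finset.sum_product, Finset.sum_product]
    unfold chi
    push_cast
    rw [Finset.sum_mul]
    refine Finset.sum_congr rfl fun v _ => ?_
    rw [Finset.sum_mul]
    refine Finset.sum_congr rfl fun j _ => ?_
    rw [Finset.sum_product, Finset.sum_mul]
    refine Finset.sum_congr rfl fun c _ => ?_
    rw [Finset.sum_mul]
    refine Finset.sum_congr rfl fun J _ => ?_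
    unfold Set.indicator
    simp only [Set.mem_preimage, Set.mem_singleton_iff]
    by_cases h : 2 * v + j + ∑ i, (2 * c i + J i) = n
    · have h' : ee ((v, j), c, J) = n := h
      rw [if_pos h, if_pos h']
      unfold T
      rw [h']
    · have h' : ¬ ee ((v, j), c, J) = n := h
      rw [if_neg h, if_neg h']
      simp
  · intro p hp
    unfold Set.indicator
    rw [if_neg]
    simp only [Set.mem_preimage, Set.mem_singleton_iff]
    intro h
    apply hp
    unfold ee at h
    have hc : ∀ i, 2 * p.2.1 i + p.2.2 i ≤ n := by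
      intro i
      have : 2 * p.2.1 i + p.2.2 i ≤ ∑ i, (2 * p.2.1 i + p.2.2 i) :=
        Finset.single_le_sum (f := fun i => 2 * p.2.1 i + p.2.2 i) (fun _ _ => Nat.zero_le _)
          (Finset.mem_univ i)
      omega
    simp only [Finset.mem_product, Finset.mem_range, Fintype.mem_piFinset]
    refine ⟨⟨by omega, by omega⟩, fun i => ?_, fun i => ?_⟩
    · have := hc i
      omega
    · have := hc i
      omega

end Po1

open Po1 in
theorem po1 : S_PO1 := by
  intro x hx hx1
  have h := (T_summable hx hx1).hasSum.tsum_fiberwise ee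
  rw [T_total hx hx1] at h
  simp only [chi_eq] at h
  exact h

end Pool.Agent.T2h77U
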