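import Pool.Agent.T2h77U.Stm2

set_option autoImplicit false

namespace Pool.Agent.T2h77U

open Filter Topology

namespace Po3

lemma sn {x : ℝ} (hx : x ≠ 1) (N : ℕ) : SN x N = ((1 + x) - 2 * x ^ (N + 1)) * (1 - x)⁻¹ := by
  have h1 : 1 - x ≠ 0 := sub_ne_zero.mpr (Ne.symm hx)
  rw [← div_eq_mul_inv, eq_div_iff h1]
  induction N with
  | zero => simp [SN, uu2]; ring
  | succ n ih =>
    have : SN x (n + 1) = SN x n + 2 * x ^ (n + 1) := by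
      unfold SN
      rw [Finset.sum_range_succ]
      simp [uu2]
    rw [this, add_mul, ih]
    ring

/-- geometric sums -/
noncomputable def G (m : ℕ) (x : ℝ) : ℝ := ∑ i ∈ Finset.range m, x ^ i

/-- the inverses of the geometric sums -/
noncomputable def gi (m : ℕ) (x : ℝ) : ℝ := (G m x)⁻¹

lemma inv_G (m : ℕ) (x : ℝ) : (1 - x ^ m)⁻¹ = (1 - x)⁻¹ * gi m x := by
  unfold gi
  rw [← mul_inv]
  congr 1
  unfold G
  have := mul_neg_geom_sum x m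
  rw [this]

lemma hs_congr {f g : ℕ → ℝ} {a : ℝ} (h : ∀ n, f n = g n) (hg : HasSum g a) : HasSum f a := by
  rw [funext h]
  exact hg

lemma gi_cont (m : ℕ) : ContinuousAt (gi (m + 1)) 1 := by
  unfold gi
  refine ContinuousAt.inv₀ ?_ ?_
  · unfold G
    fun_prop
  · simp [G]
    positivity

lemma gi_one (m : ℕ) : gi m 1 = (m : ℝ)⁻¹ := by
  simp [gi, G]

/-- the inner sum over one monomial -/
lemma inner {x : ℝ} (hx : 0 < x) (hx1 : x < 1) (v b : ℕ) :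
    HasSum (fun j : ℕ => x ^ (j + 1) * (x ^ (v + j + 2)) ^ b)
      (x * (x ^ (v + 2)) ^ b * (1 - x ^ (1 + b))⁻¹) := by
  have h := (hasSum_geometric_of_lt_one (r := x ^ (1 + b)) (by positivity)
    (pow_lt_one₀ hx.le hx1 (by omega))).mul_left (x * (x ^ (v + 2)) ^ b)
  refine hs_congr (fun j => ?_) h
  ring

/-- the outer sum over one monomial -/
lemma outer {x : ℝ} (hx : 0 < x) (hx1 : x < 1) (a b : ℕ) :
    HasSum (fun v : ℕ => x ^ (2 * v) * ((x ^ (v + 1)) ^ a * (x * (x ^ (v + 2)) ^ b)))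
      (x ^ (1 + a + 2 * b) * (1 - x ^ (2 + a + b))⁻¹) := by
  have h := (hasSum_geometric_of_lt_one (r := x ^ (2 + a + b)) (by positivity)
    (pow_lt_one₀ hx.le hx1 (by omega))).mul_left (x ^ (1 + a + 2 * b))
  refine hs_congr (fun v => ?_) h
  ring

lemma first {x : ℝ} (hx : 0 < x) (hx1 : x < 1) (k : ℕ) :
    HasSum (fun v : ℕ => x ^ (2 * v) * (x ^ (v + 1)) ^ k)
      (x ^ k * (1 - x ^ (2 + k))⁻¹) := by
  have h := (hasSum_geometric_of_lt_one (r := x ^ (2 + k)) (by positivity)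
    (pow_lt_one₀ hx.le hx1 (by omega))).mul_left (x ^ k)
  refine hs_congr (fun v => ?_) h
  ring

lemma inner_sum {x : ℝ} (hx : 0 < x) (hx1 : x < 1) (v : ℕ) :
    HasSum (fun j : ℕ => x ^ (j + 1) * (SN x (v + j + 1) ^ 3 * (4 * SN x v - 2 * SN x (v + j + 1))))
      ((1 - x)⁻¹ ^ 4 * (
        (2 * (1 + x) ^ 4 - 8 * (1 + x) ^ 3 * x ^ (v + 1)) *
          (x * (x ^ (v + 2)) ^ 0 * (1 - x ^ (1 + 0))⁻¹) +
        (-8 * (1 + x) ^ 3 + 48 * (1 + x) ^ 2 * x ^ (v + 1)) *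
          (x * (x ^ (v + 2)) ^ 1 * (1 - x ^ (1 + 1))⁻¹) +
        (-96 * (1 + x) * x ^ (v + 1)) *
          (x * (x ^ (v + 2)) ^ 2 * (1 - x ^ (1 + 2))⁻¹) +
        (32 * (1 + x) + 64 * x ^ (v + 1)) *
          (x * (x ^ (v + 2)) ^ 3 * (1 - x ^ (1 + 3))⁻¹) +
        (-32) * (x * (x ^ (v + 2)) ^ 4 * (1 - x ^ (1 + 4))⁻¹))) := by
  have h := ((((((inner hx hx1 v 0).mul_left (2 * (1 + x) ^ 4 - 8 * (1 + x) ^ 3 * x ^ (v + 1))).add
    ((inner hx hx1 v 1).mul_left (-8 * (1 + x) ^ 3 + 48 * (1 + x) ^ 2 * x ^ (v + 1)))).add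
    ((inner hx hx1 v 2).mul_left (-96 * (1 + x) * x ^ (v + 1)))).add
    ((inner hx hx1 v 3).mul_left (32 * (1 + x) + 64 * x ^ (v + 1)))).add
    ((inner hx hx1 v 4).mul_left (-32))).mul_left ((1 - x)⁻¹ ^ 4)
  refine hs_congr (fun j => ?_) h
  rw [sn hx1.ne v, sn hx1.ne (v + j + 1)]
  have e : x ^ (v + j + 1 + 1) = x ^ (v + j + 2) := rfl
  rw [e]
  generalize x ^ (v + j + 2) = B
  generalize x ^ (v + 1) = A
  generalize (1 - x)⁻¹ = y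
  generalize x ^ (j + 1) = z
  ring

lemma total {x : ℝ} (hx : 0 < x) (hx1 : x < 1) :
    FF x = ((1 - x ^ 2)⁻¹) ^ 4 * ((1 - x)⁻¹ ^ 4 * (
        ((1 + x) ^ 4) * (x ^ 0 * (1 - x ^ (2 + 0))⁻¹) +
        (-8 * (1 + x) ^ 3) * (x ^ 1 * (1 - x ^ (2 + 1))⁻¹) +
        (24 * (1 + x) ^ 2) * (x ^ 2 * (1 - x ^ (2 + 2))⁻¹) +
        (-32 * (1 + x)) * (x ^ 3 * (1 - x ^ (2 + 3))⁻¹) +
        16 * (x ^ 4 * (1 - x ^ (2 + 4))⁻¹) +
        (2 * (1 + x) ^ 4) * (1 - x ^ (1 + 0))⁻¹ * (x ^ (1 + 0 + 2 * 0) * (1 - x ^ (2 + 0 + 0))⁻¹) +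
        (-8 * (1 + x) ^ 3) * (1 - x ^ (1 + 0))⁻¹ * (x ^ (1 + 1 + 2 * 0) * (1 - x ^ (2 + 1 + 0))⁻¹) +
        (-8 * (1 + x) ^ 3) * (1 - x ^ (1 + 1))⁻¹ * (x ^ (1 + 0 + 2 * 1) * (1 - x ^ (2 + 0 + 1))⁻¹) +
        (48 * (1 + x) ^ 2) * (1 - x ^ (1 + 1))⁻¹ * (x ^ (1 + 1 + 2 * 1) * (1 - x ^ (2 + 1 + 1))⁻¹) +
        (-96 * (1 + x)) * (1 - x ^ (1 + 2))⁻¹ * (x ^ (1 + 1 + 2 * 2) * (1 - x ^ (2 + 1 + 2))⁻¹) +
        (32 * (1 + x)) * (1 - x ^ (1 + 3))⁻¹ * (x ^ (1 + 0 + 2 * 3) * (1 - x ^ (2 + 0 + 3))⁻¹) +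
        64 * (1 - x ^ (1 + 3))⁻¹ * (x ^ (1 + 1 + 2 * 3) * (1 - x ^ (2 + 1 + 3))⁻¹) +
        (-32) * (1 - x ^ (1 + 4))⁻¹ * (x ^ (1 + 0 + 2 * 4) * (1 - x ^ (2 + 0 + 4))⁻¹))) := by
  unfold FF
  congr 1
  have h := (((((((((((((((first hx hx1 0).mul_left ((1 + x) ^ 4)).add
    ((first hx hx1 1).mul_left (-8 * (1 + x) ^ 3))).add
    ((first hx hx1 2).mul_left (24 * (1 + x) ^ 2))).add
    ((first hx hx1 3).mul_left (-32 * (1 + x)))).add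
    ((first hx hx1 4).mul_left 16)).add
    ((outer hx hx1 0 0).mul_left ((2 * (1 + x) ^ 4) * (1 - x ^ (1 + 0))⁻¹))).add
    ((outer hx hx1 1 0).mul_left ((-8 * (1 + x) ^ 3) * (1 - x ^ (1 + 0))⁻¹))).add
    ((outer hx hx1 0 1).mul_left ((-8 * (1 + x) ^ 3) * (1 - x ^ (1 + 1))⁻¹))).add
    ((outer hx hx1 1 1).mul_left ((48 * (1 + x) ^ 2) * (1 - x ^ (1 + 1))⁻¹))).add
    ((outer hx hx1 1 2).mul_left ((-96 * (1 + x)) * (1 - x ^ (1 + 2))⁻¹))).add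
    ((outer hx hx1 0 3).mul_left ((32 * (1 + x)) * (1 - x ^ (1 + 3))⁻¹))).add
    ((outer hx hx1 1 3).mul_left (64 * (1 - x ^ (1 + 3))⁻¹))).add
    ((outer hx hx1 0 4).mul_left ((-32) * (1 - x ^ (1 + 4))⁻¹)))).mul_left ((1 - x)⁻¹ ^ 4)
  refine HasSum.tsum_eq ?_
  refine hs_congr (fun v => ?_) h
  rw [(inner_sum hx hx1 v).tsum_eq, sn hx1.ne v]
  generalize (1 - x ^ (1 + 0))⁻¹ = y0
  generalize (1 - x ^ (1 + 1))⁻¹ = y1
  generalize (1 - x ^ (1 + 2))⁻¹ = y2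
  generalize (1 - x ^ (1 + 3))⁻¹ = y3
  generalize (1 - x ^ (1 + 4))⁻¹ = y4
  generalize x ^ (v + 2) = B
  generalize x ^ (v + 1) = A
  generalize (1 - x)⁻¹ = y
  generalize x ^ (2 * v) = z
  ring

/-- the explicit expression -/
noncomputable def Phi (x : ℝ) : ℝ := gi 2 x ^ 4 * ((1 - x) * (
        ((1 + x) ^ 4) * (x ^ 0 * gi 2 x) +
        (-8 * (1 + x) ^ 3) * (x ^ 1 * gi 3 x) +
        (24 * (1 + x) ^ 2) * (x ^ 2 * gi 4 x) +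
        (-32 * (1 + x)) * (x ^ 3 * gi 5 x) +
        16 * (x ^ 4 * gi 6 x)) +
        ((2 * (1 + x) ^ 4) * gi 1 x * (x ^ 1 * gi 2 x) +
        (-8 * (1 + x) ^ 3) * gi 1 x * (x ^ 2 * gi 3 x) +
        (-8 * (1 + x) ^ 3) * gi 2 x * (x ^ 3 * gi 3 x) +
        (48 * (1 + x) ^ 2) * gi 2 x * (x ^ 4 * gi 4 x) +
        (-96 * (1 + x)) * gi 3 x * (x ^ 6 * gi 5 x) +
        (32 * (1 + x)) * gi 4 x * (x ^ 7 * gi 5 x) +
        64 * gi 4 x * (x ^ 8 * gi 6 x) +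
        (-32) * gi 5 x * (x ^ 9 * gi 6 x)))

lemma eq_Phi {x : ℝ} (hx : 0 < x) (hx1 : x < 1) : (1 - x) ^ 10 * FF x = Phi x := by
  rw [total hx hx1]
  simp only [inv_G, Nat.reduceAdd, Nat.reduceMul, zero_add, add_zero, mul_zero]
  have e1 : (1 - x) * (1 - x)⁻¹ = 1 := mul_inv_cancel₀ (by linarith)
  unfold Phi
  generalize (1 - x)⁻¹ = y at e1 ⊢
  have e9 : (1 - x) ^ 10 * y ^ 9 = 1 - x := by
    calc (1 - x) ^ 10 * y ^ 9 = (1 - x) * ((1 - x) * y) ^ 9 := by ring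
      _ = 1 - x := by rw [e1]; ring
  have e10 : (1 - x) ^ 10 * y ^ 10 = 1 := by
    calc (1 - x) ^ 10 * y ^ 10 = ((1 - x) * y) ^ 10 := by ring
      _ = 1 := by rw [e1]; ring
  generalize gi 1 x = g1
  generalize gi 2 x = g2
  generalize gi 3 x = g3
  generalize gi 4 x = g4
  generalize gi 5 x = g5
  generalize gi 6 x = g6
  generalize 1 + x = u
  have key : ∀ P Q : ℝ, (1 - x) ^ 10 * (g2 ^ 4 * (y ^ 8 * (y * P + y ^ 2 * Q))) =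
      g2 ^ 4 * ((1 - x) * P + Q) := by
    intro P Q
    calc _ = g2 ^ 4 * (((1 - x) ^ 10 * y ^ 9) * P + ((1 - x) ^ 10 * y ^ 10) * Q) := by ring
      _ = _ := by rw [e9, e10]; ring
  rw [← key]
  ring

lemma Phi_cont : ContinuousAt Phi 1 := by
  have h1 := gi_cont 0
  have h2 := gi_cont 1
  have h3 := gi_cont 2
  have h4 := gi_cont 3
  have h5 := gi_cont 4
  have h6 := gi_cont 5
  simp only [Nat.reduceAdd, zero_add] at h1 h2 h3 h4 h5 h6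
  unfold Phi
  generalize gi 1 = g1 at *
  generalize gi 2 = g2 at *
  generalize gi 3 = g3 at *
  generalize gi 4 = g4 at *
  generalize gi 5 = g5 at *
  generalize gi 6 = g6 at *
  fun_prop

lemma Phi_one : Phi 1 = 0 := by
  unfold Phi
  simp only [gi_one]
  norm_num

end Po3

open Po3 in
theorem po3 : S_PO3 := by
  have h : Tendsto Phi (𝓝[<] 1) (𝓝 0) := by
    have := Phi_cont.tendsto
    rw [Phi_one] at this
    exact this.mono_left nhdsWithin_le_nhds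
  refine h.congr' ?_
  have : ∀ᶠ x : ℝ in 𝓝[<] 1, 0 < x := by
    apply Filter.Eventually.filter_mono nhdsWithin_le_nhds
    exact lt_mem_nhds one_pos
  filter_upwards [this, self_mem_nhdsWithin] with x hx hx1
  exact (eq_Phi hx hx1).symm

end Pool.Agent.T2h77U
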