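import Pool.Agent.T2h77U.Stm2

set_option autoImplicit false

namespace Pool.Agent.T2h77U

open Filter Topology

theorem pol (h1 : S_PO1) (h3 : S_PO3) : S_POL := by
  refine ⟨fun x hx hx1 => (h1 x hx hx1).summable, ?_⟩
  refine Tendsto.congr' ?_ h3
  have : ∀ᶠ x : ℝ in 𝓝[<] 1, 0 < x := by
    apply Filter.Eventually.filter_mono nhdsWithin_le_nhds
    exact lt_mem_nhds one_pos
  filter_upwards [this, self_mem_nhdsWithin] with x hx hx1
  rw [(h1 x hx hx1).tsum_eq]

end Pool.Agent.T2h77U
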