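import Pool.Agent.T2h77U.Stm

/-! PTT: the projection theorem for leading terms in one variable. -/

namespace Pool.Agent.T2h77U.PttF

open Polynomial

lemma hasse_map {R S : Type} [CommRing R] [CommRing S] (φ : R →+* S) (j : ℕ) (f : R[X]) :
    hasseDeriv j (f.map φ) = (hasseDeriv j f).map φ := by
  ext n
  simp [hasseDeriv_coeff, coeff_map]

lemma ev_hasse {n : ℕ} {O : Type} [CommRing O] (x : Fin n → O) (j : ℕ)
    (f : (MvPolynomial (Fin n) ℤ)[X]) : ev x (hasseDeriv j f) = hasseDeriv j (ev x f) :=
  (hasse_map _ j f).symm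

lemma ev_natDegree {n : ℕ} {O : Type} [CommRing O] (x : Fin n → O)
    (f : (MvPolynomial (Fin n) ℤ)[X]) : (ev x f).natDegree ≤ f.natDegree :=
  natDegree_map_le

lemma eval_taylor_sum {O : Type} [CommRing O] (f : O[X]) {D : ℕ} (hdeg : f.natDegree ≤ D)
    (b h : O) : f.eval (b + h) = ∑ j : Fin (D + 1), (hasseDeriv j f).eval b * h ^ (j : ℕ) := by
  have h1 : f.eval (b + h) = (taylor b f).eval h := by rw [taylor_eval, add_comm]
  rw [h1, eval_eq_sum_range' (n := D + 1) (by rw [natDegree_taylor]; omega), Finset.sum_range]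
  exact Finset.sum_congr rfl fun j _ => by rw [taylor_coeff]

section
variable {O k : Type} [CommRing O] [IsDomain O] [Field k] (H : HF O k)

lemma rv_zero : H.rv 0 = (0, 0) := by
  simp [HF.rv, H.v_zero, H.ac_zero]

lemma rv_mul_pow (hS : S_SUM) {c h : O} (hc : c ≠ 0) (hh : h ≠ 0) (j : ℕ) :
    H.rv (c * h ^ j) = mulp (H.rv c) (H.rv h) j := by
  induction j with
  | zero => simp [mulp]
  | succ j ih =>
    have h1 := (hS O k H).1 (c * h ^ j) h (mul_ne_zero hc (pow_ne_zero _ hh)) hh
    rw [pow_succ, ← mul_assoc, h1]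
    have h2 : H.v (c * h ^ j) = (mulp (H.rv c) (H.rv h) j).1 := by rw [← ih]; rfl
    have h3 : H.ac (c * h ^ j) = (mulp (H.rv c) (H.rv h) j).2 := by rw [← ih]; rfl
    rw [h2, h3]
    simp only [mulp, HF.rv, Prod.mk.injEq]
    constructor <;> ring

/-- the term `F_j(b) h^j` is represented by the product of leading terms -/
lemma rep_mul_pow (hS : S_SUM) (c : O) {h : O} (hh : h ≠ 0) (j : ℕ) :
    H.Rep (mulp (H.rv c) (H.rv h) j) (c * h ^ j) := by
  have hac : ∀ x : O, H.ac x = 0 ↔ x = 0 := (hS O k H).2.1
  by_cases hc : c = 0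
  · left
    subst hc
    simp [mulp, HF.rv, H.ac_zero]
  · right
    have h1 := rv_mul_pow H hS hc hh j
    have h2 : c * h ^ j ≠ 0 := mul_ne_zero hc (pow_ne_zero _ hh)
    refine ⟨?_, h2, h1⟩
    rw [← h1]
    exact fun h0 => h2 ((hac _).mp h0)

/-- leading term of `f` at `b + h` from a family of leading terms at `b` adding up without
cancellation -/
lemma rv_eval_add (hS : S_SUM) (f : O[X]) {D : ℕ} (hdeg : f.natDegree ≤ D) (b : O) {h : O}
    (hh : h ≠ 0) {σ : ℕ × k}
    (hnc : NoCancel (fun j : Fin (D + 1) => mulp (H.rv ((hasseDeriv j f).eval b)) (H.rv h) j) σ) :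
    H.rv (f.eval (b + h)) = σ := by
  rw [eval_taylor_sum f hdeg]
  exact (hS O k H).2.2.2.2.2.1 (D + 1) _ _ σ (fun j => rep_mul_pow H hS _ hh j) hnc

end

section
variable {ι : Type} {O k : ι → Type} [∀ i, CommRing (O i)] [∀ i, IsDomain (O i)]
  [∀ i, Field (k i)] (H : ∀ i, HF (O i) (k i))

omit [∀ i, Field (k i)] in
lemma good_eq (hG : S_GOO) {s : Type} [Fintype s] [DecidableEq s] (a b : s) :
    Good k (fun i => {ρ : s → ℕ × k i | ρ a = ρ b}) := by
  have h8 := (hG ι k).2.2.2.2.2.2.2
  have h6 := (hG ι k).2.2.2.2.2.1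
  have h2 := (hG ι k).2.1
  have hle : ∀ a b : s, Good k (fun i => {ρ : s → ℕ × k i | (ρ a).1 ≤ (ρ b).1}) := by
    intro a b
    have := h8 s (fun j => if j = a then 1 else 0) (fun j => if j = b then 1 else 0) 0 0
    simpa using this
  have hac := h6 s (fun i => {κ : s → k i | κ a = κ b})
  have := h2 s (Fin 3) (fun j => if j = 0 then (fun i => {ρ : s → ℕ × k i | (ρ a).1 ≤ (ρ b).1})
    else if j = 1 then (fun i => {ρ : s → ℕ × k i | (ρ b).1 ≤ (ρ a).1})
    else (fun i => {ρ | (fun j => (ρ j).2) ∈ {κ : s → k i | κ a = κ b}})) (by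
      intro j
      fin_cases j
      · exact hle a b
      · exact hle b a
      · exact hac)
  convert this using 2 with i
  ext ρ
  simp only [Set.mem_ofPred_eq, Set.mem_iInter, Fin.forall_fin_succ, Prod.ext_iff]
  simp
  constructor
  · rintro ⟨h1, h2⟩
    exact ⟨h1.le, h1.ge, h2⟩
  · rintro ⟨h1, h2, h3⟩
    exact ⟨le_antisymm h1 h2, h3⟩

lemma good_zero (hG : S_GOO) {s : Type} [Fintype s] [DecidableEq s] (a : s) :
    Good k (fun i => {ρ : s → ℕ × k i | ρ a = (0, 0)}) := by
  have h8 := (hG ι k).2.2.2.2.2.2.2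
  have h6 := (hG ι k).2.2.2.2.2.1
  have h2 := (hG ι k).2.1
  have hle : Good k (fun i => {ρ : s → ℕ × k i | (ρ a).1 ≤ 0}) := by
    have := h8 s (fun j => if j = a then 1 else 0) (fun j => 0) 0 0
    simpa using this
  have hac := h6 s (fun i => {κ : s → k i | κ a = 0})
  have := h2 s (Fin 2) (fun j => if j = 0 then (fun i => {ρ : s → ℕ × k i | (ρ a).1 ≤ 0})
    else (fun i => {ρ | (fun j => (ρ j).2) ∈ {κ : s → k i | κ a = 0}})) (by
      intro j
      fin_cases j
      · exact hle
      · exact hac)
  convert this using 2 with i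
  ext ρ
  simp only [Set.mem_ofPred_eq, Set.mem_iInter, Fin.forall_fin_succ, Prod.ext_iff]
  simp

lemma base (hG : S_GOO) {n m : ℕ} (F : Fin m → (MvPolynomial (Fin n) ℤ)[X]) (x0 : Fin m)
    (hx0 : F x0 = X) (S0 : Finset (Fin m)) (hS0 : ∀ a ∈ S0, (F a).natDegree = 0 ∨ a = x0)
    (hx0S : x0 ∈ S0) : XG O k H (PtS O k H F S0) := by
  refine ⟨m, fun j => (F j).coeff 0, fun i => {ρ : Fin m ⊕ Fin m → ℕ × k i |
    ∀ a, ρ (Sum.inr a) = if a ∈ S0 then ρ (Sum.inl a) else (0, 0)}, ?_, ?_⟩
  · have h2 := (hG ι k).2.1 (Fin m ⊕ Fin m) (Fin m) (fun a =>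
      if a ∈ S0 then (fun i => {ρ : Fin m ⊕ Fin m → ℕ × k i | ρ (Sum.inr a) = ρ (Sum.inl a)})
      else (fun i => {ρ : Fin m ⊕ Fin m → ℕ × k i | ρ (Sum.inr a) = (0, 0)})) (by
        intro a
        by_cases ha : a ∈ S0
        · simp only [ha, if_true]
          exact good_eq hG _ _
        · simp only [ha, if_false]
          exact good_zero hG _)
    convert h2 using 2 with i
    ext ρ
    simp only [Set.mem_ofPred_eq, Set.mem_iInter]
    refine forall_congr' fun a => ?_
    by_cases ha : a ∈ S0 <;> simp [ha]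
  · intro i x ρ
    have hev : ∀ a, (ev x (F a)).eval 0 = MvPolynomial.aeval x ((F a).coeff 0) := by
      intro a
      rw [← coeff_zero_eq_eval_zero]
      simp [ev, coeff_map]
    constructor
    · rintro ⟨b, ⟨a, ha, hne, hroot⟩, hτ⟩
      have hb : b = 0 := by
        rcases hS0 a ha with h0 | h0
        · exfalso
          rw [eq_C_of_natDegree_eq_zero h0] at hne hroot
          simp only [ev, Polynomial.map_C, eval_C] at hne hroot
          rw [hroot] at hne
          simp at hne
        · subst h0
          rw [hx0] at hroot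
          simpa [ev] using hroot
      subst hb
      intro a
      simp only [Sum.elim_inr, Sum.elim_inl]
      rw [hτ a, hev]
    · intro h
      refine ⟨0, ⟨x0, hx0S, ?_, ?_⟩, ?_⟩
      · rw [hx0]
        simp [ev]
      · rw [hx0]
        simp [ev]
      · intro a
        have := h a
        simp only [Sum.elim_inr, Sum.elim_inl] at this
        rw [this, hev]

end

end Pool.Agent.T2h77U.PttF

namespace Pool.Agent.T2h77U

open Polynomial PttF

theorem ptt (hB : S_BAS) (hS : S_SUM) (hN : S_NCL) (hG : S_GOO) (hR : S_REL) (hX : S_XGC)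
    (hA : S_ADD) : S_PTT := by
  classical
  intro ι O k _ _ _ H n m D F der el rem x0 hchar hdeg hx0 hder0 hder hel hrem
  -- modified remainder
  let rem' : Fin m → Fin m → Fin m := fun a h =>
    if F h ≠ 0 ∧ (F h).natDegree ≤ (F a).natDegree then rem a h else x0
  have hrem' : ∀ a h, (F h).natDegree ≤ (F a).natDegree → F h ≠ 0 →
      ∃ (N : ℕ) (Q : (MvPolynomial (Fin n) ℤ)[X]),
        C (F h).leadingCoeff ^ N * F a = Q * F h + F (rem' a h) ∧
        (F (rem' a h)).degree < (F h).degree := by
    intro a h h1 h2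
    have h3 : rem' a h = rem a h := if_pos ⟨h2, h1⟩
    rw [h3]
    exact hrem a h h1 h2
  let S0 : Finset (Fin m) := Finset.univ.filter fun a => (F a).natDegree = 0 ∨ a = x0
  have hS0 : ∀ a, a ∈ S0 ↔ (F a).natDegree = 0 ∨ a = x0 := by
    intro a
    simp [S0]
  have main : ∀ N : ℕ, ∀ S : Finset (Fin m), S.card ≤ N → S0 ⊆ S →
      (∀ a ∈ S, a = x0 ∨ ∀ b, (F b).natDegree < (F a).natDegree → b ∈ S) →
      XG O k H (PtS O k H F S) := by
    intro N
    induction N with
    | zero =>
      intro S hcard hsub _
      have h1 : x0 ∈ S := hsub ((hS0 x0).mpr (Or.inr rfl))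
      have h2 : 0 < S.card := Finset.card_pos.mpr ⟨x0, h1⟩
      omega
    | succ N ih =>
      intro S hcard hsub hdown
      by_cases hSS : S \ S0 = ∅
      · have h1 : S = S0 := Finset.Subset.antisymm (Finset.sdiff_eq_empty_iff_subset.mp hSS) hsub
        rw [h1]
        exact base H hG F x0 hx0 S0 (fun a ha => (hS0 a).mp ha) ((hS0 x0).mpr (Or.inr rfl))
      · obtain ⟨a0, ha0, hmax⟩ := Finset.exists_max_image (S \ S0) (fun a => (F a).natDegree)
          (Finset.nonempty_iff_ne_empty.mpr hSS)
        rw [Finset.mem_sdiff] at ha0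
        obtain ⟨ha0S, ha0S0⟩ := ha0
        have ha0' : (F a0).natDegree ≠ 0 ∧ a0 ≠ x0 := by
          rw [hS0, not_or] at ha0S0
          exact ha0S0
        set S' := S.erase a0 with hS'
        have hins : insert a0 S' = S := Finset.insert_erase ha0S
        have hsub' : S0 ⊆ S' := by
          intro a ha
          rw [hS', Finset.mem_erase]
          refine ⟨?_, hsub ha⟩
          rintro rfl
          exact ha0S0 ha
        have hx0S' : x0 ∈ S' := hsub' ((hS0 x0).mpr (Or.inr rfl))
        have hle : ∀ h ∈ S', (F h).natDegree ≤ (F a0).natDegree := by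
          intro h hh
          by_cases hh0 : h ∈ S0
          · rcases (hS0 h).mp hh0 with h0 | h0
            · omega
            · rw [h0, hx0, natDegree_X]
              omega
          · exact hmax h (Finset.mem_sdiff.mpr ⟨(Finset.mem_erase.mp hh).2, hh0⟩)
        have hdown' : ∀ a ∈ S', a = x0 ∨ ∀ b, (F b).natDegree < (F a).natDegree → b ∈ S' := by
          intro a ha
          rcases hdown a (Finset.mem_erase.mp ha).2 with h0 | h0
          · exact Or.inl h0
          · refine Or.inr fun b hb => ?_
            rw [hS', Finset.mem_erase]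
            refine ⟨?_, h0 b hb⟩
            rintro rfl
            have := hle a ha
            omega
        have hlow : ∀ b, (F b).natDegree < (F a0).natDegree → b ∈ S' := by
          intro b hb
          rcases hdown a0 ha0S with h0 | h0
          · exact (ha0'.2 h0).elim
          · rw [hS', Finset.mem_erase]
            refine ⟨?_, h0 b hb⟩
            rintro rfl
            exact lt_irrefl _ hb
        have hcard' : S'.card ≤ N := by
          have : S'.card = S.card - 1 := Finset.card_erase_of_mem ha0S
          omega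
        have hXG := ih S' hcard' hsub' hdown'
        -- low degree operations
        have hderlow : ∀ a j, 1 ≤ j → (F a).natDegree ≠ 0 →
            (F (der a j)).natDegree < (F a).natDegree := by
          intro a j hj ha
          rw [hder]
          have := natDegree_hasseDeriv_le (F a) j
          omega
        have hderS : ∀ a ∈ S', ∀ j, der a j ∈ S' := by
          intro a ha j
          rcases Nat.eq_zero_or_pos j with hj | hj
          · rw [hj, hder0]
            exact ha
          · by_cases h0 : (F a).natDegree = 0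
            · apply hsub'
              rw [hS0]
              left
              rw [hder]
              have := natDegree_hasseDeriv_le (F a) j
              omega
            · rcases hdown' a ha with h1 | h1
              · apply hsub'
                rw [hS0]
                left
                have := hderlow a j hj h0
                rw [h1, hx0, natDegree_X] at this
                rw [h1]
                omega
              · exact h1 _ (hderlow a j hj h0)
        have helS : ∀ a ∈ S', el a ∈ S' := by
          intro a ha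
          have h2 := eraseLead_natDegree_le (F a)
          by_cases h0 : (F a).natDegree = 0
          · apply hsub'
            rw [hS0]
            left
            rw [hel]
            omega
          · rcases hdown' a ha with h1 | h1
            · apply hsub'
              rw [hS0]
              left
              rw [hel]
              rw [h1, hx0, natDegree_X] at h2
              rw [h1, hx0]
              omega
            · apply h1
              rw [hel]
              omega
        have hremS : ∀ h ∈ S', rem' a0 h ∈ S' := by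
          intro h hh
          by_cases hc : F h ≠ 0 ∧ (F h).natDegree ≤ (F a0).natDegree
          · have h3 : rem' a0 h = rem a0 h := if_pos hc
            rw [h3]
            obtain ⟨_, _, _, h4⟩ := hrem a0 h hc.2 hc.1
            by_cases h5 : F (rem a0 h) = 0
            · apply hsub'
              rw [hS0, h5]
              left
              exact natDegree_zero
            · apply hlow
              exact lt_of_lt_of_le (natDegree_lt_natDegree h5 h4) hc.2
          · have h3 : rem' a0 h = x0 := if_neg hc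
            rw [h3]
            exact hx0S'
        have hder1 : ∀ j, 1 ≤ j → der a0 j ∈ S' := fun j hj => hlow _ (hderlow a0 j hj ha0'.1)
        have := hA ι O k H n m D F der el rem' x0 S' a0 hchar hdeg hx0 hx0S' hder0 hder hel hrem'
          hderS helS hremS hder1 hle (Finset.notMem_erase a0 S) hXG
        rwa [hins] at this
  have hall : XG O k H (PtS O k H F Finset.univ) :=
    main _ Finset.univ le_rfl (Finset.subset_univ _) fun a _ => Or.inr fun b _ => Finset.mem_univ b
  -- the second part
  obtain ⟨hXc, hXi, hXu, hXr, hXp, hXg, -⟩ := hX ι O k H n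
  let s' : Type := Fin m ⊕ (Fin m ⊕ Fin 1)
  let W1 : ∀ i, (Fin n → O i) → Set (s' → ℕ × k i) := fun i x =>
    {z | (fun j => z (Sum.inr (Sum.inl j))) ∈ PtS O k H F Finset.univ i x}
  let W2 : ∀ i, (Fin n → O i) → Set (s' → ℕ × k i) := fun i _ =>
    {z | (fun j => (z j).2) ∈ {κ : s' → k i | κ (Sum.inr (Sum.inr 0)) ≠ 0}}
  let W3 : Fin m → ∀ i, (Fin n → O i) → Set (s' → ℕ × k i) := fun a i _ =>
    {z | NoCancel (fun j : Fin (D + 1) => mulp (z (Sum.inr (Sum.inl (der a j))))
      (z (Sum.inr (Sum.inr 0))) j) (z (Sum.inl a))}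
  have hW1 : XG O k H W1 := hXr (Fin m) s' (fun j => Sum.inr (Sum.inl j)) _ hall
  have hW2 : XG O k H W2 := hXg s' _
    ((hG ι k).2.2.2.2.2.1 s' (fun i => {κ : s' → k i | κ (Sum.inr (Sum.inr 0)) ≠ 0}))
  have hW3 : ∀ a, XG O k H (W3 a) := by
    intro a
    have h1 := (hR ι k D).1
    let f : Fin (D + 1) ⊕ Fin 2 → s' := Sum.elim (fun j => Sum.inr (Sum.inl (der a j)))
      ![Sum.inr (Sum.inr 0), Sum.inl a]
    have h2 := (hG ι k).2.2.2.1 _ s' f _ h1
    exact hXg s' _ h2
  have hW3' := hXi s' (Fin m) W3 hW3
  have hW := hXi s' (Fin 3) (fun j => if j = 0 then W1 else if j = 1 then W2 else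
    fun i x => ⋂ a, W3 a i x) (by
      intro j
      fin_cases j
      · exact hW1
      · exact hW2
      · exact hW3')
  have hV := hXp (Fin m) (Fin m ⊕ Fin 1) _ hW
  have hU := hXu (Fin m) (Fin 2) (fun j => if j = 0 then PtS O k H F Finset.univ else
    fun i x => {ρ : Fin m → ℕ × k i | ∃ τ : Fin m ⊕ Fin 1 → ℕ × k i, Sum.elim ρ τ ∈
      (⋂ j : Fin 3, (if j = 0 then W1 else if j = 1 then W2 else fun i x => ⋂ a, W3 a i x) i x)})
    (by
      intro j
      fin_cases j
      · exact hall
      · exact hV)
  convert hU using 3 with i x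
  have hac : ∀ y : O i, (H i).ac y = 0 ↔ y = 0 := (hS (O i) (k i) (H i)).2.1
  ext τ
  simp only [Set.mem_iUnion, Fin.exists_fin_two, if_true, Set.mem_ofPred_eq, Set.mem_iInter,
    Fin.forall_fin_succ]
  constructor
  · rintro ⟨t, ht⟩
    by_cases hroot : ∀ a, ev x (F a) ≠ 0 → (ev x (F a)).eval t ≠ 0
    · right
      obtain ⟨l, b, -, -, ⟨a1, -, ha1, hb1⟩, htb, -, hnc⟩ := hN (O i) (k i) (H i) (Fin m) Set.univ
        (fun a => ev x (F a)) der x0 D Set.finite_univ
        (fun a _ j => ⟨Set.mem_univ _, by simp only [hder, ev_hasse]⟩) (Set.mem_univ _)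
        (by simp [hx0, ev]) (fun a _ => (ev_natDegree x (F a)).trans (hdeg a)) (hchar i) t
        (fun a _ => hroot a)
      refine ⟨Sum.elim (fun a => (H i).rv ((ev x (F a)).eval b)) (fun _ => (H i).rv (t - b)), ?_⟩
      refine ⟨?_, ?_, ?_⟩
      · exact ⟨b, ⟨a1, Finset.mem_univ _, ha1, hb1⟩, fun a => by simp⟩
      · change ((H i).rv (t - b)).2 ≠ 0
        exact fun h0 => htb (sub_eq_zero.mp ((hac _).mp h0))
      · simp only [Fin.succ_zero_eq_one, IsEmpty.forall_iff, and_true]
        refine Set.mem_iInter.mpr fun a => ?_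
        have h1 := hnc a (Set.mem_univ _)
        change NoCancel (fun j : Fin (D + 1) => mulp ((H i).rv ((ev x (F (der a j))).eval b))
          ((H i).rv (t - b)) j) (τ a)
        rw [ht a]
        exact h1
    · left
      push Not at hroot
      obtain ⟨a, ha, h0⟩ := hroot
      exact ⟨t, ⟨a, Finset.mem_univ _, ha, h0⟩, fun a => by simp [ht a]⟩
  · rintro (h | ⟨z, h1, h2, h3, -⟩)
    · obtain ⟨b, -, h⟩ := h
      exact ⟨b, fun a => by simpa using h a⟩
    · obtain ⟨b, -, hb⟩ := h1
      obtain ⟨h, hh, hrv⟩ := (hS (O i) (k i) (H i)).2.2.2.2.1 (z (Sum.inr 0)) h2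
      refine ⟨b + h, fun a => ?_⟩
      symm
      apply rv_eval_add (H i) hS (ev x (F a)) ((ev_natDegree x (F a)).trans (hdeg a)) b hh
      have h4 : Sum.elim τ z ∈ W3 a i x := by
        have := h3
        simp only [Fin.succ_zero_eq_one] at this
        exact Set.mem_iInter.mp this a
      have h5 : NoCancel (fun j : Fin (D + 1) => mulp (z (Sum.inl (der a j)))
          (z (Sum.inr 0)) j) (τ a) := h4
      convert h5 using 3 with j
      · have := hb (der a j)
        simp only [Finset.mem_univ, if_true] at this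
        have h6 : z (Sum.inl (der a j)) = (H i).rv ((ev x (F (der a j))).eval b) := this
        rw [h6, hder, ev_hasse]

end Pool.Agent.T2h77U
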