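import Pool.Agent.T2h77U.Goo

/-! The relations of the elimination are good. -/

namespace Pool.Agent.T2h77U

section aff
variable {s : Type} [Fintype s]

/-- affine forms -/
def Aff (f : (s → ℕ) → ℕ) : Prop := ∃ (a : s → ℕ) (c : ℕ), ∀ γ, f γ = ∑ j, a j * γ j + c

lemma Aff.coord (j : s) : Aff (fun γ : s → ℕ => γ j) := by
  classical
  refine ⟨Pi.single j 1, 0, fun γ => ?_⟩
  simp [Pi.single_apply]

lemma Aff.const (c : ℕ) : Aff (fun _ : s → ℕ => c) := ⟨0, c, fun γ => by simp⟩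

lemma Aff.add {f g : (s → ℕ) → ℕ} (hf : Aff f) (hg : Aff g) : Aff (fun γ => f γ + g γ) := by
  obtain ⟨a, c, h⟩ := hf
  obtain ⟨b, d, h'⟩ := hg
  refine ⟨a + b, c + d, fun γ => ?_⟩
  beta_reduce
  rw [h, h']
  simp only [Pi.add_apply, add_mul, Finset.sum_add_distrib]
  ring

lemma Aff.mul (n : ℕ) {f : (s → ℕ) → ℕ} (hf : Aff f) : Aff (fun γ => n * f γ) := by
  obtain ⟨a, c, h⟩ := hf
  refine ⟨fun j => n * a j, n * c, fun γ => ?_⟩
  beta_reduce
  rw [h, mul_add, Finset.mul_sum]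
  simp only [mul_assoc]

lemma Aff.semi {f g : (s → ℕ) → ℕ} (hf : Aff f) (hg : Aff g) :
    IsSemilinearSet {γ | f γ ≤ g γ} := by
  obtain ⟨a, c, h⟩ := hf
  obtain ⟨b, d, h'⟩ := hg
  refine (congrArg IsSemilinearSet ?_).mp (semi_le a b c d)
  ext γ
  simp only [Set.mem_ofPred_eq]
  rw [h, h']

end aff

lemma good_of {ι : Type} {k : ι → Type} {s : Type} [Fintype s] (T : Type) [Finite T]
    (f g : T → (s → ℕ) → ℕ) (hf : ∀ t, Aff (f t)) (hg : ∀ t, Aff (g t)) (R : Rel k s)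
    (h : ∀ i (ρ ρ' : s → ℕ × k i), (∀ j, (ρ j).2 = (ρ' j).2) →
      (∀ t, f t (fun j => (ρ j).1) ≤ g t (fun j => (ρ j).1) ↔
        f t (fun j => (ρ' j).1) ≤ g t (fun j => (ρ' j).1)) → ρ ∈ R i → ρ' ∈ R i) : Good k R := by
  refine ⟨Set.range fun t => {γ | f t γ ≤ g t γ}, Set.finite_range _, ?_, ?_⟩
  · rintro _ ⟨t, rfl⟩
    exact (hf t).semi (hg t)
  · intro i ρ ρ' h1 h2
    have h3 : ∀ t, f t (fun j => (ρ j).1) ≤ g t (fun j => (ρ j).1) ↔
        f t (fun j => (ρ' j).1) ≤ g t (fun j => (ρ' j).1) := fun t => h2 _ ⟨t, rfl⟩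
    exact ⟨h i ρ ρ' h1 h3, h i ρ' ρ (fun j => (h1 j).symm) fun t => (h3 t).symm⟩

theorem rel : S_REL := by
  classical
  intro ι k _ D
  refine ⟨?_, ?_, ?_, ?_⟩
  · -- no cancellation
    apply good_of (Fin (D + 1) ⊕ (Fin (D + 1) ⊕ Unit))
      (Sum.elim (fun j γ => γ (Sum.inl j) + j * γ (Sum.inr 0))
        (Sum.elim (fun _ γ => γ (Sum.inr 1)) (fun _ γ => γ (Sum.inr 1))))
      (Sum.elim (fun _ γ => γ (Sum.inr 1))
        (Sum.elim (fun j γ => γ (Sum.inl j) + j * γ (Sum.inr 0)) (fun _ _ => 0)))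
    · rintro (j | j | j)
      · exact (Aff.coord _).add ((Aff.coord _).mul _)
      · exact Aff.coord _
      · exact Aff.coord _
    · rintro (j | j | j)
      · exact Aff.coord _
      · exact (Aff.coord _).add ((Aff.coord _).mul _)
      · exact Aff.const _
    intro i x x' h1 h2 hx
    simp only [Set.mem_ofPred_eq] at hx ⊢
    have ha : ∀ j : Fin (D + 1), (x (Sum.inl j)).1 + j * (x (Sum.inr 0)).1 ≤ (x (Sum.inr 1)).1 ↔
        (x' (Sum.inl j)).1 + j * (x' (Sum.inr 0)).1 ≤ (x' (Sum.inr 1)).1 := fun j =>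
      h2 (Sum.inl j)
    have hb : ∀ j : Fin (D + 1), (x (Sum.inr 1)).1 ≤ (x (Sum.inl j)).1 + j * (x (Sum.inr 0)).1 ↔
        (x' (Sum.inr 1)).1 ≤ (x' (Sum.inl j)).1 + j * (x' (Sum.inr 0)).1 := fun j =>
      h2 (Sum.inr (Sum.inl j))
    have hc : (x (Sum.inr 1)).1 ≤ 0 ↔ (x' (Sum.inr 1)).1 ≤ 0 := h2 (Sum.inr (Sum.inr ()))
    have hz : ∀ j : Fin (D + 1), (mulp (x (Sum.inl j)) (x (Sum.inr 0)) j).2 =
        (mulp (x' (Sum.inl j)) (x' (Sum.inr 0)) j).2 := by
      intro j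
      unfold mulp
      rw [h1, h1]
    rcases hx with ⟨k1, k2⟩ | ⟨M, k1, k2, k3⟩
    · left
      refine ⟨fun j => by rw [← hz]; exact k1 j, ?_⟩
      rw [Prod.ext_iff] at k2 ⊢
      refine ⟨?_, by rw [← h1]; exact k2.2⟩
      have : (x (Sum.inr 1)).1 = 0 := k2.1
      show (x' (Sum.inr 1)).1 = 0
      omega
    · right
      have hM : M = (x (Sum.inr 1)).1 := by rw [k3]
      have hL : Lev (fun j : Fin (D + 1) => mulp (x' (Sum.inl j)) (x' (Sum.inr 0)) j)
          (x' (Sum.inr 1)).1 =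
          Lev (fun j : Fin (D + 1) => mulp (x (Sum.inl j)) (x (Sum.inr 0)) j) M := by
        unfold Lev
        refine Finset.sum_congr rfl fun j _ => ?_
        rw [← hz]
        have h3 : (mulp (x' (Sum.inl j)) (x' (Sum.inr 0)) j).1 = (x' (Sum.inr 1)).1 ↔
            (mulp (x (Sum.inl j)) (x (Sum.inr 0)) j).1 = M := by
          rw [hM]
          unfold mulp
          have := ha j
          have := hb j
          simp only
          omega
        by_cases h4 : (mulp (x (Sum.inl j)) (x (Sum.inr 0)) j).1 = M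
        · rw [if_pos h4, if_pos (h3.mpr h4)]
        · rw [if_neg h4, if_neg fun h5 => h4 (h3.mp h5)]
      refine ⟨(x' (Sum.inr 1)).1, fun j hj => ?_, ?_, ?_⟩
      · rw [← hz] at hj
        have h5 := k1 j hj
        rw [hM] at h5
        exact (hb j).mp h5
      · rw [hL]; exact k2
      · rw [hL]
        refine Prod.ext rfl ?_
        show (x' (Sum.inr 1)).2 = _
        rw [← h1, k3]
  · -- cancellation
    apply good_of (Fin (D + 1) × Fin (D + 1))
      (fun t γ => γ (Sum.inl t.1) + t.1 * γ (Sum.inr 0))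
      (fun t γ => γ (Sum.inl t.2) + t.2 * γ (Sum.inr 0))
      (fun t => (Aff.coord _).add ((Aff.coord _).mul _))
      (fun t => (Aff.coord _).add ((Aff.coord _).mul _))
    intro i x x' h1 h2 hx
    simp only [Set.mem_ofPred_eq] at hx ⊢
    have ha : ∀ j l : Fin (D + 1), (mulp (x (Sum.inl j)) (x (Sum.inr 0)) j).1 ≤
        (mulp (x (Sum.inl l)) (x (Sum.inr 0)) l).1 ↔
        (mulp (x' (Sum.inl j)) (x' (Sum.inr 0)) j).1 ≤
        (mulp (x' (Sum.inl l)) (x' (Sum.inr 0)) l).1 := fun j l => h2 (j, l)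
    have hz : ∀ j : Fin (D + 1), (mulp (x (Sum.inl j)) (x (Sum.inr 0)) j).2 =
        (mulp (x' (Sum.inl j)) (x' (Sum.inr 0)) j).2 := by
      intro j
      unfold mulp
      rw [h1, h1]
    obtain ⟨M, k1, ⟨j0, k2, k3⟩, k4⟩ := hx
    refine ⟨(mulp (x' (Sum.inl j0)) (x' (Sum.inr 0)) j0).1, fun j hj => ?_,
      ⟨j0, by rw [← hz]; exact k2, rfl⟩, ?_⟩
    · rw [← hz] at hj
      have h5 := k1 j hj
      rw [← k3] at h5
      exact (ha j0 j).mp h5
    · rw [← k4]
      unfold Lev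
      refine Finset.sum_congr rfl fun j _ => ?_
      rw [← hz]
      have h3 : (mulp (x' (Sum.inl j)) (x' (Sum.inr 0)) j).1 =
          (mulp (x' (Sum.inl j0)) (x' (Sum.inr 0)) j0).1 ↔
          (mulp (x (Sum.inl j)) (x (Sum.inr 0)) j).1 = M := by
        rw [← k3]
        have := ha j j0
        have := ha j0 j
        simp only at *
        omega
      by_cases h4 : (mulp (x (Sum.inl j)) (x (Sum.inr 0)) j).1 = M
      · rw [if_pos h4, if_pos (h3.mpr h4)]
      · rw [if_neg h4, if_neg fun h5 => h4 (h3.mp h5)]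
  · intro N
    apply good_of Bool
      (fun t γ => if t then N * γ 0 + γ 1 else γ 2)
      (fun t γ => if t then γ 2 else N * γ 0 + γ 1)
    · rintro (_ | _)
      · exact Aff.coord _
      · exact ((Aff.coord _).mul _).add (Aff.coord _)
    · rintro (_ | _)
      · exact ((Aff.coord _).mul _).add (Aff.coord _)
      · exact Aff.coord _
    intro i x x' h1 h2 hx
    simp only [Set.mem_ofPred_eq] at hx ⊢
    have ha := h2 true
    have hb := h2 false
    simp only [if_true, Bool.false_eq_true, if_false] at ha hb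
    refine ⟨?_, by rw [← h1, ← h1, ← h1]; exact hx.2⟩
    have := hx.1
    omega
  · intro m der S
    apply good_of ((Fin m × Fin (D + 1)) ⊕ ((Fin m × Fin (D + 1)) ⊕ Unit))
      (Sum.elim (fun t γ => γ (Sum.inl t.1))
        (Sum.elim (fun t γ => γ (Sum.inl (der t.1 t.2)) + t.2 * γ (Sum.inr 0) + 1)
          (fun _ γ => γ (Sum.inr 0))))
      (Sum.elim (fun t γ => γ (Sum.inl (der t.1 t.2)) + t.2 * γ (Sum.inr 0))
        (Sum.elim (fun t γ => γ (Sum.inl t.1) + t.2) (fun _ _ => 0)))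
    · rintro (j | j | j)
      · exact Aff.coord _
      · exact ((Aff.coord _).add ((Aff.coord _).mul _)).add (Aff.const _)
      · exact Aff.coord _
    · rintro (j | j | j)
      · exact (Aff.coord _).add ((Aff.coord _).mul _)
      · exact (Aff.coord _).add (Aff.const _)
      · exact Aff.const _
    intro i x x' h1 h2 hx
    simp only [Set.mem_ofPred_eq] at hx ⊢
    have ha : ∀ (a : Fin m) (j : ℕ), j ≤ D →
        ((x (Sum.inl a)).1 ≤ (x (Sum.inl (der a j))).1 + j * (x (Sum.inr 0)).1 ↔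
        (x' (Sum.inl a)).1 ≤ (x' (Sum.inl (der a j))).1 + j * (x' (Sum.inr 0)).1) := fun a j hj =>
      h2 (Sum.inl (a, ⟨j, by omega⟩))
    have hb : ∀ (a : Fin m) (j : ℕ), j ≤ D →
        ((x (Sum.inl (der a j))).1 + j * (x (Sum.inr 0)).1 + 1 ≤ (x (Sum.inl a)).1 + j ↔
        (x' (Sum.inl (der a j))).1 + j * (x' (Sum.inr 0)).1 + 1 ≤ (x' (Sum.inl a)).1 + j) :=
      fun a j hj => h2 (Sum.inr (Sum.inl (a, ⟨j, by omega⟩)))
    have hc : (x (Sum.inr 0)).1 ≤ 0 ↔ (x' (Sum.inr 0)).1 ≤ 0 := h2 (Sum.inr (Sum.inr ()))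
    obtain ⟨k1, k2⟩ := hx
    refine ⟨fun a haS j hj1 hjD hne => ?_, ?_⟩
    · rw [← h1] at hne
      exact (ha a j hjD).mp (k1 a haS j hj1 hjD hne)
    · by_cases h0 : (x' (Sum.inr 0)).1 = 0
      · exact Or.inl h0
      · right
        have h0' : (x (Sum.inr 0)).1 ≠ 0 := fun h => h0 (by omega)
        rcases k2 with k2 | ⟨a, haS, j, hj1, hjD, hne, hlt⟩
        · exact absurd k2 h0'
        · refine ⟨a, haS, j, hj1, hjD, by rw [← h1]; exact hne, ?_⟩
          have h3 := hb a j hjD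
          obtain ⟨l, hl⟩ : ∃ l, (x (Sum.inr 0)).1 = l + 1 := ⟨_, (Nat.succ_pred_eq_of_ne_zero h0').symm⟩
          obtain ⟨l', hl'⟩ : ∃ l, (x' (Sum.inr 0)).1 = l + 1 :=
            ⟨_, (Nat.succ_pred_eq_of_ne_zero h0).symm⟩
          rw [hl, hl'] at h3
          simp only [mul_add, mul_one] at h3
          have h4 : (x (Sum.inl (der a j))).1 + j * ((x (Sum.inr 0)).1 - 1) < (x (Sum.inl a)).1 :=
            hlt
          rw [hl, Nat.add_sub_cancel] at h4
          show (x' (Sum.inl (der a j))).1 + j * ((x' (Sum.inr 0)).1 - 1) < (x' (Sum.inl a)).1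
          rw [hl', Nat.add_sub_cancel]
          omega

end Pool.Agent.T2h77U
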