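import Pool.Agent.T2h77U.Stm2
import Pool.Agent.H260TZ.Cnt

/-! SM1: number of solutions away from the branch points (helper60). -/

set_option linter.all false

namespace Pool.Agent.T2h77U

open Pool.Agent.H260TZ

namespace SM1

variable {R : Type} [CommRing R] [IsDomain R] (D : DV R)

lemma red_mul (n : ℕ) (x y : R) : D.red n (x * y) = D.red n x * D.red n y := rfl

lemma red_pow (n : ℕ) (x : R) : D.red n (x ^ 2) = D.red n x ^ 2 := by
  rw [sq, sq, red_mul]

lemma unit_of_near {x y : R} (hx : IsUnit x) (h : D.t ∣ y - x) : IsUnit y := by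
  rw [← D.not_dvd_iff] at hx ⊢
  intro h2
  exact hx ((dvd_sub_right h2).1 h)

/-- lifting of the square roots -/
lemma hensel {δ : R} (h2 : IsUnit (2 : R)) (hδ : IsUnit δ) (w0 : D.Q 1)
    (hw : w0 ^ 2 = D.red 1 δ) (s : ℕ) : ∃ ρ : R, D.t ^ (s + 1) ∣ ρ ^ 2 - δ ∧ D.red 1 ρ = w0 := by
  induction s with
  | zero =>
    refine ⟨D.lift w0, ?_, D.red_lift w0⟩
    rw [zero_add, ← D.red_eq, red_pow, D.red_lift, hw]
  | succ s ih =>
    obtain ⟨ρ, ⟨c, hc⟩, hρ⟩ := ih
    have h3 : IsUnit (ρ ^ 2) := by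
      refine unit_of_near D hδ ?_
      rw [hc]
      exact ⟨D.t ^ s * c, by ring⟩
    have h4 : IsUnit ρ := by
      rw [sq] at h3
      exact isUnit_of_mul_isUnit_left h3
    obtain ⟨u, hu⟩ := h2.mul h4
    have hu' : 2 * ρ * (↑u⁻¹ : R) = 1 := by
      rw [← hu]
      exact Units.mul_inv u
    refine ⟨ρ + D.t ^ (s + 1) * (-c * (↑u⁻¹ : R)), ?_, ?_⟩
    · refine ⟨D.t ^ s * (c * (↑u⁻¹ : R)) ^ 2, ?_⟩
      linear_combination hc - (D.t ^ (s + 1) * c) * hu'
    · rw [map_add, hρ]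
      have h5 : D.red 1 (D.t ^ (s + 1) * (-c * (↑u⁻¹ : R))) = 0 := by
        rw [D.red_eq_zero, pow_one]
        exact ⟨D.t ^ s * (-c * (↑u⁻¹ : R)), by ring⟩
      rw [h5, add_zero]

end SM1

open SM1

theorem sm1 : S_SM1 := by
  intro R _ _ D a b e v s h2 hs hl hl'
  classical
  obtain ⟨s, rfl⟩ : ∃ s', s = s' + 1 := ⟨s - 1, by omega⟩
  obtain ⟨l, hle⟩ : ∃ l, l = e.1 - a * e.2 := ⟨_, rfl⟩
  obtain ⟨l', hle'⟩ : ∃ l', l' = e.1 - b * e.2 := ⟨_, rfl⟩
  rw [← hle] at hl ⊢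
  rw [← hle'] at hl' ⊢
  obtain ⟨u, hu⟩ := hl'
  have hu' : l' * (↑u⁻¹ : R) = 1 := by
    rw [← hu]
    exact Units.mul_inv u
  have hδ : IsUnit (l * l') := hl.mul ⟨u, hu⟩
  have hex : ∀ w0 : {w : D.Q 1 // w ^ 2 = D.red 1 (l * l')}, ∃ ρ : R,
      D.t ^ (s + 1) ∣ ρ ^ 2 - l * l' ∧ D.red 1 ρ = w0.1 := fun w0 =>
    hensel D h2 hδ w0.1 w0.2 s
  choose ρ hρ1 hρ2 using hex
  have hts : D.t ∣ D.t ^ (s + 1) := dvd_pow_self _ (by omega)
  have hlam : ∀ w : R, lam a b e (1, w) = l' * w ^ 2 - l := by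
    intro w
    unfold lam
    rw [hle, hle']
    ring
  have hcond : ∀ w : R, D.t ^ (s + 1) ∣ lam a b e (1, w) ↔ D.t ^ (s + 1) ∣ (l' * w) ^ 2 - l * l' := by
    intro w
    rw [hlam]
    have e1 : (l' * w) ^ 2 - l * l' = (l' * w ^ 2 - l) * l' := by ring
    rw [e1]
    have hl'u : IsUnit l' := ⟨u, hu⟩
    exact hl'u.dvd_mul_right.symm
  have h1 : Nat.card {x : BQ D // DV.ex x.1 x.2.1 = v + (s + 1) ∧
      D.t ^ (s + 1) ∣ lam a b e (pform D x)} =
      Nat.card (Σ w : {w : D.Q 1 // w ^ 2 = D.red 1 (l * l')},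
        {z : D.Q (v + (s + 1)) // D.t ^ (s + 1) ∣ D.lift z - (↑u⁻¹ : R) * ρ w}) := by
    symm
    have hmap : ∀ (w : {w : D.Q 1 // w ^ 2 = D.red 1 (l * l')}) (z : D.Q (v + (s + 1))),
        D.t ^ (s + 1) ∣ D.lift z - (↑u⁻¹ : R) * ρ w → D.t ^ (s + 1) ∣ l' * D.lift z - ρ w := by
      intro w z h
      have e1 : l' * D.lift z - ρ w = l' * (D.lift z - (↑u⁻¹ : R) * ρ w) := by
        linear_combination (ρ w) * hu'
      rw [e1]
      exact h.mul_left _
    refine Nat.card_eq_of_bijective (fun y => (⟨(true, ⟨v + (s + 1), y.2.1⟩), ?_, ?_⟩ :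
      {x : BQ D // DV.ex x.1 x.2.1 = v + (s + 1) ∧ D.t ^ (s + 1) ∣ lam a b e (pform D x)})) ⟨?_, ?_⟩
    · unfold DV.ex
      simp
    · change D.t ^ (s + 1) ∣ lam a b e (1, D.lift y.2.1)
      rw [hcond]
      have h3 := hmap y.1 y.2.1 y.2.2
      have e1 : (l' * D.lift y.2.1) ^ 2 - l * l' = (l' * D.lift y.2.1 - ρ y.1) *
          (l' * D.lift y.2.1 + ρ y.1) + (ρ y.1 ^ 2 - l * l') := by ring
      rw [e1]
      exact dvd_add (h3.mul_right _) (hρ1 y.1)
    · rintro ⟨w, ⟨z, hz⟩⟩ ⟨w', ⟨z', hz'⟩⟩ h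
      have h3 := congrArg Subtype.val h
      simp only [Prod.mk.injEq, Sigma.mk.injEq, heq_eq_eq, true_and] at h3
      subst h3
      have h4 := dvd_sub (hmap w' z hz') (hmap w z hz)
      have e1 : l' * D.lift z - ρ w' - (l' * D.lift z - ρ w) = ρ w - ρ w' := by ring
      rw [e1] at h4
      have h5 : w = w' := by
        apply Subtype.ext
        rw [← hρ2 w, ← hρ2 w', D.red_eq, pow_one]
        exact hts.trans h4
      subst h5
      rfl
    · rintro ⟨⟨b', n, z⟩, h3, h4⟩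
      cases b'
      · exfalso
        have e1 : pform D (false, ⟨n, z⟩) = (D.t * D.lift z, 1) := rfl
        rw [e1] at h4
        have h5 := hts.trans h4
        have e2 : lam a b e (D.t * D.lift z, 1) = l' - D.t * (l * D.t * D.lift z ^ 2) := by
          unfold lam
          rw [hle, hle']
          ring
        rw [e2] at h5
        have h6 := (dvd_sub_left (Dvd.intro _ rfl)).1 h5
        exact D.not_unit_of_dvd h6 ⟨u, hu⟩
      · have hn : n = v + (s + 1) := by
          unfold DV.ex at h3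
          simpa using h3
        subst hn
        have e1 : pform D (true, ⟨v + (s + 1), z⟩) = (1, D.lift z) := rfl
        rw [e1, hcond] at h4
        have hw : (D.red 1 (l' * D.lift z)) ^ 2 = D.red 1 (l * l') := by
          rw [← red_pow, D.red_eq, pow_one]
          exact hts.trans h4
        obtain ⟨w, hwd⟩ : ∃ w : {w : D.Q 1 // w ^ 2 = D.red 1 (l * l')},
          w = ⟨D.red 1 (l' * D.lift z), hw⟩ := ⟨_, rfl⟩
        have h5 : D.t ∣ l' * D.lift z - ρ w := by
          have h6 : D.red 1 (ρ w) = D.red 1 (l' * D.lift z) := by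
            rw [hρ2 w, hwd]
          rw [D.red_eq] at h6
          have h7 : D.t ∣ ρ w - l' * D.lift z := (dvd_pow_self D.t one_ne_zero).trans h6
          rw [← dvd_neg, neg_sub]
          exact h7
        have h6 : D.t ^ (s + 1) ∣ (l' * D.lift z - ρ w) * (l' * D.lift z + ρ w) := by
          have h7 := dvd_sub h4 (hρ1 w)
          have e2 : (l' * D.lift z) ^ 2 - l * l' - (ρ w ^ 2 - l * l') =
              (l' * D.lift z - ρ w) * (l' * D.lift z + ρ w) := by ring
          rwa [e2] at h7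
        have h7 : IsUnit (ρ w) := by
          have h8 : IsUnit (ρ w ^ 2) := unit_of_near D hδ (hts.trans (hρ1 w))
          rw [sq] at h8
          exact isUnit_of_mul_isUnit_left h8
        have h8 : IsUnit (l' * D.lift z + ρ w) := by
          refine unit_of_near D (h2.mul h7) ?_
          have e2 : l' * D.lift z + ρ w - 2 * ρ w = l' * D.lift z - ρ w := by ring
          rw [e2]
          exact h5
        have h9 := h8.dvd_mul_right.1 h6
        have h10 : D.t ^ (s + 1) ∣ D.lift z - (↑u⁻¹ : R) * ρ w := by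
          have e2 : D.lift z - (↑u⁻¹ : R) * ρ w = (↑u⁻¹ : R) * (l' * D.lift z - ρ w) := by
            linear_combination (-(D.lift z)) * hu'
          rw [e2]
          exact h9.mul_left _
        exact ⟨⟨w, ⟨z, h10⟩⟩, rfl⟩
  rw [h1, Nat.card_sigma]
  rw [Finset.sum_congr rfl fun w _ => D.card_near (n := v + (s + 1)) (j := s + 1) (by omega)
    ((↑u⁻¹ : R) * ρ w), Finset.sum_const, smul_eq_mul, Finset.card_univ, Nat.card_eq_fintype_card,
    Nat.add_sub_cancel, mul_comm]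

end Pool.Agent.T2h77U
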