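import Pool.Agent.T2h77U.Stm2
import Pool.Agent.H260TZ.Cnt

/-! SM2: number of solutions over a branch point (helper60). -/

set_option linter.all false

namespace Pool.Agent.T2h77U

open Pool.Agent.H260TZ

namespace SM2

variable {R : Type} [CommRing R] [IsDomain R] (D : DV R)

/-- counting pairs `(z, x)` where `x` is of a fixed type and `z` is determined modulo `t ^ s` -/
lemma count {j s : ℕ} (hs : s ≤ j) (P : D.Q j × BQ D → Prop) (b0 : Bool) (n0 : ℕ)
    (hP : ∀ z b n (w : D.Q n), P (z, (b, ⟨n, w⟩)) → b = b0 ∧ n = n0) (W : D.Q n0 → Prop)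
    (f : D.Q n0 → R) (hPW : ∀ z (w : D.Q n0), P (z, (b0, ⟨n0, w⟩)) ↔
      (W w ∧ D.t ^ s ∣ D.lift z - f w)) :
    Nat.card {x : D.Q j × BQ D // P x} = Nat.card {w : D.Q n0 // W w} * D.q ^ (j - s) := by
  classical
  have h1 : Nat.card {x : D.Q j × BQ D // P x} =
      Nat.card (Σ w : {w : D.Q n0 // W w}, {z : D.Q j // D.t ^ s ∣ D.lift z - f w.1}) := by
    symm
    refine Nat.card_eq_of_bijective (fun y => (⟨(y.2.1, (b0, ⟨n0, y.1.1⟩)),
      (hPW y.2.1 y.1.1).2 ⟨y.1.2, y.2.2⟩⟩ : {x : D.Q j × BQ D // P x})) ⟨?_, ?_⟩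
    · rintro ⟨⟨w, hw⟩, ⟨z, hz⟩⟩ ⟨⟨w', hw'⟩, ⟨z', hz'⟩⟩ h
      have h2 := congrArg Subtype.val h
      simp only [Prod.mk.injEq, Sigma.mk.injEq, heq_eq_eq, true_and] at h2
      obtain ⟨rfl, rfl⟩ := h2
      rfl
    · rintro ⟨⟨z, b, n, w⟩, h⟩
      obtain ⟨rfl, rfl⟩ := hP z b n w h
      obtain ⟨h2, h3⟩ := (hPW z w).1 h
      exact ⟨⟨⟨w, h2⟩, ⟨z, h3⟩⟩, rfl⟩
  rw [h1, Nat.card_sigma]
  rw [Finset.sum_congr rfl fun w _ => D.card_near hs (f w.1), Finset.sum_const, smul_eq_mul,
    Finset.card_univ, Nat.card_eq_fintype_card]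

lemma unit_of_near {x y : R} (hx : IsUnit x) (h : D.t ∣ y - x) : IsUnit y := by
  rw [← D.not_dvd_iff] at hx ⊢
  intro h2
  exact hx ((dvd_sub_right h2).1 (by rwa [← dvd_neg, neg_sub] at h ⊢) )

lemma prime_t {x y : R} (h : D.t ∣ x * y) : D.t ∣ x ∨ D.t ∣ y := by
  by_contra hc
  push Not at hc
  exact D.not_unit_of_dvd h ((D.not_dvd_iff.1 hc.1).mul (D.not_dvd_iff.1 hc.2))

/-- the inverse of `1 - m ^ 2` -/
lemma exists_inv {m : R} (hm : D.t ∣ m) : ∃ U : R, (1 - m ^ 2) * U = 1 := by
  have h1 : IsUnit (1 - m ^ 2) := by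
    rw [← D.not_dvd_iff]
    intro h
    have h2 : D.t ∣ m ^ 2 := hm.trans (dvd_pow_self m (by norm_num))
    have h3 := dvd_add h h2
    rw [sub_add_cancel] at h3
    exact D.not_dvd_one h3
  obtain ⟨u, hu⟩ := h1
  exact ⟨(↑u⁻¹ : R), by rw [← hu]; exact Units.mul_inv u⟩

end SM2

open SM2

theorem sm2 : S_SM2 := by
  intro R _ _ D a b z0 v s j hab hs hsj h0
  classical
  have hts : D.t ∣ D.t ^ s := dvd_pow_self _ (by omega)
  rcases prime_t D h0 with h | h
  · -- `t ∣ z0 + a`
    have hza : ∀ z, D.t ∣ z - z0 → D.t ∣ z + a := by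
      intro z hz
      have h1 := dvd_add hz h
      have e : z - z0 + (z0 + a) = z + a := by ring
      rwa [e] at h1
    have hzb : ∀ z, D.t ∣ z - z0 → ¬ D.t ∣ z + b := by
      intro z hz h1
      have h2 := dvd_sub (hza z hz) h1
      have e : z + a - (z + b) = a - b := by ring
      rw [e] at h2
      exact D.not_unit_of_dvd h2 hab
    have hU : ∀ m : R, ∃ U : R, D.t ∣ m → (1 - m ^ 2) * U = 1 := by
      intro m
      by_cases hm : D.t ∣ m
      · obtain ⟨U, hU⟩ := exists_inv D hm
        exact ⟨U, fun _ => hU⟩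
      · exact ⟨0, fun h => absurd h hm⟩
    choose U hU using hU
    have key := count D hsj (fun x : D.Q j × BQ D => D.t ∣ D.lift x.1 - z0 ∧
      DV.ex x.2.1 x.2.2.1 = v + s ∧ D.t ^ s ∣ lam a b (-(D.lift x.1), 1) (pform D x.2)) true (v + s)
      ?_ (fun w => D.t ^ 1 ∣ D.lift w - 0) (fun w => -(a - b * D.lift w ^ 2) * U (D.lift w)) ?_
    · rw [key, D.card_near (by omega)]
    · rintro z b' n w ⟨h1, h2, h3⟩
      cases b'
      · exfalso
        unfold lam pform at h3
        simp only [Bool.false_eq_true, if_false] at h3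
        have h4 := hts.trans h3
        have h5 : D.t ∣ (-(D.lift z) - a * 1) * (D.t * D.lift w) ^ 2 :=
          ⟨(-(D.lift z) - a * 1) * D.t * D.lift w ^ 2, by ring⟩
        have h6 := (dvd_sub_left h5).1 h4
        have e : (-(D.lift z) - b * 1) * 1 ^ 2 = -(D.lift z + b) := by ring
        rw [e, dvd_neg] at h6
        exact hzb _ h1 h6
      · refine ⟨rfl, ?_⟩
        unfold DV.ex at h2
        simpa using h2
    · intro z w
      unfold DV.ex lam pform
      simp only [if_true, sub_zero, pow_one]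
      have e1 : (-(D.lift z) - b * 1) * D.lift w ^ 2 - (-(D.lift z) - a * 1) * 1 ^ 2 =
          D.lift z * (1 - D.lift w ^ 2) + (a - b * D.lift w ^ 2) := by ring
      rw [e1]
      constructor
      · rintro ⟨h1, -, h3⟩
        have h4 := hts.trans h3
        have e2 : D.lift z * (1 - D.lift w ^ 2) + (a - b * D.lift w ^ 2) =
            (D.lift z + a) - (D.lift z + b) * D.lift w ^ 2 := by ring
        rw [e2] at h4
        have h5 := (dvd_sub_right (hza _ h1)).1 h4
        have h6 := (prime_t D h5).resolve_left (hzb _ h1)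
        rw [sq] at h6
        have h7 : D.t ∣ D.lift w := (prime_t D h6).elim id id
        refine ⟨h7, ?_⟩
        have e3 : D.lift z - -(a - b * D.lift w ^ 2) * U (D.lift w) =
            (D.lift z * (1 - D.lift w ^ 2) + (a - b * D.lift w ^ 2)) * U (D.lift w) := by
          linear_combination (-(D.lift z)) * hU _ h7
        rw [e3]
        exact h3.mul_right _
      · rintro ⟨h7, h8⟩
        have e3 : D.lift z * (1 - D.lift w ^ 2) + (a - b * D.lift w ^ 2) =
            (D.lift z - -(a - b * D.lift w ^ 2) * U (D.lift w)) * (1 - D.lift w ^ 2) := by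
          linear_combination (-(a - b * D.lift w ^ 2)) * hU _ h7
        refine ⟨?_, trivial, ?_⟩
        · obtain ⟨c, hc⟩ := h7
          have h9 : D.t ∣ -(a - b * D.lift w ^ 2) * U (D.lift w) + a := by
            refine ⟨(-(a - b * D.lift w ^ 2) * U (D.lift w) + b) * (c * D.lift w), ?_⟩
            have h10 := hU (D.lift w) ⟨c, hc⟩
            have e4 : D.t * ((-(a - b * D.lift w ^ 2) * U (D.lift w) + b) * (c * D.lift w)) =
                (-(a - b * D.lift w ^ 2) * U (D.lift w) + b) * D.lift w ^ 2 := by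
              rw [sq, hc]
              ring
            rw [e4]
            linear_combination (-(a - b * D.lift w ^ 2)) * h10
          have h11 := dvd_sub (dvd_add (hts.trans h8) h9) h
          have e5 : D.lift z - -(a - b * D.lift w ^ 2) * U (D.lift w) +
              (-(a - b * D.lift w ^ 2) * U (D.lift w) + a) - (z0 + a) = D.lift z - z0 := by ring
          rwa [e5] at h11
        · rw [e3]
          exact h8.mul_right _
  · -- `t ∣ z0 + b`
    have hzb : ∀ z, D.t ∣ z - z0 → D.t ∣ z + b := by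
      intro z hz
      have h1 := dvd_add hz h
      have e : z - z0 + (z0 + b) = z + b := by ring
      rwa [e] at h1
    have hza : ∀ z, D.t ∣ z - z0 → ¬ D.t ∣ z + a := by
      intro z hz h1
      have h2 := dvd_sub h1 (hzb z hz)
      have e : z + a - (z + b) = a - b := by ring
      rw [e] at h2
      exact D.not_unit_of_dvd h2 hab
    obtain ⟨n, hn⟩ : ∃ n, v + s = n + 1 := ⟨v + s - 1, by omega⟩
    have hU : ∀ w : D.Q n, ∃ U : R, (1 - (D.t * D.lift w) ^ 2) * U = 1 := fun w =>
      exists_inv D (Dvd.intro _ rfl)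
    choose U hU using hU
    have key := count D hsj (fun x : D.Q j × BQ D => D.t ∣ D.lift x.1 - z0 ∧
      DV.ex x.2.1 x.2.2.1 = v + s ∧ D.t ^ s ∣ lam a b (-(D.lift x.1), 1) (pform D x.2)) false n
      ?_ (fun w => True) (fun w => (a * (D.t * D.lift w) ^ 2 - b) * U w) ?_
    · rw [key, Nat.card_congr (Equiv.subtypeUnivEquiv fun _ => trivial), D.card n, hn]
      rfl
    · rintro z b' m w ⟨h1, h2, h3⟩
      cases b'
      · refine ⟨rfl, ?_⟩
        unfold DV.ex at h2
        simp only [Bool.false_eq_true, if_false] at h2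
        omega
      · exfalso
        unfold lam pform at h3
        simp only [if_true] at h3
        have h4 := hts.trans h3
        have e1 : (-(D.lift z) - b * 1) * D.lift w ^ 2 - (-(D.lift z) - a * 1) * 1 ^ 2 =
            (D.lift z + a) - (D.lift z + b) * D.lift w ^ 2 := by ring
        rw [e1] at h4
        exact hza _ h1 ((dvd_sub_left ((hzb _ h1).mul_right _)).1 h4)
    · intro z w
      unfold DV.ex lam pform
      simp only [Bool.false_eq_true, if_false, true_and]
      have e3 : (-(D.lift z) - b * 1) * 1 ^ 2 - (-(D.lift z) - a * 1) * (D.t * D.lift w) ^ 2 =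
          -((D.lift z - (a * (D.t * D.lift w) ^ 2 - b) * U w) * (1 - (D.t * D.lift w) ^ 2)) := by
        linear_combination (-(a * (D.t * D.lift w) ^ 2 - b)) * hU w
      constructor
      · rintro ⟨h1, -, h3⟩
        rw [e3, dvd_neg] at h3
        have e4 : D.lift z - (a * (D.t * D.lift w) ^ 2 - b) * U w =
            (D.lift z - (a * (D.t * D.lift w) ^ 2 - b) * U w) * (1 - (D.t * D.lift w) ^ 2) * U w := by
          linear_combination (-(D.lift z - (a * (D.t * D.lift w) ^ 2 - b) * U w)) * hU w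
        rw [e4]
        exact h3.mul_right _
      · intro h8
        refine ⟨?_, hn.symm, ?_⟩
        · have h9 : D.t ∣ (a * (D.t * D.lift w) ^ 2 - b) * U w + b := by
            refine ⟨((a * (D.t * D.lift w) ^ 2 - b) * U w + a) * (D.t * D.lift w ^ 2), ?_⟩
            linear_combination (a * (D.t * D.lift w) ^ 2 - b) * hU w
          have h11 := dvd_sub (dvd_add (hts.trans h8) h9) h
          have e5 : D.lift z - (a * (D.t * D.lift w) ^ 2 - b) * U w +
              ((a * (D.t * D.lift w) ^ 2 - b) * U w + b) - (z0 + b) = D.lift z - z0 := by ring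
          rwa [e5] at h11
        · rw [e3, dvd_neg]
          exact h8.mul_right _

end Pool.Agent.T2h77U
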