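import Pool.Agent.T2h77U.Stm2

/-! SMW: the sum over the primitive lattices modulo `q - 1`. -/

namespace Pool.Agent.T2h77U

open Polynomial Filter Topology Pool.Agent.H260TZ

namespace Smw

section general

lemma card_fib {α β : Type} (A : α → Prop) [Fintype {a // A a}] (B : α → β → Prop)
    (hB : ∀ a, A a → Finite {b // B a b}) :
    Nat.card {x : α × β // A x.1 ∧ B x.1 x.2} = ∑ a : {a // A a}, Nat.card {b // B a.1 b} := by
  have : ∀ a : {a // A a}, Finite {b // B a.1 b} := fun a => hB a.1 a.2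
  rw [← Nat.card_sigma]
  refine Nat.card_congr ⟨fun x => ⟨⟨x.1.1, x.2.1⟩, ⟨x.1.2, x.2.2⟩⟩,
    fun y => ⟨(y.1.1, y.2.1), y.1.2, y.2.2⟩, fun _ => rfl, fun _ => rfl⟩

lemma card_pi {β : Type} (C : Fin 4 → β → Prop) :
    Nat.card {f : Fin 4 → β // ∀ i, C i (f i)} = ∏ i, Nat.card {b // C i b} := by
  rw [← Nat.card_pi]
  exact Nat.card_congr (Equiv.subtypePiEquivPi)

lemma fin_pi {β : Type} (C : Fin 4 → β → Prop) (h : ∀ i, Finite {b // C i b}) :
    Finite {f : Fin 4 → β // ∀ i, C i (f i)} :=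
  Finite.of_equiv _ (Equiv.subtypePiEquivPi (p := fun i b => C i b)).symm

end general

variable {R : Type} [CommRing R] [IsDomain R] (D : DV R)

/-- primitive lattices of given exponent -/
noncomputable def eqE (J : ℕ) :
    (D.Q (J + 1) ⊕ D.Q J) ≃ {x : BQ D // DV.ex x.1 x.2.1 = J + 1} :=
  Equiv.ofBijective (Sum.elim (fun z => ⟨(true, ⟨J + 1, z⟩), rfl⟩)
    (fun z => ⟨(false, ⟨J, z⟩), rfl⟩)) (by
    constructor
    · rintro (z | z) (z' | z') h
      · have h1 := congrArg Subtype.val h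
        simp only [Sum.elim_inl, Prod.mk.injEq, true_and] at h1
        have h2 := eq_of_heq (Sigma.mk.inj h1).2
        rw [h2]
      · have h1 := congrArg Subtype.val h
        simp at h1
      · have h1 := congrArg Subtype.val h
        simp at h1
      · have h1 := congrArg Subtype.val h
        simp only [Sum.elim_inr, Prod.mk.injEq, true_and] at h1
        have h2 := eq_of_heq (Sigma.mk.inj h1).2
        rw [h2]
    · rintro ⟨⟨b, n, z⟩, h⟩
      cases b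
      · have h1 : n = J := by
          have : n + 1 = J + 1 := h
          omega
        subst h1
        exact ⟨Sum.inr z, rfl⟩
      · have h1 : n = J + 1 := h
        subst h1
        exact ⟨Sum.inl z, rfl⟩)

/-- primitive lattices of exponent zero -/
noncomputable def eqE0 : D.Q 0 ≃ {x : BQ D // DV.ex x.1 x.2.1 = 0} :=
  Equiv.ofBijective (fun z => ⟨(true, ⟨0, z⟩), rfl⟩) (by
    constructor
    · intro z z' h
      have h1 := congrArg Subtype.val h
      simp only [Prod.mk.injEq, true_and] at h1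
      exact eq_of_heq (Sigma.mk.inj h1).2
    · rintro ⟨⟨b, n, z⟩, h⟩
      cases b
      · exfalso
        have : n + 1 = 0 := h
        omega
      · have h1 : n = 0 := h
        subst h1
        exact ⟨z, rfl⟩)

instance finE (J : ℕ) : Finite {x : BQ D // DV.ex x.1 x.2.1 = J} := by
  cases J with
  | zero => exact Finite.of_equiv _ (eqE0 D)
  | succ J => exact Finite.of_equiv _ (eqE D J)

noncomputable instance ftE (J : ℕ) : Fintype {x : BQ D // DV.ex x.1 x.2.1 = J} :=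
  Fintype.ofFinite _

lemma card_E0 : Nat.card {x : BQ D // DV.ex x.1 x.2.1 = 0} = 1 := by
  rw [← Nat.card_congr (eqE0 D), D.card, pow_zero]

lemma card_E (J : ℕ) : Nat.card {x : BQ D // DV.ex x.1 x.2.1 = J + 1} =
    D.q ^ (J + 1) + D.q ^ J := by
  rw [← Nat.card_congr (eqE D J), Nat.card_sum, D.card, D.card]

lemma sum_E {M : Type} [AddCommMonoid M] (J : ℕ) (F : BQ D → M) :
    ∑ y : {y : BQ D // DV.ex y.1 y.2.1 = J + 1}, F y.1 =
      ∑ z : D.Q (J + 1), F (true, ⟨J + 1, z⟩) + ∑ z : D.Q J, F (false, ⟨J, z⟩) := by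
  rw [← (eqE D J).sum_comp, Fintype.sum_sum_type]
  rfl

lemma q_one : ((D.q : ℕ) : ZMod (D.q - 1)) = 1 := by
  have h1 : ((D.q - 1 + 1 : ℕ) : ZMod (D.q - 1)) = 1 := by
    rw [Nat.cast_add, ZMod.natCast_self, zero_add, Nat.cast_one]
  rwa [Nat.sub_add_cancel (by have := D.two_le; omega)] at h1

lemma q_pow_one (n : ℕ) : ((D.q ^ n : ℕ) : ZMod (D.q - 1)) = 1 := by
  rw [Nat.cast_pow, q_one, one_pow]

lemma card_uu (J : ℕ) : ((Nat.card {x : BQ D // DV.ex x.1 x.2.1 = J} : ℕ) : ZMod (D.q - 1)) =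
    ((uu2 J : ℤ) : ZMod (D.q - 1)) := by
  cases J with
  | zero => rw [card_E0]; simp [uu2]
  | succ J =>
    rw [card_E, Nat.cast_add, q_pow_one, q_pow_one]
    simp only [uu2, Nat.succ_ne_zero, if_false]
    norm_num

/-! the residue field -/

/-- the residue map -/
noncomputable def rd : R →+* D.Q 1 := Ideal.Quotient.mk _

lemma red_rd (a : R) : D.red 1 a = rd D a := rfl

lemma rd_zero {a : R} : rd D a = 0 ↔ D.t ∣ a := by
  rw [← red_rd, D.red_eq_zero, pow_one]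

lemma rd_unit {a : R} : rd D a ≠ 0 ↔ IsUnit a := by
  rw [Ne, rd_zero, D.not_dvd_iff]

lemma rd_lift (z : D.Q 1) : rd D (D.lift z) = z := D.red_lift z

lemma Q_mul {u w : D.Q 1} (h : u * w = 0) : u = 0 ∨ w = 0 := by
  rw [← rd_lift D u, ← rd_lift D w, ← map_mul, rd_zero] at h
  by_contra hc
  push Not at hc
  rw [← rd_lift D u, ← rd_lift D w, rd_unit, rd_unit] at hc
  exact D.not_unit_of_dvd h (hc.1.mul hc.2)

lemma one_ne : (1 : D.Q 1) ≠ 0 := by
  have : rd D 1 ≠ 0 := (rd_unit D).mpr isUnit_one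
  rwa [map_one] at this

/-- number of square roots -/
noncomputable def rho (c : D.Q 1) : ℕ := Nat.card {w : D.Q 1 // w ^ 2 = c}

lemma rho_zero : rho D 0 = 1 := by
  unfold rho
  rw [Nat.card_eq_one_iff_unique]
  constructor
  · constructor
    rintro ⟨a, ha⟩ ⟨b, hb⟩
    apply Subtype.ext
    rw [pow_two] at ha hb
    have h1 : a = 0 := by rcases Q_mul D ha with h | h <;> exact h
    have h2 : b = 0 := by rcases Q_mul D hb with h | h <;> exact h
    exact h1.trans h2.symm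
  · exact ⟨⟨0, by ring⟩⟩

lemma rho_one (h2 : IsUnit (2 : R)) : rho D 1 = 2 := by
  unfold rho
  have hs : {w : D.Q 1 | w ^ 2 = 1} = {1, -1} := by
    ext w
    simp only [Set.mem_ofPred_eq, Set.mem_insert_iff, Set.mem_singleton_iff]
    constructor
    · intro h
      have h3 : (w - 1) * (w + 1) = 0 := by
        have : (w - 1) * (w + 1) = w ^ 2 - 1 := by ring
        rw [this, h, sub_self]
      rcases Q_mul D h3 with h4 | h4
      · left; exact sub_eq_zero.mp h4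
      · right; exact eq_neg_of_add_eq_zero_left h4
    · rintro (h | h) <;> rw [h] <;> ring
  have hne : (1 : D.Q 1) ≠ -1 := by
    intro h
    have h3 : (2 : D.Q 1) = 0 := by
      have : (2 : D.Q 1) = 1 - (-1) := by ring
      rw [this, ← h, sub_self]
    have h4 : rd D 2 ≠ 0 := (rd_unit D).mpr h2
    rw [map_ofNat] at h4
    exact h4 h3
  have := Set.ncard_pair hne
  rw [← hs] at this
  exact this

/-- the small integers are distinct in the residue field -/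
lemma cast_inj (hu : ∀ a : ℕ, 1 ≤ a → a ≤ 7 → IsUnit (a : R)) {m n : ℕ} (hm : m ≤ 7) (hn : n ≤ 7)
    (h : (m : D.Q 1) = (n : D.Q 1)) : m = n := by
  wlog hmn : n ≤ m generalizing m n
  · exact (this hn hm h.symm (by omega)).symm
  by_contra hne
  have h1 := hu (m - n) (by omega) (by omega)
  rw [← rd_unit D, map_natCast, Nat.cast_sub hmn, h, sub_self] at h1
  exact h1 rfl

/-- the fibre count over a point of the residue field -/
lemma card_res (j : ℕ) (z0 : D.Q 1) :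
    ((Nat.card {z : D.Q (j + 1) // D.red 1 (D.lift z) = z0} : ℕ) : ZMod (D.q - 1)) = 1 := by
  have h : Nat.card {z : D.Q (j + 1) // D.red 1 (D.lift z) = z0} =
      Nat.card {z : D.Q (j + 1) // D.t ^ 1 ∣ D.lift z - D.lift z0} := by
    refine Nat.card_congr (Equiv.subtypeEquivRight fun z => ?_)
    rw [← D.red_eq, D.red_lift z0]
  rw [h, D.card_near (by omega), q_pow_one]

/-- the branch product -/
noncomputable def br (i : Fin 4) (z : D.Q 1) : D.Q 1 :=
  (z + ((2 * i.1 : ℕ) : D.Q 1)) * (z + ((2 * i.1 + 1 : ℕ) : D.Q 1))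

/-- at most one branch product vanishes -/
lemma br_unique (hu : ∀ a : ℕ, 1 ≤ a → a ≤ 7 → IsUnit (a : R)) {i i' : Fin 4} {z : D.Q 1}
    (h : br D i z = 0) (h' : br D i' z = 0) : i = i' := by
  have key : ∀ (m n : ℕ), m ≤ 7 → n ≤ 7 → z + (m : D.Q 1) = 0 → z + (n : D.Q 1) = 0 → m = n := by
    intro m n hm hn e1 e2
    refine cast_inj D hu hm hn ?_
    exact add_left_cancel (e1.trans e2.symm)
  have hi := i.2
  have hi' := i'.2
  apply Fin.ext
  rcases Q_mul D h with e1 | e1 <;> rcases Q_mul D h' with e2 | e2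
  · have := key _ _ (by omega) (by omega) e1 e2; omega
  · have := key _ _ (by omega) (by omega) e1 e2; omega
  · have := key _ _ (by omega) (by omega) e1 e2; omega
  · have := key _ _ (by omega) (by omega) e1 e2; omega

/-- the number of admissible `x` over `y` -/
noncomputable def gg (v s : ℕ) (i : Fin 4) (y : BQ D) : ℕ :=
  Nat.card {x : BQ D // DV.ex x.1 x.2.1 = v + s ∧ D.t ^ s ∣
    lam ((2 * i.1 : ℕ) : R) ((2 * i.1 + 1 : ℕ) : R) (pvec D y) (pform D x)}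

lemma pvec_true (n : ℕ) (z : D.Q n) : pvec D (true, ⟨n, z⟩) = (-(D.lift z), 1) := rfl

lemma pvec_false (n : ℕ) (z : D.Q n) : pvec D (false, ⟨n, z⟩) = (1, -(D.t * D.lift z)) := rfl

lemma gg_false (h1 : S_SM1) (h2 : IsUnit (2 : R)) (v s j : ℕ) (hs : 1 ≤ s) (i : Fin 4)
    (z : D.Q j) : ((gg D v s i (false, ⟨j, z⟩) : ℕ) : ZMod (D.q - 1)) = 2 := by
  have e1 : ∀ c : R, rd D ((1 : R) - c * -(D.t * D.lift z)) = 1 := by
    intro c
    have : rd D D.t = 0 := (rd_zero D).mpr dvd_rfl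
    rw [map_sub, map_mul, map_neg, map_mul, this]
    simp
  have e2 : ∀ c : R, IsUnit ((1 : R) - c * -(D.t * D.lift z)) := by
    intro c
    rw [← rd_unit D, e1]
    exact one_ne D
  have h := h1 R D ((2 * i.1 : ℕ) : R) ((2 * i.1 + 1 : ℕ) : R) (1, -(D.t * D.lift z)) v s h2 hs
    (e2 _) (e2 _)
  unfold gg
  rw [pvec_false, h, Nat.cast_mul, q_pow_one, one_mul]
  have e3 : D.red 1 (((1 : R) - ((2 * i.1 : ℕ) : R) * -(D.t * D.lift z)) *
      ((1 : R) - ((2 * i.1 + 1 : ℕ) : R) * -(D.t * D.lift z))) = 1 := by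
    rw [red_rd, map_mul, e1, e1, one_mul]
  show ((Nat.card {w : D.Q 1 // w ^ 2 = D.red 1 (((1 : R) - ((2 * i.1 : ℕ) : R) *
      -(D.t * D.lift z)) * ((1 : R) - ((2 * i.1 + 1 : ℕ) : R) * -(D.t * D.lift z)))} : ℕ) :
        ZMod (D.q - 1)) = 2
  rw [e3]
  have h4 := rho_one D h2
  unfold rho at h4
  rw [h4]
  norm_num

lemma gg_true (h1 : S_SM1) (h2 : IsUnit (2 : R)) (v s j : ℕ) (hs : 1 ≤ s) (i : Fin 4)
    (z : D.Q j) (hz : br D i (rd D (D.lift z)) ≠ 0) :
    ((gg D v s i (true, ⟨j, z⟩) : ℕ) : ZMod (D.q - 1)) = (rho D (br D i (rd D (D.lift z))) : ℕ) := by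
  have e1 : ∀ m : ℕ, rd D (-(D.lift z) - (m : R) * 1) = -(rd D (D.lift z) + (m : D.Q 1)) := by
    intro m
    rw [map_sub, map_mul, map_neg, map_natCast, map_one]
    ring
  have e0 : rd D (-(D.lift z) - ((2 * i.1 : ℕ) : R) * 1) *
      rd D (-(D.lift z) - ((2 * i.1 + 1 : ℕ) : R) * 1) = br D i (rd D (D.lift z)) := by
    rw [e1, e1]
    unfold br
    ring
  have e2 : IsUnit (-(D.lift z) - ((2 * i.1 : ℕ) : R) * 1) := by
    rw [← rd_unit D]
    intro h0
    rw [← e0, h0, zero_mul] at hz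
    exact hz rfl
  have e3 : IsUnit (-(D.lift z) - ((2 * i.1 + 1 : ℕ) : R) * 1) := by
    rw [← rd_unit D]
    intro h0
    rw [← e0, h0, mul_zero] at hz
    exact hz rfl
  have h := h1 R D ((2 * i.1 : ℕ) : R) ((2 * i.1 + 1 : ℕ) : R) (-(D.lift z), 1) v s h2 hs e2 e3
  unfold gg
  rw [pvec_true, h, Nat.cast_mul, q_pow_one, one_mul]
  show ((Nat.card {w : D.Q 1 // w ^ 2 = D.red 1 ((-(D.lift z) - ((2 * i.1 : ℕ) : R) * 1) *
      (-(D.lift z) - ((2 * i.1 + 1 : ℕ) : R) * 1))} : ℕ) : ZMod (D.q - 1)) = _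
  rw [red_rd, map_mul, e0]
  rfl

instance finP (J : ℕ) (P : BQ D → Prop) : Finite {x : BQ D // DV.ex x.1 x.2.1 = J ∧ P x} :=
  Finite.of_injective (β := {x : BQ D // DV.ex x.1 x.2.1 = J}) (fun x => ⟨x.1, x.2.1⟩)
    (fun _ _ h => Subtype.ext (Subtype.mk.inj h))

/-- the sum over a fibre with a vanishing branch product -/
lemma sum_branch (h2 : S_SM2) (v s j : ℕ) (hs : 1 ≤ s) (hsj : s ≤ j + 1) (i : Fin 4) (z0 : D.Q 1)
    (hz : br D i z0 = 0) [DecidableEq (D.Q 1)] :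
    ∑ z ∈ Finset.univ.filter (fun z : D.Q (j + 1) => D.red 1 (D.lift z) = z0),
      ((gg D v s i (true, ⟨j + 1, z⟩) : ℕ) : ZMod (D.q - 1)) = 1 := by
  classical
  rw [Finset.sum_subtype (p := fun z : D.Q (j + 1) => D.red 1 (D.lift z) = z0) _
    (fun z => by rw [Finset.mem_filter]; simp)]
  have hab : IsUnit (((2 * i.1 : ℕ) : R) - ((2 * i.1 + 1 : ℕ) : R)) := by
    have : ((2 * i.1 : ℕ) : R) - ((2 * i.1 + 1 : ℕ) : R) = -1 := by push_cast; ring
    rw [this]; exact isUnit_one.neg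
  have hd : D.t ∣ (D.lift z0 + ((2 * i.1 : ℕ) : R)) * (D.lift z0 + ((2 * i.1 + 1 : ℕ) : R)) := by
    rw [← rd_zero, map_mul, map_add, map_add, rd_lift, map_natCast, map_natCast]
    exact hz
  have h := h2 R D ((2 * i.1 : ℕ) : R) ((2 * i.1 + 1 : ℕ) : R) (D.lift z0) v s (j + 1) hab hs hsj hd
  have e : Nat.card {x : D.Q (j + 1) × BQ D // D.t ∣ D.lift x.1 - D.lift z0 ∧
      DV.ex x.2.1 x.2.2.1 = v + s ∧ D.t ^ s ∣ lam ((2 * i.1 : ℕ) : R) ((2 * i.1 + 1 : ℕ) : R)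
        (-(D.lift x.1), 1) (pform D x.2)} =
      Nat.card {x : D.Q (j + 1) × BQ D // D.red 1 (D.lift x.1) = z0 ∧
      DV.ex x.2.1 x.2.2.1 = v + s ∧ D.t ^ s ∣ lam ((2 * i.1 : ℕ) : R) ((2 * i.1 + 1 : ℕ) : R)
        (pvec D (true, ⟨j + 1, x.1⟩)) (pform D x.2)} := by
    refine Nat.card_congr (Equiv.subtypeEquivRight fun x => ?_)
    have : D.t ∣ D.lift x.1 - D.lift z0 ↔ D.red 1 (D.lift x.1) = z0 := by
      conv_rhs => rw [← D.red_lift z0]
      rw [D.red_eq, pow_one]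
    rw [this, pvec_true]
  rw [e] at h
  rw [card_fib (fun z : D.Q (j + 1) => D.red 1 (D.lift z) = z0) (fun z (x : BQ D) =>
    DV.ex x.1 x.2.1 = v + s ∧ D.t ^ s ∣ lam ((2 * i.1 : ℕ) : R) ((2 * i.1 + 1 : ℕ) : R)
        (pvec D (true, ⟨j + 1, z⟩)) (pform D x)) (fun z _ => finP D _ _)] at h
  have h3 := congrArg (Nat.cast (R := ZMod (D.q - 1))) h
  rw [Nat.cast_sum, Nat.cast_mul (α := ZMod (D.q - 1)), q_pow_one, q_pow_one, mul_one] at h3
  exact h3

/-- the sum over the lattices of the first kind -/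
lemma sum_true (h1 : S_SM1) (h2 : S_SM2) (hu : ∀ a : ℕ, 1 ≤ a → a ≤ 7 → IsUnit (a : R))
    (v j : ℕ) (s : Fin 4 → ℕ) (I : Finset (Fin 4)) (hs : ∀ i ∈ I, 1 ≤ s i ∧ s i ≤ j + 1) :
    ∑ z : D.Q (j + 1), ∏ i ∈ I, ((gg D v (s i) i (true, ⟨j + 1, z⟩) : ℕ) : ZMod (D.q - 1)) =
      ∑ z0 : D.Q 1, ∏ i ∈ I, ((rho D (br D i z0) : ℕ) : ZMod (D.q - 1)) := by
  classical
  have hu2 : IsUnit (2 : R) := by simpa using hu 2 (by norm_num) (by norm_num)
  rw [← Finset.sum_fiberwise _ (fun z : D.Q (j + 1) => D.red 1 (D.lift z))]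
  refine Finset.sum_congr rfl fun z0 _ => ?_
  by_cases hz : ∃ i0 ∈ I, br D i0 z0 = 0
  · obtain ⟨i0, hi0, hb⟩ := hz
    rw [← Finset.mul_prod_erase I (fun i => ((rho D (br D i z0) : ℕ) : ZMod (D.q - 1))) hi0, hb,
      rho_zero, Nat.cast_one, one_mul]
    have e : ∀ z ∈ Finset.univ.filter (fun z : D.Q (j + 1) => D.red 1 (D.lift z) = z0),
        ∏ i ∈ I, ((gg D v (s i) i (true, ⟨j + 1, z⟩) : ℕ) : ZMod (D.q - 1)) =
        ((gg D v (s i0) i0 (true, ⟨j + 1, z⟩) : ℕ) : ZMod (D.q - 1)) *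
          ∏ i ∈ I.erase i0, ((rho D (br D i z0) : ℕ) : ZMod (D.q - 1)) := by
      intro z hz
      have hz1 : rd D (D.lift z) = z0 := (Finset.mem_filter.mp hz).2
      rw [← Finset.mul_prod_erase I _ hi0]
      congr 1
      refine Finset.prod_congr rfl fun i hi => ?_
      rw [Finset.mem_erase] at hi
      have hne : br D i z0 ≠ 0 := fun h => hi.1 (br_unique D hu h hb)
      rw [← hz1] at hne
      rw [gg_true D h1 hu2 v (s i) (j + 1) (hs i hi.2).1 i z hne, hz1]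
    rw [Finset.sum_congr rfl e, ← Finset.sum_mul,
      sum_branch D h2 v (s i0) j (hs i0 hi0).1 (hs i0 hi0).2 i0 z0 hb, one_mul]
  · push Not at hz
    have e : ∀ z ∈ Finset.univ.filter (fun z : D.Q (j + 1) => D.red 1 (D.lift z) = z0),
        ∏ i ∈ I, ((gg D v (s i) i (true, ⟨j + 1, z⟩) : ℕ) : ZMod (D.q - 1)) =
          ∏ i ∈ I, ((rho D (br D i z0) : ℕ) : ZMod (D.q - 1)) := by
      intro z hz'
      have hz1 : rd D (D.lift z) = z0 := (Finset.mem_filter.mp hz').2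
      refine Finset.prod_congr rfl fun i hi => ?_
      have hne := hz i hi
      rw [← hz1] at hne
      rw [gg_true D h1 hu2 v (s i) (j + 1) (hs i hi).1 i z hne, hz1]
    rw [Finset.sum_congr rfl e, Finset.sum_const, nsmul_eq_mul]
    have h3 : (Finset.univ.filter (fun z : D.Q (j + 1) => D.red 1 (D.lift z) = z0)).card =
        Nat.card {z : D.Q (j + 1) // D.red 1 (D.lift z) = z0} := by
      rw [Nat.card_eq_fintype_card, Fintype.card_subtype]
    rw [h3, card_res, one_mul]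

/-- the sum over the lattices of the second kind -/
lemma sum_false (h1 : S_SM1) (h2 : IsUnit (2 : R))
    (v j : ℕ) (s : Fin 4 → ℕ) (I : Finset (Fin 4)) (hs : ∀ i ∈ I, 1 ≤ s i) :
    ∑ z : D.Q j, ∏ i ∈ I, ((gg D v (s i) i (false, ⟨j, z⟩) : ℕ) : ZMod (D.q - 1)) =
      2 ^ I.card := by
  have e : ∀ z : D.Q j,
      ∏ i ∈ I, ((gg D v (s i) i (false, ⟨j, z⟩) : ℕ) : ZMod (D.q - 1)) = 2 ^ I.card := by
    intro z
    rw [← Finset.prod_const]
    exact Finset.prod_congr rfl fun i hi => gg_false D h1 h2 v (s i) j (hs i hi) i z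
  rw [Finset.sum_congr rfl fun z _ => e z, Finset.sum_const, nsmul_eq_mul, Finset.card_univ,
    D.card_Q, q_pow_one, one_mul]

/-- the number of points of the fibre product -/
lemma KK_eq (I : Finset (Fin 4)) : ((KK (D.Q 1) I : ℕ) : ZMod (D.q - 1)) =
    2 ^ I.card + ∑ z0 : D.Q 1, ∏ i ∈ I, ((rho D (br D i z0) : ℕ) : ZMod (D.q - 1)) := by
  classical
  unfold KK
  have e0 : Nat.card {x : D.Q 1 × (Fin 4 → D.Q 1) // ∀ i, if i ∈ I then
      x.2 i ^ 2 = (x.1 - ((2 * i.1 : ℕ) : D.Q 1)) * (x.1 - ((2 * i.1 + 1 : ℕ) : D.Q 1))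
        else x.2 i = 0} =
      Nat.card {x : D.Q 1 × (Fin 4 → D.Q 1) // True ∧ ∀ i, if i ∈ I then
      x.2 i ^ 2 = (x.1 - ((2 * i.1 : ℕ) : D.Q 1)) * (x.1 - ((2 * i.1 + 1 : ℕ) : D.Q 1))
        else x.2 i = 0} := by
    refine Nat.card_congr (Equiv.subtypeEquivRight fun x => ?_)
    rw [true_and]
  have e1 : Nat.card {x : D.Q 1 × (Fin 4 → D.Q 1) // ∀ i, if i ∈ I then
      x.2 i ^ 2 = (x.1 - ((2 * i.1 : ℕ) : D.Q 1)) * (x.1 - ((2 * i.1 + 1 : ℕ) : D.Q 1))
        else x.2 i = 0} =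
      ∑ z : D.Q 1, ∏ i ∈ I, rho D ((z - ((2 * i.1 : ℕ) : D.Q 1)) *
        (z - ((2 * i.1 + 1 : ℕ) : D.Q 1))) := by
    rw [e0, card_fib (fun _ : D.Q 1 => True) (fun z (f : Fin 4 → D.Q 1) => ∀ i, if i ∈ I then
      f i ^ 2 = (z - ((2 * i.1 : ℕ) : D.Q 1)) * (z - ((2 * i.1 + 1 : ℕ) : D.Q 1))
        else f i = 0) (fun _ _ => inferInstance)]
    rw [← Equiv.sum_comp (Equiv.subtypeUnivEquiv (p := fun _ : D.Q 1 => True) (fun _ => trivial))
      (fun z : D.Q 1 => ∏ i ∈ I, rho D ((z - ((2 * i.1 : ℕ) : D.Q 1)) *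
        (z - ((2 * i.1 + 1 : ℕ) : D.Q 1))))]
    refine Finset.sum_congr rfl fun z _ => ?_
    rw [card_pi (fun i (w : D.Q 1) => if i ∈ I then
      w ^ 2 = (z.1 - ((2 * i.1 : ℕ) : D.Q 1)) * (z.1 - ((2 * i.1 + 1 : ℕ) : D.Q 1)) else w = 0)]
    rw [← Finset.prod_filter_mul_prod_filter_not Finset.univ (fun i => i ∈ I)]
    have e2 : ∏ i ∈ Finset.univ.filter (fun i => i ∉ I), Nat.card {w : D.Q 1 // if i ∈ I then
      w ^ 2 = (z.1 - ((2 * i.1 : ℕ) : D.Q 1)) * (z.1 - ((2 * i.1 + 1 : ℕ) : D.Q 1)) else w = 0} =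
        1 := by
      refine Finset.prod_eq_one fun i hi => ?_
      rw [Finset.mem_filter] at hi
      simp only [if_neg hi.2]
      exact Nat.card_unique
    rw [e2, mul_one]
    have e3 : Finset.univ.filter (fun i : Fin 4 => i ∈ I) = I := by
      ext i; simp
    rw [e3]
    refine Finset.prod_congr rfl fun i hi => ?_
    simp only [if_pos hi]
    rfl
  rw [e1, ← Equiv.sum_comp (Equiv.neg (D.Q 1))]
  push_cast
  congr 1
  refine Finset.sum_congr rfl fun z _ => Finset.prod_congr rfl fun i _ => ?_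
  congr 2
  unfold br
  rw [Equiv.neg_apply]
  push_cast
  ring

/-- the sum over all lattices -/
lemma sum_all (h1 : S_SM1) (h2 : S_SM2) (hu : ∀ a : ℕ, 1 ≤ a → a ≤ 7 → IsUnit (a : R))
    (v j : ℕ) (s : Fin 4 → ℕ) (I : Finset (Fin 4)) (hs : ∀ i ∈ I, 1 ≤ s i ∧ s i ≤ j + 1) :
    ∑ y : {y : BQ D // DV.ex y.1 y.2.1 = j + 1},
      ∏ i ∈ I, ((gg D v (s i) i y.1 : ℕ) : ZMod (D.q - 1)) = ((KK (D.Q 1) I : ℕ) : ZMod (D.q - 1)) := by
  have hu2 : IsUnit (2 : R) := by simpa using hu 2 (by norm_num) (by norm_num)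
  rw [sum_E D j (fun y => ∏ i ∈ I, ((gg D v (s i) i y : ℕ) : ZMod (D.q - 1))), KK_eq,
    sum_true D h1 h2 hu v j s I hs, sum_false D h1 hu2 v j s I (fun i hi => (hs i hi).1), add_comm]

/-- the number of admissible `x` over `y`, general form -/
noncomputable def nn (v j : ℕ) (J : ℕ) (i : Fin 4) (y : BQ D) : ℕ :=
  Nat.card {x : BQ D // DV.ex x.1 x.2.1 = J ∧ (J ≤ v ∨ (J ≤ v + j ∧ D.t ^ (J - v) ∣
    lam ((2 * i.1 : ℕ) : R) ((2 * i.1 + 1 : ℕ) : R) (pvec D y) (pform D x)))}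

lemma nn_low {v j J : ℕ} (h : J ≤ v) (i : Fin 4) (y : BQ D) :
    ((nn D v j J i y : ℕ) : ZMod (D.q - 1)) = ((uu2 J : ℤ) : ZMod (D.q - 1)) := by
  rw [← card_uu]
  congr 1
  unfold nn
  refine Nat.card_congr (Equiv.subtypeEquivRight fun x => ?_)
  exact ⟨fun hx => hx.1, fun hx => ⟨hx, Or.inl h⟩⟩

lemma nn_high {v j J : ℕ} (h : v + j < J) (i : Fin 4) (y : BQ D) : nn D v j J i y = 0 := by
  unfold nn
  have : IsEmpty {x : BQ D // DV.ex x.1 x.2.1 = J ∧ (J ≤ v ∨ (J ≤ v + j ∧ D.t ^ (J - v) ∣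
    lam ((2 * i.1 : ℕ) : R) ((2 * i.1 + 1 : ℕ) : R) (pvec D y) (pform D x)))} := by
    constructor
    rintro ⟨x, _, h1 | h1⟩
    · omega
    · exact absurd h1.1 (by omega)
  exact Nat.card_of_isEmpty

lemma nn_mid {v j J : ℕ} (h : v < J) (h' : J ≤ v + j) (i : Fin 4) (y : BQ D) :
    nn D v j J i y = gg D v (J - v) i y := by
  unfold nn gg
  refine Nat.card_congr (Equiv.subtypeEquivRight fun x => ?_)
  have e : v + (J - v) = J := by omega
  rw [e]
  constructor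
  · rintro ⟨h1, h2 | h2⟩
    · omega
    · exact ⟨h1, h2.2⟩
  · rintro ⟨h1, h2⟩
    exact ⟨h1, Or.inr ⟨h', h2⟩⟩

/-- the number as a sum -/
lemma card_all (v j : ℕ) (J : Fin 4 → ℕ) :
    Nat.card {x : BQ D × (Fin 4 → BQ D) // DV.ex x.1.1 x.1.2.1 = j ∧ ∀ i : Fin 4,
        DV.ex (x.2 i).1 (x.2 i).2.1 = J i ∧ (J i ≤ v ∨ (J i ≤ v + j ∧ D.t ^ (J i - v) ∣
          lam ((2 * i.1 : ℕ) : R) ((2 * i.1 + 1 : ℕ) : R) (pvec D x.1) (pform D (x.2 i))))} =
      ∑ y : {y : BQ D // DV.ex y.1 y.2.1 = j}, ∏ i, nn D v j (J i) i y.1 := by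
  rw [card_fib (fun y : BQ D => DV.ex y.1 y.2.1 = j) (fun y (f : Fin 4 → BQ D) => ∀ i : Fin 4,
        DV.ex (f i).1 (f i).2.1 = J i ∧ (J i ≤ v ∨ (J i ≤ v + j ∧ D.t ^ (J i - v) ∣
          lam ((2 * i.1 : ℕ) : R) ((2 * i.1 + 1 : ℕ) : R) (pvec D y) (pform D (f i)))))
    (fun y _ => fin_pi (fun i (x : BQ D) => DV.ex x.1 x.2.1 = J i ∧ (J i ≤ v ∨ (J i ≤ v + j ∧
      D.t ^ (J i - v) ∣ lam ((2 * i.1 : ℕ) : R) ((2 * i.1 + 1 : ℕ) : R) (pvec D y) (pform D x))))
        (fun i => finP D _ _))]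
  refine Finset.sum_congr rfl fun y _ => ?_
  rw [card_pi (fun i (x : BQ D) => DV.ex x.1 x.2.1 = J i ∧ (J i ≤ v ∨ (J i ≤ v + j ∧
    D.t ^ (J i - v) ∣ lam ((2 * i.1 : ℕ) : R) ((2 * i.1 + 1 : ℕ) : R) (pvec D y.1) (pform D x))))]
  rfl

end Smw

theorem smw (h1 : S_SM1) (h2 : S_SM2) : S_SMW := by
  intro R _ _ D hu v j J
  have hq : ((D.q : ℤ) - 1) = ((D.q - 1 : ℕ) : ℤ) := by
    rw [Nat.cast_sub (by have := D.two_le; omega)]; rfl
  rw [hq, ← ZMod.intCast_zmod_eq_zero_iff_dvd, Int.cast_sub, Int.cast_natCast, sub_eq_zero,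
    Smw.card_all, Nat.cast_sum]
  simp only [Nat.cast_prod]
  unfold wtc
  cases j with
  | zero =>
    rw [if_pos rfl, Int.cast_prod]
    have e : ∀ y : {y : BQ D // DV.ex y.1 y.2.1 = 0},
        ∏ i, ((Smw.nn D v 0 (J i) i y.1 : ℕ) : ZMod (D.q - 1)) =
        ∏ i, (((if J i ≤ v then uu2 (J i) else 0 : ℤ)) : ZMod (D.q - 1)) := by
      intro y
      refine Finset.prod_congr rfl fun i _ => ?_
      split_ifs with h
      · exact Smw.nn_low D h i y.1
      · rw [Smw.nn_high D (by omega) i y.1]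
        simp
    rw [Finset.sum_congr rfl fun y _ => e y, Finset.sum_const, Finset.card_univ,
      ← Nat.card_eq_fintype_card, Smw.card_E0, one_smul]
  | succ j =>
    rw [if_neg (Nat.succ_ne_zero j)]
    by_cases hJ : ∀ i, J i ≤ v + (j + 1)
    · have hI : ∀ i ∈ Finset.univ.filter (fun i => v < J i), 1 ≤ J i - v ∧ J i - v ≤ j + 1 := by
        intro i hi
        have h3 := (Finset.mem_filter.mp hi).2
        have h4 := hJ i
        omega
      have h5 := Smw.sum_all D h1 h2 hu v j (fun i => J i - v) _ hI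
      have e : ∀ y : {y : BQ D // DV.ex y.1 y.2.1 = j + 1},
          ∏ i, ((Smw.nn D v (j + 1) (J i) i y.1 : ℕ) : ZMod (D.q - 1)) =
          (∏ i, (((if J i ≤ v then uu2 (J i) else if J i ≤ v + (j + 1) then 1 else 0 : ℤ)) :
            ZMod (D.q - 1))) * ∏ i ∈ Finset.univ.filter (fun i => v < J i),
              ((Smw.gg D v (J i - v) i y.1 : ℕ) : ZMod (D.q - 1)) := by
        intro y
        rw [Finset.prod_filter, ← Finset.prod_mul_distrib]
        refine Finset.prod_congr rfl fun i _ => ?_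
        by_cases h : J i ≤ v
        · rw [if_pos h, if_neg (by omega), mul_one]
          exact Smw.nn_low D h i y.1
        · rw [if_neg h, if_pos (hJ i), if_pos (by omega), Int.cast_one, one_mul,
            Smw.nn_mid D (by omega) (hJ i) i y.1]
      rw [Finset.sum_congr rfl fun y _ => e y, ← Finset.mul_sum, h5, Int.cast_mul, Int.cast_prod]
      simp
    · push Not at hJ
      obtain ⟨i0, hi0⟩ := hJ
      have e1 : (∏ i, (if J i ≤ v then uu2 (J i) else if J i ≤ v + (j + 1) then 1 else 0 : ℤ)) =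
          0 := by
        refine Finset.prod_eq_zero (Finset.mem_univ i0) ?_
        rw [if_neg (by omega), if_neg (by omega)]
      rw [e1, zero_mul, Int.cast_zero]
      refine Finset.sum_eq_zero fun y _ => ?_
      refine Finset.prod_eq_zero (Finset.mem_univ i0) ?_
      rw [Smw.nn_high D hi0 i0 y.1, Nat.cast_zero]

end Pool.Agent.T2h77U
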