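import Pool.Agent.T2h77U.Stm

/-! Arithmetic of the leading terms. -/

namespace Pool.Agent.T2h77U

open Polynomial

section
variable {O k : Type} [CommRing O] [IsDomain O] [Field k] (H : HF O k)

include H

lemma HF.res_pi' : H.res H.pi = 0 := (H.res_eq _).mpr dvd_rfl

lemma HF.ac_ne {x : O} (hx : x ≠ 0) : H.ac x ≠ 0 := (H.spec x hx).1

lemma HF.ac_eq_zero (x : O) : H.ac x = 0 ↔ x = 0 := by
  constructor
  · intro h
    by_contra hx
    exact H.ac_ne hx h
  · rintro rfl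
    exact H.ac_zero

lemma HF.pow_aux {m n : ℕ} {w w' : O} (h : H.pi ^ m * w = H.pi ^ n * w') (hw : H.res w ≠ 0) :
    n ≤ m := by
  by_contra hlt
  push Not at hlt
  obtain ⟨j, rfl⟩ : ∃ j, n = m + (j + 1) := ⟨n - m - 1, by omega⟩
  rw [pow_add, mul_assoc] at h
  have h1 := mul_left_cancel₀ (pow_ne_zero m H.pi_ne) h
  apply hw
  rw [h1, pow_succ]
  simp [H.res_pi']

lemma HF.v_eq {x w : O} {m : ℕ} (h : x = H.pi ^ m * w) (hw : H.res w ≠ 0) :
    H.v x = m ∧ H.ac x = H.res w := by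
  have hx : x ≠ 0 := by
    rintro rfl
    have h1 : w = 0 := by
      rcases mul_eq_zero.mp h.symm with h2 | h2
      · exact absurd h2 (pow_ne_zero m H.pi_ne)
      · exact h2
    exact hw (by rw [h1, map_zero])
  obtain ⟨hac, u, hu, hru⟩ := H.spec x hx
  have hu' : H.res u ≠ 0 := by rw [hru]; exact hac
  have h1 : H.pi ^ H.v x * u = H.pi ^ m * w := by rw [← hu, h]
  have h2 := H.pow_aux h1 hu'
  have h3 := H.pow_aux h1.symm hw
  have h4 : H.v x = m := le_antisymm h3 h2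
  refine ⟨h4, ?_⟩
  rw [h4] at h1
  have h5 := mul_left_cancel₀ (pow_ne_zero m H.pi_ne) h1
  rw [← hru, h5]

lemma HF.rv_eq {x w : O} {m : ℕ} (h : x = H.pi ^ m * w) (hw : H.res w ≠ 0) :
    H.rv x = (m, H.res w) := by
  unfold HF.rv
  rw [(H.v_eq h hw).1, (H.v_eq h hw).2]

lemma HF.dvd_iff {x : O} (n : ℕ) (hx : x ≠ 0) : H.pi ^ n ∣ x ↔ n ≤ H.v x := by
  obtain ⟨hac, u, hu, hru⟩ := H.spec x hx
  constructor
  · rintro ⟨w, hw⟩
    have h1 : H.pi ^ H.v x * u = H.pi ^ n * w := by rw [← hu, hw]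
    exact H.pow_aux h1 (by rw [hru]; exact hac)
  · intro h
    rw [hu]
    exact (pow_dvd_pow _ h).mul_right u

lemma HF.rv_iff (x y : O) (hx : x ≠ 0) : H.rv y = H.rv x ↔ H.pi ^ (H.v x + 1) ∣ y - x := by
  obtain ⟨hac, u, hu, hru⟩ := H.spec x hx
  constructor
  · intro h
    unfold HF.rv at h
    rw [Prod.mk.injEq] at h
    have hy : y ≠ 0 := by
      rintro rfl
      rw [H.ac_zero] at h
      exact hac h.2.symm
    obtain ⟨hac', u', hu', hru'⟩ := H.spec y hy
    have h1 : H.res (u' - u) = 0 := by rw [map_sub, hru, hru', h.2, sub_self]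
    obtain ⟨w, hw⟩ := (H.res_eq _).mp h1
    refine ⟨w, ?_⟩
    rw [h.1] at hu'
    calc y - x = H.pi ^ H.v x * u' - H.pi ^ H.v x * u := by rw [← hu', ← hu]
      _ = H.pi ^ H.v x * (u' - u) := by ring
      _ = H.pi ^ (H.v x + 1) * w := by rw [hw]; ring
  · rintro ⟨w, hw⟩
    have h1 : y = H.pi ^ H.v x * (u + H.pi * w) := by
      calc y = x + (y - x) := by ring
        _ = H.pi ^ H.v x * u + H.pi ^ (H.v x + 1) * w := by rw [hw, ← hu]
        _ = _ := by ring
    have h2 : H.res (u + H.pi * w) = H.ac x := by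
      rw [map_add, map_mul, H.res_pi', zero_mul, add_zero, hru]
    have h3 := H.rv_eq h1 (by rw [h2]; exact hac)
    rw [h3, h2]
    rfl

lemma HF.rep_pow {e : ℕ × k} {y : O} (h : H.Rep e y) {M : ℕ} (hM : e.2 ≠ 0 → M ≤ e.1) :
    ∃ w, y = H.pi ^ M * w ∧ H.res w = if e.1 = M then e.2 else 0 := by
  rcases h with ⟨h1, h2⟩ | ⟨h1, h2, h3⟩
  · exact ⟨0, by rw [h2, mul_zero], by rw [map_zero, h1]; simp⟩
  · obtain ⟨hac, u, hu, hru⟩ := H.spec y h2
    have hv : H.v y = e.1 := by rw [← h3]; rfl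
    have ha : H.ac y = e.2 := by rw [← h3]; rfl
    have hMe := hM h1
    rw [hv] at hu
    refine ⟨H.pi ^ (e.1 - M) * u, ?_, ?_⟩
    · rw [← mul_assoc, ← pow_add, Nat.add_sub_cancel' hMe]; exact hu
    · split_ifs with h4
      · rw [h4, Nat.sub_self, pow_zero, one_mul, hru, ha]
      · have h5 : e.1 - M ≠ 0 := by omega
        rw [map_mul, map_pow, H.res_pi', zero_pow h5, zero_mul]

end

theorem sumT : S_SUM := by
  classical
  intro O k _ _ _ H
  refine ⟨?_, H.ac_eq_zero, fun x n hx => H.dvd_iff n hx, fun x y hx => H.rv_iff x y hx, ?_, ?_, ?_,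
    ?_⟩
  · intro x y hx hy
    obtain ⟨hac, u, hu, hru⟩ := H.spec x hx
    obtain ⟨hac', u', hu', hru'⟩ := H.spec y hy
    have h1 : x * y = H.pi ^ (H.v x + H.v y) * (u * u') := by
      calc x * y = (H.pi ^ H.v x * u) * (H.pi ^ H.v y * u') := by rw [← hu, ← hu']
        _ = _ := by rw [pow_add]; ring
    have h2 : H.res (u * u') = H.ac x * H.ac y := by rw [map_mul, hru, hru']
    have h3 := H.rv_eq h1 (by rw [h2]; exact mul_ne_zero hac hac')
    rw [h3, h2]
  · intro ρ hρ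
    obtain ⟨a, ha⟩ := H.res_surj ρ.2
    have h1 := H.rv_eq (x := H.pi ^ ρ.1 * a) rfl (by rw [ha]; exact hρ)
    refine ⟨H.pi ^ ρ.1 * a, ?_, ?_⟩
    · intro h0
      rw [h0] at h1
      unfold HF.rv at h1
      rw [H.ac_zero, ha, Prod.mk.injEq] at h1
      exact hρ h1.2.symm
    · rw [h1, ha]
  · intro m e y σ hrep hnc
    rcases hnc with ⟨h1, h2⟩ | ⟨M, h1, h2, h3⟩
    · have h4 : ∑ j, y j = 0 := by
        apply Finset.sum_eq_zero
        intro j _
        rcases hrep j with h | h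
        · exact h.2
        · exact absurd (h1 j) h.1
      rw [h4, h2]
      unfold HF.rv
      rw [H.v_zero, H.ac_zero]
    · choose w hw1 hw2 using fun j => H.rep_pow (hrep j) (h1 j)
      have h4 : ∑ j, y j = H.pi ^ M * ∑ j, w j := by
        rw [Finset.mul_sum]
        exact Finset.sum_congr rfl fun j _ => hw1 j
      have h5 : H.res (∑ j, w j) = Lev e M := by
        rw [map_sum]
        exact Finset.sum_congr rfl fun j _ => hw2 j
      rw [H.rv_eq h4 (by rw [h5]; exact h2), h5, h3]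
  · intro m e y M hrep h1 h2
    choose w hw1 hw2 using fun j => H.rep_pow (hrep j) (h1 j)
    have h4 : ∑ j, y j = H.pi ^ M * ∑ j, w j := by
      rw [Finset.mul_sum]
      exact Finset.sum_congr rfl fun j _ => hw1 j
    have h5 : H.res (∑ j, w j) = 0 := by
      rw [map_sum, ← h2]
      exact Finset.sum_congr rfl fun j _ => hw2 j
    rw [h4, pow_succ]
    exact mul_dvd_mul_left _ ((H.res_eq _).mp h5)
  · intro m e
    by_cases h : ∀ j, (e j).2 = 0
    · exact Or.inl ⟨(0, 0), Or.inl ⟨h, rfl⟩⟩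
    · push Not at h
      obtain ⟨j0, hj0⟩ := h
      obtain ⟨j1, hj1, hmin⟩ := Finset.exists_min_image
        (Finset.univ.filter fun j => (e j).2 ≠ 0) (fun j => (e j).1) ⟨j0, by simp [hj0]⟩
      simp only [Finset.mem_filter, Finset.mem_univ, true_and] at hj1 hmin
      by_cases h2 : Lev e (e j1).1 = 0
      · exact Or.inr ⟨(e j1).1, hmin, ⟨j1, hj1, rfl⟩, h2⟩
      · exact Or.inl ⟨_, Or.inr ⟨(e j1).1, hmin, h2, rfl⟩⟩

end Pool.Agent.T2h77U
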