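import Pool.Agent.T2h77U.Stm2

/-! TO1: orbits of the torus (helper60). -/

set_option linter.all false

namespace Pool.Agent.T2h77U

open Pool.Agent.H260TZ

namespace TO1

/-- a group action whose points are fixed by everything or have trivial stabilizer -/
lemma free_dvd {G X : Type} [Group G] [Finite G] [Finite X] (A : G → X → X)
    (h1 : ∀ x, A 1 x = x) (hm : ∀ g h x, A (g * h) x = A g (A h x)) (p : X → Prop)
    (hp : ∀ x, p x → ∀ g, A g x = x) (hn : ∀ x, ¬ p x → ∀ g, A g x = x → g = 1) :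
    (Nat.card G : ℤ) ∣ (Nat.card X : ℤ) - Nat.card {x // p x} := by
  classical
  have hsum : Nat.card X = Nat.card {x // p x} + Nat.card {x // ¬ p x} := by
    rw [← Nat.card_sum]
    exact (Nat.card_congr (Equiv.sumCompl p)).symm
  have hinv : ∀ g x, ¬ p x → ¬ p (A g x) := by
    intro g x hx h
    have h2 := hp _ h g⁻¹
    rw [← hm, inv_mul_cancel, h1] at h2
    rw [← h2] at h
    exact hx h
  let act : MulAction G {x // ¬ p x} :=
    { smul := fun g x => ⟨A g x.1, hinv g x.1 x.2⟩
      one_smul := fun x => Subtype.ext (h1 x.1)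
      mul_smul := fun g h x => Subtype.ext (hm g h x.1) }
  have hst : ∀ x : {x // ¬ p x}, MulAction.stabilizer G x = ⊥ := by
    intro x
    rw [eq_bot_iff]
    intro g hg
    rw [MulAction.mem_stabilizer_iff] at hg
    rw [Subgroup.mem_bot]
    exact hn x.1 x.2 g (congrArg Subtype.val hg)
  have hcard : Nat.card {x // ¬ p x} =
      Nat.card (Quotient (MulAction.orbitRel G {x // ¬ p x})) * Nat.card G := by
    have hf : Finite (Quotient (MulAction.orbitRel G {x // ¬ p x})) := inferInstance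
    have : Fintype (Quotient (MulAction.orbitRel G {x // ¬ p x})) := Fintype.ofFinite _
    rw [Nat.card_congr (MulAction.selfEquivSigmaOrbitsQuotientStabilizer G {x // ¬ p x}),
      Nat.card_sigma]
    have h3 : ∀ ω : Quotient (MulAction.orbitRel G {x // ¬ p x}),
        Nat.card (G ⧸ MulAction.stabilizer G ω.out) = Nat.card G := by
      intro ω
      have h4 := Subgroup.card_eq_card_quotient_mul_card_subgroup (MulAction.stabilizer G ω.out)
      rw [hst, Subgroup.card_bot, mul_one] at h4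
      rw [hst]
      exact h4.symm
    rw [Finset.sum_congr rfl fun ω _ => h3 ω, Finset.sum_const, smul_eq_mul, Finset.card_univ,
      Nat.card_eq_fintype_card (α := Quotient (MulAction.orbitRel G {x // ¬ p x}))]
  rw [hsum, hcard]
  refine ⟨Nat.card (Quotient (MulAction.orbitRel G {x // ¬ p x})), ?_⟩
  push_cast
  ring

section
variable {R : Type} [CommRing R]

/-- the weight -/
def chi' (i : Fin 4) (c : R) (a : Fin 10) : R := if a.1 / 2 = i.1 + 1 then c else 1

/-- the action of the torus -/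
def T (i : Fin 4) (c : R) : (Fin 10 → R) →ₗ[R] (Fin 10 → R) where
  toFun := fun u a => chi' i c a * u a
  map_add' := fun u v => by
    funext a
    simp only [Pi.add_apply, mul_add]
  map_smul' := fun r u => by
    funext a
    simp only [Pi.smul_apply, smul_eq_mul, RingHom.id_apply]
    ring

lemma T_apply (i : Fin 4) (c : R) (u : Fin 10 → R) (a : Fin 10) : T i c u a = chi' i c a * u a := rfl

/-- the projection -/
def pr (i : Fin 4) (u : Fin 10 → R) : Fin 10 → R := fun a => if a.1 / 2 = i.1 + 1 then u a else 0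

lemma T_mul (i : Fin 4) (c c' : R) (u : Fin 10 → R) : T i c (T i c' u) = T i (c * c') u := by
  funext a
  simp only [T_apply, chi']
  split_ifs
  · ring
  · ring

lemma T_one (i : Fin 4) (u : Fin 10 → R) : T i (1 : R) u = u := by
  funext a
  simp only [T_apply, chi']
  split_ifs
  · ring
  · ring

lemma T_eq (i : Fin 4) (c : R) (u : Fin 10 → R) : T i c u = u + (c - 1) • pr i u := by
  funext a
  simp only [T_apply, chi', pr, Pi.add_apply, Pi.smul_apply, smul_eq_mul]
  split_ifs
  · ring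
  · ring

lemma T_pr (i i' : Fin 4) (c : R) (u : Fin 10 → R) : T i c (pr i' u) = pr i' (T i c u) := by
  funext a
  simp only [T_apply, chi', pr]
  split_ifs <;> ring

lemma T_mulR (i : Fin 4) (c : R) (x y : Fin 10 → R) :
    mulR c10 R (T i c x) (T i c y) = T i c (mulR c10 R x y) := by
  funext k
  simp only [mulR, T_apply]
  rw [Finset.mul_sum]
  refine Finset.sum_congr rfl fun i' _ => ?_
  rw [Finset.mul_sum]
  refine Finset.sum_congr rfl fun j _ => ?_
  unfold c10
  by_cases h : 2 ≤ j.1 ∧ 2 ≤ k.1 ∧ j.1 / 2 = k.1 / 2 ∧ j ≠ k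
  · rw [if_pos h]
    have hjk : chi' i c j = chi' i c k := by
      unfold chi'
      rw [h.2.2.1]
    rw [hjk]
    by_cases h0 : i' = 0
    · have h1 : chi' i c i' = 1 := by
        unfold chi'
        rw [h0, if_neg]
        simp
      rw [h1]
      ring
    · by_cases h1 : i' = 1
      · have h2 : chi' i c i' = 1 := by
          unfold chi'
          rw [h1, if_neg]
          simp
        rw [h2]
        ring
      · rw [if_neg h0, if_neg h1]
        simp
  · rw [if_neg h]
    simp

/-- the automorphism -/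
def Te (i : Fin 4) (c : Rˣ) : (Fin 10 → R) ≃ₗ[R] (Fin 10 → R) :=
  LinearEquiv.ofLinear (T i (c : R)) (T i ((c⁻¹ : Rˣ) : R))
    (LinearMap.ext fun u => by
      rw [LinearMap.comp_apply, T_mul, Units.mul_inv, T_one, LinearMap.id_apply])
    (LinearMap.ext fun u => by
      rw [LinearMap.comp_apply, T_mul, Units.inv_mul, T_one, LinearMap.id_apply])

/-- the quotient by the inverse image -/
noncomputable def quo (i : Fin 4) (c : Rˣ) (U : Submodule R (Fin 10 → R)) :
    ((Fin 10 → R) ⧸ U.comap (T i (c : R))) ≃ₗ[R] ((Fin 10 → R) ⧸ U) :=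
  Submodule.Quotient.equiv _ _ (Te i c) (by
    have h1 : ((Te i c : (Fin 10 → R) ≃ₗ[R] (Fin 10 → R)) : (Fin 10 → R) →ₗ[R] (Fin 10 → R)) =
        T i (c : R) := rfl
    rw [h1]
    exact Submodule.map_comap_eq_of_surjective (Te i c).surjective U)

/-- the action on the submodules -/
noncomputable def act (i : Fin 4) (c : Rˣ) (U : FinSub c10 R) : FinSub c10 R :=
  ⟨U.1.comap (T i (c : R)), fun x hx y hy => by
    rw [Submodule.mem_comap] at hx hy ⊢
    rw [← T_mulR]
    exact U.2.1 _ hx _ hy, by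
    have := U.2.2
    exact Finite.of_equiv _ (quo i c U.1).symm.toEquiv⟩

lemma mem_act {i : Fin 4} {c : Rˣ} {U : FinSub c10 R} {u : Fin 10 → R} :
    u ∈ (act i c U).1 ↔ T i (c : R) u ∈ U.1 := Iff.rfl

lemma card_act (i : Fin 4) (c : Rˣ) (U : FinSub c10 R) :
    Nat.card ((Fin 10 → R) ⧸ (act i c U).1) = Nat.card ((Fin 10 → R) ⧸ U.1) :=
  Nat.card_congr (quo i c U.1).toEquiv

lemma act_one (i : Fin 4) (U : FinSub c10 R) : act i 1 U = U := by
  apply Subtype.ext
  ext u
  rw [mem_act, Units.val_one, T_one]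

lemma act_mul (i : Fin 4) (c c' : Rˣ) (U : FinSub c10 R) :
    act i (c * c') U = act i c (act i c' U) := by
  apply Subtype.ext
  ext u
  rw [mem_act, mem_act, mem_act, T_mul, Units.val_mul, mul_comm (c : R)]

lemma act_fixed {i : Fin 4} {U : FinSub c10 R} (h : ∀ u ∈ U.1, pr i u ∈ U.1) (c : Rˣ) :
    act i c U = U := by
  have h1 : ∀ c : R, ∀ u ∈ U.1, T i c u ∈ U.1 := by
    intro c u hu
    rw [T_eq]
    exact U.1.add_mem hu (U.1.smul_mem _ (h u hu))
  apply Subtype.ext
  ext u
  rw [mem_act]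
  constructor
  · intro h2
    have h3 := h1 ((c⁻¹ : Rˣ) : R) _ h2
    rwa [T_mul, Units.inv_mul, T_one] at h3
  · exact h1 _ u

lemma fixed_act {i : Fin 4} {U : FinSub c10 R} {c : Rˣ} (hc : IsUnit ((c : R) - 1))
    (h : act i c U = U) : ∀ u ∈ U.1, pr i u ∈ U.1 := by
  intro u hu
  have h1 : T i (c : R) u ∈ U.1 := by
    rw [← mem_act, h]
    exact hu
  rw [T_eq] at h1
  have h2 := (U.1.add_mem_iff_right hu).1 h1
  obtain ⟨w, hw⟩ := hc
  have h3 := U.1.smul_mem (↑w⁻¹ : R) h2
  rwa [smul_smul, ← hw, Units.inv_mul, one_smul] at h3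

end

end TO1

open TO1

theorem to1 : S_TO1 := by
  intro R _ _ D G _ _ θ hθ n hfin
  classical
  let X : ℕ → Type := fun k => {U : FinSub c10 R // Nat.card ((Fin 10 → R) ⧸ U.1) = D.q ^ n ∧
    ∀ i : Fin 4, i.1 < k → ∀ u ∈ U.1, pr i u ∈ U.1}
  have hXfin : ∀ k, Finite (X k) := by
    intro k
    exact Finite.of_injective (fun U : X k =>
      (⟨U.1, U.2.1⟩ : {U : FinSub c10 R // Nat.card ((Fin 10 → R) ⧸ U.1) = D.q ^ n}))
      (fun U V h => by
        have h2 := congrArg Subtype.val h
        exact Subtype.ext h2)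
  have hstep : ∀ k : ℕ, k < 4 → (Nat.card G : ℤ) ∣ (Nat.card (X k) : ℤ) - Nat.card (X (k + 1)) := by
    intro k hk
    have := hXfin k
    have h1 := free_dvd (G := G) (X := X k) (fun g U => ⟨act ⟨k, hk⟩ (θ g) U.1, by
        rw [card_act]
        exact U.2.1, fun i hi u hu => by
        rw [mem_act] at hu ⊢
        rw [T_pr]
        exact U.2.2 i hi _ hu⟩)
      (fun U => Subtype.ext (by
        change act ⟨k, hk⟩ (θ 1) U.1 = U.1
        rw [map_one, act_one]))
      (fun g h U => Subtype.ext (by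
        change act ⟨k, hk⟩ (θ (g * h)) U.1 = act ⟨k, hk⟩ (θ g) (act ⟨k, hk⟩ (θ h) U.1)
        rw [map_mul, act_mul]))
      (fun U => ∀ u ∈ U.1.1, pr ⟨k, hk⟩ u ∈ U.1.1)
      (fun U hU g => Subtype.ext (act_fixed hU (θ g)))
      (fun U hU g hg => by
        by_contra hg1
        exact hU (fixed_act (hθ g hg1) (congrArg Subtype.val hg)))
    have h2 : Nat.card {U : X k // ∀ u ∈ U.1.1, pr ⟨k, hk⟩ u ∈ U.1.1} = Nat.card (X (k + 1)) := by
      refine Nat.card_congr
        { toFun := fun U => ⟨U.1.1, U.1.2.1, fun i hi u hu => ?_⟩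
          invFun := fun U => ⟨⟨U.1, U.2.1, fun i hi => U.2.2 i (by omega)⟩,
            U.2.2 ⟨k, hk⟩ (Nat.lt_succ_self k)⟩
          left_inv := fun U => rfl
          right_inv := fun U => rfl }
      rcases Nat.lt_succ_iff_lt_or_eq.1 hi with h3 | h3
      · exact U.1.2.2 i h3 u hu
      · have h4 : i = ⟨k, hk⟩ := Fin.ext h3
        rw [h4]
        exact U.2 u hu
    rw [h2] at h1
    exact h1
  have h0 : Nat.card (X 0) = acount c10 R D.q n := by
    unfold acount
    refine Nat.card_congr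
      { toFun := fun U => ⟨U.1, U.2.1⟩
        invFun := fun U => ⟨U.1, U.2, fun i hi => absurd hi (Nat.not_lt_zero _)⟩
        left_inv := fun U => rfl
        right_inv := fun U => rfl }
  have h4 : Nat.card (X 4) = Nat.card {U : FinSub c10 R // Nat.card ((Fin 10 → R) ⧸ U.1) = D.q ^ n ∧
      ∀ i : Fin 4, ∀ u ∈ U.1, (fun a : Fin 10 => if a.1 / 2 = i.1 + 1 then u a else 0) ∈ U.1} := by
    refine Nat.card_congr
      { toFun := fun U => ⟨U.1, U.2.1, fun i u hu => U.2.2 i i.2 u hu⟩
        invFun := fun U => ⟨U.1, U.2.1, fun i _ u hu => U.2.2 i u hu⟩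
        left_inv := fun U => rfl
        right_inv := fun U => rfl }
  rw [← h0, ← h4]
  have h5 := dvd_add (dvd_add (dvd_add (hstep 0 (by norm_num)) (hstep 1 (by norm_num)))
    (hstep 2 (by norm_num))) (hstep 3 (by norm_num))
  have e : (Nat.card (X 0) : ℤ) - Nat.card (X (0 + 1)) + ((Nat.card (X 1) : ℤ) - Nat.card (X (1 + 1))) +
      ((Nat.card (X 2) : ℤ) - Nat.card (X (2 + 1))) + ((Nat.card (X 3) : ℤ) - Nat.card (X (3 + 1))) =
      (Nat.card (X 0) : ℤ) - Nat.card (X 4) := by
    norm_num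
  rwa [e] at h5

end Pool.Agent.T2h77U
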