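import Pool.Agent.T2h77U.Stm2

/-! TO2: graded subalgebras (helper60). -/

set_option linter.all false

namespace Pool.Agent.T2h77U

open Pool.Agent.H260TZ

namespace TO2

variable {R : Type} [CommRing R]

/-- the first coordinate of the block `i` -/
def h0 (i : Fin 4) : Fin 10 := ⟨2 + 2 * i.1, by omega⟩

/-- the second coordinate of the block `i` -/
def h1 (i : Fin 4) : Fin 10 := ⟨3 + 2 * i.1, by omega⟩

lemma mulR_lt (x y : Fin 10 → R) (k : Fin 10) (hk : k.1 < 2) : mulR c10 R x y k = 0 := by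
  unfold mulR
  refine Finset.sum_eq_zero fun i _ => Finset.sum_eq_zero fun j _ => ?_
  unfold c10
  rw [if_neg (by omega)]
  simp

lemma mulR_blk (x y : Fin 10 → R) (k j : Fin 10) (hk : 2 ≤ k.1) (hj : 2 ≤ j.1)
    (hjk : j.1 / 2 = k.1 / 2) (hne : j ≠ k) :
    mulR c10 R x y k = (x 0 - ((k.1 - 2 : ℕ) : R) * x 1) * y j := by
  unfold mulR
  have h : ∀ i : Fin 10, ∑ j' : Fin 10, (c10 i j' k : R) * (x i * y j') =
      ((if i = 0 then 1 else if i = 1 then -((k.1 : ℤ) - 2) else 0 : ℤ) : R) * (x i * y j) := by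
    intro i
    rw [Finset.sum_eq_single j]
    · unfold c10
      rw [if_pos ⟨hj, hk, hjk, hne⟩]
    · intro j' _ hj'
      unfold c10
      rw [if_neg]
      · simp
      · rintro ⟨e1, e2, e3, e4⟩
        have e5 : j'.1 ≠ k.1 := fun h => e4 (Fin.ext h)
        have e6 : j.1 ≠ k.1 := fun h => hne (Fin.ext h)
        exact hj' (Fin.ext (by omega))
    · intro h
      exact absurd (Finset.mem_univ j) h
  rw [Finset.sum_congr rfl fun i _ => h i, Fin.sum_univ_succ, Fin.sum_univ_succ]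
  have h2 : ∑ i : Fin 8, ((if i.succ.succ = (0 : Fin 10) then 1 else if i.succ.succ = (1 : Fin 10) then
      -((k.1 : ℤ) - 2) else 0 : ℤ) : R) * (x i.succ.succ * y j) = 0 := by
    refine Finset.sum_eq_zero fun i _ => ?_
    rw [if_neg, if_neg]
    · simp
    · intro h
      have := congrArg Fin.val h
      simp at this
    · intro h
      have := congrArg Fin.val h
      simp at this
  rw [h2]
  have h3 : (Fin.succ 0 : Fin 10) = 1 := rfl
  rw [h3, if_pos rfl, if_neg (by decide), if_pos rfl]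
  have h4 : ((k.1 - 2 : ℕ) : R) = ((((k.1 : ℤ) - 2 : ℤ)) : R) := by
    rw [← Int.cast_natCast, Nat.cast_sub hk]
    push_cast
    rfl
  rw [h4]
  push_cast
  ring

lemma mulR_h0 (x y : Fin 10 → R) (i : Fin 4) :
    mulR c10 R x y (h0 i) = (x 0 - ((2 * i.1 : ℕ) : R) * x 1) * y (h1 i) := by
  rw [mulR_blk x y (h0 i) (h1 i) (by simp [h0]) (by simp [h1]; omega) (by simp only [h0, h1]; omega)
    (fun h => by have := congrArg Fin.val h; simp only [h0, h1] at this; omega)]
  have e : (h0 i).1 - 2 = 2 * i.1 := by simp only [h0]; omega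
  rw [e]

lemma mulR_h1 (x y : Fin 10 → R) (i : Fin 4) :
    mulR c10 R x y (h1 i) = (x 0 - ((2 * i.1 + 1 : ℕ) : R) * x 1) * y (h0 i) := by
  rw [mulR_blk x y (h1 i) (h0 i) (by simp [h1]; omega) (by simp [h0]) (by simp only [h0, h1]; omega)
    (fun h => by have := congrArg Fin.val h; simp only [h0, h1] at this; omega)]
  have e : (h1 i).1 - 2 = 2 * i.1 + 1 := by simp only [h1]; omega
  rw [e]

/-- every index is of one of the three kinds -/
lemma idx_cases (a : Fin 10) : a = 0 ∨ a = 1 ∨ ∃ i : Fin 4, a = h0 i ∨ a = h1 i := by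
  revert a
  decide

/-- coordinates 0, 1 -/
def e0 : (Fin 10 → R) →ₗ[R] R × R := (LinearMap.proj 0).prod (LinearMap.proj 1)

/-- coordinates of the block `i` -/
def ev' (i : Fin 4) : (Fin 10 → R) →ₗ[R] R × R :=
  (LinearMap.proj (h0 i)).prod (LinearMap.proj (h1 i))

lemma e0_apply (u : Fin 10 → R) : e0 u = (u 0, u 1) := rfl

lemma ev'_apply (i : Fin 4) (u : Fin 10 → R) : ev' i u = (u (h0 i), u (h1 i)) := rfl

/-- the graded submodule -/
def UU (W : Submodule R (R × R)) (V : Fin 4 → Submodule R (R × R)) : Submodule R (Fin 10 → R) :=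
  W.comap e0 ⊓ ⨅ i, (V i).comap (ev' i)

lemma mem_UU {W : Submodule R (R × R)} {V : Fin 4 → Submodule R (R × R)} {u : Fin 10 → R} :
    u ∈ UU W V ↔ (u 0, u 1) ∈ W ∧ ∀ i, (u (h0 i), u (h1 i)) ∈ V i := by
  unfold UU
  rw [Submodule.mem_inf, Submodule.mem_iInf]
  rfl

/-- the vector with coordinates `e` at 0, 1 -/
def w0 : (R × R) →ₗ[R] (Fin 10 → R) where
  toFun := fun e a => if a = 0 then e.1 else if a = 1 then e.2 else 0
  map_add' := fun e f => by
    funext a
    simp only [Pi.add_apply, Prod.fst_add, Prod.snd_add]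
    split_ifs <;> simp
  map_smul' := fun r e => by
    funext a
    simp only [Pi.smul_apply, smul_eq_mul, RingHom.id_apply, Prod.smul_fst, Prod.smul_snd]
    split_ifs <;> simp

/-- the vector with coordinates `m` in the block `i` -/
def wi (i : Fin 4) : (R × R) →ₗ[R] (Fin 10 → R) where
  toFun := fun m a => if a = h0 i then m.1 else if a = h1 i then m.2 else 0
  map_add' := fun e f => by
    funext a
    simp only [Pi.add_apply, Prod.fst_add, Prod.snd_add]
    split_ifs <;> simp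
  map_smul' := fun r e => by
    funext a
    simp only [Pi.smul_apply, smul_eq_mul, RingHom.id_apply, Prod.smul_fst, Prod.smul_snd]
    split_ifs <;> simp

lemma w0_apply (e : R × R) (a : Fin 10) :
    w0 e a = if a = 0 then e.1 else if a = 1 then e.2 else 0 := rfl

lemma wi_apply (i : Fin 4) (m : R × R) (a : Fin 10) :
    wi i m a = if a = h0 i then m.1 else if a = h1 i then m.2 else 0 := rfl

lemma dec1 : ∀ i : Fin 4, h0 i ≠ 0 ∧ h0 i ≠ 1 ∧ h1 i ≠ 0 ∧ h1 i ≠ 1 := by decide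

lemma dec2 : ∀ i j : Fin 4, h0 i ≠ h1 j ∧ (h0 i = h0 j ↔ i = j) ∧ (h1 i = h1 j ↔ i = j) := by decide

lemma w0_h0 (e : R × R) (i : Fin 4) : w0 e (h0 i) = 0 := by
  rw [w0_apply, if_neg (dec1 i).1, if_neg (dec1 i).2.1]

lemma w0_h1 (e : R × R) (i : Fin 4) : w0 e (h1 i) = 0 := by
  rw [w0_apply, if_neg (dec1 i).2.2.1, if_neg (dec1 i).2.2.2]

lemma w0_0 (e : R × R) : w0 e 0 = e.1 := rfl

lemma w0_1 (e : R × R) : w0 e 1 = e.2 := rfl

lemma wi_0 (i : Fin 4) (m : R × R) : wi i m 0 = 0 := by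
  rw [wi_apply, if_neg (dec1 i).1.symm, if_neg (dec1 i).2.2.1.symm]

lemma wi_1 (i : Fin 4) (m : R × R) : wi i m 1 = 0 := by
  rw [wi_apply, if_neg (dec1 i).2.1.symm, if_neg (dec1 i).2.2.2.symm]

lemma wi_h0 (i j : Fin 4) (m : R × R) : wi i m (h0 j) = if j = i then m.1 else 0 := by
  rw [wi_apply, if_neg (dec2 j i).1]
  by_cases h : j = i
  · rw [if_pos ((dec2 j i).2.1.2 h), if_pos h]
  · rw [if_neg (fun h' => h ((dec2 j i).2.1.1 h')), if_neg h]

lemma wi_h1 (i j : Fin 4) (m : R × R) : wi i m (h1 j) = if j = i then m.2 else 0 := by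
  rw [wi_apply, if_neg (fun h => (dec2 i j).1 h.symm)]
  by_cases h : j = i
  · rw [if_pos ((dec2 j i).2.2.2 h), if_pos h]
  · rw [if_neg (fun h' => h ((dec2 j i).2.2.1 h')), if_neg h]

lemma ext10 {u v : Fin 10 → R} (ha : u 0 = v 0) (hb : u 1 = v 1)
    (hc : ∀ i, u (h0 i) = v (h0 i)) (hd : ∀ i, u (h1 i) = v (h1 i)) : u = v := by
  funext a
  rcases idx_cases a with rfl | rfl | ⟨i, rfl | rfl⟩
  · exact ha
  · exact hb
  · exact hc i
  · exact hd i

/-- the projection -/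
def pr (i : Fin 4) (u : Fin 10 → R) : Fin 10 → R := fun a => if a.1 / 2 = i.1 + 1 then u a else 0

lemma pr_eq (i : Fin 4) (u : Fin 10 → R) : pr i u = wi i (u (h0 i), u (h1 i)) := by
  refine ext10 ?_ ?_ (fun j => ?_) (fun j => ?_)
  · rw [wi_0]
    unfold pr
    rw [if_neg (by simp)]
  · rw [wi_1]
    unfold pr
    rw [if_neg (by simp)]
  · rw [wi_h0]
    unfold pr
    by_cases h : j = i
    · rw [if_pos h, h, if_pos]
      simp only [h0]
      omega
    · rw [if_neg h, if_neg]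
      intro h'
      apply h
      simp only [h0] at h'
      exact Fin.ext (by omega)
  · rw [wi_h1]
    unfold pr
    by_cases h : j = i
    · rw [if_pos h, h, if_pos]
      simp only [h1]
      omega
    · rw [if_neg h, if_neg]
      intro h'
      apply h
      simp only [h1] at h'
      exact Fin.ext (by omega)

lemma decomp (u : Fin 10 → R) : u = w0 (u 0, u 1) + ∑ i, wi i (u (h0 i), u (h1 i)) := by
  refine ext10 ?_ ?_ (fun j => ?_) (fun j => ?_)
  · rw [Pi.add_apply, Finset.sum_apply, w0_0, Finset.sum_eq_zero fun i _ => wi_0 i _, add_zero]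
  · rw [Pi.add_apply, Finset.sum_apply, w0_1, Finset.sum_eq_zero fun i _ => wi_1 i _, add_zero]
  · rw [Pi.add_apply, Finset.sum_apply, w0_h0, zero_add,
      Finset.sum_congr rfl fun i _ => wi_h0 i j _]
    simp
  · rw [Pi.add_apply, Finset.sum_apply, w0_h1, zero_add,
      Finset.sum_congr rfl fun i _ => wi_h1 i j _]
    simp

/-- the map to the product of the quotients -/
noncomputable def quot (W : Submodule R (R × R)) (V : Fin 4 → Submodule R (R × R)) :
    (Fin 10 → R) →ₗ[R] ((R × R) ⧸ W) × (∀ i, (R × R) ⧸ V i) :=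
  (W.mkQ.comp e0).prod (LinearMap.pi fun i => (V i).mkQ.comp (ev' i))

lemma quot_surj (W : Submodule R (R × R)) (V : Fin 4 → Submodule R (R × R)) :
    Function.Surjective (quot W V) := by
  rintro ⟨a, b⟩
  obtain ⟨e, rfl⟩ := W.mkQ_surjective a
  choose m hm using fun i => (V i).mkQ_surjective (b i)
  refine ⟨w0 e + ∑ i, wi i (m i), ?_⟩
  refine Prod.ext ?_ (funext fun j => ?_)
  · change W.mkQ ((w0 e + ∑ i, wi i (m i)) 0, (w0 e + ∑ i, wi i (m i)) 1) = W.mkQ e
    congr 1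
    refine Prod.ext ?_ ?_
    · change (w0 e + ∑ i, wi i (m i)) 0 = e.1
      rw [Pi.add_apply, Finset.sum_apply, w0_0, Finset.sum_eq_zero fun i _ => wi_0 i _, add_zero]
    · change (w0 e + ∑ i, wi i (m i)) 1 = e.2
      rw [Pi.add_apply, Finset.sum_apply, w0_1, Finset.sum_eq_zero fun i _ => wi_1 i _, add_zero]
  · change _ = b j
    rw [← hm j]
    change (V j).mkQ ((w0 e + ∑ i, wi i (m i)) (h0 j), (w0 e + ∑ i, wi i (m i)) (h1 j)) =
      (V j).mkQ (m j)
    congr 1
    refine Prod.ext ?_ ?_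
    · change (w0 e + ∑ i, wi i (m i)) (h0 j) = (m j).1
      rw [Pi.add_apply, Finset.sum_apply, w0_h0, zero_add,
        Finset.sum_congr rfl fun i _ => wi_h0 i j _]
      simp
    · change (w0 e + ∑ i, wi i (m i)) (h1 j) = (m j).2
      rw [Pi.add_apply, Finset.sum_apply, w0_h1, zero_add,
        Finset.sum_congr rfl fun i _ => wi_h1 i j _]
      simp

lemma idx_UU (W : Submodule R (R × R)) (V : Fin 4 → Submodule R (R × R)) :
    idx (UU W V) = idx W * ∏ i, idx (V i) := by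
  have h := idx_ker (quot W V) (quot_surj W V)
  have e : LinearMap.ker (quot W V) = UU W V := by
    ext u
    rw [LinearMap.mem_ker, mem_UU]
    constructor
    · intro h
      have h2 : W.mkQ (u 0, u 1) = 0 := congrArg Prod.fst h
      have h3 : ∀ i, (V i).mkQ (u (h0 i), u (h1 i)) = 0 := fun i =>
        congrFun (congrArg Prod.snd h) i
      refine ⟨?_, fun i => ?_⟩
      · rwa [Submodule.mkQ_apply, Submodule.Quotient.mk_eq_zero] at h2
      · have h4 := h3 i
        rwa [Submodule.mkQ_apply, Submodule.Quotient.mk_eq_zero] at h4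
    · rintro ⟨h2, h3⟩
      refine Prod.ext ?_ (funext fun i => ?_)
      · change W.mkQ (u 0, u 1) = 0
        rwa [Submodule.mkQ_apply, Submodule.Quotient.mk_eq_zero]
      · change (V i).mkQ (u (h0 i), u (h1 i)) = 0
        rw [Submodule.mkQ_apply, Submodule.Quotient.mk_eq_zero]
        exact h3 i
  rw [e, Nat.card_prod, Nat.card_pi] at h
  exact h

lemma UU_closed {W : Submodule R (R × R)} {V : Fin 4 → Submodule R (R × R)}
    (h : ∀ i : Fin 4, Cl ((2 * i.1 : ℕ) : R) ((2 * i.1 + 1 : ℕ) : R) W (V i)) :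
    ∀ x ∈ UU W V, ∀ y ∈ UU W V, mulR c10 R x y ∈ UU W V := by
  intro x hx y hy
  rw [mem_UU] at hx hy ⊢
  refine ⟨?_, fun i => ?_⟩
  · rw [mulR_lt x y 0 (by decide), mulR_lt x y 1 (by decide)]
    exact W.zero_mem
  · rw [mulR_h0, mulR_h1]
    exact h i _ hx.1 _ (hy.2 i)

lemma w0_mem_UU {W : Submodule R (R × R)} {V : Fin 4 → Submodule R (R × R)} {e : R × R} :
    w0 e ∈ UU W V ↔ e ∈ W := by
  rw [mem_UU]
  constructor
  · rintro ⟨h, -⟩
    rwa [w0_0, w0_1] at h
  · intro h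
    refine ⟨by rwa [w0_0, w0_1], fun i => ?_⟩
    rw [w0_h0, w0_h1]
    exact (V i).zero_mem

lemma wi_mem_UU {W : Submodule R (R × R)} {V : Fin 4 → Submodule R (R × R)} {i : Fin 4}
    {m : R × R} : wi i m ∈ UU W V ↔ m ∈ V i := by
  rw [mem_UU]
  constructor
  · rintro ⟨-, h⟩
    have h2 := h i
    rwa [wi_h0, wi_h1, if_pos rfl, if_pos rfl] at h2
  · intro h
    refine ⟨by rw [wi_0, wi_1]; exact W.zero_mem, fun j => ?_⟩
    rw [wi_h0, wi_h1]
    by_cases hj : j = i
    · rw [if_pos hj, if_pos hj, hj]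
      exact h
    · rw [if_neg hj, if_neg hj]
      exact (V j).zero_mem

lemma UU_graded {W : Submodule R (R × R)} {V : Fin 4 → Submodule R (R × R)} (i : Fin 4)
    (u : Fin 10 → R) (hu : u ∈ UU W V) : pr i u ∈ UU W V := by
  rw [pr_eq, wi_mem_UU]
  exact (mem_UU.1 hu).2 i

/-- a graded submodule is of the form `UU` -/
lemma graded_eq {U : Submodule R (Fin 10 → R)} (hU : ∀ i : Fin 4, ∀ u ∈ U, pr i u ∈ U) :
    UU (U.comap w0) (fun i => U.comap (wi i)) = U := by
  ext u
  rw [mem_UU]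
  simp only [Submodule.mem_comap]
  constructor
  · rintro ⟨h, h'⟩
    rw [decomp u]
    exact U.add_mem h (U.sum_mem fun i _ => h' i)
  · intro h
    have h2 : ∀ i, wi i (u (h0 i), u (h1 i)) ∈ U := fun i => by
      rw [← pr_eq]
      exact hU i u h
    refine ⟨?_, h2⟩
    have h3 : w0 (u 0, u 1) = u - ∑ i, wi i (u (h0 i), u (h1 i)) := by
      conv_rhs => rw [decomp u]
      have e : ∀ i, wi i ((w0 (u 0, u 1) + ∑ i, wi i (u (h0 i), u (h1 i))) (h0 i),
          (w0 (u 0, u 1) + ∑ i, wi i (u (h0 i), u (h1 i))) (h1 i)) =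
          wi i (u (h0 i), u (h1 i)) := by
        intro i
        rw [← decomp u]
      rw [Finset.sum_congr rfl fun i _ => e i, add_sub_cancel_right]
    rw [h3]
    exact U.sub_mem h (U.sum_mem fun i _ => h2 i)

lemma graded_cl {U : Submodule R (Fin 10 → R)} (hU : ∀ x ∈ U, ∀ y ∈ U, mulR c10 R x y ∈ U)
    (i : Fin 4) : Cl ((2 * i.1 : ℕ) : R) ((2 * i.1 + 1 : ℕ) : R) (U.comap w0) (U.comap (wi i)) := by
  intro e he m hm
  rw [Submodule.mem_comap] at he hm ⊢
  have h := hU _ he _ hm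
  have e2 : mulR c10 R (w0 e) (wi i m) = wi i ((e.1 - ((2 * i.1 : ℕ) : R) * e.2) * m.2,
      (e.1 - ((2 * i.1 + 1 : ℕ) : R) * e.2) * m.1) := by
    refine ext10 ?_ ?_ (fun j => ?_) (fun j => ?_)
    · rw [mulR_lt _ _ 0 (by decide), wi_0]
    · rw [mulR_lt _ _ 1 (by decide), wi_1]
    · rw [mulR_h0, wi_h0, wi_h1, w0_0, w0_1]
      by_cases hj : j = i
      · rw [if_pos hj, if_pos hj, hj]
      · rw [if_neg hj, if_neg hj, mul_zero]
    · rw [mulR_h1, wi_h0, wi_h1, w0_0, w0_1]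
      by_cases hj : j = i
      · rw [if_pos hj, if_pos hj, hj]
      · rw [if_neg hj, if_neg hj, mul_zero]
  rwa [e2] at h

end TO2

open TO2

theorem to2 : S_TO2 := by
  intro R _ _ D n
  classical
  unfold gcount
  symm
  have hq : D.q ^ n ≠ 0 := by
    have := D.two_le
    positivity
  refine Nat.card_eq_of_bijective (fun x : {x : Lat R × (Fin 4 → Lat R) //
      (∀ i : Fin 4, Cl ((2 * i.1 : ℕ) : R) ((2 * i.1 + 1 : ℕ) : R) x.1.1 (x.2 i).1) ∧
      idx x.1.1 * ∏ i, idx (x.2 i).1 = D.q ^ n} =>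
    (⟨⟨UU x.1.1.1 (fun i => (x.1.2 i).1), UU_closed x.2.1, ?_⟩, ?_, fun i u hu => ?_⟩ :
      {U : FinSub c10 R // Nat.card ((Fin 10 → R) ⧸ U.1) = D.q ^ n ∧
      ∀ i : Fin 4, ∀ u ∈ U.1, (fun a : Fin 10 => if a.1 / 2 = i.1 + 1 then u a else 0) ∈ U.1})) ⟨?_, ?_⟩
  · apply Nat.finite_of_card_ne_zero
    have h2 : Nat.card ((Fin 10 → R) ⧸ UU x.1.1.1 (fun i => (x.1.2 i).1)) = D.q ^ n :=
      (idx_UU _ _).trans x.2.2
    rw [h2]
    exact hq
  · exact (idx_UU _ _).trans x.2.2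
  · exact UU_graded i u hu
  · intro x y h
    have h2 : UU x.1.1.1 (fun i => (x.1.2 i).1) = UU y.1.1.1 (fun i => (y.1.2 i).1) := by
      have h3 := congrArg Subtype.val h
      exact congrArg Subtype.val h3
    apply Subtype.ext
    refine Prod.ext (Subtype.ext ?_) (funext fun i => Subtype.ext ?_)
    · ext e
      rw [← w0_mem_UU (W := x.1.1.1) (V := fun i => (x.1.2 i).1), h2, w0_mem_UU]
    · ext m
      rw [← wi_mem_UU (W := x.1.1.1) (V := fun i => (x.1.2 i).1), h2, wi_mem_UU]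
  · rintro ⟨⟨U, hcl, hfin⟩, hcard, hgr⟩
    have hgr' : ∀ i : Fin 4, ∀ u ∈ U, pr i u ∈ U := hgr
    have hU := graded_eq hgr'
    have h2 : idx (U.comap w0) * ∏ i, idx (U.comap (wi i)) = D.q ^ n := by
      rw [← idx_UU, hU]
      exact hcard
    have h3 : idx (U.comap w0) ≠ 0 := by
      intro h
      rw [h, zero_mul] at h2
      exact hq h2.symm
    have h4 : ∀ i, idx (U.comap (wi i)) ≠ 0 := by
      intro i h
      rw [Finset.prod_eq_zero (Finset.mem_univ i) h, mul_zero] at h2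
      exact hq h2.symm
    refine ⟨⟨(⟨U.comap w0, h3⟩, fun i => ⟨U.comap (wi i), h4 i⟩), fun i => graded_cl hcl i, h2⟩, ?_⟩
    apply Subtype.ext
    apply Subtype.ext
    exact hU

end Pool.Agent.T2h77U
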