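import Pool.Agent.T2h77U.Stm2

/-! TOR (helper11). -/

set_option autoImplicit false

namespace Pool.Agent.T2h77U

open Polynomial Filter Topology Pool.Agent.H260TZ

theorem tor (h1 : S_TO1) (h2 : S_TO2) : S_TOR := by
  intro R _ _ D G _ _ θ hθ n hn
  rw [← h2 R D n]
  exact h1 R D G θ hθ n hn

end Pool.Agent.T2h77U
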