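import Pool.Agent.T2h77U.Stm3

/-! TPC: the top coefficient of the `L`-polynomial (helper38). -/

set_option autoImplicit false
set_option linter.all false

namespace Pool.Agent.T2h77U

open Polynomial

namespace TPC

variable {F : Type} [Field F] [Fintype F] [DecidableEq F]

/-- the sums of the products of characters over `u_1 + … + u_r = c` -/
def J : ℕ → F → ℤ
  | 0, c => if c = 0 then 1 else 0
  | r + 1, c => ∑ a : F, quadraticChar F a * J r (c - a)

theorem J_succ (r : ℕ) (c : F) : J (r + 1) c = ∑ a : F, quadraticChar F a * J r (c - a) := rfl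

theorem J_eq (r : ℕ) (c : F) :
    ∑ u : Fin r → F, (if ∑ i, u i = c then ∏ i, quadraticChar F (u i) else 0) = J r c := by
  induction r generalizing c with
  | zero =>
    rw [Fintype.sum_unique]
    simp [J, eq_comm]
  | succ r ih =>
    rw [← (Fin.consEquiv fun _ : Fin (r + 1) => F).sum_comp, Fintype.sum_prod_type, J_succ]
    refine Finset.sum_congr rfl fun a _ => ?_
    rw [← ih, Finset.mul_sum]
    refine Finset.sum_congr rfl fun u _ => ?_
    simp only [Fin.consEquiv_apply, Fin.sum_univ_succ, Fin.prod_univ_succ, Fin.cons_zero,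
      Fin.cons_succ, eq_sub_iff_add_eq']
    rw [mul_ite, mul_zero]

theorem J_scale (r : ℕ) (t c : F) (ht : t ≠ 0) :
    J r (t * c) = quadraticChar F t ^ r * J r c := by
  induction r generalizing c with
  | zero => simp [J, ht]
  | succ r ih =>
    rw [J_succ, J_succ, ← Equiv.sum_comp (Equiv.mulLeft₀ t ht)
      (fun a => quadraticChar F a * J r (t * c - a)), Finset.mul_sum]
    refine Finset.sum_congr rfl fun a _ => ?_
    rw [Equiv.mulLeft₀_apply, map_mul, ← mul_sub, ih]
    ring

theorem J_sum (hF : ringChar F ≠ 2) (r : ℕ) : ∑ c : F, J (r + 1) c = 0 := by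
  have h1 : ∀ s, ∑ c : F, J (s + 1) c = (∑ a : F, quadraticChar F a) * ∑ c : F, J s c := by
    intro s
    simp only [J_succ]
    rw [Finset.sum_comm, Finset.sum_mul]
    refine Finset.sum_congr rfl fun a _ => ?_
    rw [← Finset.mul_sum]
    congr 1
    exact (Equiv.subRight a).sum_comp (fun c => J s c)
  rw [h1, quadraticChar_sum_zero hF, zero_mul]

theorem J_one : J 1 (1 : F) = 1 := by
  show ∑ a : F, quadraticChar F a * (if 1 - a = 0 then 1 else 0) = 1
  rw [Finset.sum_eq_single 1]
  · simp
  · intro a _ ha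
    rw [if_neg, mul_zero]
    intro h
    exact ha (sub_eq_zero.1 h).symm
  · intro h
    exact absurd (Finset.mem_univ _) h

theorem J_even (r : ℕ) (hr : Even r) (c : F) (hc : c ≠ 0) :
    J r c = J r (1 : F) := by
  have h := J_scale r c 1 hc
  rw [mul_one] at h
  obtain ⟨k, hk⟩ := hr
  have h2 : quadraticChar F c ^ r = 1 := by
    rw [hk, ← two_mul, pow_mul, quadraticChar_sq_one hc, one_pow]
  rw [h, h2, one_mul]

theorem J_odd_zero (hF : ringChar F ≠ 2) (r : ℕ) (hr : Odd r) : J r (0 : F) = 0 := by
  obtain ⟨t, ht⟩ := quadraticChar_exists_neg_one hF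
  have ht0 : t ≠ 0 := by
    rintro rfl
    rw [quadraticChar_zero] at ht
    norm_num at ht
  have h := J_scale r t 0 ht0
  rw [mul_zero, ht, hr.neg_one_pow] at h
  linarith

theorem J_odd (hF : ringChar F ≠ 2) (r : ℕ) (hr : Odd r) (c : F) :
    J r c = quadraticChar F c * J r (1 : F) := by
  by_cases hc : c = 0
  · rw [hc, J_odd_zero hF r hr, quadraticChar_zero, zero_mul]
  · have h := J_scale r c 1 hc
    rw [mul_one] at h
    obtain ⟨k, hk⟩ := hr
    have h2 : quadraticChar F c ^ r = quadraticChar F c := by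
      rw [hk, pow_succ, pow_mul, quadraticChar_sq_one hc, one_pow, one_mul]
    rw [h, h2]

/-- the step from odd to even -/
theorem J_step_odd (hF : ringChar F ≠ 2) (r : ℕ) (hr : Odd r) :
    J (r + 1) (1 : F) = -(quadraticChar F (-1)) * J r (1 : F) := by
  show ∑ a : F, quadraticChar F a * J r (1 - a) = _
  have h1 : ∀ a : F, quadraticChar F a * J r (1 - a) =
      (quadraticChar F a * quadraticChar F (1 - a)) * J r (1 : F) := by
    intro a
    rw [J_odd hF r hr]
    ring
  rw [Finset.sum_congr rfl fun a _ => h1 a, ← Finset.sum_mul]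
  congr 1
  have h2 := jacobiSum_nontrivial_inv (quadraticChar_ne_one hF)
  rw [(quadraticChar_isQuadratic F).inv] at h2
  exact h2

/-- the step from even to odd -/
theorem J_step_even (hF : ringChar F ≠ 2) (r : ℕ) (hr : Even r) (hr0 : 1 ≤ r) :
    J (r + 1) (1 : F) = -(Fintype.card F : ℤ) * J r (1 : F) := by
  classical
  have h0 : J r (0 : F) = -((Fintype.card F : ℤ) - 1) * J r (1 : F) := by
    obtain ⟨s, rfl⟩ : ∃ s, r = s + 1 := ⟨r - 1, by omega⟩
    have h := J_sum hF s
    rw [← Finset.add_sum_erase _ _ (Finset.mem_univ (0 : F))] at h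
    have h1 : ∑ c ∈ Finset.univ.erase (0 : F), J (s + 1) c =
        ((Fintype.card F : ℤ) - 1) * J (s + 1) (1 : F) := by
      rw [Finset.sum_congr rfl fun c hc => J_even (s + 1) hr c (Finset.ne_of_mem_erase hc),
        Finset.sum_const, Finset.card_erase_of_mem (Finset.mem_univ _), nsmul_eq_mul,
        Finset.card_univ, Nat.cast_sub Fintype.card_pos, Nat.cast_one]
    rw [h1] at h
    linarith
  show ∑ a : F, quadraticChar F a * J r (1 - a) = _
  have h1 := quadraticChar_sum_zero (F := F) hF
  rw [← Finset.add_sum_erase _ _ (Finset.mem_univ (1 : F))] at h1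
  rw [← Finset.add_sum_erase _ _ (Finset.mem_univ (1 : F)), sub_self, h0,
    Finset.sum_congr rfl fun a ha => by
      rw [J_even r hr (1 - a) (sub_ne_zero.2 (Finset.ne_of_mem_erase ha).symm)],
    ← Finset.sum_mul]
  have h3 : quadraticChar F (1 : F) = 1 := map_one _
  rw [h3] at h1 ⊢
  have h2 : ∑ a ∈ Finset.univ.erase (1 : F), quadraticChar F a = -1 := by linarith
  rw [h2]
  ring

theorem J_abs (hF : ringChar F ≠ 2) (k : ℕ) :
    (J (2 * k + 2) (1 : F)).natAbs = Fintype.card F ^ k := by
  have hm : (quadraticChar F (-1)).natAbs = 1 := by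
    rcases quadraticChar_dichotomy (F := F) (a := -1) (neg_ne_zero.2 one_ne_zero) with h | h <;>
      rw [h] <;> rfl
  induction k with
  | zero =>
    have h := J_step_odd (F := F) hF 1 odd_one
    rw [show 2 * 0 + 2 = 1 + 1 from rfl, h, Int.natAbs_mul, Int.natAbs_neg, hm, J_one]
    rfl
  | succ k ih =>
    have h1 := J_step_odd (F := F) hF (2 * k + 2 + 1) ⟨k + 1, by ring⟩
    have h2 := J_step_even (F := F) hF (2 * k + 2) ⟨k + 1, by ring⟩ (by omega)
    rw [show 2 * (k + 1) + 2 = 2 * k + 2 + 1 + 1 by ring, h1, h2, Int.natAbs_mul, Int.natAbs_neg,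
      hm, one_mul, Int.natAbs_mul, Int.natAbs_neg, ih, Int.natAbs_natCast, pow_succ, mul_comm]

/-! ### the resultant -/

theorem lam_eq {d : ℕ} (b : Fin d → F) (hd : Even d) (g : F[X]) (hg : g.Monic) :
    H341R2.Sharp.lam (∏ j, (X - C (b j))) g = ∏ j, quadraticChar F (g.eval (b j)) := by
  unfold H341R2.Sharp.lam
  rw [resultant_prod_right _ _ _ _ le_rfl (by simp)]
  simp only [natDegree_X_sub_C]
  rw [Finset.prod_congr rfl fun j _ => resultant_X_sub_C_right (f := g) (m := g.natDegree) (b j) le_rfl,
    Finset.prod_mul_distrib, map_mul, map_prod, map_prod, Finset.prod_const, Finset.card_univ,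
    Fintype.card_fin]
  have h1 : quadraticChar F ((-1) ^ g.natDegree) ^ d = 1 := by
    obtain ⟨k, rfl⟩ := hd
    rw [← two_mul, pow_mul, quadraticChar_sq_one (pow_ne_zero _ (neg_ne_zero.2 one_ne_zero)),
      one_pow]
  rw [h1, one_mul]

end TPC

open TPC

theorem tpc : S_TPC := by
  classical
  intro F _ _ _ hF d b hd hd2 hb
  obtain ⟨k, hk⟩ : ∃ k, d = 2 * k + 2 := by
    obtain ⟨m, hm⟩ := hd
    exact ⟨m - 1, by omega⟩
  have hinj : Set.InjOn b (Finset.univ : Finset (Fin d)) := hb.injOn
  obtain ⟨Wt, hWt⟩ : ∃ Wt : Fin d → F, Wt = fun i => ∏ j ∈ Finset.univ.erase i, (b i - b j) :=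
    ⟨_, rfl⟩
  have hW0 : ∀ i, Wt i ≠ 0 := by
    intro i
    rw [hWt]
    refine Finset.prod_ne_zero_iff.2 fun j hj => ?_
    exact sub_ne_zero.2 fun h => (Finset.ne_of_mem_erase hj) (hb h).symm
  have hcard : (Finset.univ : Finset (Fin d)).card = d := by simp
  -- interpolation
  have h1 : H341R2.Sharp.A (∏ j, (X - C (b j))) (d - 1) =
      ∑ c ∈ (Finset.univ : Finset (Fin d → F)).filter (fun c => ∑ i, c i / Wt i = 1),
        ∏ j, quadraticChar F (c j) := by
    unfold H341R2.Sharp.A
    refine Finset.sum_bij' (fun g _ => fun j => g.eval (b j))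
      (fun c _ => Lagrange.interpolate Finset.univ b c) ?_ ?_ ?_ ?_ ?_
    · intro g hg
      rw [H341R2.Sharp.mem_Mon] at hg
      rw [Finset.mem_filter]
      refine ⟨Finset.mem_univ _, ?_⟩
      have hdeg : g.degree < ((Finset.univ : Finset (Fin d)).card : WithBot ℕ) := by
        rw [hcard, degree_eq_natDegree hg.1.ne_zero, hg.2]
        exact_mod_cast (by omega : d - 1 < d)
      have h2 := Lagrange.coeff_eq_sum hinj hdeg
      rw [hcard, ← hg.2, hg.1.coeff_natDegree] at h2
      rw [hWt]
      exact h2.symm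
    · intro c hc
      rw [Finset.mem_filter] at hc
      rw [H341R2.Sharp.mem_Mon]
      have hdeg := Lagrange.degree_interpolate_lt (r := c) hinj
      have h2 := Lagrange.coeff_eq_sum hinj hdeg
      rw [hcard] at h2
      have h3 : ∑ i, (Lagrange.interpolate Finset.univ b c).eval (b i) /
          ∏ j ∈ Finset.univ.erase i, (b i - b j) = 1 := by
        rw [← hc.2, hWt]
        refine Finset.sum_congr rfl fun i _ => ?_
        rw [Lagrange.eval_interpolate_at_node _ hinj (Finset.mem_univ i)]
      rw [h3] at h2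
      have hne : Lagrange.interpolate Finset.univ b c ≠ 0 := by
        intro h
        rw [h, coeff_zero] at h2
        exact zero_ne_one h2
      have h4 : (Lagrange.interpolate Finset.univ b c).natDegree = d - 1 := by
        apply le_antisymm
        · rw [hcard, degree_eq_natDegree hne] at hdeg
          have : (Lagrange.interpolate Finset.univ b c).natDegree < d := by exact_mod_cast hdeg
          omega
        · apply le_natDegree_of_ne_zero
          rw [h2]
          exact one_ne_zero
      refine ⟨?_, h4⟩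
      rw [Monic, leadingCoeff, h4]
      exact h2
    · intro g hg
      rw [H341R2.Sharp.mem_Mon] at hg
      have hdeg : g.degree < ((Finset.univ : Finset (Fin d)).card : WithBot ℕ) := by
        rw [hcard, degree_eq_natDegree hg.1.ne_zero, hg.2]
        exact_mod_cast (by omega : d - 1 < d)
      exact (Lagrange.eq_interpolate hinj hdeg).symm
    · intro c hc
      funext j
      exact Lagrange.eval_interpolate_at_node _ hinj (Finset.mem_univ j)
    · intro g hg
      rw [H341R2.Sharp.mem_Mon] at hg
      exact lam_eq b hd g hg.1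
  -- scaling
  have h2 : ∑ c ∈ (Finset.univ : Finset (Fin d → F)).filter (fun c => ∑ i, c i / Wt i = 1),
        ∏ j, quadraticChar F (c j) = (∏ j, quadraticChar F (Wt j)) * J d (1 : F) := by
    rw [← J_eq, Finset.sum_filter, Finset.mul_sum]
    refine Fintype.sum_equiv (Equiv.piCongrRight fun i => (Equiv.mulRight₀ (Wt i) (hW0 i)).symm)
      _ _ fun c => ?_
    have h3 : ∀ i, (Equiv.piCongrRight fun i => (Equiv.mulRight₀ (Wt i) (hW0 i)).symm) c i =
        c i / Wt i := fun i => by
      rw [div_eq_mul_inv]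
      rfl
    simp only [h3]
    split_ifs with h
    · rw [← Finset.prod_mul_distrib]
      refine Finset.prod_congr rfl fun i _ => ?_
      rw [← map_mul, mul_div_cancel₀ _ (hW0 i)]
    · rw [mul_zero]
  have h5 : (∏ j, quadraticChar F (Wt j)).natAbs = 1 := by
    rw [← map_prod]
    rcases quadraticChar_dichotomy (F := F) (Finset.prod_ne_zero_iff.2 fun j _ => hW0 j) with h | h <;>
      rw [h] <;> rfl
  rw [h1, h2, Int.natAbs_mul, h5, one_mul, hk, J_abs hF]
  congr 1
  omega

end Pool.Agent.T2h77U
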