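import Pool.Agent.T2h77U.Stm2

/-! WIT: the ring of Witt vectors over a finite field carries the elementary data `HF`. -/

set_option autoImplicit false

namespace Pool.Agent.T2h77U

open Polynomial

/-- Newton iteration: simple roots modulo `I` lift, without assuming that the polynomial is monic -/
theorem newton {R : Type} [CommRing R] (I : Ideal R) [IsAdicComplete I R] (f : R[X]) (a₀ : R)
    (h₁ : f.eval a₀ ∈ I) (h₂ : IsUnit (Ideal.Quotient.mk I (f.derivative.eval a₀))) :
    ∃ a, f.IsRoot a ∧ a - a₀ ∈ I := by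
  classical
  let f' := derivative f
  let c : ℕ → R := fun n => Nat.recOn n a₀ fun _ b => b - f.eval b * Ring.inverse (f'.eval b)
  have hc : ∀ n, c (n + 1) = c n - f.eval (c n) * Ring.inverse (f'.eval (c n)) := by
    intro n
    simp only [c]
  have hc_mod : ∀ n, c n ≡ a₀ [SMOD I] := by
    intro n
    induction n with
    | zero => rfl
    | succ n ih => ?_
    rw [hc, sub_eq_add_neg, ← add_zero a₀]
    refine ih.add ?_
    rw [SModEq.zero, Ideal.neg_mem_iff]
    refine I.mul_mem_right _ ?_
    rw [← SModEq.zero] at h₁ ⊢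
    exact (ih.eval f).trans h₁
  have hf'c : ∀ n, IsUnit (f'.eval (c n)) := by
    intro n
    have := isLocalHom_of_le_jacobson_bot I (IsAdicComplete.le_jacobson_bot I)
    apply IsUnit.of_map (Ideal.Quotient.mk I)
    convert! h₂ using 1
    exact SModEq.def.mp ((hc_mod n).eval _)
  have hfcI : ∀ n, f.eval (c n) ∈ I ^ (n + 1) := by
    intro n
    induction n with
    | zero => simpa only [Nat.rec_zero, zero_add, pow_one] using! h₁
    | succ n ih => ?_
    rw [← taylor_eval_sub (c n), hc, sub_eq_add_neg, sub_eq_add_neg,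
      add_neg_cancel_comm]
    rw [eval_eq_sum, sum_over_range' _ _ _ (lt_add_of_pos_right _ zero_lt_two), ←
      Finset.sum_range_add_sum_Ico _ (Nat.le_add_left _ _)]
    swap
    · intro i
      rw [zero_mul]
    refine Ideal.add_mem _ ?_ ?_
    · rw [← one_add_one_eq_two, Finset.sum_range_succ, Finset.range_one, Finset.sum_singleton,
        taylor_coeff_zero, taylor_coeff_one, pow_zero, pow_one, mul_one, mul_neg,
        mul_left_comm, Ring.mul_inverse_cancel _ (hf'c n), mul_one, add_neg_cancel]
      exact Ideal.zero_mem _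
    · refine Submodule.sum_mem _ ?_
      simp only [Finset.mem_Ico]
      rintro i ⟨h2i, _⟩
      have aux : n + 2 ≤ i * (n + 1) := by trans 2 * (n + 1) <;> nlinarith only [h2i]
      refine Ideal.mul_mem_left _ _ (Ideal.pow_le_pow_right aux ?_)
      rw [pow_mul']
      exact Ideal.pow_mem_pow ((Ideal.neg_mem_iff _).2 <| Ideal.mul_mem_right _ _ ih) _
  have aux : ∀ m n, m ≤ n → c m ≡ c n [SMOD (I ^ m • ⊤ : Ideal R)] := by
    intro m n hmn
    rw [← Ideal.one_eq_top, Ideal.smul_eq_mul, mul_one]
    obtain ⟨k, rfl⟩ := Nat.exists_eq_add_of_le hmn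
    clear hmn
    induction k with
    | zero => rw [add_zero]
    | succ k ih => ?_
    rw [← add_assoc, hc, ← add_zero (c m), sub_eq_add_neg]
    refine ih.add ?_
    symm
    rw [SModEq.zero, Ideal.neg_mem_iff]
    refine Ideal.mul_mem_right _ _ (Ideal.pow_le_pow_right ?_ (hfcI _))
    rw [add_assoc]
    exact le_self_add
  obtain ⟨a, ha⟩ := IsPrecomplete.prec' c (aux _ _)
  refine ⟨a, ?_, ?_⟩
  · show f.IsRoot a
    suffices ∀ n, f.eval a ≡ 0 [SMOD (I ^ n • ⊤ : Ideal R)] by exact IsHausdorff.haus' _ this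
    intro n
    specialize ha n
    rw [← Ideal.one_eq_top, Ideal.smul_eq_mul, mul_one] at ha ⊢
    refine (ha.symm.eval f).trans ?_
    rw [SModEq.zero]
    exact Ideal.pow_le_pow_right le_self_add (hfcI _)
  · show a - a₀ ∈ I
    specialize ha (0 + 1)
    rw [hc, pow_one, ← Ideal.one_eq_top, Ideal.smul_eq_mul, mul_one, sub_eq_add_neg] at ha
    rw [← SModEq.sub_mem, ← add_zero a₀]
    refine ha.symm.trans (SModEq.rfl.add ?_)
    rw [SModEq.zero, Ideal.neg_mem_iff]
    exact Ideal.mul_mem_right _ _ h₁

section wit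

variable {p : ℕ} [hp : Fact p.Prime] {k : Type} [Field k] [CharP k p] [PerfectRing k p]

theorem wit_fac (x : WittVector p k) (hx : x ≠ 0) :
    ∃ (m : ℕ) (b : WittVector p k), b.coeff 0 ≠ 0 ∧ x = (p : WittVector p k) ^ m * b :=
  WittVector.exists_eq_pow_p_mul x hx

theorem wit_res_eq (x : WittVector p k) : WittVector.constantCoeff x = 0 ↔ (p : WittVector p k) ∣ x := by
  rw [← Ideal.mem_span_singleton, WittVector.mem_span_p_iff_coeff_zero_eq_zero]
  rfl

theorem wit_uniq {m n : ℕ} {b c : WittVector p k} (hb : b.coeff 0 ≠ 0) (hc : c.coeff 0 ≠ 0)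
    (h : (p : WittVector p k) ^ m * b = (p : WittVector p k) ^ n * c) : m = n ∧ b = c := by
  have hp0 : (p : WittVector p k) ≠ 0 := (WittVector.irreducible p).ne_zero
  have key : ∀ (m n : ℕ) (b c : WittVector p k), c.coeff 0 ≠ 0 → m < n →
      (p : WittVector p k) ^ n * b ≠ (p : WittVector p k) ^ m * c := by
    intro m n b c hc hmn h
    obtain ⟨d, rfl⟩ : ∃ d, n = m + (d + 1) := ⟨n - m - 1, by omega⟩
    rw [pow_add, mul_assoc] at h
    have h2 := mul_left_cancel₀ (pow_ne_zero m hp0) h
    apply hc
    have h3 : (p : WittVector p k) ∣ c := by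
      rw [← h2, pow_succ']
      exact ⟨(p : WittVector p k) ^ d * b, by ring⟩
    exact (wit_res_eq c).mpr h3
  rcases lt_trichotomy m n with hlt | heq | hgt
  · exact absurd h.symm (key m n c b hb hlt)
  · subst heq
    exact ⟨rfl, mul_left_cancel₀ (pow_ne_zero m hp0) h⟩
  · exact absurd h (key n m b c hc hgt)

open Classical in
/-- the data of the ring of Witt vectors -/
noncomputable def witHF (p : ℕ) [hp : Fact p.Prime] (k : Type) [Field k] [CharP k p] [PerfectRing k p] :
    HF (WittVector p k) k where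
  res := WittVector.constantCoeff
  pi := (p : WittVector p k)
  v x := if h : x ≠ 0 then (wit_fac x h).choose else 0
  ac x := if h : x ≠ 0 then (wit_fac x h).choose_spec.choose.coeff 0 else 0
  res_surj := WittVector.constantCoeff_surjective p
  pi_ne := (WittVector.irreducible p).ne_zero
  res_eq := wit_res_eq
  v_zero := by simp
  ac_zero := by simp
  spec := by
    intro x hx
    rw [dif_pos hx, dif_pos hx]
    exact ⟨(wit_fac x hx).choose_spec.choose_spec.1, (wit_fac x hx).choose_spec.choose,
      (wit_fac x hx).choose_spec.choose_spec.2, rfl⟩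
  hensel := by
    intro F a h1 h2
    have h1' : F.eval a ∈ Ideal.span {(p : WittVector p k)} := by
      rw [Ideal.mem_span_singleton, ← wit_res_eq]
      exact h1
    have h2' : IsUnit (F.derivative.eval a) := WittVector.isUnit_of_coeff_zero_ne_zero _ h2
    obtain ⟨b, hb, hba⟩ := newton (Ideal.span {(p : WittVector p k)}) F a h1' (h2'.map _)
    refine ⟨b, hb, ?_⟩
    rw [Ideal.mem_span_singleton, ← wit_res_eq, map_sub, sub_eq_zero] at hba
    exact hba

theorem witHF_v (x : WittVector p k) (m : ℕ) (b : WittVector p k) (hb : b.coeff 0 ≠ 0)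
    (hx : x = (p : WittVector p k) ^ m * b) : (witHF p k).v x = m := by
  have hp0 : (p : WittVector p k) ≠ 0 := (WittVector.irreducible p).ne_zero
  have hb0 : b ≠ 0 := by
    rintro rfl
    exact hb (by simp)
  have hx0 : x ≠ 0 := by
    rw [hx]
    exact mul_ne_zero (pow_ne_zero m hp0) hb0
  have e : (witHF p k).v x = (wit_fac x hx0).choose := dif_pos hx0
  rw [e]
  obtain ⟨h1, h2⟩ := (wit_fac x hx0).choose_spec.choose_spec
  exact (wit_uniq h1 hb (h2.symm.trans hx)).1

end wit

theorem wit : S_WIT := by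
  intro p hp f hf
  refine ⟨witHF p (GaloisField p f), fun c => ?_⟩
  by_cases hc : c = 0
  · subst hc
    rw [Int.cast_zero, (witHF p (GaloisField p f)).v_zero, padicValInt.zero]
  · obtain ⟨c', hc'⟩ : (p : ℤ) ^ padicValInt p c ∣ c := padicValInt_dvd c
    have hnd : ¬ (p : ℤ) ∣ c' := by
      rintro ⟨d, rfl⟩
      have h1 : (p : ℤ) ^ (padicValInt p c + 1) ∣ c := ⟨d, by rw [pow_succ, mul_assoc]; exact hc'⟩
      rw [padicValInt_dvd_iff] at h1
      rcases h1 with h1 | h1
      · exact hc h1
      · omega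
    refine witHF_v _ (padicValInt p c) (c' : WittVector p (GaloisField p f)) ?_ ?_
    · have h1 : WittVector.constantCoeff (c' : WittVector p (GaloisField p f)) = (c' : GaloisField p f) :=
        map_intCast _ _
      intro h2
      apply hnd
      rw [← CharP.intCast_eq_zero_iff (GaloisField p f) p]
      rw [← h1]
      exact h2
    · conv_lhs => rw [hc']
      push_cast
      ring

end Pool.Agent.T2h77U
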