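import Pool.Agent.T2h77U.Stm

/-! Closure properties of `XG`. -/

namespace Pool.Agent.T2h77U

section
variable {ι : Type} {O k : ι → Type} [∀ i, CommRing (O i)] [∀ i, IsDomain (O i)]
  [∀ i, Field (k i)] {H : ∀ i, HF (O i) (k i)}

lemma XG.of (hG : S_GOO) {n : ℕ} {s : Type} [Finite s] {J : Type} [Finite J]
    (g : J → MvPolynomial (Fin n) ℤ) (P : Rel k (J ⊕ s)) (hP : Good k P)
    (S : ∀ i, (Fin n → O i) → Set (s → ℕ × k i))
    (h : ∀ i x ρ, ρ ∈ S i x ↔
      Sum.elim (fun j => (H i).rv (MvPolynomial.aeval x (g j))) ρ ∈ P i) : XG O k H S := by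
  obtain ⟨g1, g2, g3, g4, g5, g6, g7, g8⟩ := hG ι k
  have _ := Fintype.ofFinite J
  let e : J ≃ Fin (Fintype.card J) := Fintype.equivFin J
  refine ⟨Fintype.card J, fun a => g (e.symm a), fun i =>
    {ρ : Fin (Fintype.card J) ⊕ s → ℕ × k i | (fun j => ρ (Sum.map e id j)) ∈ P i},
    g4 _ _ (Sum.map e id) P hP, fun i x ρ => ?_⟩
  rw [h]
  simp only [Set.mem_ofPred_eq]
  have : (fun j => (Sum.elim (fun j => (H i).rv (MvPolynomial.aeval x (g (e.symm j)))) ρ :
      Fin (Fintype.card J) ⊕ s → ℕ × k i) (Sum.map e id j)) =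
      Sum.elim (fun j => (H i).rv (MvPolynomial.aeval x (g j))) ρ := by
    funext j
    cases j with
    | inl j => simp
    | inr j => simp
  rw [this]

end

theorem xgc (hG : S_GOO) : S_XGC := by
  classical
  intro ι O k _ _ _ H n
  obtain ⟨g1, g2, g3, g4, g5, g6, g7, g8⟩ := hG ι k
  refine ⟨?_, ?_, ?_, ?_, ?_, ?_, ?_⟩
  · rintro s _ S ⟨m, g, P, hP, h⟩
    exact ⟨m, g, _, g1 _ P hP, fun i x ρ => not_congr (h i x ρ)⟩
  · intro s _ J _ S hS
    choose m g P hP h using hS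
    have _ := Fintype.ofFinite J
    let f : ∀ j, (Fin (m j) ⊕ s) → ((Σ j, Fin (m j)) ⊕ s) := fun j =>
      Sum.map (fun a => ⟨j, a⟩) id
    refine XG.of hG (J := Σ j, Fin (m j)) (fun a => g a.1 a.2)
      (fun i => ⋂ j, {ρ : (Σ j, Fin (m j)) ⊕ s → ℕ × k i | (fun a => ρ (f j a)) ∈ P j i})
      (g2 _ J _ fun j => g4 _ _ (f j) (P j) (hP j)) _ fun i x ρ => ?_
    simp only [Set.mem_iInter]
    refine forall_congr' fun j => ?_
    rw [h j]
    simp only [Set.mem_ofPred_eq]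
    have : (fun a => (Sum.elim (fun a : Σ j, Fin (m j) =>
        (H i).rv (MvPolynomial.aeval x (g a.1 a.2))) ρ :
        (Σ j, Fin (m j)) ⊕ s → ℕ × k i) (f j a)) =
        Sum.elim (fun a => (H i).rv (MvPolynomial.aeval x (g j a))) ρ := by
      funext a
      cases a <;> rfl
    rw [this]
  · intro s _ J _ S hS
    choose m g P hP h using hS
    have _ := Fintype.ofFinite J
    let f : ∀ j, (Fin (m j) ⊕ s) → ((Σ j, Fin (m j)) ⊕ s) := fun j =>
      Sum.map (fun a => ⟨j, a⟩) id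
    refine XG.of hG (J := Σ j, Fin (m j)) (fun a => g a.1 a.2)
      (fun i => ⋃ j, {ρ : (Σ j, Fin (m j)) ⊕ s → ℕ × k i | (fun a => ρ (f j a)) ∈ P j i})
      (g3 _ J _ fun j => g4 _ _ (f j) (P j) (hP j)) _ fun i x ρ => ?_
    simp only [Set.mem_iUnion]
    refine exists_congr fun j => ?_
    rw [h j]
    simp only [Set.mem_ofPred_eq]
    have : (fun a => (Sum.elim (fun a : Σ j, Fin (m j) =>
        (H i).rv (MvPolynomial.aeval x (g a.1 a.2))) ρ :
        (Σ j, Fin (m j)) ⊕ s → ℕ × k i) (f j a)) =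
        Sum.elim (fun a => (H i).rv (MvPolynomial.aeval x (g j a))) ρ := by
      funext a
      cases a <;> rfl
    rw [this]
  · rintro s s' _ _ f S ⟨m, g, P, hP, h⟩
    refine ⟨m, g, _, g4 _ _ (Sum.map id f) P hP, fun i x ρ => ?_⟩
    simp only [Set.mem_ofPred_eq]
    rw [h]
    have : (fun j => (Sum.elim (fun j => (H i).rv (MvPolynomial.aeval x (g j))) ρ :
        Fin m ⊕ s' → ℕ × k i) (Sum.map id f j)) =
        Sum.elim (fun j => (H i).rv (MvPolynomial.aeval x (g j))) (fun j => ρ (f j)) := by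
      funext a
      cases a <;> rfl
    rw [this]
  · rintro s u _ _ S ⟨m, g, P, hP, h⟩
    let f : Fin m ⊕ (s ⊕ u) → (Fin m ⊕ s) ⊕ u :=
      Sum.elim (fun a => Sum.inl (Sum.inl a)) (Sum.elim (fun a => Sum.inl (Sum.inr a)) Sum.inr)
    refine ⟨m, g, _, g5 (Fin m ⊕ s) u _ (g4 _ _ f P hP), fun i x ρ => ?_⟩
    simp only [Set.mem_ofPred_eq]
    refine exists_congr fun τ => ?_
    rw [h]
    have : (fun j => (Sum.elim (Sum.elim (fun j => (H i).rv (MvPolynomial.aeval x (g j))) ρ) τ :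
        (Fin m ⊕ s) ⊕ u → ℕ × k i) (f j)) =
        Sum.elim (fun j => (H i).rv (MvPolynomial.aeval x (g j))) (Sum.elim ρ τ) := by
      funext a
      rcases a with a | a | a <;> rfl
    rw [this]
  · intro s _ R hR
    refine ⟨0, Fin.elim0, _, g4 _ _ (Sum.inr : s → Fin 0 ⊕ s) R hR, fun i x ρ => ?_⟩
    rfl
  · rintro s _ m g S ⟨m0, g0, P, hP, h⟩
    let f : Fin m0 ⊕ (s ⊕ Fin m) → (Fin m0 ⊕ Fin m) ⊕ s :=
      Sum.elim (fun a => Sum.inl (Sum.inl a)) (Sum.elim Sum.inr (fun a => Sum.inl (Sum.inr a)))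
    refine XG.of hG (J := Fin m0 ⊕ Fin m) (Sum.elim g0 g) _ (g4 _ _ f P hP) _ fun i x ρ => ?_
    simp only [Set.mem_ofPred_eq]
    rw [h]
    have : (fun j => (Sum.elim (fun j : Fin m0 ⊕ Fin m =>
        (H i).rv (MvPolynomial.aeval x ((Sum.elim g0 g : Fin m0 ⊕ Fin m → _) j))) ρ :
        (Fin m0 ⊕ Fin m) ⊕ s → ℕ × k i) (f j)) =
        Sum.elim (fun j => (H i).rv (MvPolynomial.aeval x (g0 j)))
          (Sum.elim ρ (fun j => (H i).rv (MvPolynomial.aeval x (g j)))) := by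
      funext a
      rcases a with a | a | a <;> rfl
    rw [this]

end Pool.Agent.T2h77U
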