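import Pool.Agent.T2h77U.Stm2

/-! Task ZVF (helper85): the value of the zeta function. -/

namespace Pool.Agent.T2h77U

open Polynomial Filter Topology Pool.Agent.H260TZ

namespace ZVFS

/-- the product as a polynomial -/
noncomputable def Pp (q : ℚ) (L : List (ℤ × ℕ)) : ℚ[X] :=
  (L.map (fun ab => 1 - C (q ^ ab.1) * X ^ ab.2)).prod

theorem Pp_cons (q : ℚ) (ab : ℤ × ℕ) (L : List (ℤ × ℕ)) :
    Pp q (ab :: L) = (1 - C (q ^ ab.1) * X ^ ab.2) * Pp q L := by
  unfold Pp
  rw [List.map_cons, List.prod_cons]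

theorem DenK_cons (q : ℚ) (ab : ℤ × ℕ) (L : List (ℤ × ℕ)) :
    DenK q (ab :: L) = (1 - PowerSeries.C (q ^ ab.1) * PowerSeries.X ^ ab.2) * DenK q L := by
  unfold DenK
  rw [List.map_cons, List.prod_cons]

/-- value of a power series -/
def HV (F : PowerSeries ℚ) (x a : ℝ) : Prop :=
  HasSum (fun n => ((PowerSeries.coeff n F : ℚ) : ℝ) * x ^ n) a

theorem hv_X {F : PowerSeries ℚ} {x a : ℝ} (h : HV F x a) (b : ℕ) :
    HV (PowerSeries.X ^ b * F) x (x ^ b * a) := by
  unfold HV at h ⊢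
  have h1 : (fun n => ((PowerSeries.coeff (n + b) (PowerSeries.X ^ b * F) : ℚ) : ℝ) *
      x ^ (n + b)) = fun n => x ^ b * (((PowerSeries.coeff n F : ℚ) : ℝ) * x ^ n) := by
    funext n
    rw [PowerSeries.coeff_X_pow_mul', if_pos (by omega), Nat.add_sub_cancel, pow_add]
    ring
  have h2 := h.mul_left (x ^ b)
  rw [← h1] at h2
  have h3 := (hasSum_nat_add_iff (f := fun n =>
    ((PowerSeries.coeff n (PowerSeries.X ^ b * F) : ℚ) : ℝ) * x ^ n) b).1 h2
  have h4 : ∑ i ∈ Finset.range b,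
      ((PowerSeries.coeff i (PowerSeries.X ^ b * F) : ℚ) : ℝ) * x ^ i = 0 := by
    refine Finset.sum_eq_zero fun i hi => ?_
    rw [Finset.mem_range] at hi
    rw [PowerSeries.coeff_X_pow_mul', if_neg (by omega), Rat.cast_zero, zero_mul]
  rw [h4, add_zero] at h3
  exact h3

theorem hv_C {F : PowerSeries ℚ} {x a : ℝ} (h : HV F x a) (c : ℚ) :
    HV (PowerSeries.C c * F) x ((c : ℝ) * a) := by
  unfold HV at h ⊢
  have h1 := h.mul_left (c : ℝ)
  have h2 : (fun n => ((PowerSeries.coeff n (PowerSeries.C c * F) : ℚ) : ℝ) * x ^ n) = fun n =>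
      (c : ℝ) * (((PowerSeries.coeff n F : ℚ) : ℝ) * x ^ n) := by
    funext n
    rw [PowerSeries.coeff_C_mul]
    push_cast
    ring
  rw [h2]
  exact h1

theorem hv_sub {F G : PowerSeries ℚ} {x a b : ℝ} (h : HV F x a) (h' : HV G x b) :
    HV (F - G) x (a - b) := by
  unfold HV at h h' ⊢
  have h1 := h.sub h'
  have h2 : (fun n => ((PowerSeries.coeff n (F - G) : ℚ) : ℝ) * x ^ n) = fun n =>
      ((PowerSeries.coeff n F : ℚ) : ℝ) * x ^ n - ((PowerSeries.coeff n G : ℚ) : ℝ) * x ^ n := by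
    funext n
    rw [map_sub]
    push_cast
    ring
  rw [h2]
  exact h1

theorem hv_den {F : PowerSeries ℚ} {x a : ℝ} (h : HV F x a) (q : ℚ) (L : List (ℤ × ℕ)) :
    HV (DenK q L * F) x (aeval x (Pp q L) * a) := by
  induction L with
  | nil =>
    unfold DenK Pp
    simpa using h
  | cons ab L ih =>
    have h1 : DenK q (ab :: L) * F = DenK q L * F -
        PowerSeries.C (q ^ ab.1) * (PowerSeries.X ^ ab.2 * (DenK q L * F)) := by
      rw [DenK_cons]
      ring
    have h2 : aeval x (Pp q (ab :: L)) * a = aeval x (Pp q L) * a -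
        ((q ^ ab.1 : ℚ) : ℝ) * (x ^ ab.2 * (aeval x (Pp q L) * a)) := by
      rw [Pp_cons, map_mul, map_sub, map_one, map_mul, map_pow, aeval_C, aeval_X]
      simp only [eq_ratCast]
      ring
    rw [h1, h2]
    exact hv_sub ih (hv_C (hv_X ih ab.2) _)

end ZVFS

open ZVFS in
theorem zvf : S_ZVF := by
  intro d c R _ q L B hq hL hU hB s v hv
  obtain ⟨P, Q, σ₀, h1, h2, h3⟩ := hv
  have hq1 : (1 : ℝ) < q := by exact_mod_cast (by omega : 1 < q)
  have hq0 : (0 : ℝ) < q := by linarith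
  have hqQ : (0 : ℚ) < q := by exact_mod_cast (by omega : 0 < q)
  obtain ⟨S, hS⟩ : ∃ S : PowerSeries ℚ, S = PowerSeries.mk (fun n => (acount c R q n : ℚ)) :=
    ⟨_, rfl⟩
  rw [← hS] at hB ⊢
  -- the series of the counts
  have hser : ∀ σ : ℝ, σ₀ < σ → HV S ((q : ℝ) ^ (-σ))
      (aeval ((q : ℝ) ^ (-σ)) P / aeval ((q : ℝ) ^ (-σ)) Q) := by
    intro σ hσ
    obtain ⟨_, k2⟩ := h1 σ hσ
    obtain ⟨x, hx⟩ : ∃ x : ℝ, x = (q : ℝ) ^ (-σ) := ⟨_, rfl⟩
    have hx0 : 0 < x := by rw [hx]; exact Real.rpow_pos_of_pos hq0 _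
    have hpow : ∀ n : ℕ, (((q ^ n : ℕ) : ℝ)) ^ (-σ) = x ^ n := by
      intro n
      rw [hx, Nat.cast_pow, ← Real.rpow_natCast, ← Real.rpow_mul hq0.le, mul_comm,
        Real.rpow_mul hq0.le, Real.rpow_natCast]
    rw [← hx] at k2 ⊢
    choose ν hν using hU
    let e : (Σ n : ℕ, {U : FinSub c R // Nat.card ((Fin d → R) ⧸ U.1) = q ^ n}) ≃ FinSub c R :=
      { toFun := fun x => x.2.1
        invFun := fun U => ⟨ν U, U, hν U⟩
        left_inv := by
          rintro ⟨n, U, hn⟩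
          have : ν U = n := Nat.pow_right_injective hq ((hν U).symm.trans hn)
          subst this
          rfl
        right_inv := fun U => rfl }
    have k3 := e.hasSum_iff.2 k2
    have hval : ∀ (n : ℕ) (U : {U : FinSub c R // Nat.card ((Fin d → R) ⧸ U.1) = q ^ n}),
        ((fun U : FinSub c R => (Nat.card ((Fin d → R) ⧸ U.1) : ℝ) ^ (-σ)) ∘ e) ⟨n, U⟩ =
          x ^ n := by
      intro n U
      change (Nat.card ((Fin d → R) ⧸ U.1.1) : ℝ) ^ (-σ) = x ^ n
      rw [U.2]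
      exact hpow n
    have hfib : ∀ n : ℕ, HasSum (fun U : {U : FinSub c R //
        Nat.card ((Fin d → R) ⧸ U.1) = q ^ n} =>
        ((fun U : FinSub c R => (Nat.card ((Fin d → R) ⧸ U.1) : ℝ) ^ (-σ)) ∘ e) ⟨n, U⟩)
        ((acount c R q n : ℝ) * x ^ n) := by
      intro n
      have h4 := k3.summable.sigma_factor n
      have h5 : (fun U : {U : FinSub c R // Nat.card ((Fin d → R) ⧸ U.1) = q ^ n} =>
        ((fun U : FinSub c R => (Nat.card ((Fin d → R) ⧸ U.1) : ℝ) ^ (-σ)) ∘ e) ⟨n, U⟩) =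
          fun _ => x ^ n := funext fun U => hval n U
      rw [h5] at h4 ⊢
      have hfin : Finite {U : FinSub c R // Nat.card ((Fin d → R) ⧸ U.1) = q ^ n} := by
        by_contra hinf
        rw [not_finite_iff_infinite] at hinf
        exact (pow_pos hx0 n).ne' ((summable_const_iff _).1 h4)
      have : Fintype {U : FinSub c R // Nat.card ((Fin d → R) ⧸ U.1) = q ^ n} :=
        Fintype.ofFinite _
      have h6 := hasSum_fintype (fun _ : {U : FinSub c R //
        Nat.card ((Fin d → R) ⧸ U.1) = q ^ n} => x ^ n)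
      rw [Finset.sum_const, Finset.card_univ, nsmul_eq_mul, ← Nat.card_eq_fintype_card] at h6
      exact h6
    have k4 := k3.sigma hfib
    unfold HV
    rw [hS]
    simp only [PowerSeries.coeff_mk]
    push_cast
    exact k4
  -- the numerator
  obtain ⟨F, hF⟩ : ∃ F : PowerSeries ℚ, F = DenK (q : ℚ) L * S := ⟨_, rfl⟩
  rw [← hF] at hB ⊢
  obtain ⟨Rp, hRp⟩ : ∃ Rp : ℚ[X], Rp = ∑ n ∈ Finset.range (B + 1),
      C (PowerSeries.coeff n F) * X ^ n := ⟨_, rfl⟩
  have hpoly : Pp q L * P = Rp * Q := by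
    apply Polynomial.map_injective (algebraMap ℚ ℝ) (algebraMap ℚ ℝ).injective
    apply Polynomial.eq_of_infinite_eval_eq
    have hinj : Function.Injective (fun n : ℕ => (q : ℝ) ^ (-(σ₀ + 1 + (n : ℝ)))) := by
      intro a b hab
      have h4 := (Real.rpow_right_inj hq0 hq1.ne').mp hab
      have h5 : (a : ℝ) = b := by linarith
      exact_mod_cast h5
    refine Set.infinite_of_injective_forall_mem hinj ?_
    intro n
    have hn : (0 : ℝ) ≤ n := Nat.cast_nonneg n
    have g1 : σ₀ < σ₀ + 1 + (n : ℝ) := by linarith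
    obtain ⟨k1, _⟩ := h1 _ g1
    have k2 := hv_den (hser _ g1) (q : ℚ) L
    obtain ⟨x, hx⟩ : ∃ x : ℝ, x = (q : ℝ) ^ (-(σ₀ + 1 + (n : ℝ))) := ⟨_, rfl⟩
    rw [← hx] at k1 k2 ⊢
    rw [← hF] at k2
    have k3 : HV F x (aeval x Rp) := by
      unfold HV
      have h4 : aeval x Rp = ∑ n ∈ Finset.range (B + 1),
          ((PowerSeries.coeff n F : ℚ) : ℝ) * x ^ n := by
        rw [hRp, map_sum]
        refine Finset.sum_congr rfl fun n _ => ?_
        rw [map_mul, map_pow, aeval_C, aeval_X]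
        simp only [eq_ratCast]
      rw [h4]
      refine hasSum_sum_of_ne_finset_zero fun m hm => ?_
      rw [Finset.mem_range, not_lt] at hm
      rw [hB m (by omega), Rat.cast_zero, zero_mul]
    have k4 := HasSum.unique k2 k3
    rw [← mul_div_assoc, div_eq_iff k1] at k4
    change eval x _ = eval x _
    rw [eval_map_algebraMap, eval_map_algebraMap, map_mul, map_mul]
    exact k4
  -- evaluation
  obtain ⟨y, hy⟩ : ∃ y : ℚ, y = (q : ℚ) ^ (-s) := ⟨_, rfl⟩
  rw [← hy] at h2 h3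
  have e1 : (Pp q L).eval y = (L.map (fun ab => 1 - (q : ℚ) ^ (ab.1 - ab.2 * s))).prod := by
    unfold Pp
    rw [Polynomial.eval_list_prod, List.map_map]
    congr 1
    refine List.map_congr_left fun ab _ => ?_
    simp only [Function.comp_apply, eval_sub, eval_one, eval_mul, eval_C, eval_pow, eval_X]
    rw [hy, ← zpow_natCast, ← zpow_mul, ← zpow_add₀ hqQ.ne']
    congr 2
    ring
  have e2 : Rp.eval y = ∑ n ∈ Finset.range (B + 1),
      PowerSeries.coeff n F * (q : ℚ) ^ (-(s * n)) := by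
    rw [hRp, eval_finsetSum]
    refine Finset.sum_congr rfl fun n _ => ?_
    simp only [eval_mul, eval_C, eval_pow, eval_X]
    rw [hy, ← zpow_natCast, ← zpow_mul]
    congr 2
    ring
  have e3 := congrArg (fun f => f.eval y) hpoly
  simp only [eval_mul] at e3
  rw [← e1, ← e2, h3, mul_assoc]
  congr 1
  rw [div_mul_eq_mul_div, div_eq_iff h2]
  linarith

end Pool.Agent.T2h77U
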