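import Pool.Agent.T2h77U.Add
import Pool.Agent.T2h77U.Bas
import Pool.Agent.T2h77U.Cel
import Pool.Agent.T2h77U.Cri
import Pool.Agent.T2h77U.Fin
import Pool.Agent.T2h77U.Gcn
import Pool.Agent.T2h77U.Goo
import Pool.Agent.T2h77U.Gra
import Pool.Agent.T2h77U.Hen
import Pool.Agent.T2h77U.Hs1
import Pool.Agent.T2h77U.Hs2
import Pool.Agent.T2h77U.Hss
import Pool.Agent.T2h77U.Kki
import Pool.Agent.T2h77U.La1
import Pool.Agent.T2h77U.La2
import Pool.Agent.T2h77U.Lat
import Pool.Agent.T2h77U.Lim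
import Pool.Agent.T2h77U.Ncl
import Pool.Agent.T2h77U.One
import Pool.Agent.T2h77U.Per
import Pool.Agent.T2h77U.Po1
import Pool.Agent.T2h77U.Po3
import Pool.Agent.T2h77U.Pol
import Pool.Agent.T2h77U.Ptt
import Pool.Agent.T2h77U.Rel
import Pool.Agent.T2h77U.Sm1
import Pool.Agent.T2h77U.Sm2
import Pool.Agent.T2h77U.Smw
import Pool.Agent.T2h77U.Sum
import Pool.Agent.T2h77U.To1
import Pool.Agent.T2h77U.To2
import Pool.Agent.T2h77U.Tor
import Pool.Agent.T2h77U.Tpc
import Pool.Agent.T2h77U.Ura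
import Pool.Agent.T2h77U.Wit
import Pool.Agent.T2h77U.Xgc
import Pool.Agent.T2h77U.Zvf

/-! Assembly. -/

namespace Pool.Agent.T2h77U

theorem ur (hCLO : S_CLO) : S_UR := by
  have hncl := ncl_ball bas sumT
  have hhen := hen bas sumT
  have hxgc := xgc goo
  have hadd := add bas sumT hncl hhen goo rel hxgc
  have hptt := ptt bas sumT hncl goo rel hxgc hadd
  have hone := one bas sumT hncl
  have hcel := cel bas sumT hone hCLO goo rel hxgc hptt
  exact ura goo hcel (gra (hss hs1 hs2)) (lat bas sumT (la1 bas) (la2 bas (la1 bas))) wit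

theorem main (hCLO : S_CLO) (hMOM : S_MOM) (hPO2 : S_PO2) : S_FIN :=
  fin_main (ur hCLO) zvf hMOM lim hPO2 (tor to1 to2) (gcn cri (smw sm1 sm2))
    (kki tpc per) (pol po1 po3)

end Pool.Agent.T2h77U
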