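import Pool.Agent.T2h77U.Stm2

/-! Task LIM: convergence of the coefficients. -/

set_option autoImplicit false

namespace Pool.Agent.T2h77U

open Filter Topology Polynomial

/-- the coefficients of the product with one more factor -/
theorem coeff_denK_cons {K : Type} [Field K] (q : K) (ab : ℤ × ℕ) (L : List (ℤ × ℕ))
    (f : PowerSeries K) (n : ℕ) : PowerSeries.coeff n (DenK q (ab :: L) * f) =
      PowerSeries.coeff n (DenK q L * f) -
        if ab.2 ≤ n then q ^ ab.1 * PowerSeries.coeff (n - ab.2) (DenK q L * f) else 0 := by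
  have h1 : DenK q (ab :: L) * f = DenK q L * f -
      PowerSeries.C (q ^ ab.1) * (PowerSeries.X ^ ab.2 * (DenK q L * f)) := by
    have h2 : DenK q (ab :: L) =
        (1 - PowerSeries.C (q ^ ab.1) * PowerSeries.X ^ ab.2) * DenK q L := by
      unfold DenK
      rw [List.map_cons, List.prod_cons]
    rw [h2]
    ring
  rw [h1, map_sub, PowerSeries.coeff_C_mul, PowerSeries.coeff_X_pow_mul', mul_ite, mul_zero]

theorem denK_nil {K : Type} [Field K] (q : K) : DenK q [] = 1 := rfl

theorem lim : S_LIM := by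
  intro ℓ _ L Q a χ hQ hQ1 ha
  induction L with
  | nil =>
    intro n
    simp only [denK_nil, one_mul, PowerSeries.coeff_mk]
    exact ha n
  | cons ab L ih =>
    intro n
    simp only [coeff_denK_cons]
    by_cases h : ab.2 ≤ n
    · simp only [if_pos h, one_zpow, one_mul]
      have h1 : Tendsto (fun t => (((Q t : ℚ) : ℚ_[ℓ])) ^ ab.1) atTop (𝓝 1) := by
        have h2 := hQ1.zpow₀ ab.1 (Or.inl one_ne_zero)
        rwa [one_zpow] at h2
      have h2 := (ih n).sub (h1.mul (ih (n - ab.2)))
      rw [one_mul] at h2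
      have e1 : ((PowerSeries.coeff n (DenK (1 : ℚ) L * PowerSeries.mk χ) -
          PowerSeries.coeff (n - ab.2) (DenK (1 : ℚ) L * PowerSeries.mk χ) : ℚ) : ℚ_[ℓ]) =
          ((PowerSeries.coeff n (DenK (1 : ℚ) L * PowerSeries.mk χ) : ℚ) : ℚ_[ℓ]) -
          ((PowerSeries.coeff (n - ab.2) (DenK (1 : ℚ) L * PowerSeries.mk χ) : ℚ) : ℚ_[ℓ]) := by
        push_cast
        rfl
      rw [e1]
      refine h2.congr fun t => ?_
      push_cast
      rfl
    · simp only [if_neg h, sub_zero]
      exact ih n

end Pool.Agent.T2h77U
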