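import Pool.Agent.T2h77U.Stm

/-! Common lemmas for the tasks NCL and HEN: Taylor expansions, scaled Hensel lemma,
representatives of leading terms. -/

namespace Pool.Agent.T2h77U.NclCom

open Polynomial Pool.Agent.T2h77U

variable {O k : Type} [CommRing O] [IsDomain O] [Field k]

theorem tay {R : Type} [CommRing R] (F : R[X]) {D : ℕ} (hF : F.natDegree ≤ D) (t h : R) :
    F.eval (t + h) = ∑ i ∈ Finset.range (D + 1), (hasseDeriv i F).eval t * h ^ i := by
  have h1 := taylor_eval t F h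
  rw [add_comm t h, ← h1, eval_eq_sum_range' (n := D + 1)]
  · simp only [taylor_coeff]
  · rw [natDegree_taylor]; omega

theorem hdc {R : Type} [CommRing R] (F : R[X]) (i j : ℕ) (t : R) :
    (hasseDeriv j (hasseDeriv i F)).eval t =
      ((j + i).choose j : R) * (hasseDeriv (j + i) F).eval t := by
  have h1 := LinearMap.congr_fun (hasseDeriv_comp (R := R) j i) F
  simp only [LinearMap.comp_apply, LinearMap.smul_apply] at h1
  rw [h1, nsmul_eq_mul, eval_mul, eval_natCast]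

theorem hdeg {R : Type} [CommRing R] (F : R[X]) {D : ℕ} (hF : F.natDegree ≤ D) (i : ℕ) :
    (hasseDeriv i F).natDegree ≤ D :=
  (natDegree_hasseDeriv_le F i).trans ((Nat.sub_le _ _).trans hF)

theorem hd_gt {R : Type} [CommRing R] (F : R[X]) {D : ℕ} (hF : F.natDegree ≤ D) (i : ℕ)
    (hi : D < i) : hasseDeriv i F = 0 :=
  hasseDeriv_eq_zero_of_lt_natDegree _ _ (by omega)

theorem shift_div {R : Type} [CommRing R] (p : R) (F : R[X]) (t h : R) (r M : ℕ) (hh : p ^ r ∣ h)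
    (hF : ∀ i, p ^ M ∣ (hasseDeriv i F).eval t * p ^ (i * r)) (i : ℕ) :
    p ^ M ∣ (hasseDeriv i F).eval (t + h) * p ^ (i * r) := by
  rw [tay (hasseDeriv i F) le_rfl, Finset.sum_mul]
  refine Finset.dvd_sum fun j _ => ?_
  rw [hdc]
  obtain ⟨c, rfl⟩ := hh
  have e : ((j + i).choose j : R) * (hasseDeriv (j + i) F).eval t * (p ^ r * c) ^ j * p ^ (i * r)
      = ((j + i).choose j : R) * c ^ j * ((hasseDeriv (j + i) F).eval t * p ^ ((j + i) * r)) := by
    ring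
  rw [e]
  exact Dvd.dvd.mul_left (hF (j + i)) _

theorem hensel0 (H : HF O k) (F : O[X]) (t : O) (r M : ℕ)
    (hF : ∀ i, H.pi ^ M ∣ (hasseDeriv i F).eval t * H.pi ^ (i * r))
    (h0 : H.pi ^ (M + 1) ∣ F.eval t)
    (h1 : ¬ H.pi ^ (M + 1) ∣ (hasseDeriv 1 F).eval t * H.pi ^ r) :
    ∃ y, F.eval (t + H.pi ^ r * y) = 0 ∧ H.pi ∣ y := by
  choose c hc using hF
  have hpi : H.pi ^ M ≠ 0 := pow_ne_zero _ H.pi_ne
  let P : O[X] := ∑ i ∈ Finset.range (F.natDegree + 1 + 1), C (c i) * X ^ i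
  have hP : ∀ y, H.pi ^ M * P.eval y = F.eval (t + H.pi ^ r * y) := by
    intro y
    rw [tay F (D := F.natDegree + 1) (by omega)]
    simp only [P, eval_finset_sum, eval_mul, eval_C, eval_pow, eval_X, Finset.mul_sum]
    refine Finset.sum_congr rfl fun i _ => ?_
    rw [← mul_assoc, ← hc i]
    ring
  have hco : ∀ n, n < F.natDegree + 1 + 1 → P.coeff n = c n := by
    intro n hn
    simp only [P, finset_sum_coeff, coeff_C_mul, coeff_X_pow, mul_ite, mul_one, mul_zero]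
    rw [Finset.sum_ite_eq]
    simp [hn]
  have hP0 : P.eval 0 = c 0 := by
    rw [← coeff_zero_eq_eval_zero, hco 0 (by omega)]
  have hP1 : P.derivative.eval 0 = c 1 := by
    rw [← coeff_zero_eq_eval_zero, coeff_derivative, hco 1 (by omega)]
    simp
  obtain ⟨y, hy, hy2⟩ := H.hensel P 0 (by
    rw [hP0, H.res_eq]
    have h2 := hc 0
    simp only [hasseDeriv_zero', zero_mul, pow_zero, mul_one] at h2
    rw [h2, pow_succ] at h0
    exact (mul_dvd_mul_iff_left hpi).1 h0) (by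
    rw [hP1, Ne, H.res_eq]
    intro h3
    apply h1
    have h2 := hc 1
    rw [one_mul] at h2
    rw [h2, pow_succ]
    exact mul_dvd_mul_left _ h3)
  refine ⟨y, ?_, ?_⟩
  · rw [← hP, hy, mul_zero]
  · rw [map_zero] at hy2
    exact (H.res_eq y).1 hy2

theorem rv_mulp (H : HF O k)
    (hmul : ∀ x y : O, x ≠ 0 → y ≠ 0 → H.rv (x * y) = (H.v x + H.v y, H.ac x * H.ac y))
    (x h : O) (hx : x ≠ 0) (hh : h ≠ 0) (j : ℕ) :
    H.rv (x * h ^ j) = mulp (H.rv x) (H.rv h) j := by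
  induction j with
  | zero => simp [mulp, HF.rv]
  | succ n ih =>
    rw [pow_succ, ← mul_assoc, hmul _ _ (mul_ne_zero hx (pow_ne_zero _ hh)) hh]
    have e1 : H.v (x * h ^ n) = H.v x + n * H.v h := congrArg Prod.fst ih
    have e2 : H.ac (x * h ^ n) = H.ac x * H.ac h ^ n := congrArg Prod.snd ih
    simp only [mulp, HF.rv]
    rw [e1, e2]
    refine Prod.ext ?_ ?_
    · simp only; ring
    · simp only; ring

theorem rep_mulp (H : HF O k)
    (hmul : ∀ x y : O, x ≠ 0 → y ≠ 0 → H.rv (x * y) = (H.v x + H.v y, H.ac x * H.ac y))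
    (hac : ∀ x : O, H.ac x = 0 ↔ x = 0)
    (x h : O) (hh : h ≠ 0) (j : ℕ) :
    H.Rep (mulp (H.rv x) (H.rv h) j) (x * h ^ j) := by
  by_cases hx : x = 0
  · left
    subst hx
    refine ⟨?_, by simp⟩
    simp [mulp, HF.rv, H.ac_zero]
  · right
    refine ⟨?_, mul_ne_zero hx (pow_ne_zero _ hh), rv_mulp H hmul x h hx hh j⟩
    simp only [mulp, HF.rv]
    exact mul_ne_zero ((hac x).not.2 hx) (pow_ne_zero _ ((hac h).not.2 hh))

theorem cast_ne (H : HF O k) (m : ℕ) (hm : (m : k) ≠ 0) : (m : O) ≠ 0 := by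
  intro h
  apply hm
  have := congrArg H.res h
  simpa using this

theorem v_mul (H : HF O k)
    (hmul : ∀ x y : O, x ≠ 0 → y ≠ 0 → H.rv (x * y) = (H.v x + H.v y, H.ac x * H.ac y))
    (x y : O) (hx : x ≠ 0) (hy : y ≠ 0) : H.v (x * y) = H.v x + H.v y :=
  congrArg Prod.fst (hmul x y hx hy)

theorem v_pow (H : HF O k)
    (hmul : ∀ x y : O, x ≠ 0 → y ≠ 0 → H.rv (x * y) = (H.v x + H.v y, H.ac x * H.ac y))
    (x h : O) (hx : x ≠ 0) (hh : h ≠ 0) (j : ℕ) : H.v (x * h ^ j) = H.v x + j * H.v h :=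
  congrArg Prod.fst (rv_mulp H hmul x h hx hh j)

theorem v_cast (H : HF O k)
    (hdvd : ∀ (x : O) (n : ℕ), x ≠ 0 → (H.pi ^ n ∣ x ↔ n ≤ H.v x))
    (m : ℕ) (hm : (m : k) ≠ 0) : H.v (m : O) = 0 := by
  by_contra h
  have h1 : H.pi ^ 1 ∣ (m : O) := (hdvd _ 1 (cast_ne H m hm)).2 (by omega)
  rw [pow_one, ← H.res_eq] at h1
  apply hm
  simpa using h1

theorem v_cast_mul (H : HF O k)
    (hmul : ∀ x y : O, x ≠ 0 → y ≠ 0 → H.rv (x * y) = (H.v x + H.v y, H.ac x * H.ac y))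
    (hdvd : ∀ (x : O) (n : ℕ), x ≠ 0 → (H.pi ^ n ∣ x ↔ n ≤ H.v x))
    (m : ℕ) (hm : (m : k) ≠ 0) (x : O) (hx : x ≠ 0) : H.v ((m : O) * x) = H.v x := by
  rw [v_mul H hmul _ _ (cast_ne H m hm) hx, v_cast H hdvd m hm, zero_add]

theorem v_le (H : HF O k)
    (hmul : ∀ x y : O, x ≠ 0 → y ≠ 0 → H.rv (x * y) = (H.v x + H.v y, H.ac x * H.ac y))
    (c x : O) (hx : c * x ≠ 0) : H.v x ≤ H.v (c * x) := by
  rw [v_mul H hmul _ _ (left_ne_zero_of_mul hx) (right_ne_zero_of_mul hx)]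
  omega

end Pool.Agent.T2h77U.NclCom
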