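import Mathlib

/-! Statements (as `Prop`s) for the uniform rationality of the subalgebra zeta functions over the
unramified extensions of the `p`-adic numbers. One task proves one of these statements. -/

namespace Pool.Agent.T2h77U

open Polynomial

/-! ## Part 1: one ring -/

/-- Elementary data of a Henselian discrete valuation ring `O` with residue field `k`:
the residue map, a uniformizer, the valuation `v` (with `v 0 = 0`) and the angular component `ac`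
(with `ac 0 = 0`). -/
structure HF (O k : Type) [CommRing O] [IsDomain O] [Field k] where
  res : O →+* k
  pi : O
  v : O → ℕ
  ac : O → k
  res_surj : Function.Surjective res
  pi_ne : pi ≠ 0
  res_eq : ∀ x, res x = 0 ↔ pi ∣ x
  v_zero : v 0 = 0
  ac_zero : ac 0 = 0
  spec : ∀ x, x ≠ 0 → ac x ≠ 0 ∧ ∃ u, x = pi ^ v x * u ∧ res u = ac x
  hensel : ∀ (F : O[X]) (a : O), res (F.eval a) = 0 → res (F.derivative.eval a) ≠ 0 →
    ∃ b, F.eval b = 0 ∧ res b = res a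

/-- the leading term of `x`: valuation and angular component -/
def HF.rv {O k : Type} [CommRing O] [IsDomain O] [Field k] (H : HF O k) (x : O) : ℕ × k :=
  (H.v x, H.ac x)

/-- sum of the angular components of the terms of valuation `M` -/
def Lev {k : Type} [Field k] {m : ℕ} (e : Fin m → ℕ × k) (M : ℕ) : k :=
  ∑ j, if (e j).1 = M then (e j).2 else 0

/-- the leading terms `e j` (terms with second component zero stand for zero) add up without
cancellation to `σ` -/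
def NoCancel {k : Type} [Field k] {m : ℕ} (e : Fin m → ℕ × k) (σ : ℕ × k) : Prop :=
  ((∀ j, (e j).2 = 0) ∧ σ = (0, 0)) ∨
    ∃ M, (∀ j, (e j).2 ≠ 0 → M ≤ (e j).1) ∧ Lev e M ≠ 0 ∧ σ = (M, Lev e M)

/-- the leading terms `e j` are not all zero and cancel at the lowest level -/
def Cancel {k : Type} [Field k] {m : ℕ} (e : Fin m → ℕ × k) : Prop :=
  ∃ M, (∀ j, (e j).2 ≠ 0 → M ≤ (e j).1) ∧ (∃ j, (e j).2 ≠ 0 ∧ (e j).1 = M) ∧ Lev e M = 0

/-- `a * ρ ^ j` for leading terms -/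
def mulp {k : Type} [Field k] (a ρ : ℕ × k) (j : ℕ) : ℕ × k := (a.1 + j * ρ.1, a.2 * ρ.2 ^ j)

/-- `e` represents `y` -/
def HF.Rep {O k : Type} [CommRing O] [IsDomain O] [Field k] (H : HF O k) (e : ℕ × k) (y : O) :
    Prop := (e.2 = 0 ∧ y = 0) ∨ (e.2 ≠ 0 ∧ y ≠ 0 ∧ H.rv y = e)

/-- SUM: multiplicativity and addition of leading terms. -/
def S_SUM : Prop :=
  ∀ (O k : Type) [CommRing O] [IsDomain O] [Field k] (H : HF O k),
    (∀ x y : O, x ≠ 0 → y ≠ 0 → H.rv (x * y) = (H.v x + H.v y, H.ac x * H.ac y)) ∧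
    (∀ x : O, H.ac x = 0 ↔ x = 0) ∧
    (∀ (x : O) (n : ℕ), x ≠ 0 → (H.pi ^ n ∣ x ↔ n ≤ H.v x)) ∧
    (∀ x y : O, x ≠ 0 → (H.rv y = H.rv x ↔ H.pi ^ (H.v x + 1) ∣ y - x)) ∧
    (∀ ρ : ℕ × k, ρ.2 ≠ 0 → ∃ h : O, h ≠ 0 ∧ H.rv h = ρ) ∧
    (∀ (m : ℕ) (e : Fin m → ℕ × k) (y : Fin m → O) (σ : ℕ × k), (∀ j, H.Rep (e j) (y j)) →
      NoCancel e σ → H.rv (∑ j, y j) = σ) ∧
    (∀ (m : ℕ) (e : Fin m → ℕ × k) (y : Fin m → O) (M : ℕ), (∀ j, H.Rep (e j) (y j)) →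
      (∀ j, (e j).2 ≠ 0 → M ≤ (e j).1) → Lev e M = 0 → H.pi ^ (M + 1) ∣ ∑ j, y j) ∧
    (∀ (m : ℕ) (e : Fin m → ℕ × k), (∃ σ, NoCancel e σ) ∨ Cancel e)

/-- BAS: basic facts. -/
def S_BAS : Prop :=
  ∀ (O k : Type) [CommRing O] [IsDomain O] [Field k] (H : HF O k),
    (∀ x : O, IsUnit x ↔ H.res x ≠ 0) ∧ IsDiscreteValuationRing O ∧ Irreducible H.pi ∧
    (Finite k → ∀ n : ℕ, Nat.card (O ⧸ Ideal.span {H.pi ^ n}) = (Nat.card k) ^ n)

/-- the radius of the class with leading terms `τ`: least `l` with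
`v (τ a) ≤ v (τ (der a j)) + j l` for all `a` and `j ≥ 1`. -/
def Lam {J k : Type} [Field k] (D : ℕ) (der : J → ℕ → J) (S : Set J) (τ : J → ℕ × k) (l : ℕ) :
    Prop :=
  (∀ a ∈ S, ∀ j, 1 ≤ j → j ≤ D → (τ (der a j)).2 ≠ 0 → (τ a).1 ≤ (τ (der a j)).1 + j * l) ∧
  (l = 0 ∨ ∃ a ∈ S, ∃ j, 1 ≤ j ∧ j ≤ D ∧ (τ (der a j)).2 ≠ 0 ∧
    (τ (der a j)).1 + j * (l - 1) < (τ a).1)

/-- NCL: nearest center and ball structure for a family closed under (Hasse) derivatives.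
`S` is the set of indices used, `F x0 = X`. -/
def S_NCL : Prop :=
  ∀ (O k : Type) [CommRing O] [IsDomain O] [Field k] (H : HF O k) (J : Type) (S : Set J)
    (F : J → O[X]) (der : J → ℕ → J) (x0 : J) (D : ℕ), S.Finite →
    (∀ a ∈ S, ∀ j, der a j ∈ S ∧ F (der a j) = hasseDeriv j (F a)) →
    x0 ∈ S → F x0 = X → (∀ a ∈ S, (F a).natDegree ≤ D) →
    (∀ j : ℕ, 1 ≤ j → j ≤ D → (j : k) ≠ 0) →
    ∀ t : O, (∀ a ∈ S, F a ≠ 0 → (F a).eval t ≠ 0) →
      ∃ (l : ℕ) (b : O), Lam D der S (fun a => H.rv ((F a).eval t)) l ∧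
        (∀ t' : O, (∀ a ∈ S, H.rv ((F a).eval t') = H.rv ((F a).eval t)) ↔
          H.pi ^ (l + 1) ∣ t' - t) ∧
        (∃ a ∈ S, F a ≠ 0 ∧ (F a).eval b = 0) ∧ t ≠ b ∧ H.v (t - b) = l ∧
        ∀ a ∈ S, NoCancel (fun j : Fin (D + 1) =>
          mulp (H.rv ((F (der a j)).eval b)) (H.rv (t - b)) j) (H.rv ((F a).eval t))

/-- HEN: a cancellation at `(b, ρ)` with non-cancelling derivative gives a root. -/
def S_HEN : Prop :=
  ∀ (O k : Type) [CommRing O] [IsDomain O] [Field k] (H : HF O k) (D : ℕ),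
    (∀ j : ℕ, 1 ≤ j → j ≤ D → (j : k) ≠ 0) →
    ∀ (F : O[X]) (b : O) (ρ σ' : ℕ × k), F.natDegree ≤ D → ρ.2 ≠ 0 →
    NoCancel (fun j : Fin (D + 1) =>
      mulp (H.rv ((hasseDeriv j (hasseDeriv 1 F)).eval b)) ρ j) σ' →
    Cancel (fun j : Fin (D + 1) => mulp (H.rv ((hasseDeriv j F).eval b)) ρ j) →
    ∃ c, F.eval c = 0 ∧ c ≠ b ∧ H.rv (c - b) = ρ

/-- ONE: the one variable counting theorem. A set of the line described by the leading terms of
the `F a` and stable modulo `π ^ N0` has density the sum of the measures of its balls. -/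
def S_ONE : Prop :=
  ∀ (O k : Type) [CommRing O] [IsDomain O] [Field k] [Finite k] (H : HF O k) (m : ℕ)
    (F : Fin m → O[X]) (der : Fin m → ℕ → Fin m) (x0 : Fin m) (D : ℕ),
    (∀ a, ∀ j, F (der a j) = hasseDeriv j (F a)) → F x0 = X → (∀ a, (F a).natDegree ≤ D) →
    (∀ j : ℕ, 1 ≤ j → j ≤ D → (j : k) ≠ 0) →
    ∀ (Q : Set (Fin m → ℕ × k)) (N0 : ℕ),
      (∀ t t' : O, H.pi ^ N0 ∣ t - t' →
        ((fun a => H.rv ((F a).eval t)) ∈ Q ↔ (fun a => H.rv ((F a).eval t')) ∈ Q)) →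
      HasSum (fun y : {y : (Fin m → ℕ × k) × ℕ // y.1 ∈ Q ∧
          (∃ t : O, ∀ a, y.1 a = H.rv ((F a).eval t)) ∧
          (∀ a, (y.1 a).2 = 0 → ∀ j, j ≤ D → (y.1 (der a j)).2 = 0) ∧
          Lam D der Set.univ y.1 y.2} => ((Nat.card k : ℝ) ^ (y.1.2 + 1))⁻¹)
        ((Nat.card ((fun t : O => Ideal.Quotient.mk (Ideal.span {H.pi ^ N0}) t) ''
          {t | (fun a => H.rv ((F a).eval t)) ∈ Q}) : ℝ) / (Nat.card k : ℝ) ^ N0)

/-- CLO: finite families of polynomials can be closed under Hasse derivatives, removal of the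
leading term and pseudo-remainders. -/
def S_CLO : Prop :=
  ∀ (A : Type) [CommRing A] [IsDomain A] (G : Finset A[X]),
    ∃ (m : ℕ) (F : Fin m → A[X]) (der : Fin m → ℕ → Fin m) (el : Fin m → Fin m)
      (rem : Fin m → Fin m → Fin m) (x0 : Fin m),
      (∀ g ∈ G, ∃ a, F a = g) ∧ F x0 = X ∧ (∀ a, der a 0 = a) ∧
      (∀ a j, F (der a j) = hasseDeriv j (F a)) ∧ (∀ a, F (el a) = (F a).eraseLead) ∧
      (∀ a h, (F h).natDegree ≤ (F a).natDegree → F h ≠ 0 →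
        ∃ (N : ℕ) (Q : A[X]), C (F h).leadingCoeff ^ N * F a = Q * F h + F (rem a h) ∧
          (F (rem a h)).degree < (F h).degree)

/-! ## Part 2: families of rings -/

/-- families (indexed by `ι`) of relations between leading terms -/
abbrev Rel {ι : Type} (k : ι → Type) (s : Type) := ∀ i, Set (s → ℕ × k i)

/-- A family of relations is good if, for given angular components, membership depends only on
the validity of finitely many semilinear (Presburger) conditions on the valuations, the same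
for all `i`. -/
def Good {ι : Type} (k : ι → Type) {s : Type} (R : Rel k s) : Prop :=
  ∃ C : Set (Set (s → ℕ)), C.Finite ∧ (∀ c ∈ C, IsSemilinearSet c) ∧
    ∀ (i : ι) (ρ ρ' : s → ℕ × k i), (∀ j, (ρ j).2 = (ρ' j).2) →
      (∀ c ∈ C, ((fun j => (ρ j).1) ∈ c ↔ (fun j => (ρ' j).1) ∈ c)) → (ρ ∈ R i ↔ ρ' ∈ R i)

/-- GOO: closure properties of good families of relations. -/
def S_GOO : Prop :=
  ∀ (ι : Type) (k : ι → Type),
    (∀ (s : Type) (R : Rel k s), Good k R → Good k (fun i => (R i)ᶜ)) ∧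
    (∀ (s : Type) (J : Type) [Finite J] (R : J → Rel k s), (∀ j, Good k (R j)) →
      Good k (fun i => ⋂ j, R j i)) ∧
    (∀ (s : Type) (J : Type) [Finite J] (R : J → Rel k s), (∀ j, Good k (R j)) →
      Good k (fun i => ⋃ j, R j i)) ∧
    (∀ (s s' : Type) [Finite s] [Finite s'] (f : s → s') (R : Rel k s), Good k R →
      Good k (fun i => {ρ : s' → ℕ × k i | (fun j => ρ (f j)) ∈ R i})) ∧
    (∀ (s u : Type) [Finite s] [Finite u] (R : Rel k (s ⊕ u)), Good k R →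
      Good k (fun i => {ρ : s → ℕ × k i | ∃ τ : u → ℕ × k i, Sum.elim ρ τ ∈ R i})) ∧
    (∀ (s : Type) (A : ∀ i, Set (s → k i)), Good k (fun i => {ρ | (fun j => (ρ j).2) ∈ A i})) ∧
    (∀ (s : Type) [Finite s] (c : Set (s → ℕ)), IsSemilinearSet c →
      Good k (fun i => {ρ : s → ℕ × k i | (fun j => (ρ j).1) ∈ c})) ∧
    (∀ (s : Type) [Fintype s] (a b : s → ℕ) (c d : ℕ),
      Good k (fun i => {ρ : s → ℕ × k i | ∑ j, a j * (ρ j).1 + c ≤ ∑ j, b j * (ρ j).1 + d}))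

/-- REL: the relations used in the elimination are good (variables: `Sum.inl j` for the terms
`τ j`, `Sum.inr 0` for `ρ`, `Sum.inr 1` for `σ`). -/
def S_REL : Prop :=
  ∀ (ι : Type) (k : ι → Type) [∀ i, Field (k i)] (D : ℕ),
    Good k (fun i => {x : Fin (D + 1) ⊕ Fin 2 → ℕ × k i |
      NoCancel (fun j : Fin (D + 1) => mulp (x (Sum.inl j)) (x (Sum.inr 0)) j)
        (x (Sum.inr 1))}) ∧
    Good k (fun i => {x : Fin (D + 1) ⊕ Fin 2 → ℕ × k i |
      Cancel (fun j : Fin (D + 1) => mulp (x (Sum.inl j)) (x (Sum.inr 0)) j)}) ∧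
    (∀ N : ℕ, Good k (fun i => {x : Fin 3 → ℕ × k i |
      N * (x 0).1 + (x 1).1 = (x 2).1 ∧ (x 0).2 ^ N * (x 1).2 = (x 2).2})) ∧
    (∀ (m : ℕ) (der : Fin m → ℕ → Fin m) (S : Set (Fin m)),
      Good k (fun i => {x : Fin m ⊕ Fin 1 → ℕ × k i |
        Lam D der S (fun a => x (Sum.inl a)) (x (Sum.inr 0)).1}))

/-- evaluation of a polynomial in one variable with coefficients in `ℤ[x_1, .., x_n]` -/
noncomputable def ev {n : ℕ} {O : Type} [CommRing O] (x : Fin n → O)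
    (F : (MvPolynomial (Fin n) ℤ)[X]) : O[X] :=
  F.map ((MvPolynomial.aeval x : MvPolynomial (Fin n) ℤ →ₐ[ℤ] O) : MvPolynomial (Fin n) ℤ →+* O)

section
variable {ι : Type} (O k : ι → Type) [∀ i, CommRing (O i)] [∀ i, IsDomain (O i)]
  [∀ i, Field (k i)] (H : ∀ i, HF (O i) (k i))

/-- families of relations depending on a point `x`, definable by good relations in the leading
terms of finitely many polynomials at `x` -/
def XG {n : ℕ} {s : Type} (S : ∀ i, (Fin n → O i) → Set (s → ℕ × k i)) : Prop :=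
  ∃ (m : ℕ) (g : Fin m → MvPolynomial (Fin n) ℤ) (P : Rel k (Fin m ⊕ s)), Good k P ∧
    ∀ i x ρ, ρ ∈ S i x ↔
      Sum.elim (fun j => (H i).rv (MvPolynomial.aeval x (g j))) ρ ∈ P i

end

/-- XGC: closure properties of `XG`. -/
def S_XGC : Prop :=
  ∀ (ι : Type) (O k : ι → Type) [∀ i, CommRing (O i)] [∀ i, IsDomain (O i)]
    [∀ i, Field (k i)] (H : ∀ i, HF (O i) (k i)) (n : ℕ),
    (∀ (s : Type) [Finite s] (S : ∀ i, (Fin n → O i) → Set (s → ℕ × k i)), XG O k H S →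
      XG O k H (fun i x => (S i x)ᶜ)) ∧
    (∀ (s : Type) [Finite s] (J : Type) [Finite J]
      (S : J → ∀ i, (Fin n → O i) → Set (s → ℕ × k i)), (∀ j, XG O k H (S j)) →
      XG O k H (fun i x => ⋂ j, S j i x)) ∧
    (∀ (s : Type) [Finite s] (J : Type) [Finite J]
      (S : J → ∀ i, (Fin n → O i) → Set (s → ℕ × k i)), (∀ j, XG O k H (S j)) →
      XG O k H (fun i x => ⋃ j, S j i x)) ∧
    (∀ (s s' : Type) [Finite s] [Finite s'] (f : s → s')
      (S : ∀ i, (Fin n → O i) → Set (s → ℕ × k i)), XG O k H S →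
      XG O k H (fun i x => {ρ : s' → ℕ × k i | (fun j => ρ (f j)) ∈ S i x})) ∧
    (∀ (s u : Type) [Finite s] [Finite u]
      (S : ∀ i, (Fin n → O i) → Set ((s ⊕ u) → ℕ × k i)), XG O k H S →
      XG O k H (fun i x => {ρ : s → ℕ × k i | ∃ τ : u → ℕ × k i, Sum.elim ρ τ ∈ S i x})) ∧
    (∀ (s : Type) [Finite s] (R : Rel k s), Good k R → XG O k H (fun i (_ : Fin n → O i) => R i)) ∧
    (∀ (s : Type) [Finite s] (m : ℕ) (g : Fin m → MvPolynomial (Fin n) ℤ)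
      (S : ∀ i, (Fin n → O i) → Set ((s ⊕ Fin m) → ℕ × k i)), XG O k H S →
      XG O k H (fun i x => {ρ : s → ℕ × k i |
        Sum.elim ρ (fun j => (H i).rv (MvPolynomial.aeval x (g j))) ∈ S i x}))

/-- ADD: the induction step of the elimination. `Pt S` is the set of the leading term vectors at
the roots of the members of `S`. -/
def PtS {ι : Type} (O k : ι → Type) [∀ i, CommRing (O i)] [∀ i, IsDomain (O i)]
    [∀ i, Field (k i)] (H : ∀ i, HF (O i) (k i)) {n m : ℕ}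
    (F : Fin m → (MvPolynomial (Fin n) ℤ)[X]) (S : Finset (Fin m)) :
    ∀ i, (Fin n → O i) → Set (Fin m → ℕ × k i) :=
  fun i x => {τ | ∃ b : O i, (∃ a ∈ S, ev x (F a) ≠ 0 ∧ (ev x (F a)).eval b = 0) ∧
    ∀ a, τ a = if a ∈ S then (H i).rv ((ev x (F a)).eval b) else (0, 0)}

def S_ADD : Prop :=
  ∀ (ι : Type) (O k : ι → Type) [∀ i, CommRing (O i)] [∀ i, IsDomain (O i)]
    [∀ i, Field (k i)] (H : ∀ i, HF (O i) (k i)) (n m D : ℕ)
    (F : Fin m → (MvPolynomial (Fin n) ℤ)[X]) (der : Fin m → ℕ → Fin m) (el : Fin m → Fin m)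
    (rem : Fin m → Fin m → Fin m) (x0 : Fin m) (S : Finset (Fin m)) (a0 : Fin m),
    (∀ i, ∀ j : ℕ, 1 ≤ j → j ≤ D → (j : k i) ≠ 0) → (∀ a, (F a).natDegree ≤ D) →
    F x0 = X → x0 ∈ S → (∀ a, der a 0 = a) → (∀ a j, F (der a j) = hasseDeriv j (F a)) →
    (∀ a, F (el a) = (F a).eraseLead) →
    (∀ a h, (F h).natDegree ≤ (F a).natDegree → F h ≠ 0 →
      ∃ (N : ℕ) (Q : (MvPolynomial (Fin n) ℤ)[X]),
        C (F h).leadingCoeff ^ N * F a = Q * F h + F (rem a h) ∧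
        (F (rem a h)).degree < (F h).degree) →
    (∀ a ∈ S, ∀ j, der a j ∈ S) → (∀ a ∈ S, el a ∈ S) → (∀ h ∈ S, rem a0 h ∈ S) →
    (∀ j, 1 ≤ j → der a0 j ∈ S) → (∀ h ∈ S, (F h).natDegree ≤ (F a0).natDegree) → a0 ∉ S →
    XG O k H (PtS O k H F S) → XG O k H (PtS O k H F (insert a0 S))

/-- PTT: projection theorem: the leading term vectors of a closed family at the points of the
line form a family definable by good relations. -/
def S_PTT : Prop :=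
  ∀ (ι : Type) (O k : ι → Type) [∀ i, CommRing (O i)] [∀ i, IsDomain (O i)]
    [∀ i, Field (k i)] (H : ∀ i, HF (O i) (k i)) (n m D : ℕ)
    (F : Fin m → (MvPolynomial (Fin n) ℤ)[X]) (der : Fin m → ℕ → Fin m) (el : Fin m → Fin m)
    (rem : Fin m → Fin m → Fin m) (x0 : Fin m),
    (∀ i, ∀ j : ℕ, 1 ≤ j → j ≤ D → (j : k i) ≠ 0) → (∀ a, (F a).natDegree ≤ D) →
    F x0 = X → (∀ a, der a 0 = a) → (∀ a j, F (der a j) = hasseDeriv j (F a)) →
    (∀ a, F (el a) = (F a).eraseLead) →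
    (∀ a h, (F h).natDegree ≤ (F a).natDegree → F h ≠ 0 →
      ∃ (N : ℕ) (Q : (MvPolynomial (Fin n) ℤ)[X]),
        C (F h).leadingCoeff ^ N * F a = Q * F h + F (rem a h) ∧
        (F (rem a h)).degree < (F h).degree) →
    XG O k H (fun i (x : Fin n → O i) =>
      {τ : Fin m → ℕ × k i | ∃ t : O i, ∀ a, τ a = (H i).rv ((ev x (F a)).eval t)})

/-- number of classes modulo `π ^ N` of the points of `Y` -/
noncomputable def ncl {O k : Type} [CommRing O] [IsDomain O] [Field k] (H : HF O k) {n : ℕ}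
    (N : ℕ) (Y : Set (Fin n → O)) : ℕ :=
  Nat.card ((fun (x : Fin n → O) j => Ideal.Quotient.mk (Ideal.span {H.pi ^ N}) (x j)) '' Y)

/-- CEL: the cell decomposition in `n` variables, for the subfamilies `e` of a family. -/
def S_CEL : Prop :=
  ∀ (ι : Type) (O k : ι → Type) [∀ i, CommRing (O i)] [∀ i, IsDomain (O i)]
    [∀ i, Field (k i)] [∀ i, Finite (k i)] (H : ∀ i, HF (O i) (k i))
    (n m : ℕ) (g : Fin m → MvPolynomial (Fin n) ℤ), ∃ D : ℕ,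
    ∀ (ι' : Type) (e : ι' → ι),
      (∀ i, ∀ j : ℕ, 1 ≤ j → j ≤ D → (j : k (e i)) ≠ 0) →
      (∀ c : ℤ, ∃ w : ℕ, ∀ i, (H (e i)).v (c : O (e i)) = w) →
      ∃ (r : ℕ) (emb : Fin m → Fin r) (L : Finset (Fin r)) (Z : Rel (fun i => k (e i)) (Fin r)),
        Good (fun i => k (e i)) Z ∧
        ∀ i, (∀ τ ∈ Z i, ∃ x : Fin n → O (e i), ∀ j,
            τ (emb j) = (H (e i)).rv (MvPolynomial.aeval x (g j))) ∧
          ∀ (Q : Set (Fin m → ℕ × k (e i))) (N0 : ℕ),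
            (∀ x x' : Fin n → O (e i), (∀ j, (H (e i)).pi ^ N0 ∣ x j - x' j) →
              ((fun j => (H (e i)).rv (MvPolynomial.aeval x (g j))) ∈ Q ↔
                (fun j => (H (e i)).rv (MvPolynomial.aeval x' (g j))) ∈ Q)) →
            HasSum (fun τ : {τ : Fin r → ℕ × k (e i) // τ ∈ Z i ∧ (fun j => τ (emb j)) ∈ Q} =>
                ((Nat.card (k (e i)) : ℝ) ^ (n + ∑ l ∈ L, (τ.1 l).1))⁻¹)
              ((ncl (H (e i)) N0
                  {x | (fun j => (H (e i)).rv (MvPolynomial.aeval x (g j))) ∈ Q} : ℝ) /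
                (Nat.card (k (e i)) : ℝ) ^ (n * N0))

/-! ## Part 3: rational generating functions -/

/-- `∏ (1 - q^α X^β)` -/
noncomputable def DenP (q : ℝ) (L : List (ℤ × ℕ)) : PowerSeries ℝ :=
  (L.map (fun ab => 1 - PowerSeries.C (q ^ ab.1) * PowerSeries.X ^ ab.2)).prod

/-- HS1: Hilbert-Serre argument. -/
def S_HS1 : Prop :=
  ∀ (r l : ℕ) (v : Fin l → (Fin r → ℕ)) (A B : Set (Fin r → ℕ)) (G : Finset (Fin r → ℕ)),
    (∀ i, ∀ γ ∈ A, γ + v i ∈ A) → (∀ i, ∀ γ ∈ B, γ + v i ∈ B) → (∀ g ∈ G, g ∈ A) →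
    (∀ γ ∈ A, γ ∈ B ∨ ∃ g ∈ G, ∃ n : Fin l → ℕ, γ = g + ∑ i, n i • v i) →
    ∃ T : Finset (Fin r → ℕ), ∀ (W : (Fin r → ℕ) →+ ℤ) (M : (Fin r → ℕ) →+ ℕ) (q : ℝ), 1 < q →
      (∀ n, Summable (fun γ : {γ : Fin r → ℕ // (γ ∈ A ∧ γ ∉ B) ∧ M γ = n} => q ^ (W γ.1))) →
      ∀ n, (∀ γ ∈ T, M γ ≠ n) → PowerSeries.coeff n (
        (List.ofFn fun i => 1 - PowerSeries.C (q ^ (W (v i))) * PowerSeries.X ^ (M (v i))).prod *
        PowerSeries.mk (fun n => ∑' γ : {γ : Fin r → ℕ // (γ ∈ A ∧ γ ∉ B) ∧ M γ = n},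
          q ^ (W γ.1))) = 0

/-- HS2: intersections of linear sets are finitely generated over one finitely generated
monoid. -/
def S_HS2 : Prop :=
  ∀ (r N : ℕ) (c : Fin N → Set (Fin r → ℕ)), 0 < N → (∀ i, IsLinearSet (c i)) →
    ∃ (l : ℕ) (v : Fin l → (Fin r → ℕ)) (G : Finset (Fin r → ℕ)), (∀ i, v i ≠ 0) ∧
      ∀ γ, (∀ i, γ ∈ c i) ↔ ∃ g ∈ G, ∃ n : Fin l → ℕ, γ = g + ∑ i, n i • v i

/-- HSS: rationality of the generating function of a semilinear set, uniformly in `q`. -/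
def S_HSS : Prop :=
  ∀ (r : ℕ) (c : Set (Fin r → ℕ)), IsSemilinearSet c →
    ∀ (A : (Fin r → ℕ) →+ ℤ) (M : (Fin r → ℕ) →+ ℕ),
    ∃ (L : List (ℤ × ℕ)) (B : ℕ), (∀ ab ∈ L, 1 ≤ ab.2) ∧
      ∀ q : ℝ, 1 < q →
        (∀ n, Summable (fun γ : {γ : Fin r → ℕ // γ ∈ c ∧ M γ = n} => q ^ (A γ.1))) →
        ∀ n, B < n → PowerSeries.coeff n (DenP q L * PowerSeries.mk
          (fun n => ∑' γ : {γ : Fin r → ℕ // γ ∈ c ∧ M γ = n}, q ^ (A γ.1))) = 0

/-- GRA: the same for good families. -/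
def S_GRA : Prop :=
  ∀ (ι : Type) (k : ι → Type) [∀ i, Finite (k i)] [∀ i, Nontrivial (k i)] (r : ℕ)
    (Z : Rel k (Fin r)), Good k Z →
    ∀ (A : (Fin r → ℕ) →+ ℤ) (M : (Fin r → ℕ) →+ ℕ),
    ∃ (L : List (ℤ × ℕ)) (B : ℕ), (∀ ab ∈ L, 1 ≤ ab.2) ∧
      ∀ i, (∀ n, Summable (fun τ : {τ : Fin r → ℕ × k i //
          τ ∈ Z i ∧ M (fun j => (τ j).1) = n} => (Nat.card (k i) : ℝ) ^ (A fun j => (τ.1 j).1))) →
        ∀ n, B < n → PowerSeries.coeff n (DenP (Nat.card (k i)) L * PowerSeries.mk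
          (fun n => ∑' τ : {τ : Fin r → ℕ × k i // τ ∈ Z i ∧ M (fun j => (τ j).1) = n},
            (Nat.card (k i) : ℝ) ^ (A fun j => (τ.1 j).1))) = 0

end Pool.Agent.T2h77U
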