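import Pool.Agent.H260TZ.Uniq
import Pool.Agent.H260TZ.Inst
import Pool.Agent.T2h77U.Stm

/-! Statements, part 2: subalgebras, moments, the explicit algebra of rank 10. -/

namespace Pool.Agent.T2h77U

open Polynomial Filter Topology Pool.Agent.H260TZ

/-! ## Part 4: subalgebras and matrices -/

/-- number of subalgebras of index `q ^ n` -/
noncomputable def acount {d : ℕ} (c : Fin d → Fin d → Fin d → ℤ) (R : Type) [CommRing R]
    (q n : ℕ) : ℕ :=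
  Nat.card {U : FinSub c R // Nat.card ((Fin d → R) ⧸ U.1) = q ^ n}

/-- LA1: submodules of finite index and matrices. -/
def S_LA1 : Prop :=
  ∀ (O k : Type) [CommRing O] [IsDomain O] [Field k] [Finite k] (H : HF O k) (d : ℕ),
    (∀ U : Submodule O (Fin d → O), Finite ((Fin d → O) ⧸ U) →
      ∃ x : Matrix (Fin d) (Fin d) O, x.det ≠ 0 ∧ U = Submodule.span O (Set.range x.row)) ∧
    (∀ x : Matrix (Fin d) (Fin d) O, x.det ≠ 0 →
      Nat.card ((Fin d → O) ⧸ Submodule.span O (Set.range x.row)) = (Nat.card k) ^ (H.v x.det)) ∧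
    (∀ x y : Matrix (Fin d) (Fin d) O, x.det ≠ 0 → y.det ≠ 0 →
      (Submodule.span O (Set.range x.row) = Submodule.span O (Set.range y.row) ↔
        ∃ g : GL (Fin d) O, y = (g : Matrix (Fin d) (Fin d) O) * x)) ∧
    (∀ x : Matrix (Fin d) (Fin d) O, x.det ≠ 0 → ∀ w : Fin d → O,
      (w ∈ Submodule.span O (Set.range x.row) ↔ ∀ l, x.det ∣ Matrix.vecMul w x.adjugate l))

/-- a matrix as a tuple -/
def vec {O : Type} {d : ℕ} (x : Matrix (Fin d) (Fin d) O) : Fin (d * d) → O :=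
  fun a => x (finProdFinEquiv.symm a).1 (finProdFinEquiv.symm a).2

/-- LA2: number of classes of the orbits. -/
def S_LA2 : Prop :=
  ∀ (O k : Type) [CommRing O] [IsDomain O] [Field k] [Finite k] (H : HF O k) (d : ℕ)
    (x : Matrix (Fin d) (Fin d) O), x.det ≠ 0 →
    ncl H (H.v x.det + 1)
      {y : Fin (d * d) → O | ∃ g : GL (Fin d) O, y = vec ((g : Matrix (Fin d) (Fin d) O) * x)} *
      (Nat.card k) ^ (d * H.v x.det) =
    Nat.card (GL (Fin d) k) * (Nat.card k) ^ (d * d * H.v x.det)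

/-- the matrix of variables -/
noncomputable def xm (d : ℕ) : Matrix (Fin d) (Fin d) (MvPolynomial (Fin (d * d)) ℤ) :=
  Matrix.of fun i j => MvPolynomial.X (finProdFinEquiv (i, j))

/-- the polynomials expressing that the span of the rows is closed under multiplication -/
noncomputable def gpol {d : ℕ} (c : Fin d → Fin d → Fin d → ℤ) (i j l : Fin d) :
    MvPolynomial (Fin (d * d)) ℤ :=
  Matrix.vecMul (mulR c (MvPolynomial (Fin (d * d)) ℤ) (xm d i) (xm d j)) (xm d).adjugate l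

/-- the matrices of determinant of valuation `n` with closed row span -/
def YY {O k : Type} [CommRing O] [IsDomain O] [Field k] (H : HF O k) {d : ℕ}
    (c : Fin d → Fin d → Fin d → ℤ) (n : ℕ) : Set (Fin (d * d) → O) :=
  {x | H.ac (MvPolynomial.aeval x (xm d).det) ≠ 0 ∧ H.v (MvPolynomial.aeval x (xm d).det) = n ∧
    ∀ i j l, H.ac (MvPolynomial.aeval x (gpol c i j l)) = 0 ∨
      n ≤ H.v (MvPolynomial.aeval x (gpol c i j l))}

/-- LAT: the number of subalgebras and the set `YY`. -/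
def S_LAT : Prop :=
  ∀ (O k : Type) [CommRing O] [IsDomain O] [Field k] [Finite k] (H : HF O k) (d : ℕ)
    (c : Fin d → Fin d → Fin d → ℤ),
    (∀ U : FinSub c O, ∃ n, Nat.card ((Fin d → O) ⧸ U.1) = (Nat.card k) ^ n) ∧
    (∀ n, Finite {U : FinSub c O // Nat.card ((Fin d → O) ⧸ U.1) = (Nat.card k) ^ n}) ∧
    (∀ n, ∀ x x' : Fin (d * d) → O, (∀ j, H.pi ^ (n + 1) ∣ x j - x' j) →
      (x ∈ YY H c n ↔ x' ∈ YY H c n)) ∧
    (∀ n, acount c O (Nat.card k) n * Nat.card (GL (Fin d) k) * (Nat.card k) ^ (d * d * n) =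
      (Nat.card k) ^ (d * n) * ncl H (n + 1) (YY H c n))

/-- WIT: the rings of Witt vectors. -/
def S_WIT : Prop :=
  ∀ (p : ℕ) [Fact p.Prime] (f : ℕ), f ≠ 0 →
    ∃ H : HF (WittVector p (GaloisField p f)) (GaloisField p f),
      ∀ c : ℤ, H.v (c : WittVector p (GaloisField p f)) = padicValInt p c

/-- `∏ (1 - q^α X^β)` over a field -/
noncomputable def DenK {K : Type} [Field K] (q : K) (L : List (ℤ × ℕ)) : PowerSeries K :=
  (L.map (fun ab => 1 - PowerSeries.C (q ^ ab.1) * PowerSeries.X ^ ab.2)).prod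

/-- UR: uniform rationality of the subalgebra zeta functions. -/
def S_UR : Prop :=
  ∀ (d : ℕ) (c : Fin d → Fin d → Fin d → ℤ), ∃ p0 : ℕ, ∀ (p : ℕ) [Fact p.Prime], p0 < p →
    ∃ (L : List (ℤ × ℕ)) (B : ℕ), (∀ ab ∈ L, 1 ≤ ab.2) ∧ ∀ f : ℕ, f ≠ 0 →
      (∀ U : FinSub c (WittVector p (GaloisField p f)), ∃ n,
        Nat.card ((Fin d → WittVector p (GaloisField p f)) ⧸ U.1) = (p ^ f) ^ n) ∧
      (∀ n, Finite {U : FinSub c (WittVector p (GaloisField p f)) //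
        Nat.card ((Fin d → WittVector p (GaloisField p f)) ⧸ U.1) = (p ^ f) ^ n}) ∧
      ∀ n, B < n → PowerSeries.coeff n (DenK ((p ^ f : ℕ) : ℚ) L * PowerSeries.mk
        (fun n => (acount c (WittVector p (GaloisField p f)) (p ^ f) n : ℚ))) = 0

/-! ## Part 5: limits -/

/-- ZVF: the value of the zeta function in terms of the polynomial
`DenK q L * ∑ a_n X^n`. -/
def S_ZVF : Prop :=
  ∀ (d : ℕ) (c : Fin d → Fin d → Fin d → ℤ) (R : Type) [CommRing R] (q : ℕ)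
    (L : List (ℤ × ℕ)) (B : ℕ), 2 ≤ q → (∀ ab ∈ L, 1 ≤ ab.2) →
    (∀ U : FinSub c R, ∃ n, Nat.card ((Fin d → R) ⧸ U.1) = q ^ n) →
    (∀ n, B < n → PowerSeries.coeff n (DenK (q : ℚ) L * PowerSeries.mk
      (fun n => (acount c R q n : ℚ))) = 0) →
    ∀ (s : ℤ) (v : ℚ), ZVal c R q s v →
      v * (L.map (fun ab => 1 - (q : ℚ) ^ (ab.1 - ab.2 * s))).prod =
        (1 - (q : ℚ)⁻¹) ^ d * ∑ n ∈ Finset.range (B + 1),
          PowerSeries.coeff n (DenK (q : ℚ) L * PowerSeries.mk (fun n => (acount c R q n : ℚ))) *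
            (q : ℚ) ^ (-(s * n))

/-- MOM: moments of the limit polynomial and the degree of the limit. -/
def S_MOM : Prop :=
  ∀ (ℓ : ℕ) [Fact ℓ.Prime] (d B : ℕ) (L : List (ℤ × ℕ)) (N D : ℚ[X]) (H : Set ℤ)
    (Q : ℕ → ℚ) (c : ℕ → ℕ → ℚ) (cs : ℕ → ℚ),
    H.Finite → D ≠ 0 → (∀ ab ∈ L, 1 ≤ ab.2) → d ≤ L.length → (∀ t, 1 < Q t) →
    Tendsto (fun t => ((Q t : ℚ) : ℚ_[ℓ])) atTop (𝓝 1) →
    (∀ n ∈ Finset.range (B + 1),
      Tendsto (fun t => ((c t n : ℚ) : ℚ_[ℓ])) atTop (𝓝 ((cs n : ℚ) : ℚ_[ℓ]))) →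
    (∀ s : ℤ, s ∉ H → D.eval (s : ℚ) ≠ 0 ∧ ∃ v : ℕ → ℚ,
      Tendsto (fun t => ((v t : ℚ) : ℚ_[ℓ])) atTop
        (𝓝 ((N.eval (s : ℚ) / D.eval (s : ℚ) : ℚ) : ℚ_[ℓ])) ∧
      ∀ᶠ t in atTop, v t * (L.map (fun ab => 1 - (Q t) ^ (ab.1 - ab.2 * s))).prod =
        (1 - (Q t)⁻¹) ^ d * ∑ n ∈ Finset.range (B + 1), c t n * (Q t) ^ (-(s * n))) →
    ∑ n ∈ Finset.range (B + 1), cs n * (n : ℚ) ^ (L.length - d) = 0 →
    N = 0 ∨ N.natDegree + d < D.natDegree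

/-- LIM: convergence of the coefficients. -/
def S_LIM : Prop :=
  ∀ (ℓ : ℕ) [Fact ℓ.Prime] (L : List (ℤ × ℕ)) (Q : ℕ → ℚ) (a : ℕ → ℕ → ℚ) (χ : ℕ → ℚ),
    (∀ t, 1 < Q t) → Tendsto (fun t => ((Q t : ℚ) : ℚ_[ℓ])) atTop (𝓝 1) →
    (∀ n, Tendsto (fun t => ((a t n : ℚ) : ℚ_[ℓ])) atTop (𝓝 ((χ n : ℚ) : ℚ_[ℓ]))) →
    ∀ n, Tendsto (fun t => ((PowerSeries.coeff n
        (DenK (Q t) L * PowerSeries.mk (a t)) : ℚ) : ℚ_[ℓ])) atTop
      (𝓝 ((PowerSeries.coeff n (DenK (1 : ℚ) L * PowerSeries.mk χ) : ℚ) : ℚ_[ℓ]))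

/-- PO2: a bound for the order of the pole at `1` gives the vanishing of a moment. -/
def S_PO2 : Prop :=
  ∀ (d B : ℕ) (L : List (ℤ × ℕ)) (χ : ℕ → ℤ), (∀ ab ∈ L, 1 ≤ ab.2) → d ≤ L.length →
    (∀ n, B < n → PowerSeries.coeff n (DenK (1 : ℚ) L * PowerSeries.mk (fun n => (χ n : ℚ))) = 0) →
    (∀ x : ℝ, 0 < x → x < 1 → Summable (fun n => (χ n : ℝ) * x ^ n)) →
    Tendsto (fun x : ℝ => (1 - x) ^ d * ∑' n, (χ n : ℝ) * x ^ n) (𝓝[<] 1) (𝓝 0) →
    ∑ n ∈ Finset.range (B + 1), PowerSeries.coeff n (DenK (1 : ℚ) L *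
      PowerSeries.mk (fun n => (χ n : ℚ))) * (n : ℚ) ^ (L.length - d) = 0

/-! ## Part 6: the algebra -/

/-- structure constants of the algebra of rank 10 -/
def c10 : Fin 10 → Fin 10 → Fin 10 → ℤ := fun i j k =>
  if 2 ≤ j.1 ∧ 2 ≤ k.1 ∧ j.1 / 2 = k.1 / 2 ∧ j ≠ k then
    (if i = 0 then 1 else if i = 1 then -((k.1 : ℤ) - 2) else 0) else 0

/-- `V` is closed under the action of `W` with branch points `a`, `b` -/
def Cl {R : Type} [CommRing R] (a b : R) (W V : Submodule R (R × R)) : Prop :=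
  ∀ e ∈ W, ∀ m ∈ V, ((e.1 - a * e.2) * m.2, (e.1 - b * e.2) * m.1) ∈ V

/-- number of graded subalgebras of index `q ^ n` -/
noncomputable def gcount {R : Type} [CommRing R] [IsDomain R] (D : DV R) (n : ℕ) : ℕ :=
  Nat.card {x : Lat R × (Fin 4 → Lat R) //
    (∀ i : Fin 4, Cl ((2 * i.1 : ℕ) : R) ((2 * i.1 + 1 : ℕ) : R) x.1.1 (x.2 i).1) ∧
    idx x.1.1 * ∏ i, idx (x.2 i).1 = D.q ^ n}

/-- TOR: localization with respect to the torus. -/
def S_TOR : Prop :=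
  ∀ (R : Type) [CommRing R] [IsDomain R] (D : DV R) (G : Type) [Group G] [Finite G]
    (θ : G →* Rˣ), (∀ g, g ≠ 1 → IsUnit (((θ g : Rˣ) : R) - 1)) →
    ∀ n, Finite {U : FinSub c10 R // Nat.card ((Fin 10 → R) ⧸ U.1) = D.q ^ n} →
      (Nat.card G : ℤ) ∣ (acount c10 R D.q n : ℤ) - (gcount D n : ℤ)

/-- TO1: orbits of the torus. -/
def S_TO1 : Prop :=
  ∀ (R : Type) [CommRing R] [IsDomain R] (D : DV R) (G : Type) [Group G] [Finite G]
    (θ : G →* Rˣ), (∀ g, g ≠ 1 → IsUnit (((θ g : Rˣ) : R) - 1)) →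
    ∀ n, Finite {U : FinSub c10 R // Nat.card ((Fin 10 → R) ⧸ U.1) = D.q ^ n} →
      (Nat.card G : ℤ) ∣ (acount c10 R D.q n : ℤ) -
        (Nat.card {U : FinSub c10 R // Nat.card ((Fin 10 → R) ⧸ U.1) = D.q ^ n ∧
          ∀ i : Fin 4, ∀ u ∈ U.1, (fun a : Fin 10 => if a.1 / 2 = i.1 + 1 then u a else 0) ∈ U.1} : ℤ)

/-- TO2: graded subalgebras. -/
def S_TO2 : Prop :=
  ∀ (R : Type) [CommRing R] [IsDomain R] (D : DV R) (n : ℕ),
    Nat.card {U : FinSub c10 R // Nat.card ((Fin 10 → R) ⧸ U.1) = D.q ^ n ∧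
      ∀ i : Fin 4, ∀ u ∈ U.1, (fun a : Fin 10 => if a.1 / 2 = i.1 + 1 then u a else 0) ∈ U.1} =
    gcount D n

/-- primitive lattices -/
abbrev BQ {R : Type} [CommRing R] [IsDomain R] (D : DV R) : Type := Bool × (Σ n, D.Q n)

/-- primitive vector of the primitive lattice `y` -/
noncomputable def pvec {R : Type} [CommRing R] [IsDomain R] (D : DV R) (y : BQ D) : R × R :=
  if y.1 then (-(D.lift y.2.2), 1) else (1, -(D.t * D.lift y.2.2))

/-- linear form of the primitive lattice `y` -/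
noncomputable def pform {R : Type} [CommRing R] [IsDomain R] (D : DV R) (y : BQ D) : R × R :=
  if y.1 then (1, D.lift y.2.2) else (D.t * D.lift y.2.2, 1)

/-- the expression which decides whether a lattice is closed -/
def lam {R : Type} [CommRing R] (a b : R) (e μ : R × R) : R :=
  (e.1 - b * e.2) * μ.2 ^ 2 - (e.1 - a * e.2) * μ.1 ^ 2

/-- CRI: closedness in coordinates. -/
def S_CRI : Prop :=
  ∀ (R : Type) [CommRing R] [IsDomain R] (D : DV R) (a b : R), IsUnit (a - b) →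
    ∀ (v c : ℕ) (y x : BQ D), Cl a b (D.par (v, y)) (D.par (c, x)) ↔
      (DV.ex x.1 x.2.1 ≤ v ∨ (DV.ex x.1 x.2.1 ≤ v + DV.ex y.1 y.2.1 ∧
        D.t ^ (DV.ex x.1 x.2.1 - v) ∣ lam a b (pvec D y) (pform D x)))

/-- SM1: number of solutions away from the branch points. -/
def S_SM1 : Prop :=
  ∀ (R : Type) [CommRing R] [IsDomain R] (D : DV R) (a b : R) (e : R × R) (v s : ℕ),
    IsUnit (2 : R) → 1 ≤ s → IsUnit (e.1 - a * e.2) → IsUnit (e.1 - b * e.2) →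
    Nat.card {x : BQ D // DV.ex x.1 x.2.1 = v + s ∧ D.t ^ s ∣ lam a b e (pform D x)} =
      D.q ^ v * Nat.card {w : D.Q 1 // w ^ 2 = D.red 1 ((e.1 - a * e.2) * (e.1 - b * e.2))}

/-- SM2: number of solutions over a branch point. -/
def S_SM2 : Prop :=
  ∀ (R : Type) [CommRing R] [IsDomain R] (D : DV R) (a b : R) (z0 : R) (v s j : ℕ),
    IsUnit (a - b) → 1 ≤ s → s ≤ j → D.t ∣ (z0 + a) * (z0 + b) →
    Nat.card {x : D.Q j × BQ D // D.t ∣ D.lift x.1 - z0 ∧ DV.ex x.2.1 x.2.2.1 = v + s ∧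
      D.t ^ s ∣ lam a b (-(D.lift x.1), 1) (pform D x.2)} = D.q ^ (v + s - 1) * D.q ^ (j - s)

/-- number of points of the fibre product of the conics, with the points at infinity -/
noncomputable def KK (F : Type) [CommRing F] (I : Finset (Fin 4)) : ℕ :=
  2 ^ I.card + Nat.card {x : F × (Fin 4 → F) // ∀ i, if i ∈ I then
    x.2 i ^ 2 = (x.1 - ((2 * i.1 : ℕ) : F)) * (x.1 - ((2 * i.1 + 1 : ℕ) : F)) else x.2 i = 0}

/-- weight of a primitive lattice of exponent `J` -/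
def uu2 (J : ℕ) : ℤ := if J = 0 then 1 else 2

/-- weight of the stratum `(v, j, J)` -/
def wtc (K : Finset (Fin 4) → ℤ) (v j : ℕ) (J : Fin 4 → ℕ) : ℤ :=
  if j = 0 then ∏ i, (if J i ≤ v then uu2 (J i) else 0) else
    (∏ i, (if J i ≤ v then uu2 (J i) else if J i ≤ v + j then 1 else 0)) *
      K (Finset.univ.filter fun i => v < J i)

/-- SMW: the sum over the primitive lattices modulo `q - 1`. -/
def S_SMW : Prop :=
  ∀ (R : Type) [CommRing R] [IsDomain R] (D : DV R),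
    (∀ a : ℕ, 1 ≤ a → a ≤ 7 → IsUnit (a : R)) →
    ∀ (v j : ℕ) (J : Fin 4 → ℕ), (D.q - 1 : ℤ) ∣
      (Nat.card {x : BQ D × (Fin 4 → BQ D) // DV.ex x.1.1 x.1.2.1 = j ∧ ∀ i : Fin 4,
        DV.ex (x.2 i).1 (x.2 i).2.1 = J i ∧ (J i ≤ v ∨ (J i ≤ v + j ∧ D.t ^ (J i - v) ∣
          lam ((2 * i.1 : ℕ) : R) ((2 * i.1 + 1 : ℕ) : R) (pvec D x.1) (pform D (x.2 i))))} : ℤ) -
      wtc (fun I => (KK (D.Q 1) I : ℤ)) v j J

/-- the sum over the strata -/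
def chi (K : Finset (Fin 4) → ℤ) (n : ℕ) : ℤ :=
  ∑ v ∈ Finset.range (n + 1), ∑ j ∈ Finset.range (n + 1),
    ∑ c ∈ Fintype.piFinset (fun _ : Fin 4 => Finset.range (n + 1)),
      ∑ J ∈ Fintype.piFinset (fun _ : Fin 4 => Finset.range (n + 1)),
        if 2 * v + j + ∑ i, (2 * c i + J i) = n then wtc K v j J else 0

/-- GCN: the number of graded subalgebras modulo `q - 1`. -/
def S_GCN : Prop :=
  ∀ (R : Type) [CommRing R] [IsDomain R] (D : DV R),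
    (∀ a : ℕ, 1 ≤ a → a ≤ 7 → IsUnit (a : R)) → ∀ n,
      (D.q - 1 : ℤ) ∣ (gcount D n : ℤ) - chi (fun I => (KK (D.Q 1) I : ℤ)) n

/-- KKI: the limit of the numbers of points. -/
def S_KKI : Prop :=
  ∀ (ℓ p : ℕ) [Fact ℓ.Prime] [Fact p.Prime], 11 ≤ p → p ≠ ℓ → ∃ D1 : ℕ, 1 ≤ D1 ∧
    ∀ t f : ℕ, 1 ≤ f → D1 * ℓ ^ t ∣ f →
      (ℓ : ℤ) ^ t ∣ (p : ℤ) ^ f - 1 ∧ ∀ I : Finset (Fin 4),
        (ℓ : ℤ) ^ t ∣ (KK (GaloisField p f) I : ℤ) - 2 ^ I.card * (2 - (I.card : ℤ))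

/-- the limits of the `KK` -/
def KS (I : Finset (Fin 4)) : ℤ := 2 ^ I.card * (2 - (I.card : ℤ))

/-- generating function of the primitive lattices -/
noncomputable def SN (x : ℝ) (N : ℕ) : ℝ := ∑ J ∈ Finset.range (N + 1), (uu2 J : ℝ) * x ^ J

/-- closed form of the generating function -/
noncomputable def FF (x : ℝ) : ℝ :=
  ((1 - x ^ 2)⁻¹) ^ 4 * ∑' v : ℕ, x ^ (2 * v) * (SN x v ^ 4 +
    ∑' j : ℕ, x ^ (j + 1) * (SN x (v + j + 1) ^ 3 * (4 * SN x v - 2 * SN x (v + j + 1))))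

/-- PO1: summation over the strata. -/
def S_PO1 : Prop :=
  ∀ x : ℝ, 0 < x → x < 1 → HasSum (fun n => (chi KS n : ℝ) * x ^ n) (FF x)

/-- PO3: the limit at `1`. -/
def S_PO3 : Prop :=
  Tendsto (fun x : ℝ => (1 - x) ^ 10 * FF x) (𝓝[<] 1) (𝓝 0)

/-- POL: the order of the pole at `1`. -/
def S_POL : Prop :=
  (∀ x : ℝ, 0 < x → x < 1 → Summable (fun n => (chi KS n : ℝ) * x ^ n)) ∧
  Tendsto (fun x : ℝ => (1 - x) ^ 10 * ∑' n, (chi KS n : ℝ) * x ^ n) (𝓝[<] 1) (𝓝 0)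

/-- the theorem -/
def S_FIN : Prop :=
  ∀ N D : ℚ[X], IsTopZeta c10 N D → N = 0 ∨ N.natDegree + 10 < D.natDegree

end Pool.Agent.T2h77U
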