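import Pool.Agent.H341R2.WeilSharp
import Pool.Agent.T2h77U.Stm2

/-! Statements, part 3: character sums. -/

namespace Pool.Agent.T2h77U

open Polynomial

/-- TPC: the top coefficient of the `L`-polynomial. -/
def S_TPC : Prop :=
  ∀ (F : Type) [Field F] [Fintype F] [DecidableEq F], ringChar F ≠ 2 →
    ∀ (d : ℕ) (b : Fin d → F), Even d → 2 ≤ d → Function.Injective b →
      (H341R2.Sharp.A (∏ j, (X - C (b j))) (d - 1)).natAbs = (Fintype.card F) ^ ((d - 2) / 2)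

/-- PER: linear recurrences modulo powers of a prime. -/
def S_PER : Prop :=
  ∀ (ℓ : ℕ) [Fact ℓ.Prime] (n : ℕ) (a : Fin (n + 1) → ℤ), ¬ (ℓ : ℤ) ∣ a 0 →
    ∃ D1 : ℕ, 1 ≤ D1 ∧ ∀ s : ℕ → ℤ, (∀ k, s (k + (n + 1)) = ∑ i, a i * s (k + i)) →
      ∀ t f k : ℕ, D1 * ℓ ^ t ∣ f → (ℓ : ℤ) ^ t ∣ s (k + f) - s k

end Pool.Agent.T2h77U
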