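import Pool.Agent.T2h77U.Stm2

/-! Uniform rationality: assembly. -/

namespace Pool.Agent.T2h77U

open Polynomial Filter Topology Pool.Agent.H260TZ

/-- index set: primes and degrees -/
abbrev II : Type := {p : ℕ // p.Prime} × ℕ

instance (i : II) : Fact (i.1 : ℕ).Prime := ⟨i.1.2⟩

/-- residue fields -/
abbrev kfam (i : II) : Type := GaloisField (i.1 : ℕ) (i.2 + 1)

/-- rings -/
abbrev Ofam (i : II) : Type := WittVector (i.1 : ℕ) (kfam i)

/-- indices of the polynomials -/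
abbrev TT (d : ℕ) : Type := Option (Fin d × Fin d × Fin d)

/-- the polynomials -/
noncomputable def ggp {d : ℕ} (c : Fin d → Fin d → Fin d → ℤ) :
    TT d → MvPolynomial (Fin (d * d)) ℤ
  | none => (xm d).det
  | some t => gpol c t.1 t.2.1 t.2.2

lemma DenP_map (q : ℕ) (L : List (ℤ × ℕ)) :
    (DenK (q : ℚ) L).map (algebraMap ℚ ℝ) = DenP (q : ℝ) L := by
  unfold DenK DenP
  rw [map_list_prod, List.map_map]
  congr 1
  apply List.map_congr_left
  intro ab _
  simp

theorem ura (hG : S_GOO) (hC : S_CEL) (hA : S_GRA) (hL : S_LAT) (hW : S_WIT) : S_UR := by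
  classical
  intro d c
  choose Hc hHc using fun i : II => hW (i.1 : ℕ) (i.2 + 1) (Nat.succ_ne_zero _)
  set eT : TT d ≃ Fin (Fintype.card (TT d)) := Fintype.equivFin (TT d) with heT
  obtain ⟨D0, hD0⟩ := hC II Ofam kfam Hc (d * d) (Fintype.card (TT d))
    (fun a => ggp c (eT.symm a))
  refine ⟨D0, fun p hp hpD => ?_⟩
  have hpp : p.Prime := hp.out
  set e : ℕ → II := fun f => (⟨p, hpp⟩, f) with he
  obtain ⟨r, emb, L, Z, hZg, hZ⟩ := hD0 ℕ e (by
      intro i j h1 h2 h3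
      have h4 : (p : ℕ) ∣ j := (CharP.cast_eq_zero_iff (GaloisField p (i + 1)) p j).mp h3
      have := Nat.le_of_dvd h1 h4
      omega) (by
      intro z
      exact ⟨padicValInt p z, fun i => hHc (e i) z⟩)
  set e0 : Fin r := emb (eT none) with he0
  -- the good family
  obtain ⟨g1, g2, g3, g4, g5, g6, g7, g8⟩ := hG ℕ (fun i => kfam (e i))
  have hle : ∀ a b : Fin r, Good (fun i => kfam (e i))
      (fun i => {ρ : Fin r → ℕ × kfam (e i) | (ρ a).1 ≤ (ρ b).1}) := by
    intro a b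
    have := g8 (Fin r) (Pi.single a 1) (Pi.single b 1) 0 0
    refine (congrArg (Good _) ?_).mp this
    funext i
    ext ρ
    simp [Pi.single_apply]
  set Zp : Rel (fun i => kfam (e i)) (Fin r) := fun i =>
    ⋂ b : Bool, (if b then Z i ∩ {τ | (τ e0).2 ≠ 0} else
      ⋂ t : Fin d × Fin d × Fin d, ({τ : Fin r → ℕ × kfam (e i) | (τ (emb (eT (some t)))).2 = 0} ∪
        {τ | (τ e0).1 ≤ (τ (emb (eT (some t)))).1})) with hZp
  have hinter : ∀ R1 R2 : Rel (fun i => kfam (e i)) (Fin r), Good _ R1 → Good _ R2 →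
      Good (fun i => kfam (e i)) (fun i => R1 i ∩ R2 i) := by
    intro R1 R2 h1 h2
    have := g2 (Fin r) Bool (fun b => if b then R1 else R2) (by
      intro b; cases b
      · simpa using h2
      · simpa using h1)
    refine (congrArg (Good _) ?_).mp this
    funext i
    ext ρ
    simp [Set.mem_iInter, Bool.forall_bool, and_comm]
  have hunion : ∀ R1 R2 : Rel (fun i => kfam (e i)) (Fin r), Good _ R1 → Good _ R2 →
      Good (fun i => kfam (e i)) (fun i => R1 i ∪ R2 i) := by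
    intro R1 R2 h1 h2
    have := g3 (Fin r) Bool (fun b => if b then R1 else R2) (by
      intro b; cases b
      · simpa using h2
      · simpa using h1)
    refine (congrArg (Good _) ?_).mp this
    funext i
    ext ρ
    simp [Set.mem_iUnion, Bool.exists_bool, or_comm]
  have hZpg : Good (fun i => kfam (e i)) Zp := by
    have k1 : Good (fun i => kfam (e i))
        (fun i => {τ : Fin r → ℕ × kfam (e i) | (τ e0).2 ≠ 0}) :=
      g6 (Fin r) (fun i => {a | a e0 ≠ 0})
    have k2 : ∀ t : Fin d × Fin d × Fin d, Good (fun i => kfam (e i))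
        (fun i => ({τ : Fin r → ℕ × kfam (e i) | (τ (emb (eT (some t)))).2 = 0} ∪
        {τ | (τ e0).1 ≤ (τ (emb (eT (some t)))).1})) := fun t =>
      hunion _ _ (g6 (Fin r) (fun i => {a | a (emb (eT (some t))) = 0})) (hle _ _)
    have k3 := hinter _ _ (hinter Z _ hZg k1) (g2 (Fin r) _ _ k2)
    refine (congrArg (Good _) ?_).mp k3
    funext i
    ext ρ
    simp only [hZp, Set.mem_iInter, Bool.forall_bool, Set.mem_inter_iff]
    simp only [Bool.false_eq_true, if_false, if_true, Set.mem_iInter, Set.mem_inter_iff]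
    tauto
  have hZpmem : ∀ i (τ : Fin r → ℕ × kfam (e i)), τ ∈ Zp i ↔ (τ ∈ Z i ∧ (τ e0).2 ≠ 0) ∧
      ∀ t : Fin d × Fin d × Fin d, (τ (emb (eT (some t)))).2 = 0 ∨
        (τ e0).1 ≤ (τ (emb (eT (some t)))).1 := by
    intro i τ
    simp only [hZp, Set.mem_iInter, Bool.forall_bool]
    simp only [Bool.false_eq_true, if_false, if_true, Set.mem_iInter, Set.mem_inter_iff,
      Set.mem_union, Set.mem_setOf_eq]
    tauto
  -- the weights
  set M : (Fin r → ℕ) →+ ℕ := Pi.evalAddMonoidHom _ e0 with hM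
  set A : (Fin r → ℕ) →+ ℤ :=
    { toFun := fun γ => (d : ℤ) * (γ e0 : ℤ) - ∑ l ∈ L, (γ l : ℤ)
      map_zero' := by simp
      map_add' := by
        intro x y
        simp only [Pi.add_apply, Nat.cast_add, Finset.sum_add_distrib]
        ring } with hAdef
  obtain ⟨L', B', hβ', hgra⟩ := hA ℕ (fun i => kfam (e i)) r Zp hZpg A M
  refine ⟨L', B', hβ', fun f hf => ?_⟩
  obtain ⟨i, rfl⟩ : ∃ i, f = i + 1 := ⟨f - 1, by omega⟩
  have hcard : Nat.card (GaloisField p (i + 1)) = p ^ (i + 1) :=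
    GaloisField.card p (i + 1) (Nat.succ_ne_zero _)
  obtain ⟨l1, l2, l3, l4⟩ := hL (Ofam (e i)) (kfam (e i)) (Hc (e i)) d c
  have hcard' : Nat.card (kfam (e i)) = p ^ (i + 1) := hcard
  rw [hcard'] at l1 l2 l4
  refine ⟨l1, l2, ?_⟩
  set q : ℕ := p ^ (i + 1) with hq
  have hq0 : (q : ℝ) ≠ 0 := by
    have : 0 < q := pow_pos hpp.pos _
    exact_mod_cast this.ne'
  set gl : ℕ := Nat.card (GL (Fin d) (kfam (e i))) with hgl
  have hgl0 : (gl : ℝ) ≠ 0 := by
    have : 0 < gl := Nat.card_pos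
    exact_mod_cast this.ne'
  -- the sums
  have hsum : ∀ n, HasSum (fun τ : {τ : Fin r → ℕ × kfam (e i) //
      τ ∈ Zp i ∧ M (fun j => (τ j).1) = n} => (Nat.card (kfam (e i)) : ℝ) ^ (A fun j => (τ.1 j).1))
      ((acount c (Ofam (e i)) q n : ℝ) * gl) := by
    intro n
    set Qn : Set (Fin (Fintype.card (TT d)) → ℕ × kfam (e i)) :=
      {τ | (τ (eT none)).2 ≠ 0 ∧ (τ (eT none)).1 = n ∧
        ∀ t : Fin d × Fin d × Fin d, (τ (eT (some t))).2 = 0 ∨ n ≤ (τ (eT (some t))).1} with hQn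
    have hY : {x : Fin (d * d) → Ofam (e i) | (fun j => (Hc (e i)).rv
        (MvPolynomial.aeval x (ggp c (eT.symm j)))) ∈ Qn} = YY (Hc (e i)) c n := by
      ext x
      simp only [hQn, Set.mem_setOf_eq, Equiv.symm_apply_apply, YY, HF.rv, ggp, Prod.forall]
    have h5 := (hZ i).2 Qn (n + 1) (by
      intro x x' hxx
      have h6 := l3 n x x' hxx
      rw [← hY] at h6
      exact h6)
    rw [hY] at h5
    have h7 := h5.mul_left ((q : ℝ) ^ (d * n) * (q : ℝ) ^ (d * d))
    have hval : (q : ℝ) ^ (d * n) * (q : ℝ) ^ (d * d) * ((ncl (Hc (e i)) (n + 1)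
        (YY (Hc (e i)) c n) : ℝ) / (Nat.card (kfam (e i)) : ℝ) ^ (d * d * (n + 1))) =
        (acount c (Ofam (e i)) q n : ℝ) * gl := by
      have h8 : (acount c (Ofam (e i)) q n : ℝ) * gl * (q : ℝ) ^ (d * d * n) =
          (q : ℝ) ^ (d * n) * (ncl (Hc (e i)) (n + 1) (YY (Hc (e i)) c n) : ℝ) := by
        exact_mod_cast l4 n
      rw [hcard']
      have h9 : ((p ^ (i + 1) : ℕ) : ℝ) = (q : ℝ) := rfl
      rw [h9, mul_add, mul_one, pow_add]
      field_simp
      linarith [h8]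
    rw [hval] at h7
    have hiff : ∀ τ : Fin r → ℕ × kfam (e i), (τ ∈ Z i ∧ (fun j => τ (emb j)) ∈ Qn) ↔
        (τ ∈ Zp i ∧ M (fun j => (τ j).1) = n) := by
      intro τ
      rw [hZpmem]
      simp only [hQn, Set.mem_setOf_eq, hM, Pi.evalAddMonoidHom_apply]
      constructor
      · rintro ⟨a1, a2, a3, a4⟩
        refine ⟨⟨⟨a1, a2⟩, fun t => ?_⟩, a3⟩
        rcases a4 t with h | h
        · exact Or.inl h
        · right; rw [a3]; exact h
      · rintro ⟨⟨⟨a1, a2⟩, a4⟩, a3⟩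
        refine ⟨a1, a2, a3, fun t => ?_⟩
        rcases a4 t with h | h
        · exact Or.inl h
        · right; rw [a3] at h; exact h
    rw [← (Equiv.subtypeEquivRight hiff).hasSum_iff]
    refine h7.congr_fun ?_
    rintro ⟨τ, hτ⟩
    have hn : (τ e0).1 = n := ((hiff τ).mp hτ).2
    simp only [Function.comp_apply, Equiv.subtypeEquivRight_apply]
    show _ = _
    rw [hcard']
    have hAv : (A fun j => (τ j).1) = ((d * n : ℕ) : ℤ) + ((d * d : ℕ) : ℤ) -
        ((d * d + ∑ l ∈ L, (τ l).1 : ℕ) : ℤ) := by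
      show (d : ℤ) * ((τ e0).1 : ℤ) - ∑ l ∈ L, ((τ l).1 : ℤ) = _
      rw [hn]
      push_cast
      ring
    rw [hAv, zpow_sub₀ hq0, zpow_add₀ hq0, zpow_natCast, zpow_natCast, zpow_natCast, div_eq_mul_inv]
  have hmk : (PowerSeries.mk (fun n => ∑' τ : {τ : Fin r → ℕ × kfam (e i) //
      τ ∈ Zp i ∧ M (fun j => (τ j).1) = n}, (Nat.card (kfam (e i)) : ℝ) ^ (A fun j => (τ.1 j).1)))
      = PowerSeries.C (gl : ℝ) * (PowerSeries.mk (fun n =>
        (acount c (Ofam (e i)) q n : ℚ))).map (algebraMap ℚ ℝ) := by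
    ext n
    rw [PowerSeries.coeff_mk, (hsum n).tsum_eq, PowerSeries.coeff_C_mul, PowerSeries.coeff_map,
      PowerSeries.coeff_mk, mul_comm]
    simp
  intro n hn
  have h10 := hgra i (fun n => (hsum n).summable) n hn
  rw [hmk, hcard'] at h10
  have h11 : DenP ((p ^ (i + 1) : ℕ) : ℝ) L' * (PowerSeries.C (gl : ℝ) *
      (PowerSeries.mk (fun n => (acount c (Ofam (e i)) q n : ℚ))).map (algebraMap ℚ ℝ)) =
      PowerSeries.C (gl : ℝ) * (DenK ((q : ℕ) : ℚ) L' * PowerSeries.mk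
        (fun n => (acount c (Ofam (e i)) q n : ℚ))).map (algebraMap ℚ ℝ) := by
    rw [map_mul, ← DenP_map]
    ring
  rw [h11, PowerSeries.coeff_C_mul, PowerSeries.coeff_map] at h10
  have h12 := (mul_eq_zero.mp h10).resolve_left hgl0
  exact (map_eq_zero_iff _ (algebraMap ℚ ℝ).injective).mp h12

end Pool.Agent.T2h77U
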